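import Pool.Agent.Lib.TN.SpecW

/-!
MP_00e23e_nt, directory Lib/TN, part W, module Kas: the equation y^p - y = s in a finite extension of ZMod p.
-/

namespace Pool.Agent.Lib.TN

open Polynomial MP72e2e6

/-- the additive map y ↦ y^p - y -/
private noncomputable def Kas_T (p : ℕ) [Fact p.Prime] (K : Type) [Field K] [Algebra (ZMod p) K] :
    K →ₗ[ZMod p] K :=
  (FiniteField.frobeniusAlgHom (ZMod p) K).toLinearMap - LinearMap.id

private theorem Kas_T_apply (p : ℕ) [Fact p.Prime] (K : Type) [Field K] [Algebra (ZMod p) K] (y : K) :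
    Kas_T p K y = y ^ p - y := by
  rw [Kas_T, LinearMap.sub_apply, AlgHom.toLinearMap_apply, LinearMap.id_apply,
    FiniteField.coe_frobeniusAlgHom, ZMod.card]

private theorem Kas_ker (p : ℕ) [Fact p.Prime] (K : Type) [Field K] [Fintype K] [DecidableEq K]
    [Algebra (ZMod p) K] :
    (Finset.univ : Finset K).filter (fun y => y ^ p - y = 0) =
      (Finset.univ : Finset (ZMod p)).image (algebraMap (ZMod p) K) := by
  have hp : 1 < p := (Fact.out : p.Prime).one_lt
  symm
  apply Finset.eq_of_subset_of_card_le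
  · intro y hy
    obtain ⟨c, -, rfl⟩ := Finset.mem_image.mp hy
    rw [Finset.mem_filter]
    refine ⟨Finset.mem_univ _, ?_⟩
    rw [← map_pow, ZMod.pow_card, sub_self]
  · rw [Finset.card_image_of_injective _ (algebraMap (ZMod p) K).injective, Finset.card_univ, ZMod.card]
    have hne : (X ^ p - X : K[X]) ≠ 0 := FiniteField.X_pow_card_sub_X_ne_zero K hp
    have h1 : (Finset.univ : Finset K).filter (fun y => y ^ p - y = 0) ⊆ (X ^ p - X : K[X]).roots.toFinset := by
      intro y hy
      rw [Finset.mem_filter] at hy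
      rw [Multiset.mem_toFinset, Polynomial.mem_roots hne, Polynomial.IsRoot.def, Polynomial.eval_sub,
        Polynomial.eval_pow, Polynomial.eval_X]
      exact hy.2
    calc _ ≤ (X ^ p - X : K[X]).roots.toFinset.card := Finset.card_le_card h1
      _ ≤ Multiset.card (X ^ p - X : K[X]).roots := Multiset.toFinset_card_le _
      _ ≤ (X ^ p - X : K[X]).natDegree := Polynomial.card_roots' _
      _ = p := FiniteField.X_pow_card_sub_X_natDegree_eq K hp

private theorem Kas_ker_card (p : ℕ) [Fact p.Prime] (K : Type) [Field K] [Fintype K] [DecidableEq K]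
    [Algebra (ZMod p) K] :
    ((Finset.univ : Finset K).filter (fun y => y ^ p - y = 0)).card = p := by
  rw [Kas_ker, Finset.card_image_of_injective _ (algebraMap (ZMod p) K).injective, Finset.card_univ, ZMod.card]

private theorem Kas_fibre (p : ℕ) [Fact p.Prime] (K : Type) [Field K] [Fintype K] [DecidableEq K]
    [Algebra (ZMod p) K] (y₀ : K) :
    ((Finset.univ : Finset K).filter (fun y => y ^ p - y = y₀ ^ p - y₀)).card = p := by
  refine (Finset.card_bij (fun y _ => y - y₀) ?_ ?_ ?_).trans (Kas_ker_card p K)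
  · intro y hy
    rw [Finset.mem_filter] at hy ⊢
    refine ⟨Finset.mem_univ _, ?_⟩
    rw [← Kas_T_apply, map_sub, Kas_T_apply, Kas_T_apply, hy.2, sub_self]
  · intro a _ b _ h
    exact sub_left_injective h
  · intro b hb
    rw [Finset.mem_filter] at hb
    refine ⟨b + y₀, ?_, by ring⟩
    rw [Finset.mem_filter]
    refine ⟨Finset.mem_univ _, ?_⟩
    rw [← Kas_T_apply, map_add, Kas_T_apply, Kas_T_apply, hb.2, zero_add]

private theorem Kas_finrank_ker (p : ℕ) [Fact p.Prime] (K : Type) [Field K] [Fintype K] [DecidableEq K]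
    [Algebra (ZMod p) K] : Module.finrank (ZMod p) (LinearMap.ker (Kas_T p K)) = 1 := by
  have h : LinearMap.ker (Kas_T p K) = Submodule.span (ZMod p) {(1 : K)} := by
    ext y
    rw [LinearMap.mem_ker, Submodule.mem_span_singleton, Kas_T_apply]
    constructor
    · intro hy
      have hm : y ∈ (Finset.univ : Finset K).filter (fun y => y ^ p - y = 0) :=
        Finset.mem_filter.mpr ⟨Finset.mem_univ _, hy⟩
      rw [Kas_ker] at hm
      obtain ⟨c, -, hc⟩ := Finset.mem_image.mp hm
      exact ⟨c, by rw [← hc, Algebra.algebraMap_eq_smul_one]⟩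
    · rintro ⟨c, rfl⟩
      rw [← Algebra.algebraMap_eq_smul_one, ← map_pow, ZMod.pow_card, sub_self]
  rw [h]
  exact finrank_span_singleton one_ne_zero

private theorem Kas_range (p : ℕ) [Fact p.Prime] (K : Type) [Field K] [Fintype K] [DecidableEq K]
    [Algebra (ZMod p) K] : LinearMap.range (Kas_T p K) = LinearMap.ker (Algebra.trace (ZMod p) K) := by
  have hle : LinearMap.range (Kas_T p K) ≤ LinearMap.ker (Algebra.trace (ZMod p) K) := by
    rintro _ ⟨y, rfl⟩
    rw [LinearMap.mem_ker, Kas_T_apply, map_sub, sub_eq_zero]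
    have h := Algebra.trace_eq_of_algEquiv (FiniteField.frobeniusAlgEquivOfAlgebraic (ZMod p) K) y
    rw [FiniteField.coe_frobeniusAlgEquivOfAlgebraic, ZMod.card] at h
    exact h
  apply Submodule.eq_of_le_of_finrank_eq hle
  have h1 := LinearMap.finrank_range_add_finrank_ker (Kas_T p K)
  have h2 := LinearMap.finrank_range_add_finrank_ker (Algebra.trace (ZMod p) K)
  have h3 : Module.finrank (ZMod p) (LinearMap.range (Algebra.trace (ZMod p) K)) = 1 := by
    rw [LinearMap.range_eq_top.mpr (Algebra.trace_surjective (ZMod p) K), finrank_top, Module.finrank_self]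
  rw [Kas_finrank_ker] at h1
  omega

theorem tKas : KasStmt := by
  intro p _ K _ _ _ _ s
  have hsum : ∀ t : ZMod p, (∑ lam : ZMod p, (ZMod.stdAddChar (lam * t) : ℂ)) = if t = 0 then (p : ℂ) else 0 := by
    intro t
    rw [AddChar.sum_mulShift t (ZMod.isPrimitive_stdAddChar p)]
    split_ifs
    · rw [ZMod.card]
    · simp
  rw [hsum]
  split_ifs with h
  · have hs : s ∈ LinearMap.range (Kas_T p K) := by
      rw [Kas_range, LinearMap.mem_ker]
      exact h
    obtain ⟨y₀, rfl⟩ := hs
    rw [Kas_T_apply, Kas_fibre]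
  · rw [Nat.cast_eq_zero, Finset.card_eq_zero, Finset.filter_eq_empty_iff]
    intro y _ hy
    apply h
    have hs : s ∈ LinearMap.range (Kas_T p K) := ⟨y, by rw [Kas_T_apply, hy]⟩
    rw [Kas_range, LinearMap.mem_ker] at hs
    exact hs

end Pool.Agent.Lib.TN
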