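import Pool.Agent.Lib.TN.SpecW

/-!
MP_00e23e_nt, Lib/TN, module Kav: the sums over the monic polynomials of degree 0, 1, 2 and at least 3.
-/

namespace Pool.Agent.Lib.TN

open Polynomial MP72e2e6

private lemma Kav_zero (p : ℕ) [Fact p.Prime] (lam b : ZMod p) : avC (phw p lam b) 0 = 1 := by
  have h1 : mon (ZMod p) 0 = {1} := by
    ext h
    rw [mem_mon, Finset.mem_singleton]
    constructor
    · rintro ⟨h1, h2⟩
      exact (Monic.natDegree_eq_zero h1).1 h2
    · rintro rfl
      exact ⟨monic_one, natDegree_one⟩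
  rw [avC, h1, Finset.sum_singleton, phw, if_neg (by simp)]
  simp [nextCoeff, coeff_one]

private lemma Kav_one (p : ℕ) [Fact p.Prime] (lam b : ZMod p) :
    avC (phw p lam b) 1 =
      ∑ z ∈ (Finset.univ : Finset (ZMod p)).erase 0, (ZMod.stdAddChar (lam * (z + b / z)) : ℂ) := by
  have h1 : avC (phw p lam b) 1 = ∑ z : ZMod p, phw p lam b (X - C z) := by
    rw [avC]
    symm
    refine Finset.sum_nbij' (fun z => X - C z) (fun h => -h.coeff 0) ?_ ?_ ?_ ?_ ?_
    · intro z _
      rw [mem_mon]
      exact ⟨monic_X_sub_C z, natDegree_X_sub_C z⟩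
    · intro h _
      exact Finset.mem_univ _
    · intro z _
      simp
    · intro h hh
      rw [mem_mon] at hh
      have h2 := hh.1.eq_X_add_C hh.2
      conv_rhs => rw [h2]
      simp
    · intro z _
      rfl
  rw [h1, ← Finset.add_sum_erase _ _ (Finset.mem_univ (0 : ZMod p))]
  have h2 : phw p lam b (X - C 0) = 0 := by
    rw [phw, if_pos (by simp)]
  rw [h2, zero_add]
  refine Finset.sum_congr rfl fun z hz => ?_
  have hz0 : z ≠ 0 := Finset.ne_of_mem_erase hz
  have e0 : (X - C z).coeff 0 = -z := by simp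
  have e1 : (X - C z).coeff 1 = 1 := by simp
  rw [phw, e0, if_neg (neg_ne_zero.2 hz0), e1, nextCoeff_X_sub_C]
  congr 2
  rw [neg_neg, one_div, inv_neg, mul_neg, sub_neg_eq_add, div_eq_mul_inv]

private lemma Kav_two (p : ℕ) [Fact p.Prime] (lam b : ZMod p) (hlam : lam ≠ 0) (hb : b ≠ 0) :
    avC (phw p lam b) 2 = p := by
  have c0 : ∀ u v : ZMod p, (X ^ 2 + (C u * X + C v)).coeff 0 = v := by
    intro u v
    simp
  have c1 : ∀ u v : ZMod p, (X ^ 2 + (C u * X + C v)).coeff 1 = u := by
    intro u v
    simp [coeff_X_pow]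
  have hdeg : ∀ u v : ZMod p, (C u * X + C v).degree < (X ^ 2 : (ZMod p)[X]).degree := by
    intro u v
    rw [degree_X_pow]
    exact lt_of_le_of_lt degree_linear_le (by norm_num)
  have hmon : ∀ u v : ZMod p, (X ^ 2 + (C u * X + C v)).Monic :=
    fun u v => (monic_X_pow 2).add_of_left (hdeg u v)
  have hnd : ∀ u v : ZMod p, (X ^ 2 + (C u * X + C v)).natDegree = 2 := by
    intro u v
    have h : (X ^ 2 + (C u * X + C v)).degree = 2 := by
      rw [degree_add_eq_left_of_degree_lt (hdeg u v), degree_X_pow]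
      rfl
    exact natDegree_eq_of_degree_eq_some h
  have h1 : avC (phw p lam b) 2 = ∑ w : ZMod p × ZMod p, phw p lam b (X ^ 2 + (C w.2 * X + C w.1)) := by
    rw [avC]
    symm
    refine Finset.sum_nbij' (fun w => X ^ 2 + (C w.2 * X + C w.1)) (fun h => (h.coeff 0, h.coeff 1))
      ?_ ?_ ?_ ?_ ?_
    · intro w _
      rw [mem_mon]
      exact ⟨hmon w.2 w.1, hnd w.2 w.1⟩
    · intro h _
      exact Finset.mem_univ _
    · intro w _
      simp only [c0, c1]
    · intro h hh
      rw [mem_mon] at hh
      have h3 : h.coeff 2 = 1 := by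
        have := hh.1.coeff_natDegree
        rwa [hh.2] at this
      ext n
      rcases Nat.lt_or_ge n 3 with hn | hn
      · interval_cases n
        · simp only [c0]
        · simp only [c1]
        · rw [h3]
          simp
      · rw [coeff_eq_zero_of_natDegree_lt (by rw [hnd]; omega),
          coeff_eq_zero_of_natDegree_lt (by rw [hh.2]; omega)]
    · intro w _
      rfl
  rw [h1, Fintype.sum_prod_type]
  have h2 : ∀ v : ZMod p, ∑ u : ZMod p, phw p lam b (X ^ 2 + (C u * X + C v)) =
      if v = -b then (p : ℂ) else 0 := by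
    intro v
    by_cases hv : v = 0
    · subst hv
      rw [if_neg (by
        intro h
        exact hb (neg_eq_zero.1 h.symm))]
      refine Finset.sum_eq_zero fun u _ => ?_
      rw [phw, if_pos (c0 u 0)]
    · have h3 : ∀ u : ZMod p, phw p lam b (X ^ 2 + (C u * X + C v)) =
          ZMod.stdAddChar (u * (-lam * (1 + b / v))) := by
        intro u
        have hnc : (X ^ 2 + (C u * X + C v)).nextCoeff = u := by
          rw [nextCoeff_of_natDegree_pos (by rw [hnd]; omega), hnd]
          exact c1 u v
        rw [phw, c0, if_neg hv, c1, hnc]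
        congr 1
        field_simp
        ring
      simp only [h3]
      rw [AddChar.sum_mulShift _ (ZMod.isPrimitive_stdAddChar p)]
      have h4 : (-lam * (1 + b / v) = 0) ↔ v = -b := by
        constructor
        · intro h
          rcases mul_eq_zero.1 h with h | h
          · exact absurd (neg_eq_zero.1 h) hlam
          · have h6 : v + b = 0 := by
              have h7 : v * (1 + b / v) = v + b := by
                field_simp
              rw [← h7, h, mul_zero]
            exact eq_neg_of_add_eq_zero_left h6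
        · intro h
          rw [h, div_neg, div_self hb, add_neg_cancel, mul_zero]
      rw [ZMod.card]
      by_cases h5 : v = -b
      · rw [if_pos h5, if_pos (h4.2 h5)]
      · rw [if_neg h5, if_neg (fun h => h5 (h4.1 h))]
        simp
  simp only [h2]
  rw [Finset.sum_ite_eq' Finset.univ (-b)]
  simp

private lemma Kav_three (p : ℕ) [Fact p.Prime] (lam b : ZMod p) (hlam : lam ≠ 0) (n : ℕ) (hn : 3 ≤ n) :
    avC (phw p lam b) n = 0 := by
  have key : ∀ (u : ZMod p) (h : (ZMod p)[X]), h ∈ mon (ZMod p) n →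
      h + C u * X ^ (n - 1) ∈ mon (ZMod p) n ∧
      phw p lam b (h + C u * X ^ (n - 1)) = ZMod.stdAddChar (-(lam * u)) * phw p lam b h := by
    intro u h hh
    rw [mem_mon] at hh
    obtain ⟨hm, hd⟩ := hh
    have hlt : (C u * X ^ (n - 1)).natDegree < h.natDegree := by
      rw [hd]
      exact lt_of_le_of_lt (natDegree_C_mul_X_pow_le u (n - 1)) (by omega)
    have hdl : (C u * X ^ (n - 1)).degree < h.degree := degree_lt_degree hlt
    have hd' : (h + C u * X ^ (n - 1)).natDegree = n := by
      rw [natDegree_add_eq_left_of_natDegree_lt hlt, hd]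
    have e0 : (h + C u * X ^ (n - 1)).coeff 0 = h.coeff 0 := by
      rw [coeff_add, coeff_C_mul, coeff_X_pow, if_neg (by omega), mul_zero, add_zero]
    have e1 : (h + C u * X ^ (n - 1)).coeff 1 = h.coeff 1 := by
      rw [coeff_add, coeff_C_mul, coeff_X_pow, if_neg (by omega), mul_zero, add_zero]
    have e2 : (h + C u * X ^ (n - 1)).nextCoeff = h.nextCoeff + u := by
      rw [nextCoeff_of_natDegree_pos (by omega), nextCoeff_of_natDegree_pos (by omega), hd', hd,
        coeff_add, coeff_C_mul, coeff_X_pow, if_pos rfl, mul_one]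
    refine ⟨mem_mon.2 ⟨hm.add_of_left hdl, hd'⟩, ?_⟩
    rw [phw, phw, e0, e1, e2]
    by_cases h0 : h.coeff 0 = 0
    · rw [if_pos h0, if_pos h0, mul_zero]
    · rw [if_neg h0, if_neg h0, ← AddChar.map_add_eq_mul]
      congr 1
      ring
  have h1 : ∀ u : ZMod p, avC (phw p lam b) n = ZMod.stdAddChar (-(lam * u)) * avC (phw p lam b) n := by
    intro u
    conv_rhs => rw [avC, Finset.mul_sum]
    rw [avC]
    symm
    refine Finset.sum_nbij' (fun h => h + C u * X ^ (n - 1)) (fun h => h + C (-u) * X ^ (n - 1))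
      ?_ ?_ ?_ ?_ ?_
    · intro h hh
      exact (key u h hh).1
    · intro h hh
      exact (key (-u) h hh).1
    · intro h _
      simp
    · intro h _
      simp
    · intro h hh
      exact ((key u h hh).2).symm
  have h2 := h1 (-lam⁻¹)
  have h3 : -(lam * -lam⁻¹) = 1 := by
    rw [mul_neg, neg_neg, mul_inv_cancel₀ hlam]
  rw [h3] at h2
  have h4 : (ZMod.stdAddChar (1 : ZMod p) : ℂ) ≠ 1 := by
    intro h
    have h5 : (ZMod.stdAddChar (1 : ZMod p) : ℂ) = ZMod.stdAddChar (0 : ZMod p) := by
      rw [h, AddChar.map_zero_eq_one]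
    exact one_ne_zero (ZMod.injective_stdAddChar h5)
  have h5 : (ZMod.stdAddChar (1 : ZMod p) - 1 : ℂ) * avC (phw p lam b) n = 0 := by
    rw [sub_mul, one_mul, ← h2, sub_self]
  rcases mul_eq_zero.1 h5 with h | h
  · exact absurd (sub_eq_zero.1 h) h4
  · exact h

theorem tKav : KavStmt := by
  intro p _ lam b hlam hb
  exact ⟨Kav_zero p lam b, Kav_one p lam b, Kav_two p lam b hlam hb, Kav_three p lam b hlam⟩

end Pool.Agent.Lib.TN
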