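import Pool.Agent.Lib.TN.SpecW

/-! Module Kch: complete multiplicativity of the character phw. -/

namespace Pool.Agent.Lib.TN

open Polynomial MP72e2e6

private theorem Kch_mul (p : ℕ) [Fact p.Prime] (lam b : ZMod p) (g h : (ZMod p)[X]) (hg : g.Monic)
    (hh : h.Monic) : phw p lam b (g * h) = phw p lam b g * phw p lam b h := by
  unfold phw
  rw [mul_coeff_zero, mul_coeff_one, hg.nextCoeff_mul hh]
  by_cases h1 : g.coeff 0 = 0
  · rw [if_pos (by rw [h1, zero_mul]), if_pos h1, zero_mul]
  · by_cases h2 : h.coeff 0 = 0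
    · rw [if_pos (by rw [h2, mul_zero]), if_pos h2, mul_zero]
    · rw [if_neg (mul_ne_zero h1 h2), if_neg h1, if_neg h2, ← AddChar.map_add_eq_mul]
      congr 1
      field_simp
      ring

theorem tKch : KchStmt := by
  intro p _ lam b
  refine ⟨?_, fun g h hg hh => Kch_mul p lam b g h hg hh, ?_⟩
  · unfold phw
    have h1 : (1 : (ZMod p)[X]).coeff 0 = 1 := coeff_one_zero
    have h2 : (1 : (ZMod p)[X]).coeff 1 = 0 := by
      rw [coeff_one]
      exact if_neg (by norm_num)
    have h3 : (1 : (ZMod p)[X]).nextCoeff = 0 := by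
      rw [← C_1]
      exact nextCoeff_C_eq_zero 1
    rw [h1, h2, h3, if_neg one_ne_zero]
    simp
  · intro h
    unfold phw
    by_cases h0 : h.coeff 0 = 0
    · left
      rw [if_pos h0]
    · right
      rw [if_neg h0, ← AddChar.map_nsmul_eq_pow, nsmul_eq_mul, ZMod.natCast_self, zero_mul,
        AddChar.map_zero_eq_one]

end Pool.Agent.Lib.TN
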