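import Pool.Agent.Lib.TN.SpecW

/-!
MP_00e23e_nt, part W, module Kex: the sum over the prime powers is the Kloosterman sum of the extension.
-/

namespace Pool.Agent.Lib.TN

open Polynomial MP72e2e6

theorem tKex (h1 : StmtSuPsi.{0}) (h2 : KmiStmt) : KexStmt := by
  classical
  intro p hp lam b K _ _ hdecK _ n hn hKn
  have hpr : p.Prime := Fact.out
  have hfd : FiniteDimensional (ZMod p) K := Module.Finite.of_finite
  let PP : Finset (ZMod p)[X] := n.divisors.biUnion fun d => irr (ZMod p) d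
  have hmem : ∀ P, P ∈ PP ↔ P.Monic ∧ Irreducible P ∧ P.natDegree ∣ n := by
    intro P
    rw [Finset.mem_biUnion]
    constructor
    · rintro ⟨d, hd, hP⟩
      rw [irr, Finset.mem_filter, mem_mon] at hP
      obtain ⟨⟨h3, rfl⟩, h4⟩ := hP
      exact ⟨h3, h4, Nat.dvd_of_mem_divisors hd⟩
    · rintro ⟨h3, h4, h5⟩
      refine ⟨P.natDegree, Nat.mem_divisors.2 ⟨h5, by omega⟩, ?_⟩
      rw [irr, Finset.mem_filter, mem_mon]
      exact ⟨⟨h3, rfl⟩, h4⟩
  have hdisj : (n.divisors : Set ℕ).PairwiseDisjoint fun d => irr (ZMod p) d := by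
    intro d _ d' _ hdd
    rw [Function.onFun, Finset.disjoint_left]
    intro P hP hP'
    rw [irr, Finset.mem_filter, mem_mon] at hP hP'
    exact hdd (hP.1.2.symm.trans hP'.1.2)
  have hpsi : ∀ φ : (ZMod p)[X] → ℂ, psiC φ n =
      ∑ P ∈ PP, (P.natDegree : ℂ) * φ P ^ (n / P.natDegree) := by
    intro φ
    rw [psiC, Finset.sum_biUnion hdisj]
    refine Finset.sum_congr rfl fun d _ => Finset.sum_congr rfl fun P hP => ?_
    rw [irr, Finset.mem_filter, mem_mon] at hP
    rw [hP.1.2]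
  have hmaps : ∀ x ∈ (Finset.univ : Finset K), minpoly (ZMod p) x ∈ PP := by
    intro x _
    have hx : IsIntegral (ZMod p) x := IsIntegral.of_finite (ZMod p) x
    exact (hmem _).2 ⟨minpoly.monic hx, minpoly.irreducible hx, hKn ▸ minpoly.degree_dvd hx⟩
  have hle : ∀ P ∈ PP, (Finset.univ.filter fun x : K => minpoly (ZMod p) x = P).card ≤
      P.natDegree := by
    intro P hP
    obtain ⟨hPm, hPi, _⟩ := (hmem P).1 hP
    have h3 : (Finset.univ.filter fun x : K => minpoly (ZMod p) x = P) ⊆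
        (P.aroots K).toFinset := by
      intro x hx
      rw [Multiset.mem_toFinset, mem_aroots]
      refine ⟨hPi.ne_zero, ?_⟩
      rw [← (Finset.mem_filter.1 hx).2, minpoly.aeval]
    refine (Finset.card_le_card h3).trans ((Multiset.toFinset_card_le _).trans ?_)
    refine (card_roots' _).trans (le_of_eq ?_)
    exact natDegree_map _
  have hsum : ∑ P ∈ PP, (Finset.univ.filter fun x : K => minpoly (ZMod p) x = P).card =
      ∑ P ∈ PP, P.natDegree := by
    rw [← Finset.card_eq_sum_card_fiberwise hmaps, Finset.card_univ]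
    have h3 := (h1 (ZMod p) p hpr).2.1 n hn
    rw [hpsi] at h3
    have h4 : ((∑ P ∈ PP, P.natDegree : ℕ) : ℂ) = ((Nat.card (ZMod p) ^ n : ℕ) : ℂ) := by
      rw [Nat.cast_sum, Nat.cast_pow, ← h3]
      refine Finset.sum_congr rfl fun P _ => ?_
      rw [one_pow, mul_one]
    rw [Nat.cast_inj.1 h4, ← Nat.card_eq_fintype_card, ← hKn,
      Module.natCard_eq_pow_finrank (K := ZMod p)]
  have heq : ∀ P ∈ PP, (Finset.univ.filter fun x : K => minpoly (ZMod p) x = P).card =
      P.natDegree :=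
    (Finset.sum_eq_sum_iff_of_le hle).1 hsum
  have hfib : ∑ P ∈ PP, (P.natDegree : ℂ) * phw p lam b P ^ (n / P.natDegree) =
      ∑ x : K, phw p lam b (minpoly (ZMod p) x) ^ (n / (minpoly (ZMod p) x).natDegree) := by
    rw [← Finset.sum_fiberwise_of_maps_to hmaps]
    refine Finset.sum_congr rfl fun P hP => ?_
    rw [← heq P hP, Finset.sum_congr rfl fun x hx => by rw [(Finset.mem_filter.1 hx).2],
      Finset.sum_const, nsmul_eq_mul, heq P hP]
  rw [hpsi, hfib, klw, ← Finset.add_sum_erase _ _ (Finset.mem_univ (0 : K))]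
  have h0 : phw p lam b (minpoly (ZMod p) (0 : K)) ^
      (n / (minpoly (ZMod p) (0 : K)).natDegree) = 0 := by
    rw [minpoly.zero, phw, if_pos (coeff_X_zero), natDegree_X, Nat.div_one, zero_pow (by omega)]
  rw [h0, zero_add]
  refine Finset.sum_congr rfl fun z hz => ?_
  have hz0 : z ≠ 0 := (Finset.mem_erase.1 hz).1
  obtain ⟨h5, h6⟩ := h2 p K b z hz0
  rw [phw, if_neg h5, ← AddChar.map_nsmul_eq_pow, h6, hKn, nsmul_eq_mul]
  congr 1
  ring

end Pool.Agent.Lib.TN
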