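import Pool.Agent.Lib.TN.SpecW

/-!
MP_00e23e_nt, directory Lib/TN, module Kma: the bound for the Kloosterman sum over the prime field.
-/

namespace Pool.Agent.Lib.TN

open Polynomial MP72e2e6

theorem tKma (h1 : KreStmt) (h2 : KstStmt) (h3 : KpsStmt) : KmaStmt := by
  intro p _ lam b hp hlam hb
  have hex : ∀ l : ZMod p, ∃ al be : ℂ, l ≠ 0 → al + be = -avC (phw p l b) 1 ∧
      ∀ n, 1 ≤ n → psiC (phw p l b) n = -(al ^ n + be ^ n) := by
    intro l
    by_cases hl : l = 0
    · exact ⟨0, 0, fun h => absurd hl h⟩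
    · obtain ⟨al, be, ha, _, hc⟩ := h1 p l b hl hb
      exact ⟨al, be, fun _ => ⟨ha, hc⟩⟩
  choose al be hab using hex
  have hp0 : (0 : ℝ) < p := by exact_mod_cast (Fact.out : p.Prime).pos
  have hR : 0 < Real.sqrt p := Real.sqrt_pos.2 hp0
  have key := h3 (ZMod p × Bool) ((Finset.univ.erase (0 : ZMod p)) ×ˢ (Finset.univ : Finset Bool))
    (fun q => if q.2 then al q.1 else be q.1) (31 * (p : ℝ)) (Real.sqrt p) 6 hR (by
      intro n hn
      have e1 : ∑ i ∈ (Finset.univ.erase (0 : ZMod p)) ×ˢ (Finset.univ : Finset Bool),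
          (if i.2 then al i.1 else be i.1) ^ n =
          -∑ l ∈ Finset.univ.erase (0 : ZMod p), psiC (phw p l b) n := by
        rw [Finset.sum_product, ← Finset.sum_neg_distrib]
        refine Finset.sum_congr rfl fun l hl => ?_
        rw [Finset.mem_erase] at hl
        rw [(hab l hl.1).2 n (by omega), Fintype.sum_bool]
        simp
      rw [e1, norm_neg]
      exact h2 p b n hp hb hn)
  have k1 := key (lam, true) (by simp [hlam])
  have k2 := key (lam, false) (by simp [hlam])
  simp only [if_true, Bool.false_eq_true, if_false] at k1 k2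
  have e2 : avC (phw p lam b) 1 = -(al lam + be lam) := by
    rw [(hab lam hlam).1, neg_neg]
  rw [e2, norm_neg]
  calc ‖al lam + be lam‖ ≤ ‖al lam‖ + ‖be lam‖ := norm_add_le _ _
    _ ≤ 2 * Real.sqrt p := by linarith

end Pool.Agent.Lib.TN
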