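import Pool.Agent.Lib.TN.SpecW

namespace Pool.Agent.Lib.TN

open Polynomial MP72e2e6

private theorem Kmi_adjoin {F K : Type} [Field F] [Field K] [Algebra F K] (z : K) :
    IntermediateField.adjoin F {z⁻¹} = IntermediateField.adjoin F {z} := by
  apply le_antisymm
  · rw [IntermediateField.adjoin_le_iff, Set.singleton_subset_iff]
    exact inv_mem (IntermediateField.mem_adjoin_simple_self F z)
  · rw [IntermediateField.adjoin_le_iff, Set.singleton_subset_iff]
    have h := inv_mem (IntermediateField.mem_adjoin_simple_self F z⁻¹)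
    rwa [inv_inv] at h

private theorem Kmi_minpoly {F K : Type} [Field F] [Field K] [Algebra F K] [FiniteDimensional F K] (z : K)
    (hz : z ≠ 0) : minpoly F z⁻¹ = C ((minpoly F z).coeff 0)⁻¹ * (minpoly F z).reverse := by
  have hzi : IsIntegral F z := IsIntegral.of_finite F z
  have hzi' : IsIntegral F z⁻¹ := IsIntegral.of_finite F z⁻¹
  have h0 : (minpoly F z).coeff 0 ≠ 0 := minpoly.coeff_zero_ne_zero hzi hz
  have htr : (minpoly F z).natTrailingDegree = 0 := by
    rw [natTrailingDegree_eq_zero]
    exact Or.inr h0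
  have hdeg : (minpoly F z⁻¹).natDegree = (minpoly F z).natDegree := by
    rw [← IntermediateField.adjoin.finrank hzi', ← IntermediateField.adjoin.finrank hzi, Kmi_adjoin]
  have hlead : (minpoly F z).reverse.leadingCoeff = (minpoly F z).coeff 0 := by
    rw [reverse_leadingCoeff, trailingCoeff, htr]
  have hmon : (C ((minpoly F z).coeff 0)⁻¹ * (minpoly F z).reverse).Monic := by
    rw [Monic, leadingCoeff_mul, leadingCoeff_C, hlead, inv_mul_cancel₀ h0]
  have hroot : aeval z⁻¹ (C ((minpoly F z).coeff 0)⁻¹ * (minpoly F z).reverse) = 0 := by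
    haveI : Invertible z := invertibleOfNonzero hz
    have h1 := eval₂_reverse_eq_zero_iff (algebraMap F K) z (minpoly F z)
    rw [invOf_eq_inv] at h1
    rw [map_mul]
    have h2 : aeval z⁻¹ (minpoly F z).reverse = 0 := h1.2 (minpoly.aeval F z)
    rw [h2, mul_zero]
  refine (minpoly.unique_of_degree_le_degree_minpoly F z⁻¹ hmon hroot ?_).symm
  rw [degree_eq_natDegree (minpoly.ne_zero hzi'), hdeg]
  exact degree_le_of_natDegree_le ((natDegree_C_mul_le _ _).trans (reverse_natDegree_le _))

private theorem Kmi_next {F K : Type} [Field F] [Field K] [Algebra F K] [FiniteDimensional F K] (z : K)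
    (hz : z ≠ 0) : (minpoly F z⁻¹).nextCoeff = (minpoly F z).coeff 1 / (minpoly F z).coeff 0 := by
  have hzi : IsIntegral F z := IsIntegral.of_finite F z
  have hzi' : IsIntegral F z⁻¹ := IsIntegral.of_finite F z⁻¹
  have hdeg : (minpoly F z⁻¹).natDegree = (minpoly F z).natDegree := by
    rw [← IntermediateField.adjoin.finrank hzi', ← IntermediateField.adjoin.finrank hzi, Kmi_adjoin]
  have hpos : 0 < (minpoly F z).natDegree := minpoly.natDegree_pos hzi
  rw [nextCoeff_of_natDegree_pos (by rw [hdeg]; exact hpos), hdeg, Kmi_minpoly z hz, coeff_C_mul, coeff_reverse,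
    revAt_le (by omega)]
  have e : (minpoly F z).natDegree - ((minpoly F z).natDegree - 1) = 1 := by omega
  rw [e, div_eq_inv_mul]

theorem tKmi : KmiStmt := by
  intro p _ K _ _ _ b z hz
  haveI : FiniteDimensional (ZMod p) K := Module.Finite.of_finite
  have hzi : IsIntegral (ZMod p) z := IsIntegral.of_finite (ZMod p) z
  refine ⟨minpoly.coeff_zero_ne_zero hzi hz, ?_⟩
  have hpos : 0 < (minpoly (ZMod p) z).natDegree := minpoly.natDegree_pos hzi
  have e1 : algebraMap (ZMod p) K b / z = b • z⁻¹ := by
    rw [Algebra.smul_def, div_eq_mul_inv]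
  have e2 : Module.finrank (ZMod p) K / (minpoly (ZMod p) z).natDegree =
      Module.finrank (IntermediateField.adjoin (ZMod p) {z}) K := by
    rw [← Module.finrank_mul_finrank (ZMod p) (IntermediateField.adjoin (ZMod p) {z}) K,
      IntermediateField.adjoin.finrank hzi]
    exact Nat.mul_div_cancel_left _ hpos
  rw [e1, map_add, map_smul, trace_eq_finrank_mul_minpoly_nextCoeff, trace_eq_finrank_mul_minpoly_nextCoeff,
    Kmi_next z hz, Kmi_adjoin, e2, smul_eq_mul]
  ring

end Pool.Agent.Lib.TN
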