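import Pool.Agent.Lib.TN.SpecW
import Mathlib.Algebra.Polynomial.Derivative
import Mathlib.Algebra.Polynomial.Degree.Lemmas
import Mathlib.Algebra.CharP.Algebra
import Mathlib.FieldTheory.Finite.Basic

/-!
Module Kns (theorem tKns): the polynomial (X^p - X)^2 - 4b is monic of degree 2p and not a constant times a square.
-/

namespace Pool.Agent.Lib.TN

open Polynomial MP72e2e6

private lemma Kns_monic {K : Type} [Field K] {p : ℕ} (hp : 1 < p) :
    ((X : K[X]) ^ p - X).Monic ∧ ((X : K[X]) ^ p - X).natDegree = p := by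
  have hd : (X : K[X]).degree < ((X : K[X]) ^ p).degree := by
    rw [degree_X_pow, degree_X]
    exact_mod_cast hp
  refine ⟨(monic_X_pow p).sub_of_left hd, ?_⟩
  rw [natDegree_sub_eq_left_of_natDegree_lt]
  · exact natDegree_X_pow p
  · rw [natDegree_X, natDegree_X_pow]
    exact hp

private lemma Kns_four {p : ℕ} [Fact p.Prime] {K : Type} [Field K] [Algebra (ZMod p) K] (b : ZMod p)
    (h2 : p ≠ 2) (hb : b ≠ 0) : (2 : K) ≠ 0 ∧ (4 * algebraMap (ZMod p) K b : K) ≠ 0 := by
  have : CharP K p := (Algebra.charP_iff (ZMod p) K p).1 (ZMod.charP p)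
  have hpp : p.Prime := Fact.out
  have h2' : (2 : K) ≠ 0 := by
    intro h
    have h3 : ((2 : ℕ) : K) = 0 := by exact_mod_cast h
    rw [CharP.cast_eq_zero_iff K p] at h3
    exact h2 ((Nat.prime_dvd_prime_iff_eq hpp Nat.prime_two).1 h3)
  refine ⟨h2', ?_⟩
  have h4 : (4 : K) = 2 * 2 := by norm_num
  rw [h4]
  refine mul_ne_zero (mul_ne_zero h2' h2') ?_
  intro h
  exact hb ((map_eq_zero_iff _ (algebraMap (ZMod p) K).injective).1 h)

/-- Module Kns. -/
theorem tKns : KnsStmt := by
  intro p _ K _ _ b h2 hb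
  have hpp : p.Prime := Fact.out
  have : CharP K p := (Algebra.charP_iff (ZMod p) K p).1 (ZMod.charP p)
  obtain ⟨hm, hd⟩ := Kns_monic (K := K) hpp.one_lt
  obtain ⟨h2', h4⟩ := Kns_four (K := K) b h2 hb
  have hm2 : (((X : K[X]) ^ p - X) ^ 2).Monic := hm.pow 2
  have hd2 : (((X : K[X]) ^ p - X) ^ 2).natDegree = 2 * p := by
    rw [hm.natDegree_pow, hd]
  have hlt : (C (4 * algebraMap (ZMod p) K b) : K[X]).degree < (((X : K[X]) ^ p - X) ^ 2).degree := by
    rw [degree_eq_natDegree hm2.ne_zero, hd2]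
    refine lt_of_le_of_lt degree_C_le ?_
    have : 0 < 2 * p := by have := hpp.pos; omega
    exact_mod_cast this
  have hfm : (fw p K b).Monic := by
    unfold fw
    exact hm2.sub_of_left hlt
  have hfd : (fw p K b).natDegree = 2 * p := by
    unfold fw
    rw [natDegree_sub_C, hd2]
  refine ⟨hfm, hfd, ?_⟩
  intro x g hfg
  have hder : derivative (fw p K b) = -(C (2 : K) * ((X : K[X]) ^ p - X)) := by
    unfold fw
    rw [derivative_sub, derivative_C, derivative_pow, derivative_sub, derivative_X_pow, derivative_X,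
      CharP.cast_eq_zero K p]
    simp only [Nat.cast_ofNat, map_zero, zero_mul, zero_sub, sub_zero, map_ofNat]
    ring
  have hder2 : derivative (fw p K b) = g * (C x * (C 2 * derivative g)) := by
    rw [hfg, derivative_C_mul, derivative_pow]
    simp only [Nat.cast_ofNat, map_ofNat]
    ring
  have hdvd : g ∣ ((X : K[X]) ^ p - X) := by
    have h5 : g ∣ C (2 : K) * ((X : K[X]) ^ p - X) := by
      rw [← dvd_neg, ← hder, hder2]
      exact Dvd.intro _ rfl
    have hu : IsUnit (C (2 : K)) := isUnit_C.2 (isUnit_iff_ne_zero.2 h2')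
    exact (hu.dvd_mul_left).1 h5
  have hdvdf : g ∣ fw p K b := by
    rw [hfg]
    exact Dvd.intro (C x * g) (by ring)
  have hdvdc : g ∣ C (4 * algebraMap (ZMod p) K b) := by
    have h6 : (C (4 * algebraMap (ZMod p) K b) : K[X]) = ((X : K[X]) ^ p - X) ^ 2 - fw p K b := by
      unfold fw
      ring
    rw [h6]
    exact dvd_sub (dvd_pow hdvd two_ne_zero) hdvdf
  have hgu : IsUnit g := isUnit_of_dvd_unit hdvdc (isUnit_C.2 (isUnit_iff_ne_zero.2 h4))
  have hg0 : g.natDegree = 0 := natDegree_eq_zero_of_isUnit hgu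
  have h7 : (fw p K b).natDegree ≤ 0 := by
    rw [hfg]
    refine le_trans natDegree_mul_le ?_
    rw [natDegree_C, zero_add]
    refine le_trans natDegree_pow_le ?_
    rw [hg0]
  rw [hfd] at h7
  have := hpp.pos
  omega

end Pool.Agent.Lib.TN
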