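import Pool.Agent.Lib.TN.SpecW

/-!
MP_00e23e_nt: module Kps, power sums of complex numbers bounded by B R^n.
-/

namespace Pool.Agent.Lib.TN

open Polynomial MP72e2e6

private lemma Kps_rec {κ : Type} [Fintype κ] (u : κ → ℂ) (hu : ∀ i, ‖u i‖ = 1) (n0 : ℕ) :
    ∃ n, n0 ≤ n ∧ ∀ i, ‖u i ^ n - 1‖ ≤ 1 / 2 := by
  let x : ℕ → (κ → ℂ) := fun k i => u i ^ (n0 * k)
  have hx : ∀ k, x k ∈ Metric.closedBall (0 : κ → ℂ) 1 := by
    intro k
    rw [mem_closedBall_zero_iff, pi_norm_le_iff_of_nonneg zero_le_one]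
    intro i
    simp only [x, norm_pow, hu i, one_pow, le_refl]
  obtain ⟨a, -, φ, hφ, hlim⟩ := (isCompact_closedBall (0 : κ → ℂ) 1).tendsto_subseq hx
  have hc : CauchySeq (x ∘ φ) := hlim.cauchySeq
  obtain ⟨N, hN⟩ := Metric.cauchySeq_iff.1 hc (1 / 2) (by norm_num)
  have hd := hN (N + 1) (by omega) N le_rfl
  have hlt : φ N < φ (N + 1) := hφ (Nat.lt_succ_self N)
  refine ⟨n0 * (φ (N + 1) - φ N), Nat.le_mul_of_pos_right _ (by omega), ?_⟩
  intro i
  have h1 : ‖u i ^ (n0 * φ (N + 1)) - u i ^ (n0 * φ N)‖ ≤ 1 / 2 := by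
    have := dist_le_pi_dist ((x ∘ φ) (N + 1)) ((x ∘ φ) N) i
    rw [dist_eq_norm] at this
    exact le_trans this hd.le
  have h2 : u i ^ (n0 * φ (N + 1)) - u i ^ (n0 * φ N) = u i ^ (n0 * φ N) * (u i ^ (n0 * (φ (N + 1) - φ N)) - 1) := by
    rw [mul_sub, mul_one, ← pow_add, ← mul_add]
    congr 3
    omega
  rw [h2, norm_mul, norm_pow, hu i, one_pow, one_mul] at h1
  exact h1

theorem tKps : KpsStmt := by
  intro ι s z B R n1 hR hb i0 hi0
  by_contra hcon
  rw [not_le] at hcon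
  have hz0 : 0 < ‖z i0‖ := lt_trans hR hcon
  -- the directions
  let u : s → ℂ := fun i => if z i = 0 then 1 else z i / (‖z i‖ : ℂ)
  have hu : ∀ i, ‖u i‖ = 1 := by
    intro i
    simp only [u]
    split_ifs with h
    · exact norm_one
    · rw [norm_div, Complex.norm_real, norm_norm]
      exact div_self (norm_ne_zero_iff.2 h)
  have hz : ∀ i : s, z i = (‖z i‖ : ℂ) * u i := by
    intro i
    simp only [u]
    split_ifs with h
    · rw [h]; simp
    · rw [mul_div_cancel₀]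
      exact_mod_cast norm_ne_zero_iff.2 h
  have hratio : 1 < ‖z i0‖ / R := (one_lt_div hR).2 hcon
  have htend := tendsto_pow_atTop_atTop_of_one_lt hratio
  obtain ⟨N, hN⟩ := Filter.eventually_atTop.1 (htend.eventually_gt_atTop (2 * B))
  obtain ⟨n, hn, hun⟩ := Kps_rec u hu (max n1 N)
  have hn1 : n1 ≤ n := le_trans (le_max_left _ _) hn
  have hnN : N ≤ n := le_trans (le_max_right _ _) hn
  have hre : ∀ i : s, ‖z i‖ ^ n / 2 ≤ (z i ^ n).re := by
    intro i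
    have hr : (1 : ℝ) / 2 ≤ (u i ^ n).re := by
      have a1 : |(u i ^ n - 1).re| ≤ 1 / 2 := le_trans (Complex.abs_re_le_norm _) (hun i)
      rw [Complex.sub_re, Complex.one_re] at a1
      have := (abs_le.1 a1).1
      linarith
    have e : (z i ^ n).re = ‖z i‖ ^ n * (u i ^ n).re := by
      conv_lhs => rw [hz i]
      rw [mul_pow, ← Complex.ofReal_pow, Complex.re_ofReal_mul]
    rw [e]
    have : (0 : ℝ) ≤ ‖z i‖ ^ n := by positivity
    nlinarith
  have hsum : ‖z i0‖ ^ n / 2 ≤ ‖∑ i ∈ s, z i ^ n‖ := by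
    have a1 : (∑ i ∈ s, z i ^ n).re = ∑ i : s, (z i ^ n).re := by
      rw [Complex.re_sum, ← Finset.sum_coe_sort s (fun i => (z i ^ n).re)]
    have a2 : (z (⟨i0, hi0⟩ : s) ^ n).re ≤ ∑ i : s, (z i ^ n).re := by
      apply Finset.single_le_sum (f := fun i : s => (z i ^ n).re) _ (Finset.mem_univ (⟨i0, hi0⟩ : s))
      intro i _
      exact le_trans (by positivity) (hre i)
    calc ‖z i0‖ ^ n / 2 ≤ (z (⟨i0, hi0⟩ : s) ^ n).re := hre ⟨i0, hi0⟩
      _ ≤ ∑ i : s, (z i ^ n).re := a2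
      _ = (∑ i ∈ s, z i ^ n).re := a1.symm
      _ ≤ ‖∑ i ∈ s, z i ^ n‖ := Complex.re_le_norm _
  have hfin : ‖z i0‖ ^ n ≤ 2 * B * R ^ n := by
    have := hb n hn1
    linarith
  have hlast := hN n hnN
  rw [div_pow] at hlast
  have hRn : 0 < R ^ n := by positivity
  rw [lt_div_iff₀ hRn] at hlast
  linarith

end Pool.Agent.Lib.TN
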