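import Pool.Agent.Lib.TN.SpecW

/-!
MP_00e23e_nt, directory Lib/TN, part W, module Kpt: counting points on the curve.
-/

namespace Pool.Agent.Lib.TN

open Polynomial MP72e2e6

private lemma Kpt_eval (p : ℕ) [Fact p.Prime] (K : Type) [Field K] [Algebra (ZMod p) K] (b : ZMod p) (y : K) :
    (fw p K b).eval y = (y ^ p - y) ^ 2 - 4 * algebraMap (ZMod p) K b := by
  unfold fw
  simp

/-- Module Kpt: counting points. -/
theorem tKpt (h1 : KquStmt) (h2 : KasStmt) : KptStmt := by
  intro p _ K _ _ _ _ b hp hb
  classical
  set β : K := algebraMap (ZMod p) K b with hβ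
  have e1 : (∑ y : K, quadraticChar K ((fw p K b).eval y) : ℤ) =
      ∑ y : K, (((((Finset.univ : Finset K).erase 0).filter (fun z => z + β / z = y ^ p - y)).card : ℤ) - 1) := by
    apply Finset.sum_congr rfl
    intro y _
    rw [Kpt_eval, h1 p K b (y ^ p - y) hp hb]
    ring
  have e2 : (∑ y : K, ((((Finset.univ : Finset K).erase 0).filter (fun z => z + β / z = y ^ p - y)).card : ℤ)) =
      ∑ z ∈ (Finset.univ : Finset K).erase 0,
        (((Finset.univ : Finset K).filter (fun y => y ^ p - y = z + β / z)).card : ℤ) := by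
    have e3 : ∀ y : K, ((((Finset.univ : Finset K).erase 0).filter (fun z => z + β / z = y ^ p - y)).card : ℤ) =
        ∑ z ∈ (Finset.univ : Finset K).erase 0, if z + β / z = y ^ p - y then 1 else 0 := by
      intro y
      rw [Finset.card_filter]
      push_cast
      rfl
    have e4 : ∀ z : K, (((Finset.univ : Finset K).filter (fun y => y ^ p - y = z + β / z)).card : ℤ) =
        ∑ y : K, if z + β / z = y ^ p - y then 1 else 0 := by
      intro z
      rw [Finset.card_filter]
      push_cast
      apply Finset.sum_congr rfl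
      intro y _
      by_cases h : z + β / z = y ^ p - y
      · rw [if_pos h, if_pos h.symm]
      · rw [if_neg h, if_neg (fun h' => h h'.symm)]
    rw [Finset.sum_congr rfl (fun y _ => e3 y), Finset.sum_comm]
    exact Finset.sum_congr rfl (fun z _ => (e4 z).symm)
  have e5 : ((∑ y : K, quadraticChar K ((fw p K b).eval y) : ℤ) : ℂ) =
      (∑ z ∈ (Finset.univ : Finset K).erase 0,
        (((Finset.univ : Finset K).filter (fun y => y ^ p - y = z + β / z)).card : ℂ)) - Fintype.card K := by
    rw [e1, Finset.sum_sub_distrib, e2]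
    push_cast
    simp
  have e6 : (∑ z ∈ (Finset.univ : Finset K).erase 0,
        (((Finset.univ : Finset K).filter (fun y => y ^ p - y = z + β / z)).card : ℂ)) =
      ∑ lam : ZMod p, klw p K lam b := by
    rw [Finset.sum_congr rfl (fun z _ => h2 p K (z + β / z)), Finset.sum_comm]
    rfl
  have e7 : klw p K 0 b = (Fintype.card K : ℂ) - 1 := by
    unfold klw
    have : ∀ z ∈ (Finset.univ : Finset K).erase 0,
        (ZMod.stdAddChar (0 * Algebra.trace (ZMod p) K (z + algebraMap (ZMod p) K b / z)) : ℂ) = 1 := by
      intro z _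
      rw [zero_mul, AddChar.map_zero_eq_one]
    rw [Finset.sum_congr rfl this, Finset.sum_const, Finset.card_erase_of_mem (Finset.mem_univ _),
      Finset.card_univ, nsmul_eq_mul, mul_one, Nat.cast_sub Fintype.card_pos]
    simp
  rw [e5, e6, ← Finset.add_sum_erase _ _ (Finset.mem_univ (0 : ZMod p)), e7]
  ring

end Pool.Agent.Lib.TN
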