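import Pool.Agent.Lib.TN.SpecW

/-!
MP_00e23e_nt, directory Lib/TN, module Kqu: the number of solutions of z + b/z = t.
-/

namespace Pool.Agent.Lib.TN

open Polynomial MP72e2e6

theorem tKqu : KquStmt := by
  intro p _ K _ _ _ _ b t hp hb
  have : CharP K p := charP_of_injective_algebraMap (algebraMap (ZMod p) K).injective p
  have hchar : ringChar K ≠ 2 := by
    rw [ringChar.eq K p]
    exact hp
  have h2 : (2 : K) ≠ 0 := Ring.two_ne_zero hchar
  set B : K := algebraMap (ZMod p) K b with hBdef
  have hB : B ≠ 0 := (_root_.map_ne_zero _).2 hb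
  have h := quadraticChar_card_sqrts hchar (t ^ 2 - 4 * B)
  have hcard : (((Finset.univ : Finset K).erase 0).filter (fun z => z + B / z = t)).card =
      {x : K | x ^ 2 = t ^ 2 - 4 * B}.toFinset.card := by
    refine Finset.card_bij (fun z _ => 2 * z - t) ?_ ?_ ?_
    · intro z hz
      rw [Finset.mem_filter, Finset.mem_erase] at hz
      obtain ⟨⟨hz0, _⟩, hz1⟩ := hz
      rw [Set.mem_toFinset, Set.mem_ofPred_eq, ← hz1]
      field_simp
      ring
    · intro z _ z' _ hzz
      have h3 : 2 * z = 2 * z' := by linear_combination hzz
      exact mul_left_cancel₀ h2 h3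
    · intro w hw
      rw [Set.mem_toFinset, Set.mem_ofPred_eq] at hw
      have hz0 : (w + t) / 2 ≠ 0 := by
        intro h0
        have h1 : w = -t := by
          have : w + t = 0 := by
            rcases div_eq_zero_iff.1 h0 with h0 | h0
            · exact h0
            · exact absurd h0 h2
          linear_combination this
        rw [h1] at hw
        have h4 : (2 : K) * (2 * B) = 0 := by linear_combination hw
        rcases mul_eq_zero.1 h4 with h5 | h5
        · exact h2 h5
        · rcases mul_eq_zero.1 h5 with h6 | h6
          · exact h2 h6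
          · exact hB h6
      have hwt : w + t ≠ 0 := fun h0 => hz0 (by rw [h0, zero_div])
      refine ⟨(w + t) / 2, ?_, ?_⟩
      · rw [Finset.mem_filter, Finset.mem_erase]
        refine ⟨⟨hz0, Finset.mem_univ _⟩, ?_⟩
        field_simp
        linear_combination hw
      · field_simp
        ring
  rw [hcard, h]
  ring

end Pool.Agent.Lib.TN
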