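import Pool.Agent.Lib.TN.SpecW

/-!
MP_00e23e_nt: module Kre, the Newton recursion with two eigenvalues.
-/

namespace Pool.Agent.Lib.TN

open Polynomial MP72e2e6

theorem tKre (h1 : StmtSuPsi.{0}) (h2 : KchStmt) (h3 : KavStmt) : KreStmt := by
  intro p _ lam b hlam hb
  have hp : p.Prime := Fact.out
  obtain ⟨hrel, -⟩ := h1 (ZMod p) p hp
  have hr := hrel (phw p lam b) (h2 p lam b)
  obtain ⟨e0, -, e2, e3⟩ := h3 p lam b hlam hb
  set A := avC (phw p lam b) with hA
  set Q := psiC (phw p lam b) with hQ
  set S := A 1 with hS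
  obtain ⟨w, hw⟩ := IsAlgClosed.exists_pow_nat_eq (S ^ 2 - 4 * (p : ℂ)) (n := 2) (by norm_num)
  refine ⟨(-S + w) / 2, (-S - w) / 2, by ring, ?_, ?_⟩
  · have : (-S + w) / 2 * ((-S - w) / 2) = (S ^ 2 - w ^ 2) / 4 := by ring
    rw [this, hw]
    ring
  · set al : ℂ := (-S + w) / 2 with hal
    set be : ℂ := (-S - w) / 2 with hbe
    have hsum : al + be = -S := by rw [hal, hbe]; ring
    have hprod : al * be = p := by
      have : al * be = (S ^ 2 - w ^ 2) / 4 := by rw [hal, hbe]; ring
      rw [this, hw]
      ring
    have q1 : Q 1 = S := by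
      have := hr 1
      rw [show Finset.Icc 1 1 = ({1} : Finset ℕ) from rfl, Finset.sum_singleton, Nat.sub_self, e0] at this
      simp only [Nat.cast_one, one_mul, mul_one] at this
      exact this.symm
    have q2 : Q 2 = 2 * p - S ^ 2 := by
      have := hr 2
      rw [Finset.sum_Icc_succ_top (by norm_num), show Finset.Icc 1 1 = ({1} : Finset ℕ) from rfl,
        Finset.sum_singleton] at this
      norm_num at this
      rw [e0, e2, q1] at this
      linear_combination -this
    have q3 : ∀ m, Q (m + 3) = -S * Q (m + 2) - p * Q (m + 1) := by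
      intro m
      have := hr (m + 3)
      rw [e3 (m + 3) (by omega), Finset.sum_Icc_succ_top (by omega), Finset.sum_Icc_succ_top (by omega),
        Finset.sum_Icc_succ_top (by omega)] at this
      have z : ∑ k ∈ Finset.Icc 1 m, Q k * A (m + 3 - k) = 0 := by
        apply Finset.sum_eq_zero
        intro k hk
        have hk' := (Finset.mem_Icc.1 hk).2
        rw [e3 (m + 3 - k) (by omega), mul_zero]
      rw [z, show m + 3 - (m + 1) = 2 by omega, show m + 3 - (m + 1 + 1) = 1 by omega,
        show m + 3 - (m + 2 + 1) = 0 by omega, e0, e2] at this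
      rw [mul_zero] at this
      have t1 : Q (m + 1 + 1) = Q (m + 2) := rfl
      have t2 : Q (m + 2 + 1) = Q (m + 3) := rfl
      rw [t1, t2] at this
      linear_combination -this
    have key : ∀ m, Q (m + 1) = -(al ^ (m + 1) + be ^ (m + 1)) ∧ Q (m + 2) = -(al ^ (m + 2) + be ^ (m + 2)) := by
      intro m
      induction m with
      | zero =>
        constructor
        · rw [zero_add, q1, pow_one, pow_one, hsum]
          ring
        · rw [zero_add, q2]
          have : al ^ 2 + be ^ 2 = (al + be) ^ 2 - 2 * (al * be) := by ring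
          rw [this, hsum, hprod]
          ring
      | succ m ih =>
        refine ⟨ih.2, ?_⟩
        have := q3 m
        rw [show m + 1 + 2 = m + 3 from rfl, this, ih.1, ih.2]
        have : al ^ (m + 3) + be ^ (m + 3) =
            (al + be) * (al ^ (m + 2) + be ^ (m + 2)) - (al * be) * (al ^ (m + 1) + be ^ (m + 1)) := by ring
        rw [this, hsum, hprod]
        ring
    intro n hn
    obtain ⟨m, rfl⟩ : ∃ m, n = m + 1 := ⟨n - 1, by omega⟩
    exact (key m).1

end Pool.Agent.Lib.TN
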