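import Pool.Agent.Lib.TN.SpecW

/-!
MP_00e23e_nt: module Kst, the bound of Stepanov applied to the curves over the extensions of F_p.
-/

namespace Pool.Agent.Lib.TN

open Polynomial MP72e2e6

private lemma Kst_odd (p n : ℕ) (hp : p.Prime) (h2 : p ≠ 2) : Odd (p ^ n) :=
  (hp.odd_of_ne_two h2).pow

private lemma Kst_big (p n : ℕ) (hp : p.Prime) (h2 : p ≠ 2) (hn : 6 ≤ n) : 20 * (2 * p) < p ^ n ∧ 16 ≤ p ^ n := by
  have h3 : 3 ≤ p := by
    have := hp.two_le
    omega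
  have a1 : p ^ 6 ≤ p ^ n := Nat.pow_le_pow_right (by omega) hn
  have a2 : 3 ^ 5 ≤ p ^ 5 := Nat.pow_le_pow_left h3 5
  have a3 : 3 ^ 5 * p ≤ p ^ 6 := by
    calc 3 ^ 5 * p ≤ p ^ 5 * p := Nat.mul_le_mul_right _ a2
      _ = p ^ 6 := by ring
  constructor
  · have : 20 * (2 * p) < 3 ^ 5 * p := by omega
    omega
  · have : 16 ≤ 3 ^ 5 * p := by omega
    omega

theorem tKst (h1 : StmtPeChr.{0}) (h2 : KptStmt) (h3 : KnsStmt) (h4 : KexStmt) : KstStmt := by
  intro p _ b n hp2 hb hn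
  classical
  have hp : p.Prime := Fact.out
  have hn0 : n ≠ 0 := by omega
  let _ : Fintype (GaloisField p n) := Fintype.ofFinite _
  have hcard : Nat.card (GaloisField p n) = p ^ n := GaloisField.card p n hn0
  obtain ⟨hbig, h16⟩ := Kst_big p n hp hp2 hn
  obtain ⟨hm, hd, hns⟩ := h3 p (GaloisField p n) b hp2 hb
  have hB := h1 (GaloisField p n) (by rw [hcard]; exact Kst_odd p n hp hp2) (fw p (GaloisField p n) b) hm
    (by rw [hd]; have := hp.two_le; omega) hns (by rw [hd, hcard]; exact hbig) (by rw [hcard]; exact h16)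
  have hP := h2 p (GaloisField p n) b hp2 hb
  have hE : ∑ lam ∈ (Finset.univ : Finset (ZMod p)).erase 0, psiC (phw p lam b) n =
      ∑ lam ∈ (Finset.univ : Finset (ZMod p)).erase 0, klw p (GaloisField p n) lam b := by
    apply Finset.sum_congr rfl
    intro lam _
    exact h4 p lam b (GaloisField p n) n (by omega) (GaloisField.finrank p hn0)
  rw [hE]
  have e1 : ∑ lam ∈ (Finset.univ : Finset (ZMod p)).erase 0, klw p (GaloisField p n) lam b =
      1 + ((∑ y : GaloisField p n, quadraticChar (GaloisField p n) ((fw p (GaloisField p n) b).eval y) : ℤ) : ℂ) := by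
    rw [hP]
    ring
  rw [e1]
  rw [hd, hcard] at hB
  set T : ℤ := ∑ y : GaloisField p n, quadraticChar (GaloisField p n) ((fw p (GaloisField p n) b).eval y) with hT
  have hB' : ‖((T : ℤ) : ℂ)‖ ≤ 30 * (p : ℝ) * Real.sqrt p ^ n := by
    rw [Complex.norm_intCast]
    have b1 : |(T : ℝ)| ≤ ((15 * (2 * p) * Nat.sqrt (p ^ n) : ℕ) : ℝ) := by
      rw [← Int.cast_abs]
      exact_mod_cast hB
    have b2 : ((Nat.sqrt (p ^ n) : ℕ) : ℝ) ≤ Real.sqrt p ^ n := by
      have : ((Nat.sqrt (p ^ n) : ℕ) : ℝ) ≤ Real.sqrt ((p ^ n : ℕ) : ℝ) := Real.nat_sqrt_le_real_sqrt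
      refine le_trans this ?_
      apply le_of_eq
      rw [Nat.cast_pow]
      rw [Real.sqrt_eq_iff_mul_self_eq (by positivity) (by positivity), ← mul_pow, Real.mul_self_sqrt (by positivity)]
    refine le_trans b1 ?_
    push_cast
    calc (15 : ℝ) * (2 * p) * (Nat.sqrt (p ^ n) : ℝ) ≤ 15 * (2 * p) * (Real.sqrt p ^ n) :=
          mul_le_mul_of_nonneg_left b2 (by positivity)
      _ = 30 * (p : ℝ) * Real.sqrt p ^ n := by ring
  have hone : (1 : ℝ) ≤ (p : ℝ) * Real.sqrt p ^ n := by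
    have c1 : (1 : ℝ) ≤ p := by exact_mod_cast hp.one_lt.le
    have c2 : (1 : ℝ) ≤ Real.sqrt p := by
      rw [Real.one_le_sqrt]
      exact c1
    exact one_le_mul_of_one_le_of_one_le c1 (one_le_pow₀ c2)
  calc ‖(1 : ℂ) + ((T : ℤ) : ℂ)‖ ≤ ‖(1 : ℂ)‖ + ‖((T : ℤ) : ℂ)‖ := norm_add_le _ _
    _ ≤ (p : ℝ) * Real.sqrt p ^ n + 30 * (p : ℝ) * Real.sqrt p ^ n := by
        rw [norm_one]
        exact add_le_add hone hB'
    _ = 31 * (p : ℝ) * Real.sqrt p ^ n := by ring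

end Pool.Agent.Lib.TN
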