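import Pool.Agent.Lib.TN.SpecW

/-!
MP_00e23e_nt, directory Lib/TN, module Kwe: the Weil bound for the sums kl modulo a prime.
-/

namespace Pool.Agent.Lib.TN

open Polynomial MP72e2e6 Pool.Agent.Lib.TB Pool.Agent.Lib.EH3

private lemma Kwe_ee (p : ℕ) [Fact p.Prime] (j : ℤ) :
    ee ((j : ℝ) / p) = ZMod.stdAddChar ((j : ℤ) : ZMod p) := by
  rw [ZMod.stdAddChar_coe]
  unfold ee
  congr 1
  push_cast
  ring

private lemma Kwe_kl (p : ℕ) [Fact p.Prime] (c h : ℤ) :
    kl c h p = ∑ z ∈ (Finset.univ : Finset (ZMod p)).erase 0,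
      ZMod.stdAddChar ((c : ZMod p) * z⁻¹ + (h : ZMod p) * z) := by
  have hp : p.Prime := Fact.out
  unfold kl
  refine Finset.sum_nbij' (fun x => (x : ZMod p)) (fun z => z.val) ?_ ?_ ?_ ?_ ?_
  · intro x hx
    rw [Finset.mem_filter, Finset.mem_range] at hx
    rw [Finset.mem_erase]
    refine ⟨?_, Finset.mem_univ _⟩
    intro h0
    rw [ZMod.natCast_eq_zero_iff] at h0
    exact (hp.coprime_iff_not_dvd.1 hx.2.symm) h0
  · intro z hz
    rw [Finset.mem_erase] at hz
    rw [Finset.mem_filter, Finset.mem_range]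
    refine ⟨ZMod.val_lt z, ?_⟩
    refine Nat.Coprime.symm (hp.coprime_iff_not_dvd.2 fun h0 => hz.1 ?_)
    rw [← ZMod.natCast_zmod_val z, ZMod.natCast_eq_zero_iff]
    exact h0
  · intro x hx
    rw [Finset.mem_filter, Finset.mem_range] at hx
    exact ZMod.val_cast_of_lt hx.1
  · intro z _
    exact ZMod.natCast_zmod_val z
  · intro x _
    have e : ((c : ℝ) * (iv x p : ℝ) + (h : ℝ) * (x : ℝ)) =
        ((c * (iv x p : ℤ) + h * (x : ℤ) : ℤ) : ℝ) := by
      push_cast
      ring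
    rw [e, Kwe_ee]
    congr 1
    push_cast
    unfold iv
    rw [ZMod.natCast_zmod_val]

private lemma Kwe_sum (p : ℕ) [Fact p.Prime] (c : ZMod p) (hc : c ≠ 0) :
    ∑ z ∈ (Finset.univ : Finset (ZMod p)).erase 0, (ZMod.stdAddChar (c * z⁻¹) : ℂ) = -1 := by
  have e1 : ∑ z ∈ (Finset.univ : Finset (ZMod p)).erase 0, (ZMod.stdAddChar (c * z⁻¹) : ℂ) =
      ∑ z ∈ (Finset.univ : Finset (ZMod p)).erase 0, (ZMod.stdAddChar z : ℂ) := by
    refine Finset.sum_nbij' (fun z => c * z⁻¹) (fun z => c * z⁻¹) ?_ ?_ ?_ ?_ ?_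
    · intro z hz
      rw [Finset.mem_erase] at hz ⊢
      exact ⟨mul_ne_zero hc (inv_ne_zero hz.1), Finset.mem_univ _⟩
    · intro z hz
      rw [Finset.mem_erase] at hz ⊢
      exact ⟨mul_ne_zero hc (inv_ne_zero hz.1), Finset.mem_univ _⟩
    · intro z hz
      rw [Finset.mem_erase] at hz
      have := hz.1
      field_simp
    · intro z hz
      rw [Finset.mem_erase] at hz
      have := hz.1
      field_simp
    · intro z _
      rfl
  have e2 := AddChar.sum_mulShift (R := ZMod p) (R' := ℂ) (1 : ZMod p)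
    (ZMod.isPrimitive_stdAddChar p)
  rw [if_neg one_ne_zero] at e2
  simp only [mul_one] at e2
  rw [e1]
  have e3 := Finset.add_sum_erase (Finset.univ : Finset (ZMod p))
    (fun z => (ZMod.stdAddChar z : ℂ)) (Finset.mem_univ 0)
  rw [e2] at e3
  rw [AddChar.map_zero_eq_one] at e3
  linear_combination e3

theorem tKwe (h1 : KavStmt) (h2 : KmaStmt) : WeilStmt := by
  intro p c h hp hc
  have : Fact p.Prime := ⟨hp⟩
  have hc0 : (c : ZMod p) ≠ 0 := by
    intro h0
    exact hc ((ZMod.intCast_zmod_eq_zero_iff_dvd c p).1 h0)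
  have hp1 : (1 : ℝ) ≤ p := by exact_mod_cast hp.one_lt.le
  have hs1 : 1 ≤ Real.sqrt p := by
    rw [Real.one_le_sqrt]
    exact hp1
  rw [Kwe_kl]
  by_cases hp2 : p = 2
  · refine (norm_sum_le _ _).trans ?_
    have hn : ∀ z ∈ (Finset.univ : Finset (ZMod p)).erase 0,
        ‖(ZMod.stdAddChar ((c : ZMod p) * z⁻¹ + (h : ZMod p) * z) : ℂ)‖ = 1 := fun z _ =>
      AddChar.norm_apply _ _
    rw [Finset.sum_congr rfl hn, Finset.sum_const, Finset.card_erase_of_mem (Finset.mem_univ _),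
      Finset.card_univ, ZMod.card, hp2]
    norm_num
    rw [hp2] at hs1
    push_cast at hs1
    linarith
  by_cases hh : (h : ZMod p) = 0
  · have e : ∑ z ∈ (Finset.univ : Finset (ZMod p)).erase 0,
        (ZMod.stdAddChar ((c : ZMod p) * z⁻¹ + (h : ZMod p) * z) : ℂ) = -1 := by
      rw [← Kwe_sum p (c : ZMod p) hc0]
      refine Finset.sum_congr rfl fun z _ => ?_
      rw [hh, zero_mul, add_zero]
    rw [e, norm_neg, norm_one]
    linarith
  · have hb : (c : ZMod p) / (h : ZMod p) ≠ 0 := div_ne_zero hc0 hh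
    have e : ∑ z ∈ (Finset.univ : Finset (ZMod p)).erase 0,
        (ZMod.stdAddChar ((c : ZMod p) * z⁻¹ + (h : ZMod p) * z) : ℂ) =
        avC (phw p (h : ZMod p) ((c : ZMod p) / (h : ZMod p))) 1 := by
      rw [(h1 p (h : ZMod p) ((c : ZMod p) / (h : ZMod p)) hh hb).2.1]
      refine Finset.sum_congr rfl fun z hz => ?_
      rw [Finset.mem_erase] at hz
      have hz0 := hz.1
      congr 1
      field_simp
      ring
    rw [e]
    exact h2 p _ _ hp2 hh hb

end Pool.Agent.Lib.TN
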