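import Pool.Agent.Lib.TN.AllA
import Pool.Agent.Lib.TN.Kch
import Pool.Agent.Lib.TN.Kav
import Pool.Agent.Lib.TN.Kmi
import Pool.Agent.Lib.TN.Kex
import Pool.Agent.Lib.TN.Kre
import Pool.Agent.Lib.TN.Kqu
import Pool.Agent.Lib.TN.Kas
import Pool.Agent.Lib.TN.Kpt
import Pool.Agent.Lib.TN.Kns
import Pool.Agent.Lib.TN.Kst
import Pool.Agent.Lib.TN.Kps
import Pool.Agent.Lib.TN.Kma
import Pool.Agent.Lib.TN.Kwe
import Pool.Agent.Lib.MP_72e2e6_nt.PeHas
import Pool.Agent.Lib.MP_72e2e6_nt.PeNon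
import Pool.Agent.Lib.MP_72e2e6_nt.PeSte
import Pool.Agent.Lib.MP_72e2e6_nt.PeChr
import Pool.Agent.Lib.MP_72e2e6_nt.TwMon
import Pool.Agent.Lib.MP_72e2e6_nt.TwPsi
import Pool.Agent.Lib.MP_72e2e6_nt.SuMon
import Pool.Agent.Lib.MP_72e2e6_nt.SuPsi

/-!
MP_00e23e_nt, directory Lib/TN (THEOREM N): Weil's bound for Kloosterman sums modulo primes, and theorem N.
-/

namespace Pool.Agent.Lib.TN

open MP72e2e6

/-- the two facts used from Lib/MP_72e2e6_nt -/
theorem aSuPsi : StmtSuPsi.{0} := tSuPsi tTwMon (tTwPsi tTwMon) tSuMon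

theorem aPeChr : StmtPeChr.{0} := tPeChr (tPeSte tPeHas.{0} tPeNon.{0})

/-- Weil's bound for the complete sums kl modulo a prime -/
theorem tWeil : WeilStmt := by
  have hex : KexStmt := tKex aSuPsi tKmi
  have hre : KreStmt := tKre aSuPsi tKch tKav
  have hpt : KptStmt := tKpt tKqu tKas
  have hst : KstStmt := tKst aPeChr hpt tKns hex
  exact tKwe tKav (tKma hre hst tKps)

/-- theorem N -/
theorem tTNw : TNStmt := tTN_weil tWeil

end Pool.Agent.Lib.TN
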