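import Pool.Agent.Lib.TN.Stmts
import Pool.Agent.Lib.TB.Cmp
import Pool.Agent.Lib.TB.Geo

/-! MP_00e23e_nt, Lib/TN: incomplete Kloosterman sums for squarefree moduli (from KsqStmt). -/

namespace Pool.Agent.Lib.TN

open Finset Pool.Agent.Lib.EH3 Pool.Agent.Lib.TB

theorem tIsq (h1 : KsqStmt) : IsqStmt := by
  intro q T1 T2 c hq hsq hT
  rw [sum_filter]
  refine tCmp tGeo (fun x : ℕ => if x.Coprime q then ee ((c : ℝ) * (iv x q : ℝ) / q) else 0) q T1 T2 _ hq hT ?_ ?_
  · intro t
    have e : t + q ≡ t [MOD q] := by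
      simp [Nat.ModEq]
    have hc : (t + q).Coprime q ↔ t.Coprime q := by
      unfold Nat.Coprime
      rw [e.gcd_eq]
    change (if (t + q).Coprime q then ee ((c : ℝ) * (iv (t + q) q : ℝ) / q) else 0) =
      if t.Coprime q then ee ((c : ℝ) * (iv t q : ℝ) / q) else 0
    rw [iv_congr e]
    by_cases h : t.Coprime q
    · rw [if_pos h, if_pos (hc.2 h)]
    · rw [if_neg h, if_neg (fun h' => h (hc.1 h'))]
  · intro j _
    have h2 := h1 q c j hq hsq
    have h3 : ∑ x ∈ range q, (if x.Coprime q then ee ((c : ℝ) * (iv x q : ℝ) / q) else 0) * ee ((j : ℝ) * x / q) =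
        kl c j q := by
      unfold kl
      rw [sum_filter]
      refine sum_congr rfl (fun x _ => ?_)
      by_cases h : x.Coprime q
      · rw [if_pos h, if_pos h, ← ee_add]
        congr 1
        push_cast
        ring
      · rw [if_neg h, if_neg h, zero_mul]
    rw [h3]
    exact h2

end Pool.Agent.Lib.TN
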