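import Pool.Agent.Lib.TN.Stmts
import Pool.Agent.Lib.TB.Kl

/-! MP_00e23e_nt, Lib/TN: Kloosterman sums for squarefree moduli (from Weil's bound for primes). -/

namespace Pool.Agent.Lib.TN

open Finset Pool.Agent.Lib.EH3 Pool.Agent.Lib.TB

/-- the splitting of 1/(a b) -/
private lemma Ksq_split (a b : ℕ) (u v k : ℤ) (ha : 1 ≤ a) (hb : 1 ≤ b)
    (h : ((a * b : ℕ) : ℤ) ∣ k * (u * b + v * a - 1)) :
    ee ((k : ℝ) / ((a * b : ℕ) : ℝ)) = ee (((u * k : ℤ) : ℝ) / (a : ℝ)) * ee (((v * k : ℤ) : ℝ) / (b : ℝ)) := by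
  have ha' : (a : ℝ) ≠ 0 := by positivity
  have hb' : (b : ℝ) ≠ 0 := by positivity
  rw [← ee_add]
  have e1 : ((u * k : ℤ) : ℝ) / (a : ℝ) + ((v * k : ℤ) : ℝ) / (b : ℝ) =
      (((u * k * b + v * k * a : ℤ)) : ℝ) / ((a * b : ℕ) : ℝ) := by
    push_cast
    field_simp
  rw [e1]
  refine ee_congr ?_
  have e2 : k - (u * k * b + v * k * a) = - (k * (u * b + v * a - 1)) := by ring
  rw [e2]
  exact (dvd_neg).2 h

/-- a character modulo a b is a product of characters -/
private lemma Ksq_ps (a b : ℕ) [NeZero a] [NeZero b] (hab : a.Coprime b) (u v : ℤ)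
    (hu : (a : ℤ) ∣ u * b - 1) (hv : (b : ℤ) ∣ v * a - 1) (t : ZMod (a * b)) :
    have : NeZero (a * b) := ⟨Nat.mul_ne_zero (NeZero.ne a) (NeZero.ne b)⟩
    Pool.Lib.KF.ps t = Pool.Lib.KF.ps ((u : ZMod a) * (ZMod.chineseRemainder hab t).1) *
      Pool.Lib.KF.ps ((v : ZMod b) * (ZMod.chineseRemainder hab t).2) := by
  have : NeZero (a * b) := ⟨Nat.mul_ne_zero (NeZero.ne a) (NeZero.ne b)⟩
  obtain ⟨k, rfl⟩ : ∃ k : ℤ, (k : ZMod (a * b)) = t := ⟨(t.val : ℤ), by simp⟩
  have h1 : ((ZMod.chineseRemainder hab) (k : ZMod (a * b))) = (((k : ℤ) : ZMod a), ((k : ℤ) : ZMod b)) := by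
    rw [map_intCast]
    rfl
  rw [h1]
  have h2 : (u : ZMod a) * (k : ZMod a) = ((u * k : ℤ) : ZMod a) := by push_cast; ring
  have h3 : (v : ZMod b) * (k : ZMod b) = ((v * k : ℤ) : ZMod b) := by push_cast; ring
  change Pool.Lib.KF.ps (k : ZMod (a * b)) = Pool.Lib.KF.ps ((u : ZMod a) * (k : ZMod a)) *
    Pool.Lib.KF.ps ((v : ZMod b) * (k : ZMod b))
  rw [h2, h3, ← Kl_ee_char, ← Kl_ee_char, ← Kl_ee_char]
  refine Ksq_split a b u v k (Nat.pos_of_ne_zero (NeZero.ne a)) (Nat.pos_of_ne_zero (NeZero.ne b)) ?_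
  refine Dvd.dvd.mul_left ?_ k
  have hc : IsCoprime (a : ℤ) (b : ℤ) := Nat.isCoprime_iff_coprime.2 hab
  push_cast
  refine hc.mul_dvd ?_ ?_
  · have : u * b + v * a - 1 = (u * b - 1) + v * a := by ring
    rw [this]
    exact dvd_add hu (Dvd.intro_left v rfl)
  · have : u * b + v * a - 1 = (v * a - 1) + u * b := by ring
    rw [this]
    exact dvd_add hv (Dvd.intro_left u rfl)

/-- twisted multiplicativity of Kloosterman sums -/
private lemma Ksq_mul (a b : ℕ) (ha : 1 ≤ a) (hb : 1 ≤ b) (hab : a.Coprime b) (c h u v : ℤ)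
    (hu : (a : ℤ) ∣ u * b - 1) (hv : (b : ℤ) ∣ v * a - 1) :
    kl c h (a * b) = kl (u * c) (u * h) a * kl (v * c) (v * h) b := by
  have : NeZero a := ⟨by omega⟩
  have : NeZero b := ⟨by omega⟩
  have : NeZero (a * b) := ⟨Nat.mul_ne_zero (NeZero.ne a) (NeZero.ne b)⟩
  rw [Kl_eq, Kl_eq, Kl_eq]
  unfold Pool.Lib.KF.Kl
  rw [sum_mul_sum, ← Fintype.sum_prod_type']
  refine Fintype.sum_equiv ((Units.mapEquiv (ZMod.chineseRemainder hab).toMulEquiv).trans MulEquiv.prodUnits).toEquiv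
    _ _ (fun x => ?_)
  rw [Ksq_ps a b hab u v hu hv]
  have e1 : (ZMod.chineseRemainder hab) ((c : ZMod (a * b)) * Pool.Lib.KF.iv x + (h : ZMod (a * b)) * (x : ZMod (a * b))) =
      ((c : ZMod a), (c : ZMod b)) * (ZMod.chineseRemainder hab) (Pool.Lib.KF.iv x) +
      ((h : ZMod a), (h : ZMod b)) * (ZMod.chineseRemainder hab) (x : ZMod (a * b)) := by
    rw [map_add, map_mul, map_mul, map_intCast, map_intCast]
    rfl
  rw [e1]
  congr 1
  · congr 1
    push_cast
    change (u : ZMod a) * ((c : ZMod a) * _ + (h : ZMod a) * _) = (u : ZMod a) * (c : ZMod a) * _ + (u : ZMod a) * (h : ZMod a) * _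
    rw [mul_add, ← mul_assoc, ← mul_assoc]
    rfl
  · congr 1
    push_cast
    change (v : ZMod b) * ((c : ZMod b) * _ + (h : ZMod b) * _) = (v : ZMod b) * (c : ZMod b) * _ + (v : ZMod b) * (h : ZMod b) * _
    rw [mul_add, ← mul_assoc, ← mul_assoc]
    rfl

private lemma Ksq_triv (c h : ℤ) (q : ℕ) : ‖kl c h q‖ ≤ q := by
  unfold kl
  refine (norm_sum_le _ _).trans ?_
  rw [sum_congr rfl (fun x _ => norm_ee _), sum_const, nsmul_eq_mul, mul_one]
  have := card_filter_le (range q) (fun x => x.Coprime q)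
  rw [card_range] at this
  exact_mod_cast this

private lemma Ksq_gcd (a : ℕ) (c u b : ℤ) (hu : (a : ℤ) ∣ u * b - 1) : Int.gcd (u * c) a = Int.gcd c a := by
  have h1 : IsCoprime u (a : ℤ) := by
    obtain ⟨z, hz⟩ := hu
    exact ⟨b, -z, by linear_combination hz⟩
  have h2 : Int.gcd u a = 1 := Int.isCoprime_iff_gcd_eq_one.1 h1
  rw [Int.gcd_def, Int.natAbs_natCast] at h2
  rw [Int.gcd_def, Int.gcd_def, Int.natAbs_natCast, Int.natAbs_mul]
  exact Nat.Coprime.gcd_mul_left_cancel c.natAbs h2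

theorem tKsq (hW : WeilStmt) : KsqStmt := by
  intro q
  induction q using Nat.strong_induction_on with
  | _ q ih =>
    intro c h hq hsq
    rcases Nat.lt_or_ge q 2 with hq2 | hq2
    · have hq1 : q = 1 := by omega
      subst hq1
      have := Ksq_triv c h 1
      simpa using this
    · set p := q.minFac with hp
      have hpp : p.Prime := Nat.minFac_prime (by omega)
      obtain ⟨m, hm⟩ : p ∣ q := Nat.minFac_dvd q
      have hm1 : 1 ≤ m := by
        rcases Nat.eq_zero_or_pos m with h0 | h0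
        · rw [h0] at hm; omega
        · exact h0
      have hpm : p.Coprime m := by
        rw [hm] at hsq
        exact Nat.coprime_of_squarefree_mul hsq
      have hmsq : Squarefree m := by
        rw [hm] at hsq
        exact hsq.of_mul_right
      have hmq : m < q := by
        rw [hm]
        nlinarith [hpp.two_le]
      have hc : IsCoprime (p : ℤ) (m : ℤ) := Nat.isCoprime_iff_coprime.2 hpm
      obtain ⟨v, u, huv⟩ := hc
      have hu : (p : ℤ) ∣ u * m - 1 := ⟨-v, by linear_combination huv⟩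
      have hv : (m : ℤ) ∣ v * p - 1 := ⟨-u, by linear_combination huv⟩
      have h1 : kl c h q = kl (u * c) (u * h) p * kl (v * c) (v * h) m := by
        rw [hm]
        exact Ksq_mul p m hpp.one_le hm1 hpm c h u v hu hv
      have h2 := ih m hmq (v * c) (v * h) hm1 hmsq
      have g1 : Int.gcd (u * c) p = Int.gcd c p := Ksq_gcd p c u m hu
      have g2 : Int.gcd (v * c) m = Int.gcd c m := Ksq_gcd m c v p hv
      rw [g2] at h2
      have h3 : ‖kl (u * c) (u * h) p‖ ≤ (p.divisors.card : ℝ) * (Int.gcd c p : ℝ) ^ ((1 : ℝ) / 2) *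
          (p : ℝ) ^ ((1 : ℝ) / 2) := by
        have hd : p.divisors.card = 2 := by
          rw [hpp.divisors, card_pair hpp.one_lt.ne]
        rw [hd, ← g1]
        by_cases hcp : (p : ℤ) ∣ u * c
        · have hg : Int.gcd (u * c) p = p := by
            have h6 : (Int.gcd (u * c) p : ℤ) = p := Int.gcd_eq_right (by positivity) hcp
            exact_mod_cast h6
          rw [hg]
          have ht := Ksq_triv (u * c) (u * h) p
          have hp0 : (0 : ℝ) ≤ p := by positivity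
          have e : (p : ℝ) ^ ((1 : ℝ) / 2) * (p : ℝ) ^ ((1 : ℝ) / 2) = p := by
            rw [← Real.sqrt_eq_rpow, Real.mul_self_sqrt hp0]
          calc ‖kl (u * c) (u * h) p‖ ≤ p := ht
            _ ≤ 2 * (p : ℝ) := by linarith
            _ = ((2 : ℕ) : ℝ) * (p : ℝ) ^ ((1 : ℝ) / 2) * (p : ℝ) ^ ((1 : ℝ) / 2) := by
              rw [mul_assoc, e]; norm_num
        · have hg : Int.gcd (u * c) p = 1 := by
            rw [Int.gcd_comm]
            exact Int.isCoprime_iff_gcd_eq_one.1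
              (((Nat.prime_iff_prime_int.1 hpp).irreducible.coprime_iff_not_dvd).2 hcp)
          rw [hg]
          have := hW p (u * c) (u * h) hpp hcp
          rw [Real.sqrt_eq_rpow] at this
          simpa using this
      rw [h1, norm_mul]
      clear_value p
      have e1 : (q.divisors.card : ℝ) = (p.divisors.card : ℝ) * (m.divisors.card : ℝ) := by
        have h8 : q.divisors.card = p.divisors.card * m.divisors.card := by
          rw [hm]; exact hpm.card_divisors_mul
        rw [h8, Nat.cast_mul]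
      have e2 : (Int.gcd c q : ℝ) = (Int.gcd c p : ℝ) * (Int.gcd c m : ℝ) := by
        have : Int.gcd c q = Int.gcd c p * Int.gcd c m := by
          rw [hm]
          have h5 : ∀ n : ℕ, Int.gcd c n = Nat.gcd c.natAbs n := fun n => by
            rw [Int.gcd_def, Int.natAbs_natCast]
          rw [h5, h5, h5]
          exact hpm.gcd_mul c.natAbs
        rw [this, Nat.cast_mul]
      have e3 : (q : ℝ) = (p : ℝ) * m := by
        have h7 : (q : ℝ) = ((p * m : ℕ) : ℝ) := congrArg _ hm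
        rw [h7, Nat.cast_mul]
      rw [e1, e2, e3, Real.mul_rpow (Nat.cast_nonneg _) (Nat.cast_nonneg _),
        Real.mul_rpow (Nat.cast_nonneg _) (Nat.cast_nonneg _)]
      calc ‖kl (u * c) (u * h) p‖ * ‖kl (v * c) (v * h) m‖
          ≤ ((p.divisors.card : ℝ) * (Int.gcd c p : ℝ) ^ ((1 : ℝ) / 2) * (p : ℝ) ^ ((1 : ℝ) / 2)) *
            ((m.divisors.card : ℝ) * (Int.gcd c m : ℝ) ^ ((1 : ℝ) / 2) * (m : ℝ) ^ ((1 : ℝ) / 2)) :=
            mul_le_mul h3 h2 (norm_nonneg _) ((norm_nonneg _).trans h3)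
        _ = _ := by ring

end Pool.Agent.Lib.TN
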