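import Pool.Agent.Lib.TB.SpecG
import Pool.Agent.Lib.TB.SpecK
import Pool.Agent.Lib.KF.Defs

/-!
MP_00e23e_nt, directory Lib/TN (THEOREM N: level 5/9 for all but polylogarithmically many residues, squarefree
moduli with a convenient divisor; coordinator helper3; paper proof: note THEOREM N of helper3, Dec 3 08:33):
interfaces between the parts. Uses the definitions of Lib/TB: iv, kl, pg, eB, GG, tri.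
-/

namespace Pool.Agent.Lib.TN

open Finset Pool.Agent.Lib.EH3 Pool.Agent.Lib.TB Pool.Agent.Results.MP_00e23e_nt

/-- Weil's bound for Kloosterman sums modulo a prime (part W, helper14 and helper82). Uses nothing (Stepanov:
StmtPeChr of Lib/MP_72e2e6_nt). -/
def WeilStmt : Prop := ∀ (p : ℕ) (c h : ℤ), p.Prime → ¬ (p : ℤ) ∣ c → ‖kl c h p‖ ≤ 2 * Real.sqrt p

/-- the bound for squarefree moduli (part I, helper57 and helper63; uses WeilStmt) -/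
def KsqStmt : Prop := ∀ (q : ℕ) (c h : ℤ), 1 ≤ q → Squarefree q →
  ‖kl c h q‖ ≤ (q.divisors.card : ℝ) * (Int.gcd c q : ℝ) ^ ((1 : ℝ) / 2) * (q : ℝ) ^ ((1 : ℝ) / 2)

/-- incomplete sums, squarefree moduli (part I; uses KsqStmt) -/
def IsqStmt : Prop := ∀ (q T1 T2 : ℕ) (c : ℤ), 1 ≤ q → Squarefree q → T1 ≤ T2 →
  ‖∑ m ∈ (Ico T1 T2).filter (fun m => m.Coprime q), ee ((c : ℝ) * (iv m q : ℝ) / q)‖ ≤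
    (q.divisors.card : ℝ) * (Int.gcd c q : ℝ) ^ ((1 : ℝ) / 2) * (q : ℝ) ^ ((1 : ℝ) / 2) *
      (((T2 : ℝ) - T1) / q + 1 + Real.log q)

/-- the trilinear form (part T, helper3; uses IsqStmt) -/
def TriStmt : Prop := ∀ ε : ℝ, 0 < ε → ∃ C : ℝ, 0 ≤ C ∧ ∀ (P S H : ℕ) (α : ℕ → ℂ) (β : ℕ → ℕ → ℂ) (θ : ℤ)
    (τ : ℝ), 1 ≤ P → 1 ≤ S → 1 ≤ H → S ≤ P → (∀ m, ‖α m‖ ≤ 1) → (∀ r s, ‖β r s‖ ≤ 1) →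
  (∀ r s, β r s ≠ 0 → P < r * s ∧ r * s ≤ 3 * P ∧ Squarefree (r * s)) → θ ≠ 0 →
  ‖∑ h ∈ Icc 1 H, ∑ m ∈ Ioc P (3 * P), ∑ r ∈ Icc 1 (3 * P / S),
      ∑ s ∈ (Ioc S (2 * S)).filter (fun s => m.Coprime (r * s)),
        α m * β r s * eB ((h : ℤ) * θ) ((h : ℝ) * τ) m (r * s)‖ ≤
    C * ((P : ℝ) * H * |(θ : ℝ)|) ^ ε * (1 + (H : ℝ) * |τ| / (P : ℝ) ^ 2) *
      (((P : ℝ) ^ 4 * H / S) ^ ((1 : ℝ) / 2) +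
        (H : ℝ) * ((P : ℝ) ^ ((7 : ℝ) / 2) * (S : ℝ) ^ ((1 : ℝ) / 2)) ^ ((1 : ℝ) / 2))

/-- the trilinear form for the pairs (g m, g n) (part T; uses TriStmt): c' is supported on squarefree numbers with a
divisor in [L1, L2] -/
def PgtStmt : Prop := ∀ ε : ℝ, 0 < ε → ∃ C : ℝ, 0 ≤ C ∧ ∀ (Q g H : ℕ) (L1 L2 : ℝ) (c c' : ℕ → ℝ) (θ : ℤ) (τ : ℝ),
  1 ≤ g → g ≤ Q → 1 ≤ H → 4 * (g : ℝ) ≤ L1 → L1 ≤ L2 → L2 ≤ ((Q / g : ℕ) : ℝ) → (∀ d, |c d| ≤ 1) →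
  (∀ d, |c' d| ≤ 1) → (∀ d, c' d ≠ 0 → Squarefree d ∧ ∃ s : ℕ, s ∣ d ∧ L1 ≤ s ∧ (s : ℝ) ≤ L2) → θ ≠ 0 →
  ‖∑ h ∈ Icc 1 H, pg Q g (fun m n => ((c (g * m) * c' (g * n) : ℝ) : ℂ) * (1 / ((m : ℂ) * n)) *
      eB ((h : ℤ) * θ) ((h : ℝ) * τ) m n)‖ ≤
    C * ((Q : ℝ) * H * |(θ : ℝ)|) ^ ε * (1 + (H : ℝ) * |τ| / ((Q / g : ℕ) : ℝ) ^ 2) *
      (((H : ℝ) * g / L1) ^ ((1 : ℝ) / 2) + (H : ℝ) * (L2 / ((Q / g : ℕ) : ℝ)) ^ ((1 : ℝ) / 4))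

/-- the convenient moduli -/
def Conv (L1 L2 : ℝ) (d : ℕ) : Prop := Squarefree d ∧ ∃ s : ℕ, s ∣ d ∧ L1 ≤ s ∧ (s : ℝ) ≤ L2

/-- the weight: the (j+1)-fold convolution of tri, divided by N^j; support |n| ≤ (j+1) N, 0 ≤ wt ≤ 1, mass N,
∑ wt(n) ee(n t) = ‖GG N t‖^(2j+2)/N^(2j+1), wt ≥ 4^(-j-1) for |n| ≤ N/2 (part G) -/
noncomputable def wt (N : ℕ) : ℕ → ℤ → ℝ
  | 0 => tri N
  | (j + 1) => fun n => (1 / (N : ℝ)) * ∑ m ∈ Icc (-(N : ℤ)) N, tri N m * wt N j (n - m)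

/-- the cut N^(1/2 - δ - ε) -/
noncomputable def RN (δ ε : ℝ) (N : ℕ) : ℕ := ⌊(N : ℝ) ^ ((1 : ℝ) / 2 - δ - ε)⌋₊

/-- (OFF) for convenient moduli (result of parts G and M; uses PgtStmt); c and c' are supported on convenient moduli -/
def OffNStmt : Prop := ∀ δ ε : ℝ, 0 ≤ δ → 0 < ε → 2 * δ + ε ≤ 1 / 2 - 7 * δ - ε →
  ∃ (j : ℕ) (C η κ : ℝ), 0 < η ∧ 0 < κ ∧ ∀ (N Q : ℕ) (L1 L2 : ℝ) (c c' : ℕ → ℝ) (a b : ℤ), 1 ≤ N →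
    (N : ℝ) ^ ((1 : ℝ) / 2 - κ) ≤ Q → (Q : ℝ) ≤ 2 * (N : ℝ) ^ ((1 : ℝ) / 2 + δ) →
    (N : ℝ) ^ (2 * δ + ε) ≤ L1 → L2 ≤ (N : ℝ) ^ ((1 : ℝ) / 2 - 7 * δ - ε) →
    (∀ d, |c d| ≤ 1) → (∀ d, |c' d| ≤ 1) → (∀ d, c d ≠ 0 → Conv L1 L2 d) → (∀ d, c' d ≠ 0 → Conv L1 L2 d) →
    a ≠ b → |a| ≤ (N : ℤ) → |b| ≤ (N : ℤ) →
    |∑ n ∈ Icc (-(((j + 1) * N : ℕ) : ℤ)) ((j + 1) * N : ℕ),
        wt N j n * (FF (RN δ ε N) Q c (n - a) * FF (RN δ ε N) Q c' (n - b))| ≤ C * (N : ℝ) ^ (1 - η)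

/-- **THEOREM N** (final statement; uses OffNStmt, DiaKStmt and LpSStmt of Lib/TB, Bombieri-Vinogradov) -/
def TNStmt : Prop := ∀ δ ε : ℝ, 0 ≤ δ → δ < 1 / 18 → 0 < ε → ∃ η : ℝ, 0 < η ∧ ∃ k : ℝ, ∀ U : ℝ, 0 < U → ∃ C : ℝ,
  ∀ (x : ℝ) (J : Finset ℕ) (s : ℕ → ℕ → ℤ), 3 ≤ x →
  (∀ i ∈ J, ∀ d ∈ Icc 1 ⌊x ^ ((1 : ℝ) / 2 + δ)⌋₊, |(s i d : ℝ)| ≤ x) →
  (∀ i ∈ J, (((Icc 1 ⌊x ^ ((1 : ℝ) / 2 + δ)⌋₊).image (s i)).card : ℝ) ≤ x ^ η) →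
  (∀ i ∈ J, ∀ j ∈ J, i ≠ j → ∀ d ∈ Icc 1 ⌊x ^ ((1 : ℝ) / 2 + δ)⌋₊, s i d ≠ s j d) →
  ∃ S ⊆ J, (S.card : ℝ) ≤ C * (Real.log x) ^ (5 * U + k) ∧ ∀ i ∈ J, i ∉ S →
    ∀ (y : ℕ → ℝ) (M : Finset ℕ), (∀ d, 2 ≤ y d ∧ y d ≤ x) →
      (∀ d ∈ M, 1 ≤ d ∧ (d : ℝ) ≤ x ^ ((1 : ℝ) / 2 + δ) ∧ Int.gcd (s i d) d = 1 ∧
        Conv (x ^ (2 * δ + ε)) (x ^ ((1 : ℝ) / 2 - 7 * δ - ε)) d) →
      ∑ d ∈ M, |resErr (y d) d (s i d)| ≤ C * (x / (Real.log x) ^ U)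

end Pool.Agent.Lib.TN
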