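import Pool.Agent.Lib.TN.SpecT

/-!
MP_00e23e_nt, directory Lib/TN, module Tgs: greatest common divisors on average.
-/

namespace Pool.Agent.Lib.TN

open Finset Pool.Agent.Lib.EH3 Pool.Agent.Lib.TB

private theorem Tgs_count (N g : ℕ) : (∑ m ∈ Icc 1 N, if g ∣ m then (g : ℝ) else 0) ≤ N := by
  rw [← Finset.sum_filter, Finset.sum_const, nsmul_eq_mul]
  have h : (Icc 1 N).filter (fun m => g ∣ m) = (Ioc 0 N).filter (fun m => g ∣ m) := by
    ext m
    simp only [Finset.mem_filter, Finset.mem_Icc, Finset.mem_Ioc]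
    constructor
    · rintro ⟨⟨h1, h2⟩, h3⟩
      exact ⟨⟨by omega, h2⟩, h3⟩
    · rintro ⟨⟨h1, h2⟩, h3⟩
      exact ⟨⟨by omega, h2⟩, h3⟩
  rw [h, Nat.Ioc_filter_dvd_card_eq_div]
  exact_mod_cast Nat.div_mul_le_self N g

private theorem Tgs_gcd (D : ℤ) (m : ℕ) (hD : D ≠ 0) :
    (Int.gcd D m : ℝ) ≤ ∑ g ∈ D.natAbs.divisors, if g ∣ m then (g : ℝ) else 0 := by
  have hg : Int.gcd D m ∈ D.natAbs.divisors := by
    rw [Nat.mem_divisors]
    exact ⟨Nat.gcd_dvd_left _ _, Int.natAbs_ne_zero.2 hD⟩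
  have hd : Int.gcd D m ∣ m := by
    have := Nat.gcd_dvd_right D.natAbs (m : ℤ).natAbs
    rwa [Int.natAbs_natCast] at this
  calc (Int.gcd D m : ℝ) = if Int.gcd D m ∣ m then ((Int.gcd D m : ℕ) : ℝ) else 0 := by
        rw [if_pos hd]
    _ ≤ ∑ g ∈ D.natAbs.divisors, if g ∣ m then (g : ℝ) else 0 :=
        Finset.single_le_sum (f := fun g : ℕ => if g ∣ m then (g : ℝ) else 0)
          (fun i _ => by
            show (0 : ℝ) ≤ if i ∣ m then (i : ℝ) else 0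
            split_ifs
            · exact Nat.cast_nonneg i
            · exact le_rfl) hg

theorem tTgs : TgsStmt := by
  intro D N hD
  calc ∑ m ∈ Icc 1 N, (Int.gcd D m : ℝ)
      ≤ ∑ m ∈ Icc 1 N, ∑ g ∈ D.natAbs.divisors, (if g ∣ m then (g : ℝ) else 0) :=
        Finset.sum_le_sum (fun m _ => Tgs_gcd D m hD)
    _ = ∑ g ∈ D.natAbs.divisors, ∑ m ∈ Icc 1 N, (if g ∣ m then (g : ℝ) else 0) :=
        Finset.sum_comm
    _ ≤ ∑ _g ∈ D.natAbs.divisors, (N : ℝ) := Finset.sum_le_sum (fun g _ => Tgs_count N g)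
    _ = (D.natAbs.divisors.card : ℝ) * N := by
        rw [Finset.sum_const, nsmul_eq_mul]

end Pool.Agent.Lib.TN
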