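import Pool.Agent.Lib.TN.SpecT

/-!
MP_00e23e_nt, directory Lib/TN, module Psl: the choice of a divisor.
-/

namespace Pool.Agent.Lib.TN

open Finset Pool.Agent.Lib.EH3 Pool.Agent.Lib.TB

private theorem Psl_dvd (g n s : ℕ) (hg : 1 ≤ g) (h : s ∣ g * n) : s / Nat.gcd s g ∣ n := by
  have hd : 0 < Nat.gcd s g := Nat.gcd_pos_of_pos_right _ (by omega)
  have e1 : Nat.gcd s g * (s / Nat.gcd s g) = s := Nat.mul_div_cancel' (Nat.gcd_dvd_left s g)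
  have e2 : Nat.gcd s g * (g / Nat.gcd s g) = g := Nat.mul_div_cancel' (Nat.gcd_dvd_right s g)
  have hc : Nat.Coprime (s / Nat.gcd s g) (g / Nat.gcd s g) := Nat.coprime_div_gcd_div_gcd hd
  have h1 : Nat.gcd s g * (s / Nat.gcd s g) ∣ Nat.gcd s g * ((g / Nat.gcd s g) * n) := by
    rw [← mul_assoc, e1, e2]
    exact h
  have h2 : s / Nat.gcd s g ∣ (g / Nat.gcd s g) * n := Nat.dvd_of_mul_dvd_mul_left hd h1
  exact hc.dvd_of_dvd_mul_left h2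

private theorem Psl_one (g n : ℕ) (L1 L2 : ℝ) (hg : 1 ≤ g) (s : ℕ) (h : s ∣ g * n) (h1 : L1 ≤ s)
    (h2 : (s : ℝ) ≤ L2) :
    s / Nat.gcd s g ∣ n ∧ L1 / g ≤ ((s / Nat.gcd s g : ℕ) : ℝ) ∧
      ((s / Nat.gcd s g : ℕ) : ℝ) ≤ L2 := by
  refine ⟨Psl_dvd g n s hg h, ?_, ?_⟩
  · have hg' : (0 : ℝ) < g := by exact_mod_cast hg
    rw [div_le_iff₀ hg']
    have e1 : Nat.gcd s g * (s / Nat.gcd s g) = s := Nat.mul_div_cancel' (Nat.gcd_dvd_left s g)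
    have h3 : Nat.gcd s g ≤ g := Nat.le_of_dvd (by omega) (Nat.gcd_dvd_right s g)
    have h4 : s ≤ s / Nat.gcd s g * g := by
      calc s = Nat.gcd s g * (s / Nat.gcd s g) := e1.symm
        _ ≤ g * (s / Nat.gcd s g) := Nat.mul_le_mul_right _ h3
        _ = s / Nat.gcd s g * g := mul_comm _ _
    calc L1 ≤ (s : ℝ) := h1
      _ ≤ ((s / Nat.gcd s g * g : ℕ) : ℝ) := by exact_mod_cast h4
      _ = ((s / Nat.gcd s g : ℕ) : ℝ) * g := by push_cast; ring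
  · have h5 : s / Nat.gcd s g ≤ s := Nat.div_le_self _ _
    calc ((s / Nat.gcd s g : ℕ) : ℝ) ≤ (s : ℝ) := by exact_mod_cast h5
      _ ≤ L2 := h2

theorem tPsl : PslStmt := by
  intro g L1 L2 c' hg hc
  have key : ∀ n : ℕ, ∃ t : ℕ, 1 ≤ n → c' (g * n) ≠ 0 → t ∣ n ∧ L1 / g ≤ (t : ℝ) ∧ (t : ℝ) ≤ L2 := by
    intro n
    by_cases h : c' (g * n) ≠ 0
    · obtain ⟨-, s, hs, h1, h2⟩ := hc _ h
      exact ⟨s / Nat.gcd s g, fun _ _ => Psl_one g n L1 L2 hg s hs h1 h2⟩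
    · exact ⟨1, fun _ h' => absurd h' h⟩
  choose σ hσ using key
  exact ⟨σ, hσ⟩

end Pool.Agent.Lib.TN
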