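import Pool.Agent.Lib.TN.SpecG

/-!
MP_00e23e_nt, directory Lib/TN, module N2 (helper24): the trivial bound for one greatest common divisor.
-/

namespace Pool.Agent.Lib.TN

open Finset Pool.Agent.Lib.EH3 Pool.Agent.Lib.TB

/-- the count with the weight is nonnegative -/
private theorem N2_ss (h1 : WbStmt) (N j u w : ℕ) (a b : ℤ) (hN : 1 ≤ N) : 0 ≤ SSN N j u w a b := by
  unfold SSN
  refine Finset.sum_nonneg fun n _ => mul_nonneg ((h1 N j hN).1 n) ?_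
  split_ifs
  · exact zero_le_one
  · exact le_refl 0

/-- the main term of one pair -/
private theorem N2_mm (N Q g m n : ℕ) (a b : ℤ) (hQ : 1 ≤ Q) (hg : 1 ≤ g) (hm : Q / g < m) (hn : Q / g < n)
    (hmn : m.Coprime n) :
    0 ≤ MM N (g * m) (g * n) a b ∧ MM N (g * m) (g * n) a b ≤ (N : ℝ) * g / (Q : ℝ) ^ 2 := by
  have hQR : (0 : ℝ) < Q := by exact_mod_cast hQ
  have hb0 : 0 ≤ (N : ℝ) * g / (Q : ℝ) ^ 2 := by positivity
  have hm1 : Q < g * m := by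
    have := (Nat.div_lt_iff_lt_mul hg).1 hm
    rwa [mul_comm] at this
  have hn1 : Q < g * n := by
    have := (Nat.div_lt_iff_lt_mul hg).1 hn
    rwa [mul_comm] at this
  have hgcd : Nat.gcd (g * m) (g * n) = g := by
    rw [Nat.gcd_mul_left, hmn, mul_one]
  have hmR : (Q : ℝ) < ((g * m : ℕ) : ℝ) := by exact_mod_cast hm1
  have hnR : (Q : ℝ) < ((g * n : ℕ) : ℝ) := by exact_mod_cast hn1
  unfold MM
  rw [hgcd]
  split_ifs with hd
  · refine ⟨by positivity, ?_⟩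
    refine div_le_div_of_nonneg_left (by positivity) (by positivity) ?_
    have h3 : (Q : ℝ) * Q ≤ ((g * m : ℕ) : ℝ) * ((g * n : ℕ) : ℝ) :=
      mul_le_mul hmR.le hnR.le hQR.le (hQR.trans hmR).le
    calc (Q : ℝ) ^ 2 = (Q : ℝ) * Q := by ring
      _ ≤ _ := h3
  · exact ⟨le_refl 0, hb0⟩

/-- one pair -/
private theorem N2_pair (h1 : WbStmt) (N j Q g : ℕ) (c c' : ℕ → ℝ) (a b : ℤ) (hN : 1 ≤ N) (hQ : 1 ≤ Q) (hg : 1 ≤ g)
    (hc : ∀ d, |c d| ≤ 1) (hc' : ∀ d, |c' d| ≤ 1) {m n : ℕ} (hm : Q / g < m) (hn : Q / g < n) (hmn : m.Coprime n) :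
    ‖fEN N j g c c' a b m n‖ ≤ SSN N j (g * m) (g * n) a b + (N : ℝ) * g / (Q : ℝ) ^ 2 := by
  have hs := N2_ss h1 N j (g * m) (g * n) a b hN
  obtain ⟨hm0, hm1⟩ := N2_mm N Q g m n a b hQ hg hm hn hmn
  unfold fEN
  rw [Complex.norm_real, Real.norm_eq_abs, abs_mul, abs_mul]
  have h6 : |c (g * m)| * |c' (g * n)| ≤ 1 := mul_le_one₀ (hc _) (abs_nonneg _) (hc' _)
  have h7 : |SSN N j (g * m) (g * n) a b - MM N (g * m) (g * n) a b| ≤
      SSN N j (g * m) (g * n) a b + MM N (g * m) (g * n) a b := by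
    rw [abs_le]
    constructor <;> linarith
  calc |c (g * m)| * |c' (g * n)| * |SSN N j (g * m) (g * n) a b - MM N (g * m) (g * n) a b|
      ≤ 1 * |SSN N j (g * m) (g * n) a b - MM N (g * m) (g * n) a b| :=
        mul_le_mul_of_nonneg_right h6 (abs_nonneg _)
    _ ≤ _ := by
        rw [one_mul]
        linarith

/-- the number of indices -/
private theorem N2_card (Q g : ℕ) : (((Ioc (Q / g) (2 * Q / g)).card : ℕ) : ℝ) ≤ 2 * (Q : ℝ) / g := by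
  rw [Nat.card_Ioc]
  have h1 : (((2 * Q / g - Q / g : ℕ)) : ℝ) ≤ ((2 * Q / g : ℕ) : ℝ) := by
    exact_mod_cast Nat.sub_le _ _
  have h2 : ((2 * Q / g : ℕ) : ℝ) ≤ ((2 * Q : ℕ) : ℝ) / g := Nat.cast_div_le
  push_cast at h2
  exact h1.trans h2

/-- the sum of the bounds over the pairs -/
private theorem N2_sum (h1 : WbStmt) (N j Q g : ℕ) (c c' : ℕ → ℝ) (a b : ℤ) (hN : 1 ≤ N) (hQ : 1 ≤ Q) (hg : 1 ≤ g)
    (hc : ∀ d, |c d| ≤ 1) (hc' : ∀ d, |c' d| ≤ 1) :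
    ‖pg Q g (fEN N j g c c' a b)‖ ≤
      (∑ m ∈ Ioc (Q / g) (2 * Q / g), ∑ n ∈ Ioc (Q / g) (2 * Q / g), SSN N j (g * m) (g * n) a b) +
        4 * ((N : ℝ) / g) := by
  have hgR : (0 : ℝ) < g := by exact_mod_cast hg
  have hQR : (0 : ℝ) < Q := by exact_mod_cast hQ
  set B : ℝ := (N : ℝ) * g / (Q : ℝ) ^ 2 with hB
  have hB0 : 0 ≤ B := by positivity
  have hcard := N2_card Q g
  unfold pg
  have h2 : ∀ m ∈ Ioc (Q / g) (2 * Q / g),
      ‖∑ n ∈ (Ioc (Q / g) (2 * Q / g)).filter (fun n => m.Coprime n), fEN N j g c c' a b m n‖ ≤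
        (∑ n ∈ Ioc (Q / g) (2 * Q / g), SSN N j (g * m) (g * n) a b) + 2 * (Q : ℝ) / g * B := by
    intro m hm
    refine (norm_sum_le _ _).trans ?_
    have h3 : ∀ n ∈ (Ioc (Q / g) (2 * Q / g)).filter (fun n => m.Coprime n),
        ‖fEN N j g c c' a b m n‖ ≤ SSN N j (g * m) (g * n) a b + B := by
      intro n hn
      rw [mem_filter, mem_Ioc] at hn
      exact N2_pair h1 N j Q g c c' a b hN hQ hg hc hc' (mem_Ioc.1 hm).1 hn.1.1 hn.2
    refine (Finset.sum_le_sum h3).trans ?_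
    have h4 : ∑ n ∈ (Ioc (Q / g) (2 * Q / g)).filter (fun n => m.Coprime n),
        (SSN N j (g * m) (g * n) a b + B) ≤
        ∑ n ∈ Ioc (Q / g) (2 * Q / g), (SSN N j (g * m) (g * n) a b + B) := by
      refine Finset.sum_le_sum_of_subset_of_nonneg (Finset.filter_subset _ _) fun n _ _ => ?_
      have := N2_ss h1 N j (g * m) (g * n) a b hN
      linarith
    refine h4.trans ?_
    rw [Finset.sum_add_distrib, Finset.sum_const, nsmul_eq_mul]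
    have h5 : (((Ioc (Q / g) (2 * Q / g)).card : ℕ) : ℝ) * B ≤ 2 * (Q : ℝ) / g * B :=
      mul_le_mul_of_nonneg_right hcard hB0
    linarith
  refine (norm_sum_le _ _).trans ((Finset.sum_le_sum h2).trans ?_)
  rw [Finset.sum_add_distrib, Finset.sum_const, nsmul_eq_mul]
  have h6 : (((Ioc (Q / g) (2 * Q / g)).card : ℕ) : ℝ) * (2 * (Q : ℝ) / g * B) ≤
      2 * (Q : ℝ) / g * (2 * (Q : ℝ) / g * B) :=
    mul_le_mul_of_nonneg_right hcard (by positivity)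
  have h7 : 2 * (Q : ℝ) / g * (2 * (Q : ℝ) / g * B) = 4 * ((N : ℝ) / g) := by
    rw [hB]
    field_simp
    ring
  linarith

theorem tN2 (h1 : WbStmt) (h2 : SN2a) : SN2 := by
  intro ε j hε
  obtain ⟨C, hC0, hC⟩ := h2 ε j hε
  refine ⟨C + 4, by linarith, ?_⟩
  intro N Q g c c' a b hN hQ hg hc hc' hab ha hb
  have hgR : (0 : ℝ) < g := by exact_mod_cast hg
  have hNR : (1 : ℝ) ≤ N := by exact_mod_cast hN
  have hQR : (0 : ℝ) ≤ Q := Nat.cast_nonneg _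
  have hs := hC N Q g a b hN hQ hg hab ha hb
  have hp : (1 : ℝ) ≤ (N : ℝ) ^ ε := Real.one_le_rpow hNR hε.le
  have hd0 : (0 : ℝ) ≤ (N : ℝ) / g := by positivity
  refine (N2_sum h1 N j Q g c c' a b hN hQ hg hc hc').trans ?_
  have h8 : 4 * ((N : ℝ) / g) ≤ 4 * ((N : ℝ) ^ ε * ((N : ℝ) / g + Q + 1)) := by
    have h9 : (N : ℝ) / g ≤ (N : ℝ) ^ ε * ((N : ℝ) / g + Q + 1) := by
      have h10 : (N : ℝ) / g + Q + 1 ≤ (N : ℝ) ^ ε * ((N : ℝ) / g + Q + 1) :=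
        le_mul_of_one_le_left (by linarith) hp
      linarith
    linarith
  calc (∑ m ∈ Ioc (Q / g) (2 * Q / g), ∑ n ∈ Ioc (Q / g) (2 * Q / g), SSN N j (g * m) (g * n) a b) +
        4 * ((N : ℝ) / g)
      ≤ C * (N : ℝ) ^ ε * ((N : ℝ) / g + Q + 1) + 4 * ((N : ℝ) ^ ε * ((N : ℝ) / g + Q + 1)) := by
        linarith
    _ = (C + 4) * (N : ℝ) ^ ε * ((N : ℝ) / g + Q + 1) := by ring

end Pool.Agent.Lib.TN
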