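import Pool.Agent.Lib.TN.SpecG
set_option autoImplicit false

namespace Pool.Agent.Lib.TN

open Finset Pool.Agent.Lib.EH3 Pool.Agent.Lib.TB

theorem tN3 (h : SszeNStmt) : SN3 := by
  intro N j Q g c c' a b hg
  unfold pg
  apply sum_eq_zero
  intro m _
  apply sum_eq_zero
  intro n hn
  have hc : m.Coprime n := (mem_filter.mp hn).2
  have hgcd : Nat.gcd (g * m) (g * n) = g := by
    rw [Nat.gcd_mul_left, hc.gcd_eq_one, mul_one]
  have hnd : ¬ (((Nat.gcd (g * m) (g * n) : ℕ) : ℤ) ∣ a - b) := by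
    rw [hgcd]
    intro hd
    apply hg
    have := (dvd_neg (a := (g : ℤ))).mpr hd
    rwa [neg_sub] at this
  obtain ⟨h1, h2⟩ := h N j (g * m) (g * n) a b hnd
  unfold fEN
  rw [h1, h2]
  simp

end Pool.Agent.Lib.TN
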