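import Pool.Agent.Lib.TN.SpecG
import Pool.Agent.Lib.TB.Basic

/-!
MP_00e23e_nt, directory Lib/TN (THEOREM N), module N4: the error term of one pair (adaptation of G4 of Lib/TB).
-/

namespace Pool.Agent.Lib.TN

open Finset Pool.Agent.Lib.EH3 Pool.Agent.Lib.TB

private lemma N4_phase {g m n : ℕ} (hg : 1 ≤ g) (hm : 1 ≤ m) (hn : 1 ≤ n) (h K : ℤ) (t a w : ℝ) :
    (h : ℝ) * (t - (a + (g : ℝ) * m * K * w)) / ((g : ℝ) * m * n) =
      ((-(h * K) : ℤ) : ℝ) * w / (n : ℝ) + ((h : ℝ) * (t - a) / g) / ((m : ℝ) * n) := by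
  have h1 : (g : ℝ) ≠ 0 := by positivity
  have h2 : (m : ℝ) ≠ 0 := by positivity
  have h3 : (n : ℝ) ≠ 0 := by positivity
  push_cast
  field_simp
  ring

theorem tN4 (h1 : TruncNStmt) (h2 : SsclNStmt) : SN4 := by
  intro N j H g m n a b hN hH hg hm hn hmn hdvd hH2
  obtain ⟨K, hK⟩ := hdvd
  have hg0 : (g : ℤ) ≠ 0 := by positivity
  have hKe : (b - a) / (g : ℤ) = K := by
    rw [hK, Int.mul_ediv_cancel_left _ hg0]
  rw [hKe]
  set ν : ℤ := a + (g : ℤ) * m * K * (iv m n : ℤ) with hν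
  have hq : Nat.lcm (g * m) (g * n) = g * m * n := by
    rw [Nat.lcm_mul_left, hmn.lcm_eq_mul, mul_assoc]
  have hd1 : (((g * m : ℕ) : ℤ)) ∣ ν - a := by
    refine ⟨K * (iv m n : ℤ), ?_⟩
    rw [hν]
    push_cast
    ring
  have hd2 : (((g * n : ℕ) : ℤ)) ∣ ν - b := by
    obtain ⟨c, hc⟩ := iv_dvd hmn hn
    refine ⟨K * c, ?_⟩
    have h3 : ν - b = (g : ℤ) * K * ((iv m n : ℤ) * m - 1) := by
      rw [hν]
      linear_combination (-1 : ℤ) * hK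
    rw [h3, hc]
    push_cast
    ring
  obtain ⟨hS, hM⟩ := h2 N j (g * m) (g * n) a b ν (Nat.mul_pos hg hm) (Nat.mul_pos hg hn) hd1 hd2
  rw [hS, hM, hq]
  have h4 := h1 N j (g * m * n) H ν hN (Nat.mul_pos (Nat.mul_pos hg hm) hn) hH hH2
  have h5 : ((clN N j (g * m * n) ν - (N : ℝ) / ((g * m * n : ℕ) : ℝ) : ℝ) : ℂ) =
      ((clN N j (g * m * n) ν : ℝ) : ℂ) - (N : ℂ) / ((g * m * n : ℕ) : ℂ) := by
    push_cast
    rfl
  have h6 : (1 / ((g : ℂ) * m * n)) = (1 / ((g * m * n : ℕ) : ℂ)) := by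
    push_cast
    rfl
  have h7 : ((g : ℝ) * m * n / ((N : ℝ) * H)) = (((g * m * n : ℕ) : ℝ) / ((N : ℝ) * H)) := by
    push_cast
    rfl
  have h8 : ∀ (h : ℕ) (t : ℤ),
      eB ((h : ℤ) * (-K)) ((h : ℝ) * (((t : ℝ) - a) / g)) m n =
        ee ((h : ℝ) * ((t : ℝ) - (ν : ℝ)) / ((g * m * n : ℕ) : ℝ)) ∧
      eB ((h : ℤ) * K) ((h : ℝ) * (-(((t : ℝ) - a) / g))) m n =
        ee (-((h : ℝ) * ((t : ℝ) - (ν : ℝ)) / ((g * m * n : ℕ) : ℝ))) := by
    intro h t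
    have h9 := N4_phase hg hm hn (h : ℤ) K (t : ℝ) (a : ℝ) (iv m n : ℝ)
    have h10 : (ν : ℝ) = (a : ℝ) + (g : ℝ) * m * K * (iv m n : ℝ) := by
      rw [hν]
      push_cast
      ring
    have h11 : ((h : ℤ) : ℝ) = (h : ℝ) := by norm_cast
    rw [h11] at h9
    have h12 : ((g * m * n : ℕ) : ℝ) = (g : ℝ) * m * n := by push_cast; ring
    constructor
    · unfold eB
      rw [h10, h12, h9]
      congr 1
      push_cast
      ring
    · unfold eB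
      rw [h10, h12, h9]
      congr 1
      push_cast
      ring
  rw [h5, h6, h7]
  refine le_trans (le_of_eq ?_) h4
  congr 2
  refine congrArg _ (Finset.sum_congr rfl fun h _ => Finset.sum_congr rfl fun t _ => ?_)
  rw [(h8 h t).1, (h8 h t).2]

end Pool.Agent.Lib.TN
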