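import Pool.Agent.Lib.TN.SpecG
set_option autoImplicit false

namespace Pool.Agent.Lib.TN

open Finset Pool.Agent.Lib.EH3 Pool.Agent.Lib.TB

/-- the main part of the term of a pair -/
private noncomputable def N6_W (N j H g : ℕ) (c c' : ℕ → ℝ) (a b : ℤ) (m n : ℕ) : ℂ :=
  ((c (g * m) * c' (g * n) : ℝ) : ℂ) * ((1 / ((g : ℂ) * m * n)) * ∑ h ∈ Icc 1 H,
    ∑ t ∈ Iw N j, ((wt N j t : ℝ) : ℂ) *
      (eB ((h : ℤ) * (-((b - a) / g))) ((h : ℝ) * (((t : ℝ) - a) / g)) m n +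
        eB ((h : ℤ) * ((b - a) / g)) ((h : ℝ) * (-(((t : ℝ) - a) / g))) m n))

/-- the summands of the bilinear forms -/
private noncomputable def N6_v (g : ℕ) (c c' : ℕ → ℝ) (th : ℤ) (vt : ℝ) (m n : ℕ) : ℂ :=
  ((c (g * m) * c' (g * n) : ℝ) : ℂ) * (1 / ((m : ℂ) * n)) * eB th vt m n

private lemma N6_pg_sub (Q g : ℕ) (f f' : ℕ → ℕ → ℂ) :
    pg Q g f - pg Q g f' = pg Q g (fun m n => f m n - f' m n) := by
  unfold pg
  rw [← sum_sub_distrib]
  apply sum_congr rfl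
  intro m _
  rw [← sum_sub_distrib]

private lemma N6_pg_add (Q g : ℕ) (f f' : ℕ → ℕ → ℂ) :
    pg Q g (fun m n => f m n + f' m n) = pg Q g f + pg Q g f' := by
  unfold pg
  rw [← sum_add_distrib]
  apply sum_congr rfl
  intro m _
  rw [← sum_add_distrib]

private lemma N6_pg_mul (Q g : ℕ) (z : ℂ) (f : ℕ → ℕ → ℂ) :
    pg Q g (fun m n => z * f m n) = z * pg Q g f := by
  unfold pg
  rw [mul_sum]
  apply sum_congr rfl
  intro m _
  rw [mul_sum]

private lemma N6_pg_sum {ι : Type} (s : Finset ι) (Q g : ℕ) (f : ι → ℕ → ℕ → ℂ) :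
    pg Q g (fun m n => ∑ i ∈ s, f i m n) = ∑ i ∈ s, pg Q g (f i) := by
  classical
  induction s using Finset.induction_on with
  | empty =>
    simp only [sum_empty]
    unfold pg
    simp
  | insert i s hi ih =>
    simp only [sum_insert hi]
    rw [N6_pg_add, ih]

private lemma N6_pg_congr (Q g : ℕ) (f f' : ℕ → ℕ → ℂ)
    (h : ∀ m n, m ∈ Ioc (Q / g) (2 * Q / g) → n ∈ Ioc (Q / g) (2 * Q / g) → m.Coprime n →
      f m n = f' m n) : pg Q g f = pg Q g f' := by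
  unfold pg
  apply sum_congr rfl
  intro m hm
  apply sum_congr rfl
  intro n hn
  rw [mem_filter] at hn
  exact h m n hm hn.1 hn.2

private lemma N6_pg_norm (Q g : ℕ) (f : ℕ → ℕ → ℂ) (B : ℝ) (hB : 0 ≤ B)
    (h : ∀ m n, m ∈ Ioc (Q / g) (2 * Q / g) → n ∈ Ioc (Q / g) (2 * Q / g) → m.Coprime n →
      ‖f m n‖ ≤ B) : ‖pg Q g f‖ ≤ (2 * (Q : ℝ)) ^ 2 * B := by
  have hc : ((Ioc (Q / g) (2 * Q / g)).card : ℝ) ≤ 2 * (Q : ℝ) := by
    rw [Nat.card_Ioc]
    have : 2 * Q / g - Q / g ≤ 2 * Q := by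
      refine (Nat.sub_le _ _).trans (Nat.div_le_self _ _)
    exact_mod_cast this
  unfold pg
  calc ‖∑ m ∈ Ioc (Q / g) (2 * Q / g),
        ∑ n ∈ (Ioc (Q / g) (2 * Q / g)).filter (fun n => m.Coprime n), f m n‖
      ≤ ∑ m ∈ Ioc (Q / g) (2 * Q / g),
        ‖∑ n ∈ (Ioc (Q / g) (2 * Q / g)).filter (fun n => m.Coprime n), f m n‖ := norm_sum_le _ _
    _ ≤ ∑ _m ∈ Ioc (Q / g) (2 * Q / g), (2 * (Q : ℝ)) * B := by
        apply sum_le_sum
        intro m hm
        calc ‖∑ n ∈ (Ioc (Q / g) (2 * Q / g)).filter (fun n => m.Coprime n), f m n‖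
            ≤ ∑ n ∈ (Ioc (Q / g) (2 * Q / g)).filter (fun n => m.Coprime n), ‖f m n‖ :=
              norm_sum_le _ _
          _ ≤ ∑ _n ∈ (Ioc (Q / g) (2 * Q / g)).filter (fun n => m.Coprime n), B := by
              apply sum_le_sum
              intro n hn
              rw [mem_filter] at hn
              exact h m n hm hn.1 hn.2
          _ = (((Ioc (Q / g) (2 * Q / g)).filter (fun n => m.Coprime n)).card : ℝ) * B := by
              rw [sum_const, nsmul_eq_mul]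
          _ ≤ (2 * (Q : ℝ)) * B := by
              apply mul_le_mul_of_nonneg_right _ hB
              refine le_trans ?_ hc
              exact_mod_cast card_filter_le _ _
    _ = ((Ioc (Q / g) (2 * Q / g)).card : ℝ) * ((2 * (Q : ℝ)) * B) := by
        rw [sum_const, nsmul_eq_mul]
    _ ≤ (2 * (Q : ℝ)) * ((2 * (Q : ℝ)) * B) := by
        apply mul_le_mul_of_nonneg_right hc (by positivity)
    _ = (2 * (Q : ℝ)) ^ 2 * B := by ring

theorem tN6 (h1 : WbStmt) (h4 : SN4) (h5 : PgtStmt) : SN6 := by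
  intro ε j hε
  obtain ⟨C, hC, hC5⟩ := h5 ε hε
  refine ⟨6 * ((j : ℝ) + 1) * ((j : ℝ) + 2) * C, by positivity, ?_⟩
  intro N Q H g L1 L2 c c' a b hN hH hg hgQ hHg hL1 hL12 hL2 hc hc' hconv hab ha hb hdvd
  have hN' : (1 : ℝ) ≤ N := by exact_mod_cast hN
  have hH' : (1 : ℝ) ≤ H := by exact_mod_cast hH
  have hg' : (1 : ℝ) ≤ g := by exact_mod_cast hg
  have hP1 : 1 ≤ Q / g := (Nat.one_le_div_iff (by omega)).mpr hgQ
  have hP : (1 : ℝ) ≤ ((Q / g : ℕ) : ℝ) := by exact_mod_cast hP1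
  have hQ1 : 1 ≤ Q := le_trans hg hgQ
  have hQ' : (1 : ℝ) ≤ Q := by exact_mod_cast hQ1
  obtain ⟨K, hK⟩ := hdvd
  have hK1 : (b - a) / (g : ℤ) = K := by
    rw [hK]
    exact Int.mul_ediv_cancel_left K (by omega)
  have hK0 : K ≠ 0 := by
    rintro rfl
    apply hab
    rw [mul_zero] at hK
    omega
  have hcc : ∀ m n : ℕ, ‖((c (g * m) * c' (g * n) : ℝ) : ℂ)‖ ≤ 1 := by
    intro m n
    rw [Complex.norm_real, Real.norm_eq_abs, abs_mul]
    have := mul_le_mul (hc (g * m)) (hc' (g * n)) (abs_nonneg _) zero_le_one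
    linarith
  -- bounds for the pairs
  have hmem : ∀ m, m ∈ Ioc (Q / g) (2 * Q / g) → 1 ≤ m ∧ Q < g * m ∧ g * m ≤ 2 * Q := by
    intro m hm
    rw [mem_Ioc] at hm
    refine ⟨by omega, ?_, ?_⟩
    · have := (Nat.div_lt_iff_lt_mul (by omega : 0 < g)).mp hm.1
      rw [mul_comm]
      exact this
    · have := (Nat.le_div_iff_mul_le (by omega : 0 < g)).mp hm.2
      rw [mul_comm]
      exact this
  -- the error part
  have e1 : ‖pg Q g (fEN N j g c c' a b) - pg Q g (N6_W N j H g c c' a b)‖ ≤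
      4 * (Q : ℝ) ^ 2 * (4 * (Q : ℝ) ^ 2 / ((N : ℝ) * H)) ^ (2 * j + 1) := by
    rw [N6_pg_sub]
    refine (N6_pg_norm Q g _ ((4 * (Q : ℝ) ^ 2 / ((N : ℝ) * H)) ^ (2 * j + 1))
      (by positivity) ?_).trans ?_
    · intro m n hm hn hmn
      obtain ⟨m1, m2, m3⟩ := hmem m hm
      obtain ⟨n1, n2, n3⟩ := hmem n hn
      have hgmn : (g * m) * (g * n) = g * (g * m * n) := by ring
      have hlow : 2 * H < g * m * n := by
        have h1 : Q * Q < (g * m) * (g * n) := Nat.mul_lt_mul'' m2 n2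
        rw [hgmn] at h1
        by_contra hcon
        push Not at hcon
        have h2 : g * (g * m * n) ≤ g * (2 * H) := Nat.mul_le_mul_left g hcon
        have h3 : Q * Q < g * (2 * H) := lt_of_lt_of_le h1 h2
        have h4 : 2 * H * g = g * (2 * H) := by ring
        rw [pow_two, h4] at hHg
        omega
      have hup : (g : ℝ) * m * n ≤ 4 * (Q : ℝ) ^ 2 := by
        have h1 : g * m * n ≤ (g * m) * (g * n) := by
          calc g * m * n = (g * m) * (1 * n) := by ring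
            _ ≤ (g * m) * (g * n) := Nat.mul_le_mul_left _ (Nat.mul_le_mul_right _ hg)
        have h2 : (g * m) * (g * n) ≤ (2 * Q) * (2 * Q) := Nat.mul_le_mul m3 n3
        have h3 : g * m * n ≤ 4 * Q ^ 2 := by
          calc g * m * n ≤ (2 * Q) * (2 * Q) := h1.trans h2
            _ = 4 * Q ^ 2 := by ring
        exact_mod_cast h3
      have h4' := h4 N j H g m n a b hN hH hg m1 n1 hmn ⟨K, hK⟩ hlow
      have e : fEN N j g c c' a b m n - N6_W N j H g c c' a b m n =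
          ((c (g * m) * c' (g * n) : ℝ) : ℂ) *
          (((SSN N j (g * m) (g * n) a b - MM N (g * m) (g * n) a b : ℝ) : ℂ) -
            (1 / ((g : ℂ) * m * n)) * ∑ h ∈ Icc 1 H, ∑ t ∈ Iw N j,
            ((wt N j t : ℝ) : ℂ) *
        (eB ((h : ℤ) * (-((b - a) / g))) ((h : ℝ) * (((t : ℝ) - a) / g)) m n +
          eB ((h : ℤ) * ((b - a) / g)) ((h : ℝ) * (-(((t : ℝ) - a) / g))) m n)) := by
        unfold fEN N6_W
        push_cast
        ring
      rw [e, norm_mul]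
      calc _ ≤ 1 * ((g : ℝ) * m * n / ((N : ℝ) * H)) ^ (2 * j + 1) :=
            mul_le_mul (hcc m n) h4' (norm_nonneg _) zero_le_one
        _ = ((g : ℝ) * m * n / ((N : ℝ) * H)) ^ (2 * j + 1) := one_mul _
        _ ≤ (4 * (Q : ℝ) ^ 2 / ((N : ℝ) * H)) ^ (2 * j + 1) := by
            apply pow_le_pow_left₀ (by positivity)
            apply div_le_div_of_nonneg_right hup (by positivity)
    · apply le_of_eq
      ring
  -- the main part
  have e2 : pg Q g (N6_W N j H g c c' a b) = ∑ t ∈ Iw N j,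
      (((wt N j t : ℝ) : ℂ) * (1 / (g : ℂ))) *
      ((∑ h ∈ Icc 1 H, pg Q g (N6_v g c c' ((h : ℤ) * (-((b - a) / g)))
          ((h : ℝ) * (((t : ℝ) - a) / g)))) +
        ∑ h ∈ Icc 1 H, pg Q g (N6_v g c c' ((h : ℤ) * ((b - a) / g))
          ((h : ℝ) * (-(((t : ℝ) - a) / g))))) := by
    have s1 : ∀ m n : ℕ, N6_W N j H g c c' a b m n = ∑ t ∈ Iw N j, ∑ h ∈ Icc 1 H,
        (((wt N j t : ℝ) : ℂ) * (1 / (g : ℂ))) *
        (N6_v g c c' ((h : ℤ) * (-((b - a) / g))) ((h : ℝ) * (((t : ℝ) - a) / g)) m n +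
          N6_v g c c' ((h : ℤ) * ((b - a) / g)) ((h : ℝ) * (-(((t : ℝ) - a) / g))) m n) := by
      intro m n
      have hinv : (1 / ((g : ℂ) * m * n)) = (1 / (g : ℂ)) * (1 / ((m : ℂ) * n)) := by
        rw [mul_assoc, one_div_mul_one_div]
      unfold N6_W N6_v
      rw [hinv, mul_sum, mul_sum, sum_comm]
      apply sum_congr rfl
      intro h _
      rw [mul_sum, mul_sum]
      apply sum_congr rfl
      intro t _
      ring
    rw [N6_pg_congr Q g _ _ (fun m n _ _ _ => s1 m n), N6_pg_sum]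
    apply sum_congr rfl
    intro t _
    rw [N6_pg_sum, ← sum_add_distrib, mul_sum]
    apply sum_congr rfl
    intro h _
    rw [N6_pg_mul, N6_pg_add]
  have hP0 : (0 : ℝ) < ((Q / g : ℕ) : ℝ) := by linarith
  have hL1p : 0 < L1 := by linarith
  have hL2p : 0 < L2 := by linarith
  set X : ℝ := ((H : ℝ) * g / L1) ^ ((1 : ℝ) / 2) +
    (H : ℝ) * (L2 / ((Q / g : ℕ) : ℝ)) ^ ((1 : ℝ) / 4) with hXdef
  have hX0 : 0 ≤ X := by positivity
  set Y : ℝ := ((Q : ℝ) * H * (2 * N)) ^ ε with hYdef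
  have hY0 : 0 ≤ Y := by positivity
  set Z : ℝ := 1 + (H : ℝ) * N / ((Q / g : ℕ) : ℝ) ^ 2 with hZdef
  have hZ0 : 0 ≤ Z := by positivity
  have hKabs : |(K : ℝ)| ≤ 2 * (N : ℝ) := by
    have h1 : |K| ≤ |b - a| := by
      rw [hK, abs_mul]
      have : (1 : ℤ) ≤ |(g : ℤ)| := by
        rw [abs_of_nonneg (by positivity)]
        exact_mod_cast hg
      calc |K| = 1 * |K| := (one_mul _).symm
        _ ≤ |(g : ℤ)| * |K| := mul_le_mul_of_nonneg_right this (abs_nonneg _)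
    have h2 : |b - a| ≤ 2 * (N : ℤ) := by
      have := abs_sub b a
      linarith
    have h3 : |K| ≤ 2 * (N : ℤ) := h1.trans h2
    exact_mod_cast h3
  have haR : |(a : ℝ)| ≤ N := by exact_mod_cast ha
  -- the bilinear forms
  have e3 : ∀ (th : ℤ) (vt : ℝ), th ≠ 0 → |(th : ℝ)| ≤ 2 * (N : ℝ) → |vt| ≤ ((j : ℝ) + 2) * N →
      ‖∑ h ∈ Icc 1 H, pg Q g (N6_v g c c' ((h : ℤ) * th) ((h : ℝ) * vt))‖ ≤
        C * Y * (((j : ℝ) + 2) * Z) * X := by
    intro th vt hth hth1 hvt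
    have h5' := hC5 Q g H L1 L2 c c' th vt hg hgQ hH hL1 hL12 hL2 hc hc' hconv hth
    refine le_trans h5' ?_
    have b1 : ((Q : ℝ) * H * |(th : ℝ)|) ^ ε ≤ Y := by
      rw [hYdef]
      apply Real.rpow_le_rpow (by positivity) _ hε.le
      exact mul_le_mul_of_nonneg_left hth1 (by positivity)
    have b2 : 1 + (H : ℝ) * |vt| / ((Q / g : ℕ) : ℝ) ^ 2 ≤ ((j : ℝ) + 2) * Z := by
      have b3 : (H : ℝ) * |vt| / ((Q / g : ℕ) : ℝ) ^ 2 ≤
          ((j : ℝ) + 2) * ((H : ℝ) * N / ((Q / g : ℕ) : ℝ) ^ 2) := by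
        rw [← mul_div_assoc]
        apply div_le_div_of_nonneg_right _ (by positivity)
        have := mul_le_mul_of_nonneg_left hvt (by linarith : (0 : ℝ) ≤ H)
        linarith
      rw [hZdef]
      have hj0 : (0 : ℝ) ≤ j := Nat.cast_nonneg j
      linarith
    apply mul_le_mul_of_nonneg_right _ hX0
    apply mul_le_mul _ b2 (by positivity) (by positivity)
    exact mul_le_mul_of_nonneg_left b1 hC
  have e4 : ‖pg Q g (N6_W N j H g c c' a b)‖ ≤
      (3 * ((j : ℝ) + 1) * N) * (2 * (C * Y * (((j : ℝ) + 2) * Z) * X)) := by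
    rw [e2]
    have hterm : ∀ t ∈ Iw N j,
        ‖(((wt N j t : ℝ) : ℂ) * (1 / (g : ℂ))) *
      ((∑ h ∈ Icc 1 H, pg Q g (N6_v g c c' ((h : ℤ) * (-((b - a) / g)))
          ((h : ℝ) * (((t : ℝ) - a) / g)))) +
        ∑ h ∈ Icc 1 H, pg Q g (N6_v g c c' ((h : ℤ) * ((b - a) / g))
          ((h : ℝ) * (-(((t : ℝ) - a) / g)))))‖ ≤
        2 * (C * Y * (((j : ℝ) + 2) * Z) * X) := by
      intro t ht
      unfold Iw at ht
      rw [mem_Icc] at ht
      rw [hK1]
      have htR : |(t : ℝ)| ≤ ((j : ℝ) + 1) * N := by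
        have : |t| ≤ (((j + 1) * N : ℕ) : ℤ) := abs_le.mpr ht
        have h2 : |(t : ℝ)| ≤ (((j + 1) * N : ℕ) : ℝ) := by exact_mod_cast this
        push_cast at h2
        exact h2
      have hv : |((t : ℝ) - a) / g| ≤ ((j : ℝ) + 2) * N := by
        rw [abs_div, abs_of_nonneg (by linarith : (0 : ℝ) ≤ g), div_le_iff₀ (by linarith)]
        have g1 : |(t : ℝ) - a| ≤ ((j : ℝ) + 2) * N := by
          have := abs_sub (t : ℝ) (a : ℝ)
          linarith
        have g2 : ((j : ℝ) + 2) * N * 1 ≤ ((j : ℝ) + 2) * N * g :=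
          mul_le_mul_of_nonneg_left hg' (by positivity)
        linarith
      have p1 := e3 K (-(((t : ℝ) - a) / g)) hK0 hKabs (by rw [abs_neg]; exact hv)
      have p2 := e3 (-K) (((t : ℝ) - a) / g) (neg_ne_zero.mpr hK0)
        (by push_cast; rw [abs_neg]; exact hKabs) hv
      have q1 : ‖((wt N j t : ℝ) : ℂ) * (1 / (g : ℂ))‖ ≤ 1 := by
        rw [norm_mul, Complex.norm_real, Real.norm_eq_abs, norm_div, norm_one, Complex.norm_natCast]
        obtain ⟨w1, w2, -, -⟩ := h1 N j hN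
        have r1 : |wt N j t| ≤ 1 := by
          rw [abs_of_nonneg (w1 t)]
          exact w2 t
        have r2 : 1 / (g : ℝ) ≤ 1 := by
          rw [div_le_one (by linarith)]
          exact hg'
        have := mul_le_mul r1 r2 (by positivity) zero_le_one
        linarith
      rw [norm_mul]
      calc _ ≤ 1 * (C * Y * (((j : ℝ) + 2) * Z) * X + C * Y * (((j : ℝ) + 2) * Z) * X) := by
            apply mul_le_mul q1 _ (norm_nonneg _) zero_le_one
            exact (norm_add_le _ _).trans (add_le_add p2 p1)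
        _ = 2 * (C * Y * (((j : ℝ) + 2) * Z) * X) := by ring
    calc _ ≤ ∑ t ∈ Iw N j, ‖(((wt N j t : ℝ) : ℂ) * (1 / (g : ℂ))) *
      ((∑ h ∈ Icc 1 H, pg Q g (N6_v g c c' ((h : ℤ) * (-((b - a) / g)))
          ((h : ℝ) * (((t : ℝ) - a) / g)))) +
        ∑ h ∈ Icc 1 H, pg Q g (N6_v g c c' ((h : ℤ) * ((b - a) / g))
          ((h : ℝ) * (-(((t : ℝ) - a) / g)))))‖ := norm_sum_le _ _
      _ ≤ ∑ _t ∈ Iw N j, 2 * (C * Y * (((j : ℝ) + 2) * Z) * X) := sum_le_sum hterm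
      _ = ((Iw N j).card : ℝ) * (2 * (C * Y * (((j : ℝ) + 2) * Z) * X)) := by
          rw [sum_const, nsmul_eq_mul]
      _ ≤ (3 * ((j : ℝ) + 1) * N) * (2 * (C * Y * (((j : ℝ) + 2) * Z) * X)) := by
          apply mul_le_mul_of_nonneg_right _ (by positivity)
          unfold Iw
          rw [Int.card_Icc]
          have h0 : ((((j + 1) * N : ℕ) : ℤ) + 1 - -(((j + 1) * N : ℕ) : ℤ)).toNat =
              2 * ((j + 1) * N) + 1 := by omega
          rw [h0]
          push_cast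
          have hj0 : (0 : ℝ) ≤ j := Nat.cast_nonneg j
          have : (1 : ℝ) ≤ ((j : ℝ) + 1) * N := by
            have := mul_le_mul (by linarith : (1 : ℝ) ≤ (j : ℝ) + 1) hN' zero_le_one
              (by linarith)
            linarith
          linarith
  calc ‖pg Q g (fEN N j g c c' a b)‖
      = ‖(pg Q g (fEN N j g c c' a b) - pg Q g (N6_W N j H g c c' a b)) +
        pg Q g (N6_W N j H g c c' a b)‖ := by rw [sub_add_cancel]
    _ ≤ 4 * (Q : ℝ) ^ 2 * (4 * (Q : ℝ) ^ 2 / ((N : ℝ) * H)) ^ (2 * j + 1) +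
        (3 * ((j : ℝ) + 1) * N) * (2 * (C * Y * (((j : ℝ) + 2) * Z) * X)) :=
        (norm_add_le _ _).trans (add_le_add e1 e4)
    _ = _ := by ring

end Pool.Agent.Lib.TN
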