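import Pool.Agent.Lib.TN.SpecG

/-!
MP_00e23e_nt, Lib/TN, module N7: the exponents.
-/

namespace Pool.Agent.Lib.TN

open Finset Pool.Agent.Lib.EH3 Pool.Agent.Lib.TB

private lemma N7_mono {x a b : ℝ} (hx : 1 ≤ x) (h : a ≤ b) : x ^ a ≤ x ^ b :=
  Real.rpow_le_rpow_of_exponent_le hx h

private lemma N7_mul {x : ℝ} (hx : 0 < x) (a b : ℝ) : x ^ a * x ^ b = x ^ (a + b) :=
  (Real.rpow_add hx a b).symm

/-- the first term -/
private lemma N7_one {x δ ε q h : ℝ} {j : ℕ} (hx : 1 ≤ x)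
    (hδ1 : δ ≤ 1 / 2) (hε1 : ε ≤ 1) (hj : 3 ≤ ε / 200 * (2 * j + 1)) (hq0 : 0 < q)
    (hq2 : q ≤ 2 * x ^ ((1 : ℝ) / 2 + δ)) (hh1 : x ^ (ε / 200) * (1 + 4 * q ^ 2 / x) ≤ h) :
    4 * q ^ 2 * (4 * q ^ 2 / (x * h)) ^ (2 * j + 1) ≤ 16 * x ^ ((1 : ℝ) - ε / 10) := by
  have hx0 : 0 < x := by linarith
  have hK : 0 < x ^ (ε / 200) := Real.rpow_pos_of_pos hx0 _
  have hh0 : 0 < h := lt_of_lt_of_le (by positivity) hh1
  have e1 : 4 * q ^ 2 / (x * h) ≤ x ^ (-(ε / 200)) := by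
    rw [div_le_iff₀ (by positivity), Real.rpow_neg hx0.le]
    have h1 : x ^ (ε / 200) * (4 * q ^ 2 / x) ≤ h := by
      refine le_trans ?_ hh1
      refine mul_le_mul_of_nonneg_left ?_ hK.le
      linarith
    have h2 : 4 * q ^ 2 = (x ^ (ε / 200))⁻¹ * (x * (x ^ (ε / 200) * (4 * q ^ 2 / x))) := by
      field_simp
    calc 4 * q ^ 2 = (x ^ (ε / 200))⁻¹ * (x * (x ^ (ε / 200) * (4 * q ^ 2 / x))) := h2
      _ ≤ (x ^ (ε / 200))⁻¹ * (x * h) := by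
        refine mul_le_mul_of_nonneg_left (mul_le_mul_of_nonneg_left h1 hx0.le) (by positivity)
  have e2 : (4 * q ^ 2 / (x * h)) ^ (2 * j + 1) ≤ x ^ (-(3 : ℝ)) := by
    refine (pow_le_pow_left₀ (by positivity) e1 _).trans ?_
    rw [← Real.rpow_natCast, ← Real.rpow_mul hx0.le]
    refine N7_mono hx ?_
    push_cast
    linarith
  have e3 : 4 * q ^ 2 ≤ 16 * x ^ (2 : ℝ) := by
    have h1 : q ^ 2 ≤ (2 * x ^ ((1 : ℝ) / 2 + δ)) ^ 2 := pow_le_pow_left₀ hq0.le hq2 2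
    have h2 : (2 * x ^ ((1 : ℝ) / 2 + δ)) ^ 2 = 4 * x ^ ((1 : ℝ) + 2 * δ) := by
      rw [mul_pow, ← Real.rpow_natCast (x ^ ((1 : ℝ) / 2 + δ)) 2, ← Real.rpow_mul hx0.le]
      norm_num
      ring_nf
    have h3 : x ^ ((1 : ℝ) + 2 * δ) ≤ x ^ (2 : ℝ) := N7_mono hx (by linarith)
    linarith
  calc 4 * q ^ 2 * (4 * q ^ 2 / (x * h)) ^ (2 * j + 1) ≤ (16 * x ^ (2 : ℝ)) * x ^ (-(3 : ℝ)) :=
        mul_le_mul e3 e2 (by positivity) (by positivity)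
    _ = 16 * x ^ (-(1 : ℝ)) := by
        rw [mul_assoc, N7_mul hx0]
        norm_num
    _ ≤ 16 * x ^ ((1 : ℝ) - ε / 10) :=
        mul_le_mul_of_nonneg_left (N7_mono hx (by linarith)) (by norm_num)

/-- bound of h -/
private lemma N7_h {x δ κ q h : ℝ} (hx : 1 ≤ x) (hδ : 0 ≤ δ) (hq0 : 0 < q)
    (hq2 : q ≤ 2 * x ^ ((1 : ℝ) / 2 + δ)) (hh2 : h ≤ 2 * (x ^ κ * (1 + 4 * q ^ 2 / x))) :
    h ≤ 34 * x ^ (κ + 2 * δ) := by
  have hx0 : 0 < x := by linarith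
  have h1 : q ^ 2 ≤ (2 * x ^ ((1 : ℝ) / 2 + δ)) ^ 2 := pow_le_pow_left₀ hq0.le hq2 2
  have h2 : (2 * x ^ ((1 : ℝ) / 2 + δ)) ^ 2 = 4 * (x * x ^ (2 * δ)) := by
    rw [mul_pow, ← Real.rpow_natCast (x ^ ((1 : ℝ) / 2 + δ)) 2, ← Real.rpow_mul hx0.le]
    nth_rewrite 2 [← Real.rpow_one x]
    rw [N7_mul hx0]
    norm_num
    ring_nf
  have h3 : 4 * q ^ 2 / x ≤ 16 * x ^ (2 * δ) := by
    rw [div_le_iff₀ hx0]
    rw [h2] at h1
    linarith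
  have h4 : 1 ≤ x ^ (2 * δ) := Real.one_le_rpow hx (by linarith)
  refine hh2.trans ?_
  rw [← N7_mul hx0]
  have h5 : x ^ κ * (1 + 4 * q ^ 2 / x) ≤ x ^ κ * (17 * x ^ (2 * δ)) :=
    mul_le_mul_of_nonneg_left (by linarith) (Real.rpow_nonneg hx0.le _)
  linarith

/-- the small power -/
private lemma N7_small {x δ ε q h : ℝ} (hx : 1 ≤ x) (hε : 0 < ε) (hδ1 : δ ≤ 1 / 18)
    (hε1 : ε ≤ 1 / 4) (hq0 : 0 < q) (hh0 : 0 < h) (hq2 : q ≤ 2 * x ^ ((1 : ℝ) / 2 + δ))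
    (hh : h ≤ 34 * x ^ (ε / 200 + 2 * δ)) :
    (q * h * (2 * x)) ^ (ε / 1000) ≤ 2 * x ^ (3 * ε / 1000) := by
  have hx0 : 0 < x := by linarith
  have h1 : q * h * (2 * x) ≤ 256 * x ^ (3 : ℝ) := by
    calc q * h * (2 * x) ≤ (2 * x ^ ((1 : ℝ) / 2 + δ)) * (34 * x ^ (ε / 200 + 2 * δ)) * (2 * x) := by
          refine mul_le_mul_of_nonneg_right ?_ (by positivity)
          exact mul_le_mul hq2 hh hh0.le (by positivity)
      _ = 136 * (x ^ ((1 : ℝ) / 2 + δ) * x ^ (ε / 200 + 2 * δ) * x ^ (1 : ℝ)) := by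
          rw [Real.rpow_one]
          ring
      _ = 136 * x ^ ((1 : ℝ) / 2 + δ + (ε / 200 + 2 * δ) + 1) := by
          rw [N7_mul hx0, N7_mul hx0]
      _ ≤ 136 * x ^ (3 : ℝ) := mul_le_mul_of_nonneg_left (N7_mono hx (by linarith)) (by norm_num)
      _ ≤ 256 * x ^ (3 : ℝ) := mul_le_mul_of_nonneg_right (by norm_num) (by positivity)
  calc (q * h * (2 * x)) ^ (ε / 1000) ≤ (256 * x ^ (3 : ℝ)) ^ (ε / 1000) :=
        Real.rpow_le_rpow (by positivity) h1 (by linarith)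
    _ = (256 : ℝ) ^ (ε / 1000) * x ^ (3 * ε / 1000) := by
        rw [Real.mul_rpow (by norm_num) (by positivity), ← Real.rpow_mul hx0.le]
        congr 2
        ring
    _ ≤ 2 * x ^ (3 * ε / 1000) := by
        refine mul_le_mul_of_nonneg_right ?_ (by positivity)
        calc (256 : ℝ) ^ (ε / 1000) ≤ (256 : ℝ) ^ ((1 : ℝ) / 8) :=
              Real.rpow_le_rpow_of_exponent_le (by norm_num) (by linarith)
          _ = 2 := by
              rw [show (256 : ℝ) = 2 ^ (8 : ℝ) by norm_num, ← Real.rpow_mul (by norm_num)]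
              norm_num

/-- the smooth factor -/
private lemma N7_smooth {x κ q h g p : ℝ} (hx : 1 ≤ x) (hκ : 0 ≤ κ)
    (hq1 : x ^ ((1 : ℝ) / 2 - κ) ≤ q) (hh0 : 0 < h)
    (hh2 : h ≤ 2 * (x ^ κ * (1 + 4 * q ^ 2 / x))) (hg1 : 1 ≤ g) (hg2 : g ≤ x ^ κ)
    (hp : q / (2 * g) ≤ p) : 1 + h * x / p ^ 2 ≤ 41 * x ^ (5 * κ) := by
  have hx0 : 0 < x := by linarith
  have hq0 : 0 < q := lt_of_lt_of_le (Real.rpow_pos_of_pos hx0 _) hq1
  have hg0 : 0 < g := by linarith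
  have hqq : x ^ ((1 : ℝ) - 2 * κ) ≤ q ^ 2 := by
    have h1 : (x ^ ((1 : ℝ) / 2 - κ)) ^ 2 ≤ q ^ 2 := pow_le_pow_left₀ (by positivity) hq1 2
    refine le_trans (le_of_eq ?_) h1
    rw [← Real.rpow_natCast (x ^ ((1 : ℝ) / 2 - κ)) 2, ← Real.rpow_mul hx0.le]
    congr 1
    push_cast
    ring
  have h1 : x / q ^ 2 ≤ x ^ (2 * κ) := by
    rw [div_le_iff₀ (by positivity)]
    calc x = x ^ (2 * κ) * x ^ ((1 : ℝ) - 2 * κ) := by
          rw [N7_mul hx0]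
          norm_num
      _ ≤ x ^ (2 * κ) * q ^ 2 := mul_le_mul_of_nonneg_left hqq (by positivity)
  have hK2 : 1 ≤ x ^ (2 * κ) := Real.one_le_rpow hx (by linarith)
  have h2 : h * x / q ^ 2 ≤ 10 * x ^ (3 * κ) := by
    have h3 : h * x / q ^ 2 ≤ 2 * (x ^ κ * (1 + 4 * q ^ 2 / x)) * x / q ^ 2 :=
      div_le_div_of_nonneg_right (mul_le_mul_of_nonneg_right hh2 hx0.le) (by positivity)
    have h4 : 2 * (x ^ κ * (1 + 4 * q ^ 2 / x)) * x / q ^ 2 = 2 * x ^ κ * (x / q ^ 2 + 4) := by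
      field_simp
    have h5 : 2 * x ^ κ * (x / q ^ 2 + 4) ≤ 2 * x ^ κ * (5 * x ^ (2 * κ)) :=
      mul_le_mul_of_nonneg_left (by linarith) (by positivity)
    have h6 : 2 * x ^ κ * (5 * x ^ (2 * κ)) = 10 * x ^ (3 * κ) := by
      have : x ^ κ * x ^ (2 * κ) = x ^ (3 * κ) := by
        rw [N7_mul hx0]
        congr 1
        ring
      rw [← this]
      ring
    linarith
  have hp0 : 0 < q / (2 * g) := by positivity
  have h7 : h * x / p ^ 2 ≤ 40 * x ^ (5 * κ) := by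
    calc h * x / p ^ 2 ≤ h * x / (q / (2 * g)) ^ 2 :=
          div_le_div_of_nonneg_left (by positivity) (by positivity) (pow_le_pow_left₀ hp0.le hp 2)
      _ = 4 * (g ^ 2) * (h * x / q ^ 2) := by
          field_simp
          ring
      _ ≤ 4 * (x ^ κ) ^ 2 * (10 * x ^ (3 * κ)) := by
          refine mul_le_mul ?_ h2 (by positivity) (by positivity)
          exact mul_le_mul_of_nonneg_left (pow_le_pow_left₀ hg0.le hg2 2) (by norm_num)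
      _ = 40 * x ^ (5 * κ) := by
          rw [← Real.rpow_natCast (x ^ κ) 2, ← Real.rpow_mul hx0.le]
          have : x ^ (κ * ((2 : ℕ) : ℝ)) * x ^ (3 * κ) = x ^ (5 * κ) := by
            rw [N7_mul hx0]
            congr 1
            push_cast
            ring
          rw [← this]
          ring
  have h8 : 1 ≤ x ^ (5 * κ) := Real.one_le_rpow hx (by linarith)
  linarith

/-- the square root -/
private lemma N7_sqrt {x δ ε κ h g l1 : ℝ} (hx : 1 ≤ x) (hh0 : 0 < h)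
    (hh : h ≤ 34 * x ^ (κ + 2 * δ)) (hg1 : 1 ≤ g) (hg2 : g ≤ x ^ κ)
    (hl1 : x ^ (2 * δ + ε) ≤ l1) :
    (h * g / l1) ^ ((1 : ℝ) / 2) ≤ 6 * x ^ (κ - ε / 2) := by
  have hx0 : 0 < x := by linarith
  have hg0 : 0 < g := by linarith
  have hl0 : 0 < l1 := lt_of_lt_of_le (Real.rpow_pos_of_pos hx0 _) hl1
  have h1 : h * g / l1 ≤ 36 * x ^ (2 * κ - ε) := by
    calc h * g / l1 ≤ (34 * x ^ (κ + 2 * δ)) * x ^ κ / x ^ (2 * δ + ε) := by
          refine div_le_div₀ (by positivity) ?_ (by positivity) hl1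
          exact mul_le_mul hh hg2 hg0.le (by positivity)
      _ = 34 * x ^ (2 * κ - ε) := by
          rw [mul_assoc, N7_mul hx0, mul_div_assoc, ← Real.rpow_sub hx0]
          congr 2
          ring
      _ ≤ 36 * x ^ (2 * κ - ε) := mul_le_mul_of_nonneg_right (by norm_num) (by positivity)
  calc (h * g / l1) ^ ((1 : ℝ) / 2) ≤ (36 * x ^ (2 * κ - ε)) ^ ((1 : ℝ) / 2) :=
        Real.rpow_le_rpow (by positivity) h1 (by norm_num)
    _ = 6 * x ^ (κ - ε / 2) := by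
        rw [Real.mul_rpow (by norm_num) (by positivity), ← Real.rpow_mul hx0.le,
          show (36 : ℝ) = 6 ^ (2 : ℝ) by norm_num, ← Real.rpow_mul (by norm_num)]
        norm_num
        congr 1
        ring

/-- the fourth root, for q -/
private lemma N7_fourth {x δ ε κ q h l2 : ℝ} (hx : 1 ≤ x) (hδ : 0 ≤ δ) (hκ : 0 ≤ κ)
    (hq1 : x ^ ((1 : ℝ) / 2 - κ) ≤ q) (hq2 : q ≤ 2 * x ^ ((1 : ℝ) / 2 + δ))
    (hh2 : h ≤ 2 * (x ^ κ * (1 + 4 * q ^ 2 / x)))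
    (hl2 : l2 ≤ x ^ ((1 : ℝ) / 2 - 7 * δ - ε)) (hl0 : 0 ≤ l2) :
    h * (l2 / q) ^ ((1 : ℝ) / 4) ≤ 34 * x ^ (κ + κ / 4 - ε / 4) := by
  have hx0 : 0 < x := by linarith
  have hq0 : 0 < q := lt_of_lt_of_le (Real.rpow_pos_of_pos hx0 _) hq1
  set w : ℝ := (l2 / q) ^ ((1 : ℝ) / 4) with hw
  have hw0 : 0 ≤ w := Real.rpow_nonneg (by positivity) _
  have h1 : w ≤ x ^ ((κ - ε) / 4) := by
    have h2 : l2 / q ≤ x ^ (κ - ε) := by
      rw [div_le_iff₀ hq0]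
      calc l2 ≤ x ^ ((1 : ℝ) / 2 - 7 * δ - ε) := hl2
        _ ≤ x ^ (κ - ε + (1 / 2 - κ)) := N7_mono hx (by linarith)
        _ = x ^ (κ - ε) * x ^ ((1 : ℝ) / 2 - κ) := (N7_mul hx0 _ _).symm
        _ ≤ x ^ (κ - ε) * q := mul_le_mul_of_nonneg_left hq1 (by positivity)
    calc w ≤ (x ^ (κ - ε)) ^ ((1 : ℝ) / 4) := Real.rpow_le_rpow (by positivity) h2 (by norm_num)
      _ = x ^ ((κ - ε) / 4) := by
          rw [← Real.rpow_mul hx0.le]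
          congr 1
          ring
  have h3 : q ^ 2 * w ≤ 4 * x ^ ((1 : ℝ) - ε / 4) := by
    have e1 : q ^ 2 * w = (q ^ 7 * l2) ^ ((1 : ℝ) / 4) := by
      have e2 : q ^ 2 = (q ^ 8) ^ ((1 : ℝ) / 4) := by
        rw [← Real.rpow_natCast q 8, ← Real.rpow_mul hq0.le, ← Real.rpow_natCast q 2]
        norm_num
      rw [hw, e2, ← Real.mul_rpow (by positivity) (by positivity)]
      congr 1
      field_simp
    rw [e1]
    have e3 : q ^ 7 * l2 ≤ 256 * x ^ ((4 : ℝ) - ε) := by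
      have e4 : q ^ 7 ≤ 128 * x ^ ((7 : ℝ) / 2 + 7 * δ) := by
        calc q ^ 7 ≤ (2 * x ^ ((1 : ℝ) / 2 + δ)) ^ 7 := pow_le_pow_left₀ hq0.le hq2 7
          _ = 128 * x ^ ((7 : ℝ) / 2 + 7 * δ) := by
              rw [mul_pow, ← Real.rpow_natCast (x ^ ((1 : ℝ) / 2 + δ)) 7, ← Real.rpow_mul hx0.le]
              norm_num
              congr 1
              ring
      calc q ^ 7 * l2 ≤ (128 * x ^ ((7 : ℝ) / 2 + 7 * δ)) * x ^ ((1 : ℝ) / 2 - 7 * δ - ε) :=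
            mul_le_mul e4 hl2 hl0 (by positivity)
        _ = 128 * x ^ ((4 : ℝ) - ε) := by
            rw [mul_assoc, N7_mul hx0]
            congr 2
            ring
        _ ≤ 256 * x ^ ((4 : ℝ) - ε) := mul_le_mul_of_nonneg_right (by norm_num) (by positivity)
    calc (q ^ 7 * l2) ^ ((1 : ℝ) / 4) ≤ (256 * x ^ ((4 : ℝ) - ε)) ^ ((1 : ℝ) / 4) :=
          Real.rpow_le_rpow (by positivity) e3 (by norm_num)
      _ = 4 * x ^ ((1 : ℝ) - ε / 4) := by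
          rw [Real.mul_rpow (by norm_num) (by positivity), ← Real.rpow_mul hx0.le,
            show (256 : ℝ) = 4 ^ (4 : ℝ) by norm_num, ← Real.rpow_mul (by norm_num)]
          norm_num
          congr 1
          ring
  have h4 : 4 * q ^ 2 / x * w ≤ 16 * x ^ (-(ε / 4)) := by
    have e1 : 4 * q ^ 2 / x * w = 4 * (q ^ 2 * w) / x := by ring
    rw [e1, div_le_iff₀ hx0]
    have e2 : x ^ ((1 : ℝ) - ε / 4) = x ^ (-(ε / 4)) * x := by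
      nth_rewrite 3 [← Real.rpow_one x]
      rw [N7_mul hx0]
      congr 1
      ring
    rw [e2] at h3
    linarith
  have h5 : x ^ (-(ε / 4)) ≤ x ^ ((κ - ε) / 4) := N7_mono hx (by linarith)
  have hK0 : 0 < x ^ κ := Real.rpow_pos_of_pos hx0 _
  calc h * w ≤ 2 * (x ^ κ * (1 + 4 * q ^ 2 / x)) * w := mul_le_mul_of_nonneg_right hh2 hw0
    _ = 2 * x ^ κ * (w + 4 * q ^ 2 / x * w) := by ring
    _ ≤ 2 * x ^ κ * (17 * x ^ ((κ - ε) / 4)) :=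
        mul_le_mul_of_nonneg_left (by linarith) (by positivity)
    _ = 34 * (x ^ κ * x ^ ((κ - ε) / 4)) := by ring
    _ = 34 * x ^ (κ + κ / 4 - ε / 4) := by
        rw [N7_mul hx0]
        congr 2
        ring

/-- the fourth root, for p -/
private lemma N7_fourth' {x δ ε κ q h g p l2 : ℝ} (hx : 1 ≤ x) (hδ : 0 ≤ δ) (hκ : 0 ≤ κ)
    (hq1 : x ^ ((1 : ℝ) / 2 - κ) ≤ q) (hq2 : q ≤ 2 * x ^ ((1 : ℝ) / 2 + δ)) (hh0 : 0 < h)
    (hh2 : h ≤ 2 * (x ^ κ * (1 + 4 * q ^ 2 / x))) (hg1 : 1 ≤ g) (hg2 : g ≤ x ^ κ)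
    (hp : q / (2 * g) ≤ p)
    (hl2 : l2 ≤ x ^ ((1 : ℝ) / 2 - 7 * δ - ε)) (hl0 : 0 ≤ l2) :
    h * (l2 / p) ^ ((1 : ℝ) / 4) ≤ 68 * x ^ (3 / 2 * κ - ε / 4) := by
  have hx0 : 0 < x := by linarith
  have hq0 : 0 < q := lt_of_lt_of_le (Real.rpow_pos_of_pos hx0 _) hq1
  have hg0 : 0 < g := by linarith
  have hp0 : 0 < q / (2 * g) := by positivity
  have h1 : l2 / p ≤ 16 * x ^ κ * (l2 / q) := by
    calc l2 / p ≤ l2 / (q / (2 * g)) := div_le_div_of_nonneg_left hl0 hp0 hp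
      _ = 2 * g * (l2 / q) := by
          field_simp
      _ ≤ 16 * x ^ κ * (l2 / q) := by
          refine mul_le_mul_of_nonneg_right ?_ (by positivity)
          linarith
  have h2 : (l2 / p) ^ ((1 : ℝ) / 4) ≤ 2 * x ^ (κ / 4) * (l2 / q) ^ ((1 : ℝ) / 4) := by
    have hp1 : 0 < p := lt_of_lt_of_le hp0 hp
    calc (l2 / p) ^ ((1 : ℝ) / 4) ≤ (16 * x ^ κ * (l2 / q)) ^ ((1 : ℝ) / 4) :=
          Real.rpow_le_rpow (by positivity) h1 (by norm_num)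
      _ = 2 * x ^ (κ / 4) * (l2 / q) ^ ((1 : ℝ) / 4) := by
          rw [Real.mul_rpow (by positivity) (by positivity), Real.mul_rpow (by norm_num) (by positivity),
            ← Real.rpow_mul hx0.le, show (16 : ℝ) = 2 ^ (4 : ℝ) by norm_num,
            ← Real.rpow_mul (by norm_num)]
          have e16 : (2 : ℝ) ^ ((4 : ℝ) * (1 / 4)) = 2 := by norm_num
          have eκ : κ * (1 / 4) = κ / 4 := by ring
          rw [e16, eκ]
  calc h * (l2 / p) ^ ((1 : ℝ) / 4) ≤ h * (2 * x ^ (κ / 4) * (l2 / q) ^ ((1 : ℝ) / 4)) :=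
        mul_le_mul_of_nonneg_left h2 hh0.le
    _ = 2 * x ^ (κ / 4) * (h * (l2 / q) ^ ((1 : ℝ) / 4)) := by ring
    _ ≤ 2 * x ^ (κ / 4) * (34 * x ^ (κ + κ / 4 - ε / 4)) :=
        mul_le_mul_of_nonneg_left (N7_fourth hx hδ hκ hq1 hq2 hh2 hl2 hl0) (by positivity)
    _ = 68 * (x ^ (κ / 4) * x ^ (κ + κ / 4 - ε / 4)) := by ring
    _ = 68 * x ^ (3 / 2 * κ - ε / 4) := by
        rw [N7_mul hx0]
        congr 2
        ring

/-- the whole bound -/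
private lemma N7_main {x δ ε C q h g p l1 l2 : ℝ} {j : ℕ} (hx : 1 ≤ x) (hδ : 0 ≤ δ) (hε : 0 < ε)
    (hde : 2 * δ + ε ≤ 1 / 2 - 7 * δ - ε) (hC : 0 ≤ C) (hj : 3 ≤ ε / 200 * (2 * j + 1))
    (hq1 : x ^ ((1 : ℝ) / 2 - ε / 200) ≤ q) (hq2 : q ≤ 2 * x ^ ((1 : ℝ) / 2 + δ))
    (hh1 : x ^ (ε / 200) * (1 + 4 * q ^ 2 / x) ≤ h)
    (hh2 : h ≤ 2 * (x ^ (ε / 200) * (1 + 4 * q ^ 2 / x))) (hg1 : 1 ≤ g) (hg2 : g ≤ x ^ (ε / 200))
    (hp : q / (2 * g) ≤ p) (hl1 : x ^ (2 * δ + ε) ≤ l1)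
    (hl2 : l2 ≤ x ^ ((1 : ℝ) / 2 - 7 * δ - ε)) (hl0 : 0 ≤ l2) :
    4 * q ^ 2 * (4 * q ^ 2 / (x * h)) ^ (2 * j + 1) +
      C * x * (q * h * (2 * x)) ^ (ε / 1000) * (1 + h * x / p ^ 2) *
        ((h * g / l1) ^ ((1 : ℝ) / 2) + h * (l2 / p) ^ ((1 : ℝ) / 4)) ≤
      (16 + 6068 * C) * x ^ ((1 : ℝ) - ε / 10) := by
  have hx0 : 0 < x := by linarith
  have hq0 : 0 < q := lt_of_lt_of_le (Real.rpow_pos_of_pos hx0 _) hq1
  have hg0 : 0 < g := by linarith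
  have hp0 : 0 < p := lt_of_lt_of_le (by positivity) hp
  have hl10 : 0 < l1 := lt_of_lt_of_le (Real.rpow_pos_of_pos hx0 _) hl1
  have hh0 : 0 < h := lt_of_lt_of_le (by positivity) hh1
  have hδ1 : δ ≤ 1 / 18 := by linarith
  have hε1 : ε ≤ 1 / 4 := by linarith
  have a1 := N7_one hx (by linarith) (by linarith) hj hq0 hq2 hh1
  have hh := N7_h hx hδ hq0 hq2 hh2
  have a3 := N7_small hx hε hδ1 hε1 hq0 hh0 hq2 hh
  have a4 := N7_smooth hx (by linarith) hq1 hh0 hh2 hg1 hg2 hp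
  have a5 := N7_sqrt hx hh0 hh hg1 hg2 hl1
  have a6 := N7_fourth' hx hδ (by linarith) hq1 hq2 hh0 hh2 hg1 hg2 hp hl2 hl0
  have a7 : (h * g / l1) ^ ((1 : ℝ) / 2) + h * (l2 / p) ^ ((1 : ℝ) / 4) ≤
      74 * x ^ (3 / 2 * (ε / 200) - ε / 4) := by
    have b1 : x ^ (ε / 200 - ε / 2) ≤ x ^ (3 / 2 * (ε / 200) - ε / 4) := N7_mono hx (by linarith)
    linarith
  have b2 : C * x * (q * h * (2 * x)) ^ (ε / 1000) * (1 + h * x / p ^ 2) *
      ((h * g / l1) ^ ((1 : ℝ) / 2) + h * (l2 / p) ^ ((1 : ℝ) / 4)) ≤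
      C * x * (2 * x ^ (3 * ε / 1000)) * (41 * x ^ (5 * (ε / 200))) *
        (74 * x ^ (3 / 2 * (ε / 200) - ε / 4)) := by
    refine mul_le_mul ?_ a7 (by positivity) (by positivity)
    refine mul_le_mul ?_ a4 (by positivity) (by positivity)
    exact mul_le_mul_of_nonneg_left a3 (by positivity)
  have b3 : C * x * (2 * x ^ (3 * ε / 1000)) * (41 * x ^ (5 * (ε / 200))) *
        (74 * x ^ (3 / 2 * (ε / 200) - ε / 4)) = 6068 * C *
        x ^ ((1 : ℝ) + 3 * ε / 1000 + 5 * (ε / 200) + (3 / 2 * (ε / 200) - ε / 4)) := by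
    rw [← N7_mul hx0, ← N7_mul hx0, ← N7_mul hx0, Real.rpow_one]
    ring
  have b4 : x ^ ((1 : ℝ) + 3 * ε / 1000 + 5 * (ε / 200) + (3 / 2 * (ε / 200) - ε / 4)) ≤
      x ^ ((1 : ℝ) - ε / 10) := N7_mono hx (by linarith)
  have b5 : 6068 * C *
        x ^ ((1 : ℝ) + 3 * ε / 1000 + 5 * (ε / 200) + (3 / 2 * (ε / 200) - ε / 4)) ≤
        6068 * C * x ^ ((1 : ℝ) - ε / 10) := mul_le_mul_of_nonneg_left b4 (by positivity)
  rw [b3] at b2
  have b6 : (16 + 6068 * C) * x ^ ((1 : ℝ) - ε / 10) =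
      16 * x ^ ((1 : ℝ) - ε / 10) + 6068 * C * x ^ ((1 : ℝ) - ε / 10) := by ring
  rw [b6]
  linarith

/-- a quotient with floor is at least half of the quotient -/
private lemma N7_div {Q g : ℕ} (hg : 1 ≤ g) (h : g ≤ Q) : (Q : ℝ) / (2 * g) ≤ ((Q / g : ℕ) : ℝ) := by
  have hg' : (0 : ℝ) < g := by exact_mod_cast hg
  have h1 : Q < g * (Q / g) + g := by
    have := Nat.lt_mul_div_succ Q (show 0 < g by omega)
    rw [Nat.mul_add, Nat.mul_one] at this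
    exact this
  have h2 : 1 ≤ Q / g := (Nat.one_le_div_iff (by omega)).mpr h
  have h3 : (Q : ℝ) ≤ g * ((Q / g : ℕ) : ℝ) + g := by exact_mod_cast h1.le
  have h4 : (1 : ℝ) ≤ ((Q / g : ℕ) : ℝ) := by exact_mod_cast h2
  rw [div_le_iff₀ (by positivity)]
  nlinarith

theorem tN7 : SN7 := by
  intro δ ε C j hδ hε hde hC hj
  have hδ1 : δ ≤ 1 / 18 := by linarith
  have hε1 : ε ≤ 1 / 4 := by linarith
  obtain ⟨N1, hN1⟩ := exists_nat_ge ((4 : ℝ) ^ (2 / ε))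
  refine ⟨16 + 6068 * C, max N1 5000, by positivity, ?_⟩
  intro N Q L1 L2 hN0 hN hQ1 hQ2 hL1 hL12 hL2
  have hx : (1 : ℝ) ≤ N := by exact_mod_cast hN
  have hx0 : (0 : ℝ) < N := by linarith
  have hx5000 : (5000 : ℝ) ≤ N := by
    have : 5000 ≤ N := (le_max_right _ _).trans hN0
    exact_mod_cast this
  have hxε : (4 : ℝ) ≤ (N : ℝ) ^ (ε / 2) := by
    have h1 : (4 : ℝ) ^ (2 / ε) ≤ N := hN1.trans (by exact_mod_cast (le_max_left _ _).trans hN0)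
    calc (4 : ℝ) = ((4 : ℝ) ^ (2 / ε)) ^ (ε / 2) := by
          rw [← Real.rpow_mul (by norm_num)]
          have : 2 / ε * (ε / 2) = 1 := by field_simp
          rw [this, Real.rpow_one]
      _ ≤ (N : ℝ) ^ (ε / 2) := Real.rpow_le_rpow (by positivity) h1 (by linarith)
  have hQ0 : (0 : ℝ) < Q := lt_of_lt_of_le (Real.rpow_pos_of_pos hx0 _) hQ1
  have hQn : 1 ≤ Q := by exact_mod_cast hQ0
  refine ⟨hQn, ⌈(N : ℝ) ^ (ε / 200) * (1 + 4 * (Q : ℝ) ^ 2 / N)⌉₊, ?_, ?_⟩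
  · rw [Nat.one_le_ceil_iff]
    positivity
  have hA1 : (1 : ℝ) ≤ (N : ℝ) ^ (ε / 200) * (1 + 4 * (Q : ℝ) ^ 2 / N) := by
    have h1 : 1 ≤ (N : ℝ) ^ (ε / 200) := Real.one_le_rpow hx (by linarith)
    have h2 : (1 : ℝ) ≤ 1 + 4 * (Q : ℝ) ^ 2 / N := by
      have : (0 : ℝ) ≤ 4 * (Q : ℝ) ^ 2 / N := by positivity
      linarith
    exact one_le_mul_of_one_le_of_one_le h1 h2
  have hh1 : (N : ℝ) ^ (ε / 200) * (1 + 4 * (Q : ℝ) ^ 2 / N) ≤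
      (⌈(N : ℝ) ^ (ε / 200) * (1 + 4 * (Q : ℝ) ^ 2 / N)⌉₊ : ℝ) := Nat.le_ceil _
  have hh2 : (⌈(N : ℝ) ^ (ε / 200) * (1 + 4 * (Q : ℝ) ^ 2 / N)⌉₊ : ℝ) ≤
      2 * ((N : ℝ) ^ (ε / 200) * (1 + 4 * (Q : ℝ) ^ 2 / N)) := by
    have := (Nat.ceil_lt_add_one (show 0 ≤ (N : ℝ) ^ (ε / 200) * (1 + 4 * (Q : ℝ) ^ 2 / N) by
      linarith)).le
    linarith
  generalize ⌈(N : ℝ) ^ (ε / 200) * (1 + 4 * (Q : ℝ) ^ 2 / N)⌉₊ = H at hh1 hh2 ⊢
  have hh := N7_h hx hδ hQ0 hQ2 hh2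
  intro g hg hgN
  have hg1 : (1 : ℝ) ≤ g := by exact_mod_cast hg
  have hg0 : (0 : ℝ) < g := by linarith
  have hgQ : g ≤ Q := by
    have : (g : ℝ) ≤ Q := hgN.trans ((N7_mono hx (by linarith)).trans hQ1)
    exact_mod_cast this
  have hdiv := N7_div hg hgQ
  refine ⟨hgQ, ?_, ?_, ?_, ?_⟩
  · have h1 : 2 * (H : ℝ) * g ≤ (Q : ℝ) ^ 2 := by
      calc 2 * (H : ℝ) * g ≤ 2 * (34 * (N : ℝ) ^ (ε / 200 + 2 * δ)) * (N : ℝ) ^ (ε / 200) := by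
            refine mul_le_mul ?_ hgN hg0.le (by positivity)
            linarith
        _ = 68 * (N : ℝ) ^ (ε / 200 + 2 * δ + ε / 200) := by
            rw [← N7_mul hx0 (ε / 200 + 2 * δ) (ε / 200)]
            ring
        _ ≤ (N : ℝ) ^ ((3 : ℝ) / 4) * (N : ℝ) ^ (ε / 200 + 2 * δ + ε / 200) := by
            refine mul_le_mul_of_nonneg_right ?_ (by positivity)
            calc (68 : ℝ) ≤ 256 := by norm_num
              _ = (4096 : ℝ) ^ ((2 : ℝ) / 3) := by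
                  rw [show (4096 : ℝ) = 8 ^ (4 : ℝ) by norm_num, ← Real.rpow_mul (by norm_num),
                    show (8 : ℝ) = 2 ^ (3 : ℝ) by norm_num, ← Real.rpow_mul (by norm_num)]
                  norm_num
              _ ≤ (4096 : ℝ) ^ ((3 : ℝ) / 4) :=
                  Real.rpow_le_rpow_of_exponent_le (by norm_num) (by norm_num)
              _ ≤ (N : ℝ) ^ ((3 : ℝ) / 4) :=
                  Real.rpow_le_rpow (by norm_num) (by linarith) (by norm_num)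
        _ = (N : ℝ) ^ ((3 : ℝ) / 4 + (ε / 200 + 2 * δ + ε / 200)) := N7_mul hx0 _ _
        _ ≤ (N : ℝ) ^ (2 * ((1 : ℝ) / 2 - ε / 200)) := N7_mono hx (by linarith)
        _ = ((N : ℝ) ^ ((1 : ℝ) / 2 - ε / 200)) ^ 2 := by
            rw [← Real.rpow_natCast ((N : ℝ) ^ ((1 : ℝ) / 2 - ε / 200)) 2, ← Real.rpow_mul hx0.le]
            congr 1
            push_cast
            ring
        _ ≤ (Q : ℝ) ^ 2 := pow_le_pow_left₀ (by positivity) hQ1 2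
    exact_mod_cast h1
  · calc 4 * (g : ℝ) ≤ (N : ℝ) ^ (ε / 2) * (N : ℝ) ^ (ε / 200) :=
          mul_le_mul hxε hgN hg0.le (by positivity)
      _ = (N : ℝ) ^ (ε / 2 + ε / 200) := N7_mul hx0 _ _
      _ ≤ (N : ℝ) ^ (2 * δ + ε) := N7_mono hx (by linarith)
      _ ≤ L1 := hL1
  · refine le_trans ?_ hdiv
    rw [le_div_iff₀ (by positivity)]
    calc L2 * (2 * g) ≤ (N : ℝ) ^ ((1 : ℝ) / 2 - 7 * δ - ε) * ((N : ℝ) ^ (ε / 2) * (N : ℝ) ^ (ε / 200)) := by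
          refine mul_le_mul hL2 ?_ (by positivity) (by positivity)
          have := mul_le_mul hxε hgN hg0.le (by positivity)
          linarith
      _ = (N : ℝ) ^ ((1 : ℝ) / 2 - 7 * δ - ε + (ε / 2 + ε / 200)) := by
          rw [N7_mul hx0, N7_mul hx0]
      _ ≤ (N : ℝ) ^ ((1 : ℝ) / 2 - ε / 200) := N7_mono hx (by linarith)
      _ ≤ Q := hQ1
  · have hL10 : 0 < L1 := lt_of_lt_of_le (Real.rpow_pos_of_pos hx0 _) hL1
    exact N7_main hx hδ hε hde hC hj hQ1 hQ2 hh1 hh2 hg1 hgN hdiv hL1 hL2 (by linarith)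

end Pool.Agent.Lib.TN
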