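import Pool.Agent.Lib.TN.SpecG
set_option autoImplicit false

namespace Pool.Agent.Lib.TN

open Finset Pool.Agent.Lib.EH3 Pool.Agent.Lib.TB

theorem tN8 (h1 : SG1) (h2 : SN2) (h3 : SN3) (h6 : SN6) (h7 : SN7) (hT : TauMStmt) : EENStmt := by
  intro δ ε hδ hε hδε
  set j : ℕ := ⌈600 / ε⌉₊ with hj
  have hj1 : 600 / ε ≤ (j : ℝ) := Nat.le_ceil _
  have hj2 : 3 ≤ ε / 200 * (2 * (j : ℝ) + 1) := by
    have h5 : ε * (600 / ε) ≤ ε * j := mul_le_mul_of_nonneg_left hj1 hε.le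
    have h5' : ε * (600 / ε) = 600 := by field_simp
    rw [h5'] at h5
    have h6' : ε / 200 * (2 * (j : ℝ) + 1) = (ε * j) / 100 + ε / 200 := by ring
    rw [h6']
    linarith
  have hε4 : ε ≤ 1 / 4 := by linarith
  obtain ⟨C, hC0, hC⟩ := h6 (ε / 1000) j (by positivity)
  obtain ⟨C1, N0, hC10, hC1⟩ := h7 δ ε C j hδ hε hδε hC0 hj2
  obtain ⟨C2, hC20, hC2⟩ := h2 (ε / 1000) j (by positivity)
  obtain ⟨Ct, hCt0, hCt⟩ := hT (ε / 1000) (by positivity)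
  have hCt0' : 0 ≤ Ct := hCt0.le
  refine ⟨j, 2 * Ct * (C1 + 4 * C2), 3 * ε / 1000, ε / 200, N0, by positivity, by positivity, ?_⟩
  intro N Q L1 L2 c c' a b hN hN1 hQ1 hQ2 hL1 hL2 hc hc' hconv hab ha hb
  have hNr : (1 : ℝ) ≤ N := by exact_mod_cast hN1
  have hN0 : (0 : ℝ) < N := by linarith
  by_cases hL : L1 ≤ L2
  swap
  · have hz : ∀ d, c' d = 0 := by
      intro d
      by_contra hd
      obtain ⟨-, s, -, hs1, hs2⟩ := hconv d hd
      exact hL (hs1.trans hs2)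
    have : ∑ d ∈ Ioc Q (2 * Q), ∑ d' ∈ Ioc Q (2 * Q),
        c d * c' d' * (SSN N j d d' a b - MM N d d' a b) = 0 := by
      apply Finset.sum_eq_zero
      intro d _
      apply Finset.sum_eq_zero
      intro d' _
      rw [hz d', mul_zero, zero_mul]
    rw [this, abs_zero]
    positivity
  obtain ⟨hQ, H, hH, hg⟩ := hC1 N Q L1 L2 hN hN1 hQ1 hQ2 hL1 hL hL2
  have hQr : (1 : ℝ) ≤ Q := by exact_mod_cast hQ
  -- the sum as a complex number
  have e1 : |∑ d ∈ Ioc Q (2 * Q), ∑ d' ∈ Ioc Q (2 * Q),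
      c d * c' d' * (SSN N j d d' a b - MM N d d' a b)| =
      ‖∑ g ∈ Icc 1 (2 * Q), pg Q g (fEN N j g c c' a b)‖ := by
    rw [← Real.norm_eq_abs, ← Complex.norm_real]
    congr 1
    push_cast
    have := h1 Q (fun d d' => (((c d * c' d' * (SSN N j d d' a b - MM N d d' a b) : ℝ)) : ℂ))
    push_cast at this
    rw [this]
    refine Finset.sum_congr rfl fun g _ => ?_
    unfold pg fEN
    push_cast
    rfl
  rw [e1]
  -- the divisors
  set k : ℕ := (b - a).natAbs with hk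
  have hk1 : 1 ≤ k := by
    have : b - a ≠ 0 := sub_ne_zero.2 (Ne.symm hab)
    exact Nat.one_le_iff_ne_zero.2 (Int.natAbs_ne_zero.2 this)
  have hk2 : k ≤ 2 * N := by
    have h5 : |b - a| ≤ 2 * N := by
      have := abs_sub b a
      linarith
    have h6 : (k : ℤ) = |b - a| := by rw [hk]; exact Int.natCast_natAbs _
    have : (k : ℤ) ≤ 2 * N := by rw [h6]; exact h5
    exact_mod_cast this
  have e2 : ∑ g ∈ Icc 1 (2 * Q), pg Q g (fEN N j g c c' a b) =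
      ∑ g ∈ (Icc 1 (2 * Q)).filter (fun g => g ∈ k.divisors), pg Q g (fEN N j g c c' a b) := by
    rw [Finset.sum_filter]
    refine Finset.sum_congr rfl fun g _ => ?_
    split_ifs with h
    · rfl
    · refine h3 N j Q g c c' a b fun hd => h ?_
      rw [Nat.mem_divisors]
      exact ⟨Int.natCast_dvd.1 hd, by omega⟩
  rw [e2]
  have hlam : (N : ℝ) ^ ((1 : ℝ) - 4 * ε / 1000) > 0 := Real.rpow_pos_of_pos hN0 _
  have e3 : ∀ g ∈ (Icc 1 (2 * Q)).filter (fun g => g ∈ k.divisors),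
      ‖pg Q g (fEN N j g c c' a b)‖ ≤ (C1 + 4 * C2) * (N : ℝ) ^ ((1 : ℝ) - 4 * ε / 1000) := by
    intro g hg'
    rw [mem_filter, mem_Icc, Nat.mem_divisors] at hg'
    obtain ⟨⟨g1, g2⟩, g3, g4⟩ := hg'
    have hdv : (g : ℤ) ∣ b - a := Int.natCast_dvd.2 g3
    have g1r : (1 : ℝ) ≤ g := by exact_mod_cast g1
    rcases le_or_gt (g : ℝ) ((N : ℝ) ^ (ε / 200)) with hs | hs
    · obtain ⟨i1, i2, i3, i4, i5⟩ := hg g g1 hs
      have := hC N Q H g L1 L2 c c' a b hN1 hH g1 i1 i2 i3 hL i4 hc hc' hconv hab ha hb hdv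
      refine this.trans (i5.trans ?_)
      have q1 : (N : ℝ) ^ ((1 : ℝ) - ε / 10) ≤ (N : ℝ) ^ ((1 : ℝ) - 4 * ε / 1000) :=
        Real.rpow_le_rpow_of_exponent_le hNr (by linarith)
      calc C1 * (N : ℝ) ^ ((1 : ℝ) - ε / 10) ≤ C1 * (N : ℝ) ^ ((1 : ℝ) - 4 * ε / 1000) :=
            mul_le_mul_of_nonneg_left q1 hC10
        _ ≤ (C1 + 4 * C2) * (N : ℝ) ^ ((1 : ℝ) - 4 * ε / 1000) := by
            apply mul_le_mul_of_nonneg_right (by linarith) hlam.le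
    · have hL' := hC2 N Q g c c' a b hN1 hQ g1 hc hc' hab ha hb
      refine hL'.trans ?_
      have hG : (0 : ℝ) < (N : ℝ) ^ (ε / 200) := Real.rpow_pos_of_pos hN0 _
      have j1 : (N : ℝ) / g ≤ (N : ℝ) ^ ((1 : ℝ) - ε / 200) := by
        have : (N : ℝ) / g ≤ (N : ℝ) / (N : ℝ) ^ (ε / 200) := by
          apply div_le_div_of_nonneg_left (by positivity) hG hs.le
        refine this.trans (le_of_eq ?_)
        rw [Real.rpow_sub hN0, Real.rpow_one]
      have j2 : (Q : ℝ) ≤ 2 * (N : ℝ) ^ ((1 : ℝ) - ε / 200) := by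
        refine hQ2.trans ?_
        have := Real.rpow_le_rpow_of_exponent_le hNr
          (by linarith : (1 : ℝ) / 2 + δ ≤ 1 - ε / 200)
        linarith
      have j3 : (1 : ℝ) ≤ (N : ℝ) ^ ((1 : ℝ) - ε / 200) :=
        Real.one_le_rpow hNr (by linarith)
      have j4 : (N : ℝ) / g + Q + 1 ≤ 4 * (N : ℝ) ^ ((1 : ℝ) - ε / 200) := by linarith
      have j5 : (N : ℝ) ^ (ε / 1000) * (N : ℝ) ^ ((1 : ℝ) - ε / 200) =
          (N : ℝ) ^ ((1 : ℝ) - 4 * ε / 1000) := by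
        rw [← Real.rpow_add hN0]
        congr 1
        ring
      calc C2 * (N : ℝ) ^ (ε / 1000) * ((N : ℝ) / g + Q + 1)
          ≤ C2 * (N : ℝ) ^ (ε / 1000) * (4 * (N : ℝ) ^ ((1 : ℝ) - ε / 200)) :=
            mul_le_mul_of_nonneg_left j4 (by positivity)
        _ = (4 * C2) * ((N : ℝ) ^ (ε / 1000) * (N : ℝ) ^ ((1 : ℝ) - ε / 200)) := by ring
        _ = (4 * C2) * (N : ℝ) ^ ((1 : ℝ) - 4 * ε / 1000) := by rw [j5]
        _ ≤ (C1 + 4 * C2) * (N : ℝ) ^ ((1 : ℝ) - 4 * ε / 1000) := by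
            apply mul_le_mul_of_nonneg_right (by linarith) hlam.le
  have e4 : (((Icc 1 (2 * Q)).filter (fun g => g ∈ k.divisors)).card : ℝ) ≤
      2 * Ct * (N : ℝ) ^ (ε / 1000) := by
    have l1 : ((Icc 1 (2 * Q)).filter (fun g => g ∈ k.divisors)).card ≤ k.divisors.card := by
      apply Finset.card_le_card
      intro g hg'
      exact (mem_filter.1 hg').2
    have l2 : (((Icc 1 (2 * Q)).filter (fun g => g ∈ k.divisors)).card : ℝ) ≤
        (k.divisors.card : ℝ) := by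
      exact_mod_cast l1
    refine l2.trans ((hCt k hk1).trans ?_)
    have l3 : (k : ℝ) ^ (ε / 1000) ≤ (2 * (N : ℝ)) ^ (ε / 1000) := by
      apply Real.rpow_le_rpow (by positivity) _ (by positivity)
      exact_mod_cast hk2
    have l4 : (2 * (N : ℝ)) ^ (ε / 1000) ≤ 2 * (N : ℝ) ^ (ε / 1000) := by
      rw [Real.mul_rpow (by norm_num) hN0.le]
      apply mul_le_mul_of_nonneg_right _ (by positivity)
      calc (2 : ℝ) ^ (ε / 1000) ≤ (2 : ℝ) ^ (1 : ℝ) :=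
            Real.rpow_le_rpow_of_exponent_le (by norm_num) (by linarith)
        _ = 2 := by norm_num
    calc Ct * (k : ℝ) ^ (ε / 1000) ≤ Ct * (2 * (N : ℝ) ^ (ε / 1000)) :=
          mul_le_mul_of_nonneg_left (l3.trans l4) hCt0'
      _ = 2 * Ct * (N : ℝ) ^ (ε / 1000) := by ring
  calc ‖∑ g ∈ (Icc 1 (2 * Q)).filter (fun g => g ∈ k.divisors), pg Q g (fEN N j g c c' a b)‖
      ≤ ∑ g ∈ (Icc 1 (2 * Q)).filter (fun g => g ∈ k.divisors),
          ‖pg Q g (fEN N j g c c' a b)‖ := norm_sum_le _ _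
    _ ≤ ∑ g ∈ (Icc 1 (2 * Q)).filter (fun g => g ∈ k.divisors),
          (C1 + 4 * C2) * (N : ℝ) ^ ((1 : ℝ) - 4 * ε / 1000) := Finset.sum_le_sum e3
    _ = (((Icc 1 (2 * Q)).filter (fun g => g ∈ k.divisors)).card : ℝ) *
          ((C1 + 4 * C2) * (N : ℝ) ^ ((1 : ℝ) - 4 * ε / 1000)) := by rw [sum_const, nsmul_eq_mul]
    _ ≤ (2 * Ct * (N : ℝ) ^ (ε / 1000)) *
          ((C1 + 4 * C2) * (N : ℝ) ^ ((1 : ℝ) - 4 * ε / 1000)) := by
        apply mul_le_mul_of_nonneg_right e4 (by positivity)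
    _ = (2 * Ct * (C1 + 4 * C2)) * (N : ℝ) ^ (ε / 1000 + (1 - 4 * ε / 1000)) := by
        rw [Real.rpow_add hN0]; ring
    _ = (2 * Ct * (C1 + 4 * C2)) * (N : ℝ) ^ ((1 : ℝ) - 3 * ε / 1000) := by
        congr 2
        ring

end Pool.Agent.Lib.TN
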