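import Pool.Agent.Lib.TN.Stm3

/-!
MP_00e23e_nt, Lib/TB, module Mxc: the points n = a and n = b.
-/

namespace Pool.Agent.Lib.TN

open Finset Pool.Agent.Lib.EH3 Pool.Agent.Lib.TB

private lemma Nxc_sum {R Q : ℕ} {c : ℕ → ℝ} (hc : ∀ d, |c d| ≤ 1) (m : ℤ) :
    |∑ d ∈ Ioc Q (2 * Q), c d * dd R d m| ≤ ∑ d ∈ Ioc Q (2 * Q), |dd R d m| := by
  refine (abs_sum_le_sum_abs _ _).trans (sum_le_sum fun d _ => ?_)
  rw [abs_mul]
  exact mul_le_of_le_one_left (abs_nonneg _) (hc d)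

private lemma Nxc_zero (h1 : MabStmt) {R Q : ℕ} {c : ℕ → ℝ} (hc : ∀ d, |c d| ≤ 1) :
    |∑ d ∈ Ioc Q (2 * Q), c d * dd R d 0| ≤ Q := by
  refine (Nxc_sum hc 0).trans ?_
  have h2 : ∀ d ∈ Ioc Q (2 * Q), |dd R d 0| ≤ 1 := fun d hd => h1.2 R d (by
    rw [mem_Ioc] at hd
    omega)
  refine (sum_le_card_nsmul _ _ _ h2).trans_eq ?_
  rw [Nat.card_Ioc, nsmul_eq_mul, mul_one]
  congr 1
  omega

theorem tMxcN (h0 : WbStmt) (h1 : MabStmt) : MxcNStmt := by
  intro N j R Q c c' a b hN hR hc hc' hab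
  set Z : ℝ := (Q : ℝ) * (((a - b).natAbs.divisors.card : ℝ) * (4 + 3 * Real.log R)) with hZ
  have hlog : 0 ≤ Real.log R := Real.log_nonneg (by exact_mod_cast hR)
  have hZ0 : 0 ≤ Z := by positivity
  have hba : (b - a).natAbs = (a - b).natAbs := by
    rw [← neg_sub, Int.natAbs_neg]
  have e1 : |∑ d ∈ Ioc Q (2 * Q), c' d * dd R d (a - b)| ≤
      ((a - b).natAbs.divisors.card : ℝ) * (4 + 3 * Real.log R) :=
    (Nxc_sum hc' _).trans (h1.1 R Q _ hR (sub_ne_zero.2 hab))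
  have e2 : |∑ d ∈ Ioc Q (2 * Q), c d * dd R d (b - a)| ≤
      ((a - b).natAbs.divisors.card : ℝ) * (4 + 3 * Real.log R) := by
    have h := (Nxc_sum (R := R) (Q := Q) hc (b - a)).trans
      (h1.1 R Q _ hR (sub_ne_zero.2 hab.symm))
    rwa [hba] at h
  have z1 := Nxc_zero h1 (R := R) (Q := Q) hc
  have z2 := Nxc_zero h1 (R := R) (Q := Q) hc'
  rw [← sum_sub_distrib]
  refine (abs_sum_le_sum_abs _ _).trans ?_
  have key : ∀ n ∈ Iw N j,
      |wt N j n * (FF R Q c (n - a) * FF R Q c' (n - b)) -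
        wt N j n * ((∑ d ∈ Ioc Q (2 * Q), c d * dd R d (n - a)) *
          (∑ d' ∈ Ioc Q (2 * Q), c' d' * dd R d' (n - b)))| ≤
      (if n = a then Z else 0) + (if n = b then Z else 0) := by
    intro n _
    obtain ⟨t1, t2⟩ : 0 ≤ wt N j n ∧ wt N j n ≤ 1 := ⟨(h0 N j hN).1 n, (h0 N j hN).2.1 n⟩
    by_cases ha : n = a
    · subst ha
      rw [if_pos rfl, if_neg hab, add_zero, sub_self, FF, if_pos rfl, zero_mul, mul_zero,
        zero_sub, abs_neg, abs_mul, abs_of_nonneg t1, abs_mul]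
      exact (mul_le_of_le_one_left (by positivity) t2).trans
        (mul_le_mul z1 e1 (abs_nonneg _) Q.cast_nonneg)
    · by_cases hb : n = b
      · subst hb
        rw [if_neg ha, if_pos rfl, zero_add, sub_self, FF, FF, if_pos rfl, mul_zero, mul_zero,
          zero_sub, abs_neg, abs_mul, abs_of_nonneg t1, abs_mul]
        refine (mul_le_of_le_one_left (by positivity) t2).trans ?_
        refine (mul_le_mul e2 z2 (abs_nonneg _) (by positivity)).trans_eq ?_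
        rw [hZ, mul_comm]
      · rw [if_neg ha, if_neg hb, FF, FF, if_neg (sub_ne_zero.2 ha), if_neg (sub_ne_zero.2 hb),
          sub_self, abs_zero, add_zero]
  refine (sum_le_sum key).trans ?_
  rw [sum_add_distrib, sum_ite_eq', sum_ite_eq']
  have h3 : (if a ∈ Iw N j then Z else 0) ≤ Z := by
    split_ifs
    · exact le_rfl
    · exact hZ0
  have h4 : (if b ∈ Iw N j then Z else 0) ≤ Z := by
    split_ifs
    · exact le_rfl
    · exact hZ0
  rw [hZ] at h3 h4 ⊢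
  linarith

end Pool.Agent.Lib.TN
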