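import Pool.Agent.Lib.TN.Nsc
import Pool.Agent.Lib.TN.Ncb
import Pool.Agent.Lib.TN.Nsb
import Pool.Agent.Lib.TN.Ncr
import Pool.Agent.Lib.TN.Nfu
import Pool.Agent.Lib.TN.Nxc
import Pool.Agent.Lib.TN.Nbg
import Pool.Agent.Lib.TB.AllM

/-!
MP_00e23e_nt, directory Lib/TN, module Nof: small N and conclusion of the off-diagonal estimate; final theorem of
part M: tOffN.
-/

namespace Pool.Agent.Lib.TN

open Finset Pool.Agent.Lib.EH3 Pool.Agent.Lib.TB

private lemma Nof_RR_pos {δ ε : ℝ} (N : ℕ) (hN : 1 ≤ N) (hr : 0 ≤ 1 / 2 - δ - ε) : 1 ≤ RN δ ε N := by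
  unfold RN
  apply Nat.le_floor
  rw [Nat.cast_one]
  exact Real.one_le_rpow (by exact_mod_cast hN) hr

private lemma Nof_RR_le {δ ε : ℝ} (N : ℕ) (hN : 1 ≤ N) (hr : 1 / 2 - δ - ε ≤ 1) : (RN δ ε N : ℝ) ≤ N := by
  unfold RN
  have h1 : (1 : ℝ) ≤ N := by exact_mod_cast hN
  refine (Nat.floor_le (Real.rpow_nonneg (by linarith) _)).trans ?_
  calc (N : ℝ) ^ (1 / 2 - δ - ε : ℝ) ≤ (N : ℝ) ^ (1 : ℝ) :=
        Real.rpow_le_rpow_of_exponent_le h1 hr
    _ = N := Real.rpow_one _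

private lemma Nof_FF (h1 : MabStmt) {δ ε : ℝ} (N Q k : ℕ) (c : ℕ → ℝ) (m : ℤ) (hN : 1 ≤ N)
    (hr : 0 ≤ 1 / 2 - δ - ε) (hr' : 1 / 2 - δ - ε ≤ 1)
    (hc : ∀ d, |c d| ≤ 1) (hm : |m| ≤ (((k * N : ℕ)) : ℤ)) :
    |FF (RN δ ε N) Q c m| ≤ (k : ℝ) * (N : ℝ) * (4 + 3 * N) := by
  have hN1 : (1 : ℝ) ≤ N := by exact_mod_cast hN
  unfold FF
  by_cases h0 : m = 0
  · rw [if_pos h0, abs_zero]
    positivity
  · rw [if_neg h0]
    have hR := Nof_RR_pos N hN hr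
    have hR1 : (1 : ℝ) ≤ RN δ ε N := by exact_mod_cast hR
    have h2 : |∑ d ∈ Ioc Q (2 * Q), c d * dd (RN δ ε N) d m| ≤
        ∑ d ∈ Ioc Q (2 * Q), |dd (RN δ ε N) d m| := by
      refine (Finset.abs_sum_le_sum_abs _ _).trans (Finset.sum_le_sum fun d _ => ?_)
      rw [abs_mul]
      calc |c d| * |dd (RN δ ε N) d m| ≤ 1 * |dd (RN δ ε N) d m| :=
            mul_le_mul_of_nonneg_right (hc d) (abs_nonneg _)
        _ = |dd (RN δ ε N) d m| := one_mul _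
    have h3 := h1.1 (RN δ ε N) Q m hR h0
    have h4 : (m.natAbs.divisors.card : ℝ) ≤ (k : ℝ) * N := by
      have h5 : m.natAbs.divisors.card ≤ m.natAbs := Nat.card_divisors_le_self _
      have h6 : m.natAbs ≤ k * N := by
        have : (m.natAbs : ℤ) ≤ ((k * N : ℕ) : ℤ) := by rw [Int.natCast_natAbs]; exact hm
        exact_mod_cast this
      exact_mod_cast h5.trans h6
    have h7 : Real.log (RN δ ε N) ≤ N := by
      have h8 := Real.log_le_sub_one_of_pos (show (0 : ℝ) < RN δ ε N by linarith)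
      have h9 := Nof_RR_le (δ := δ) (ε := ε) N hN hr'
      linarith
    have h10 : 0 ≤ Real.log (RN δ ε N) := Real.log_nonneg hR1
    refine (h2.trans h3).trans ?_
    exact mul_le_mul h4 (by linarith) (by linarith) (by positivity)

theorem tMofN (h0 : WbStmt) (h1 : MabStmt) (h2 : MbgNStmt) : OffNStmt := by
  intro δ ε hδ hε hδε
  obtain ⟨j, C, η, κ, N0, hη, hκ, hB⟩ := h2 δ ε hδ hε hδε
  have hr : 0 ≤ 1 / 2 - δ - ε := by linarith
  have hr' : 1 / 2 - δ - ε ≤ 1 := by linarith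
  set B : ℝ := ((j : ℝ) + 2) * (N0 : ℝ) * (4 + 3 * N0) with hBdef
  set C1 : ℝ := (2 * ((j : ℝ) + 1) * (N0 : ℝ) + 1) * (B * B) with hC1
  refine ⟨j, max (max C 0) C1, min η 1, κ, lt_min hη one_pos, hκ, ?_⟩
  intro N Q L1 L2 c c' a b hN hQ1 hQ2 hL1 hL2 hc hc' hcv hcv' hab ha hb
  have hN1 : (1 : ℝ) ≤ N := by exact_mod_cast hN
  have hC0 : 0 ≤ max (max C 0) C1 := (le_max_right C 0).trans (le_max_left _ _)
  change |∑ n ∈ Iw N j, wt N j n * (FF (RN δ ε N) Q c (n - a) * FF (RN δ ε N) Q c' (n - b))| ≤ _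
  by_cases hcase : N0 ≤ N
  · have h3 := hB N Q L1 L2 c c' a b hcase hN hQ1 hQ2 hL1 hL2 hc hc' hcv' hab ha hb
    refine h3.trans ?_
    have h4 : (N : ℝ) ^ (1 - η) ≤ (N : ℝ) ^ (1 - min η 1) :=
      Real.rpow_le_rpow_of_exponent_le hN1 (by linarith [min_le_left η 1])
    have h5 : 0 ≤ (N : ℝ) ^ (1 - η) := Real.rpow_nonneg (by linarith) _
    calc C * (N : ℝ) ^ (1 - η) ≤ max (max C 0) C1 * (N : ℝ) ^ (1 - η) :=
          mul_le_mul_of_nonneg_right ((le_max_left C 0).trans (le_max_left _ _)) h5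
      _ ≤ max (max C 0) C1 * (N : ℝ) ^ (1 - min η 1) := mul_le_mul_of_nonneg_left h4 hC0
  · push Not at hcase
    have hNN0 : (N : ℝ) ≤ N0 := by exact_mod_cast hcase.le
    have hN00 : (0 : ℝ) ≤ N0 := Nat.cast_nonneg _
    have hj0 : (0 : ℝ) ≤ j := Nat.cast_nonneg _
    have hFB : ∀ (c : ℕ → ℝ) (m : ℤ), (∀ d, |c d| ≤ 1) → |m| ≤ ((((j + 2) * N : ℕ)) : ℤ) →
        |FF (RN δ ε N) Q c m| ≤ B := by
      intro c m hc hm
      refine (Nof_FF h1 N Q (j + 2) c m hN hr hr' hc hm).trans ?_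
      rw [hBdef]
      push_cast
      have g1 : ((j : ℝ) + 2) * (N : ℝ) ≤ ((j : ℝ) + 2) * (N0 : ℝ) :=
        mul_le_mul_of_nonneg_left hNN0 (by linarith)
      exact mul_le_mul g1 (by linarith) (by linarith) (by positivity)
    have hB0 : 0 ≤ B := by rw [hBdef]; positivity
    have hw := h0 N j hN
    have hsum : |∑ n ∈ Iw N j, wt N j n * (FF (RN δ ε N) Q c (n - a) *
        FF (RN δ ε N) Q c' (n - b))| ≤ ∑ n ∈ Iw N j, B * B := by
      refine (Finset.abs_sum_le_sum_abs _ _).trans (Finset.sum_le_sum fun n hn => ?_)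
      obtain ⟨hn1, hn2⟩ := Finset.mem_Icc.1 hn
      rw [abs_mul, abs_mul]
      have hn3 : |n| ≤ (((j + 1) * N : ℕ) : ℤ) := abs_le.2 ⟨hn1, hn2⟩
      have e1 : (((j + 2) * N : ℕ) : ℤ) = (((j + 1) * N : ℕ) : ℤ) + N := by
        push_cast
        ring
      have h6 : |FF (RN δ ε N) Q c (n - a)| ≤ B := by
        apply hFB c _ hc
        have := abs_sub n a
        rw [e1]
        linarith
      have h7 : |FF (RN δ ε N) Q c' (n - b)| ≤ B := by
        apply hFB c' _ hc'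
        have := abs_sub n b
        rw [e1]
        linarith
      have h8 : |wt N j n| ≤ 1 := by
        rw [abs_of_nonneg (hw.1 n)]
        exact hw.2.1 n
      calc |wt N j n| * (|FF (RN δ ε N) Q c (n - a)| * |FF (RN δ ε N) Q c' (n - b)|) ≤ 1 * (B * B) :=
            mul_le_mul h8 (mul_le_mul h6 h7 (abs_nonneg _) hB0)
              (mul_nonneg (abs_nonneg _) (abs_nonneg _)) zero_le_one
        _ = B * B := one_mul _
    have hcard : ∑ n ∈ Iw N j, B * B = (2 * ((j : ℝ) + 1) * (N : ℝ) + 1) * (B * B) := by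
      unfold Iw
      rw [Finset.sum_const, Int.card_Icc, nsmul_eq_mul]
      congr 1
      have : ((((j + 1) * N : ℕ) : ℤ) + 1 - -(((j + 1) * N : ℕ) : ℤ)).toNat = 2 * ((j + 1) * N) + 1 := by
        omega
      rw [this]
      push_cast
      ring
    rw [hcard] at hsum
    have h8 : (2 * ((j : ℝ) + 1) * (N : ℝ) + 1) * (B * B) ≤ C1 := by
      rw [hC1]
      apply mul_le_mul_of_nonneg_right _ (mul_nonneg hB0 hB0)
      have g1 : (2 * ((j : ℝ) + 1)) * (N : ℝ) ≤ (2 * ((j : ℝ) + 1)) * (N0 : ℝ) :=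
        mul_le_mul_of_nonneg_left hNN0 (by linarith)
      linarith
    have h9 : (1 : ℝ) ≤ (N : ℝ) ^ (1 - min η 1) :=
      Real.one_le_rpow hN1 (by linarith [min_le_right η 1])
    calc _ ≤ C1 := hsum.trans h8
      _ ≤ max (max C 0) C1 := le_max_right _ _
      _ = max (max C 0) C1 * 1 := (mul_one _).symm
      _ ≤ max (max C 0) C1 * (N : ℝ) ^ (1 - min η 1) := mul_le_mul_of_nonneg_left h9 hC0

/-- **part M**: (OFF) for convenient moduli from the results of part G -/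
theorem tOffN (h0 : WbStmt) (h1 : WxStmt) (h2 : EENStmt) : OffNStmt :=
  tMofN h0 (tMab tMdy)
    (tMbgN h2 tMta (tMmi tMrs tMka) (tMmb tMdy)
      (tMcrN tMka (tSsbdN tSsclN tSszeN (tMcbN h1))) (tMfuN tMka) (tMxcN h0 (tMab tMdy)))

end Pool.Agent.Lib.TN
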