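import Pool.Agent.Lib.TN.Stm3

/-! Two congruences are one congruence modulo the least common multiple (weight wt N j). -/

namespace Pool.Agent.Lib.TN

open Finset Pool.Agent.Lib.EH3 Pool.Agent.Lib.TB

private lemma Nsc_lcm (u w : ℕ) (m : ℤ) :
    ((Nat.lcm u w : ℕ) : ℤ) ∣ m ↔ (u : ℤ) ∣ m ∧ (w : ℤ) ∣ m := by
  rw [Int.natCast_dvd, Int.natCast_dvd, Int.natCast_dvd, Nat.lcm_dvd_iff]

theorem tSsclN : SsclNStmt := by
  intro N j u w a b ν hu hw ha hb
  constructor
  · unfold SSN clN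
    refine sum_congr rfl fun n _ => ?_
    have h : ((u : ℤ) ∣ n - a ∧ (w : ℤ) ∣ n - b) ↔ ((Nat.lcm u w : ℕ) : ℤ) ∣ n - ν := by
      rw [Nsc_lcm]
      have e1 : n - a = (n - ν) + (ν - a) := by ring
      have e2 : n - b = (n - ν) + (ν - b) := by ring
      rw [e1, e2, dvd_add_left ha, dvd_add_left hb]
    simp only [h]
  · have hg : ((Nat.gcd u w : ℕ) : ℤ) ∣ a - b := by
      have e : a - b = (ν - b) - (ν - a) := by ring
      rw [e]
      exact dvd_sub ((Int.natCast_dvd_natCast.2 (Nat.gcd_dvd_right u w)).trans hb)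
        ((Int.natCast_dvd_natCast.2 (Nat.gcd_dvd_left u w)).trans ha)
    unfold MM
    rw [if_pos hg]
    have h1 : (Nat.gcd u w : ℝ) * (Nat.lcm u w : ℝ) = (u : ℝ) * w := by
      exact_mod_cast Nat.gcd_mul_lcm u w
    have hl : (0 : ℝ) < (Nat.lcm u w : ℝ) := by
      exact_mod_cast Nat.lcm_pos hu hw
    have hg0 : (0 : ℝ) < (Nat.gcd u w : ℝ) := by
      exact_mod_cast Nat.gcd_pos_of_pos_left w hu
    rw [← h1]
    field_simp

theorem tSszeN : SszeNStmt := by
  intro N j u w a b hg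
  constructor
  · unfold SSN
    refine sum_eq_zero fun n _ => ?_
    rw [if_neg, mul_zero]
    rintro ⟨ha, hb⟩
    apply hg
    have e : a - b = (n - b) - (n - a) := by ring
    rw [e]
    exact dvd_sub ((Int.natCast_dvd_natCast.2 (Nat.gcd_dvd_right u w)).trans hb)
      ((Int.natCast_dvd_natCast.2 (Nat.gcd_dvd_left u w)).trans ha)
  · unfold MM
    rw [if_neg hg]

end Pool.Agent.Lib.TN
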