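import Pool.Agent.Lib.TN.SpecT
set_option autoImplicit false

namespace Pool.Agent.Lib.TN

open Finset Pool.Agent.Lib.EH3 Pool.Agent.Lib.TB

/-- the number of dyadic blocks -/
private lemma Pgt_J (e : ℝ) (he : 0 < e) (P : ℕ) (hP : 1 ≤ P) :
    ((Nat.clog 2 (3 * P) : ℕ) : ℝ) ≤ (4 + 2 / e) * (P : ℝ) ^ e := by
  have hPr : (1 : ℝ) ≤ P := by exact_mod_cast hP
  have hP0 : (0 : ℝ) < P := by linarith
  set J := Nat.clog 2 (3 * P) with hJ
  have h1 : 2 ^ (J - 1) < 3 * P := by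
    have := Nat.pow_pred_clog_lt_self (b := 2) (by norm_num) (x := 3 * P) (by omega)
    exact this
  have h2 : ((2 : ℝ)) ^ (J - 1) < 3 * P := by exact_mod_cast h1
  have h3 : ((J - 1 : ℕ) : ℝ) * Real.log 2 < Real.log (3 * P) := by
    rw [← Real.log_pow]
    exact Real.log_lt_log (by positivity) h2
  have h4 : Real.log (3 * P) = Real.log 3 + Real.log P := Real.log_mul (by norm_num) hP0.ne'
  have h5 : Real.log 3 ≤ 2 * Real.log 2 := by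
    rw [← Real.log_rpow (by norm_num)]
    apply Real.log_le_log (by norm_num)
    norm_num
  have h6 : (1 : ℝ) / 2 < Real.log 2 := by
    have := Real.log_two_gt_d9
    linarith
  have h7 : Real.log P ≤ (P : ℝ) ^ e / e := Real.log_le_rpow_div hP0.le he
  have h8 : (1 : ℝ) ≤ (P : ℝ) ^ e := Real.one_le_rpow hPr he.le
  have hlogP : 0 ≤ Real.log P := Real.log_nonneg hPr
  have h9 : ((J - 1 : ℕ) : ℝ) ≤ 2 + 2 * Real.log P := by
    by_contra hcon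
    push Not at hcon
    have : (2 + 2 * Real.log P) * Real.log 2 ≤ ((J - 1 : ℕ) : ℝ) * Real.log 2 :=
      mul_le_mul_of_nonneg_right hcon.le (by linarith)
    have h10 : 2 * Real.log P * (1 / 2) ≤ 2 * Real.log P * Real.log 2 :=
      mul_le_mul_of_nonneg_left h6.le (by linarith)
    nlinarith
  have h11 : (J : ℝ) ≤ ((J - 1 : ℕ) : ℝ) + 1 := by
    have : J ≤ (J - 1) + 1 := by omega
    exact_mod_cast this
  have h12 : (4 + 2 / e) * (P : ℝ) ^ e = 4 * (P : ℝ) ^ e + 2 * ((P : ℝ) ^ e / e) := by ring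
  rw [h12]
  linarith

private lemma Pgt_div (Q g : ℕ) (hg : 1 ≤ g) (hgQ : g ≤ Q) : 2 * Q / g ≤ 3 * (Q / g) := by
  have hP1 : 1 ≤ Q / g := (Nat.one_le_div_iff (by omega)).mpr hgQ
  have h1 : 2 * Q < g * (2 * (Q / g) + 2) := by
    have := Nat.div_add_mod Q g
    have h2 := Nat.mod_lt Q (by omega : g > 0)
    have h3 : g * (2 * (Q / g) + 2) = 2 * (g * (Q / g)) + 2 * g := by ring
    omega
  have h4 : 2 * Q / g < 2 * (Q / g) + 2 := by
    rw [Nat.div_lt_iff_lt_mul (by omega)]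
    have h5 : (2 * (Q / g) + 2) * g = g * (2 * (Q / g) + 2) := mul_comm _ _
    rw [h5]
    exact h1
  omega

private lemma Pgt_al (Q g : ℕ) (c : ℕ → ℝ) (hc : ∀ d, |c d| ≤ 1) (m : ℕ) : ‖al Q g c m‖ ≤ 1 := by
  unfold al
  split_ifs with h
  · rw [Complex.norm_real, Real.norm_eq_abs, abs_div, abs_mul]
    have hm : (0 : ℝ) < m := by
      have : 0 < m := lt_of_le_of_lt (Nat.zero_le _) h.1
      exact_mod_cast this
    have h1 : (((Q / g : ℕ) : ℝ)) ≤ m := by exact_mod_cast h.1.le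
    rw [Nat.abs_cast, Nat.abs_cast, div_le_one hm]
    calc |c (g * m)| * ((Q / g : ℕ) : ℝ) ≤ 1 * ((Q / g : ℕ) : ℝ) :=
          mul_le_mul_of_nonneg_right (hc _) (Nat.cast_nonneg _)
      _ ≤ m := by rw [one_mul]; exact h1
  · simp

private lemma Pgt_be (Q g : ℕ) (c' : ℕ → ℝ) (σ : ℕ → ℕ) (hc' : ∀ d, |c' d| ≤ 1) (r s : ℕ) :
    ‖be Q g c' σ r s‖ ≤ 1 := by
  unfold be
  split_ifs with h
  · rw [Complex.norm_real, Real.norm_eq_abs, abs_div, abs_mul]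
    have hm : (0 : ℝ) < (r : ℝ) * s := by
      have : 0 < r * s := lt_of_le_of_lt (Nat.zero_le _) h.1
      exact_mod_cast this
    have h1 : (((Q / g : ℕ) : ℝ)) ≤ (r : ℝ) * s := by exact_mod_cast h.1.le
    rw [Nat.abs_cast, abs_of_pos hm, div_le_one hm]
    calc |c' (g * (r * s))| * ((Q / g : ℕ) : ℝ) ≤ 1 * ((Q / g : ℕ) : ℝ) :=
          mul_le_mul_of_nonneg_right (hc' _) (Nat.cast_nonneg _)
      _ ≤ (r : ℝ) * s := by rw [one_mul]; exact h1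
  · simp

/-- the exponents for one dyadic block -/
private lemma Pgt_exp (P S H g L1 L2 : ℝ) (hP : 1 ≤ P) (hS : 1 ≤ S) (hH : 1 ≤ H) (hg : 1 ≤ g)
    (hL1 : 0 < L1) (hS1 : L1 / (2 * g) ≤ S) (hS2 : S ≤ L2) :
    (P ^ 4 * H / S) ^ ((1 : ℝ) / 2) + H * (P ^ ((7 : ℝ) / 2) * S ^ ((1 : ℝ) / 2)) ^ ((1 : ℝ) / 2) ≤
      P ^ 2 * (2 * ((H * g / L1) ^ ((1 : ℝ) / 2) + H * (L2 / P) ^ ((1 : ℝ) / 4))) := by
  have hP0 : 0 < P := by linarith
  have hS0 : 0 < S := by linarith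
  have hL2 : 0 < L2 := by linarith
  have hg0 : 0 < g := by linarith
  have h1 : P ^ 4 * H / S ≤ (2 * P ^ 2) ^ 2 * (H * g / L1) := by
    have h2 : 1 / S ≤ 2 * g / L1 := by
      rw [div_le_div_iff₀ hS0 hL1]
      rw [div_le_iff₀ (by positivity)] at hS1
      linarith
    have h3 : P ^ 4 * H / S = P ^ 4 * H * (1 / S) := by ring
    have h4 : (2 * P ^ 2) ^ 2 * (H * g / L1) = 2 * (P ^ 4 * H * (2 * g / L1)) := by ring
    rw [h3, h4]
    have h5 : P ^ 4 * H * (1 / S) ≤ P ^ 4 * H * (2 * g / L1) :=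
      mul_le_mul_of_nonneg_left h2 (by positivity)
    have h6 : 0 ≤ P ^ 4 * H * (2 * g / L1) := by positivity
    linarith
  have h2 : (P ^ 4 * H / S) ^ ((1 : ℝ) / 2) ≤ 2 * P ^ 2 * (H * g / L1) ^ ((1 : ℝ) / 2) := by
    calc (P ^ 4 * H / S) ^ ((1 : ℝ) / 2) ≤ ((2 * P ^ 2) ^ 2 * (H * g / L1)) ^ ((1 : ℝ) / 2) :=
          Real.rpow_le_rpow (by positivity) h1 (by norm_num)
      _ = 2 * P ^ 2 * (H * g / L1) ^ ((1 : ℝ) / 2) := by
          rw [Real.mul_rpow (by positivity) (by positivity), ← Real.sqrt_eq_rpow,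
            Real.sqrt_sq (by positivity)]
  have h3 : (P ^ ((7 : ℝ) / 2) * S ^ ((1 : ℝ) / 2)) ^ ((1 : ℝ) / 2) ≤
      P ^ 2 * (L2 / P) ^ ((1 : ℝ) / 4) := by
    have e1 : (P ^ ((7 : ℝ) / 2) * S ^ ((1 : ℝ) / 2)) ^ ((1 : ℝ) / 2) =
        P ^ ((7 : ℝ) / 4) * S ^ ((1 : ℝ) / 4) := by
      rw [Real.mul_rpow (by positivity) (by positivity), ← Real.rpow_mul hP0.le,
        ← Real.rpow_mul hS0.le]
      norm_num
    have e2 : P ^ 2 * (L2 / P) ^ ((1 : ℝ) / 4) = P ^ ((7 : ℝ) / 4) * L2 ^ ((1 : ℝ) / 4) := by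
      rw [Real.div_rpow hL2.le hP0.le, ← Real.rpow_natCast P 2]
      have : P ^ ((2 : ℕ) : ℝ) = P ^ ((7 : ℝ) / 4) * P ^ ((1 : ℝ) / 4) := by
        rw [← Real.rpow_add hP0]
        norm_num
      rw [this]
      have : P ^ ((1 : ℝ) / 4) ≠ 0 := (Real.rpow_pos_of_pos hP0 _).ne'
      field_simp
    rw [e1, e2]
    apply mul_le_mul_of_nonneg_left _ (by positivity)
    exact Real.rpow_le_rpow hS0.le hS2 (by norm_num)
  have h4 : H * (P ^ ((7 : ℝ) / 2) * S ^ ((1 : ℝ) / 2)) ^ ((1 : ℝ) / 2) ≤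
      H * (P ^ 2 * (L2 / P) ^ ((1 : ℝ) / 4)) := mul_le_mul_of_nonneg_left h3 (by linarith)
  have h5 : 0 ≤ H * (P ^ 2 * (L2 / P) ^ ((1 : ℝ) / 4)) := by positivity
  have h6 : P ^ 2 * (2 * ((H * g / L1) ^ ((1 : ℝ) / 2) + H * (L2 / P) ^ ((1 : ℝ) / 4))) =
      2 * P ^ 2 * (H * g / L1) ^ ((1 : ℝ) / 2) + 2 * (H * (P ^ 2 * (L2 / P) ^ ((1 : ℝ) / 4))) := by
    ring
  rw [h6]
  linarith

theorem tPgt (h1 : TriStmt) (h2 : PslStmt) (h3 : PdyStmt) : PgtStmt := by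
  intro ε hε
  obtain ⟨C0, hC0, hC⟩ := h1 (ε / 2) (by positivity)
  refine ⟨(4 + 2 / (ε / 2)) * (2 * C0), by positivity, ?_⟩
  intro Q g H L1 L2 c c' θ τ hg hgQ hH hL1 hL12 hL2 hc hc' hconv hθ
  have hP1 : 1 ≤ Q / g := (Nat.one_le_div_iff (by omega)).mpr hgQ
  have hPr : (1 : ℝ) ≤ ((Q / g : ℕ) : ℝ) := by exact_mod_cast hP1
  have hHr : (1 : ℝ) ≤ H := by exact_mod_cast hH
  have hgr : (1 : ℝ) ≤ g := by exact_mod_cast hg
  have hL1p : 0 < L1 := by linarith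
  have hL2p : 0 < L2 := by linarith
  have hθr : (1 : ℝ) ≤ |(θ : ℝ)| := by
    have : (1 : ℤ) ≤ |θ| := Int.one_le_abs hθ
    exact_mod_cast this
  obtain ⟨σ, hσ⟩ := h2 g L1 L2 c' hg hconv
  have hσ2 : ∀ n, 1 ≤ n → c' (g * n) ≠ 0 → σ n ∣ n ∧ 2 ≤ σ n := by
    intro n hn hcn
    obtain ⟨s1, s2, -⟩ := hσ n hn hcn
    refine ⟨s1, ?_⟩
    have : (4 : ℝ) ≤ L1 / g := by
      rw [le_div_iff₀ (by linarith)]
      exact hL1
    have h5 : (2 : ℝ) ≤ (σ n : ℝ) := by linarith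
    exact_mod_cast h5
  set J := Nat.clog 2 (3 * (Q / g)) with hJ
  have hJ1 : 3 * (Q / g) ≤ 2 ^ J := Nat.le_pow_clog (by norm_num) _
  have hdy := h3 Q g H J c c' σ θ τ hg hgQ hJ1 hσ2
  set V : ℝ := 1 + (H : ℝ) * |τ| / ((Q / g : ℕ) : ℝ) ^ 2 with hV
  have hV0 : 0 ≤ V := by positivity
  set X : ℝ := ((H : ℝ) * g / L1) ^ ((1 : ℝ) / 2) +
    (H : ℝ) * (L2 / ((Q / g : ℕ) : ℝ)) ^ ((1 : ℝ) / 4) with hX
  have hX0 : 0 ≤ X := by positivity
  set Y : ℝ := (((Q / g : ℕ) : ℝ) * H * |(θ : ℝ)|) ^ (ε / 2) with hY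
  have hY0 : 0 ≤ Y := by positivity
  have hterm : ∀ j ∈ range J, ‖Tf (Q / g) (2 ^ j) H (al Q g c) (be Q g c' σ) θ τ‖ ≤
      C0 * Y * V * (((Q / g : ℕ) : ℝ) ^ 2 * (2 * X)) := by
    intro j _
    by_cases hz : ∀ r s, s ∈ Ioc (2 ^ j) (2 * 2 ^ j) → be Q g c' σ r s = 0
    · have : Tf (Q / g) (2 ^ j) H (al Q g c) (be Q g c' σ) θ τ = 0 := by
        unfold Tf
        apply Finset.sum_eq_zero
        intro h _
        apply Finset.sum_eq_zero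
        intro m _
        apply Finset.sum_eq_zero
        intro r _
        apply Finset.sum_eq_zero
        intro s hs
        rw [mem_filter] at hs
        rw [hz r s hs.1]
        ring
      rw [this, norm_zero]
      positivity
    · push Not at hz
      obtain ⟨r, s, hs, hrs⟩ := hz
      rw [mem_Ioc] at hs
      have hcond : Q / g < r * s ∧ r * s ≤ 2 * Q / g ∧ σ (r * s) = s ∧ c' (g * (r * s)) ≠ 0 := by
        by_contra hcon
        exact hrs (by unfold be; rw [if_neg hcon])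
      obtain ⟨k1, k2, k3, k4⟩ := hcond
      obtain ⟨-, s1, s2⟩ := hσ (r * s) (by omega) k4
      rw [k3] at s1 s2
      have hSs : ((2 ^ j : ℕ) : ℝ) ≤ s := by exact_mod_cast hs.1.le
      have hsS : (s : ℝ) ≤ 2 * ((2 ^ j : ℕ) : ℝ) := by exact_mod_cast hs.2
      have hSL2 : ((2 ^ j : ℕ) : ℝ) ≤ L2 := hSs.trans s2
      have hSP : 2 ^ j ≤ Q / g := by
        have : ((2 ^ j : ℕ) : ℝ) ≤ ((Q / g : ℕ) : ℝ) := hSL2.trans hL2
        exact_mod_cast this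
      have hS1 : 1 ≤ 2 ^ j := Nat.one_le_two_pow
      have hS1r : (1 : ℝ) ≤ ((2 ^ j : ℕ) : ℝ) := by exact_mod_cast hS1
      have hSL1 : L1 / (2 * (g : ℝ)) ≤ ((2 ^ j : ℕ) : ℝ) := by
        have h5 : L1 / g ≤ 2 * ((2 ^ j : ℕ) : ℝ) := s1.trans hsS
        rw [div_le_iff₀ (by linarith)] at h5
        rw [div_le_iff₀ (by linarith)]
        linarith
      have hb : ∀ r s, be Q g c' σ r s ≠ 0 → Q / g < r * s ∧ r * s ≤ 3 * (Q / g) ∧
          Squarefree (r * s) := by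
        intro r s hrs
        have hcond : Q / g < r * s ∧ r * s ≤ 2 * Q / g ∧ σ (r * s) = s ∧
            c' (g * (r * s)) ≠ 0 := by
          by_contra hcon
          exact hrs (by unfold be; rw [if_neg hcon])
        obtain ⟨k1, k2, k3, k4⟩ := hcond
        refine ⟨k1, k2.trans (Pgt_div Q g hg hgQ), ?_⟩
        exact (hconv _ k4).1.of_mul_right
      have hT := hC (Q / g) (2 ^ j) H (al Q g c) (be Q g c' σ) θ τ hP1 hS1 hH hSP
        (Pgt_al Q g c hc) (Pgt_be Q g c' σ hc') hb hθ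
      have hE := Pgt_exp ((Q / g : ℕ) : ℝ) ((2 ^ j : ℕ) : ℝ) H g L1 L2 hPr hS1r hHr hgr hL1p
        hSL1 hSL2
      refine (le_trans hT ?_)
      exact mul_le_mul_of_nonneg_left hE (by positivity)
  have hsum : ((Q / g : ℕ) : ℝ) ^ 2 * ‖Pf Q g H c c' θ τ‖ ≤
      (J : ℝ) * (C0 * Y * V * (((Q / g : ℕ) : ℝ) ^ 2 * (2 * X))) := by
    have e1 : ((Q / g : ℕ) : ℝ) ^ 2 * ‖Pf Q g H c c' θ τ‖ =
        ‖(((Q / g : ℕ) : ℂ)) ^ 2 * Pf Q g H c c' θ τ‖ := by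
      rw [norm_mul, norm_pow, Complex.norm_natCast]
    rw [e1, hdy]
    calc _ ≤ ∑ j ∈ range J, ‖Tf (Q / g) (2 ^ j) H (al Q g c) (be Q g c' σ) θ τ‖ := norm_sum_le _ _
      _ ≤ ∑ _j ∈ range J, C0 * Y * V * (((Q / g : ℕ) : ℝ) ^ 2 * (2 * X)) := sum_le_sum hterm
      _ = _ := by rw [sum_const, nsmul_eq_mul, card_range]
  have hP2 : (0 : ℝ) < ((Q / g : ℕ) : ℝ) ^ 2 := by positivity
  have hmain : ‖Pf Q g H c c' θ τ‖ ≤ (J : ℝ) * (C0 * Y * V * (2 * X)) := by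
    have e2 : (J : ℝ) * (C0 * Y * V * (((Q / g : ℕ) : ℝ) ^ 2 * (2 * X))) =
        ((Q / g : ℕ) : ℝ) ^ 2 * ((J : ℝ) * (C0 * Y * V * (2 * X))) := by ring
    rw [e2] at hsum
    exact le_of_mul_le_mul_left hsum hP2
  have hJ2 : (J : ℝ) ≤ (4 + 2 / (ε / 2)) * Y := by
    refine (Pgt_J (ε / 2) (by positivity) (Q / g) hP1).trans ?_
    apply mul_le_mul_of_nonneg_left _ (by positivity)
    apply Real.rpow_le_rpow (by positivity) _ (by positivity)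
    have h5 : (1 : ℝ) ≤ (H : ℝ) * |(θ : ℝ)| := by
      calc (1 : ℝ) = 1 * 1 := (one_mul _).symm
        _ ≤ (H : ℝ) * |(θ : ℝ)| := mul_le_mul hHr hθr zero_le_one (by linarith)
    calc ((Q / g : ℕ) : ℝ) = ((Q / g : ℕ) : ℝ) * 1 := (mul_one _).symm
      _ ≤ ((Q / g : ℕ) : ℝ) * ((H : ℝ) * |(θ : ℝ)|) := mul_le_mul_of_nonneg_left h5 (by linarith)
      _ = ((Q / g : ℕ) : ℝ) * H * |(θ : ℝ)| := by ring
  have hYY : Y * Y ≤ ((Q : ℝ) * H * |(θ : ℝ)|) ^ ε := by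
    have e3 : Y * Y = (((Q / g : ℕ) : ℝ) * H * |(θ : ℝ)|) ^ ε := by
      rw [hY, ← Real.rpow_add (by positivity)]
      congr 1
      ring
    rw [e3]
    apply Real.rpow_le_rpow (by positivity) _ hε.le
    have h6 : ((Q / g : ℕ) : ℝ) ≤ Q := by exact_mod_cast Nat.div_le_self Q g
    apply mul_le_mul_of_nonneg_right _ (abs_nonneg _)
    exact mul_le_mul_of_nonneg_right h6 (by linarith)
  change ‖Pf Q g H c c' θ τ‖ ≤ _
  calc ‖Pf Q g H c c' θ τ‖ ≤ (J : ℝ) * (C0 * Y * V * (2 * X)) := hmain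
    _ ≤ ((4 + 2 / (ε / 2)) * Y) * (C0 * Y * V * (2 * X)) :=
        mul_le_mul_of_nonneg_right hJ2 (by positivity)
    _ = ((4 + 2 / (ε / 2)) * (2 * C0)) * (Y * Y) * (V * X) := by ring
    _ ≤ ((4 + 2 / (ε / 2)) * (2 * C0)) * (((Q : ℝ) * H * |(θ : ℝ)|) ^ ε) * (V * X) := by
        apply mul_le_mul_of_nonneg_right _ (by positivity)
        exact mul_le_mul_of_nonneg_left hYY (by positivity)
    _ = _ := by ring

end Pool.Agent.Lib.TN
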