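import Pool.Agent.Lib.TN.SpecT
import Pool.Agent.Lib.TB.Tauk

/-!
MP_00e23e_nt, Lib/TN, part T, module Tdg: counting the diagonal h1 s2 = h2 s1.
-/

namespace Pool.Agent.Lib.TN

open Finset Pool.Agent.Lib.EH3 Pool.Agent.Lib.TB Pool.Agent.Results.MP_00e23e_nt

private lemma Tdg_kk {h1 h2 s1 s2 : ℕ} (hs1 : 1 ≤ s1) (h : kk h1 h2 s1 s2 = 0) : h1 * s2 = h2 * s1 := by
  unfold kk at h
  have hg : 0 < Nat.gcd s1 s2 := Nat.gcd_pos_of_pos_left _ hs1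
  have e1 : s1 / Nat.gcd s1 s2 * Nat.gcd s1 s2 = s1 := Nat.div_mul_cancel (Nat.gcd_dvd_left _ _)
  have e2 : s2 / Nat.gcd s1 s2 * Nat.gcd s1 s2 = s2 := Nat.div_mul_cancel (Nat.gcd_dvd_right _ _)
  have h' : h1 * (s2 / Nat.gcd s1 s2) = h2 * (s1 / Nat.gcd s1 s2) := by
    zify
    push_cast at h
    linarith
  calc h1 * s2 = h1 * (s2 / Nat.gcd s1 s2) * Nat.gcd s1 s2 := by rw [mul_assoc, e2]
    _ = h2 * (s1 / Nat.gcd s1 s2) * Nat.gcd s1 s2 := by rw [h']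
    _ = h2 * s1 := by rw [mul_assoc, e1]

private lemma Tdg_count (S H s1 h2 : ℕ) (hs1 : 1 ≤ s1) (hh2 : 1 ≤ h2) :
    ∑ s2 ∈ Ioc S (2 * S), ∑ h1 ∈ Icc 1 H, (if kk h1 h2 s1 s2 = 0 then (1 : ℝ) else 0) ≤
      ((h2 * s1).divisors.card : ℝ) := by
  classical
  rw [← sum_product', ← sum_filter, sum_const, nsmul_eq_mul, mul_one]
  norm_cast
  refine card_le_card_of_injOn (fun x => x.1) ?_ ?_
  · intro x hx
    have hx' := (mem_filter.1 (mem_coe.1 hx))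
    have h1 := mem_product.1 hx'.1
    have e := Tdg_kk hs1 hx'.2
    refine mem_coe.2 (Nat.mem_divisors.2 ⟨⟨x.2, ?_⟩, ?_⟩)
    · rw [← e]; ring
    · have : 0 < h2 * s1 := Nat.mul_pos hh2 hs1
      omega
  · intro x hx y hy hxy
    have hx' := (mem_filter.1 (mem_coe.1 hx))
    have hy' := (mem_filter.1 (mem_coe.1 hy))
    have ex := Tdg_kk hs1 hx'.2
    have ey := Tdg_kk hs1 hy'.2
    have hx1 := mem_Ioc.1 (mem_product.1 hx'.1).1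
    have hxy' : x.1 = y.1 := hxy
    rw [← hxy', ← ex] at ey
    have : y.2 = x.2 := Nat.eq_of_mul_eq_mul_right (by omega : 0 < x.1) ey
    exact Prod.ext hxy' this.symm

theorem tTdg : TdgStmt := by
  intro ε hε
  obtain ⟨C, hC, hC2⟩ := tTauk ε hε
  refine ⟨C * 2 ^ ε, by positivity, fun S H hS hH => ?_⟩
  have hS' : (1 : ℝ) ≤ S := by exact_mod_cast hS
  have hH' : (1 : ℝ) ≤ H := by exact_mod_cast hH
  have hb : ∀ s1 ∈ Ioc S (2 * S), ∀ h2 ∈ Icc 1 H,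
      ∑ s2 ∈ Ioc S (2 * S), ∑ h1 ∈ Icc 1 H, (if kk h1 h2 s1 s2 = 0 then (1 : ℝ) else 0) ≤
        C * 2 ^ ε * ((S : ℝ) * H) ^ ε := by
    intro s1 hs1 h2 hh2
    have h1 := mem_Ioc.1 hs1
    have h3 := mem_Icc.1 hh2
    have hpos : 1 ≤ h2 * s1 := Nat.mul_pos h3.1 (by omega)
    refine (Tdg_count S H s1 h2 (by omega) h3.1).trans ((hC2 _ hpos).trans ?_)
    rw [mul_assoc, ← Real.mul_rpow (by norm_num) (by positivity)]
    refine mul_le_mul_of_nonneg_left (Real.rpow_le_rpow (by positivity) ?_ hε.le) (by linarith)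
    have a1 : (s1 : ℝ) ≤ 2 * S := by exact_mod_cast h1.2
    have a2 : (h2 : ℝ) ≤ H := by exact_mod_cast h3.2
    push_cast
    calc (h2 : ℝ) * s1 ≤ H * (2 * S) := mul_le_mul a2 a1 (by positivity) (by positivity)
      _ = 2 * (S * H) := by ring
  have he : ∀ s1 ∈ Ioc S (2 * S), ∑ s2 ∈ Ioc S (2 * S), ∑ h1 ∈ Icc 1 H, ∑ h2 ∈ Icc 1 H,
      (if kk h1 h2 s1 s2 = 0 then (1 : ℝ) else 0) ≤ H * (C * 2 ^ ε * ((S : ℝ) * H) ^ ε) := by
    intro s1 hs1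
    have e : ∑ s2 ∈ Ioc S (2 * S), ∑ h1 ∈ Icc 1 H, ∑ h2 ∈ Icc 1 H,
        (if kk h1 h2 s1 s2 = 0 then (1 : ℝ) else 0) =
        ∑ h2 ∈ Icc 1 H, ∑ s2 ∈ Ioc S (2 * S), ∑ h1 ∈ Icc 1 H,
          (if kk h1 h2 s1 s2 = 0 then (1 : ℝ) else 0) := by
      rw [sum_comm (s := Icc 1 H) (t := Ioc S (2 * S))]
      exact sum_congr rfl fun _ _ => sum_comm
    rw [e]
    refine (sum_le_sum fun h2 hh2 => hb s1 hs1 h2 hh2).trans ?_
    rw [sum_const, nsmul_eq_mul, Nat.card_Icc]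
    simp
  refine (sum_le_sum fun s1 hs1 => he s1 hs1).trans ?_
  rw [sum_const, nsmul_eq_mul, Nat.card_Ioc]
  have : ((2 * S - S : ℕ) : ℝ) = S := by
    rw [Nat.two_mul, Nat.add_sub_cancel]
  rw [this]
  apply le_of_eq
  ring

end Pool.Agent.Lib.TN
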