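import Pool.Agent.Lib.TN.SpecT

/-!
MP_00e23e_nt, directory Lib/TN, module Tgc: the greatest common divisor of one quadruple.
-/

namespace Pool.Agent.Lib.TN

open Finset Pool.Agent.Lib.EH3 Pool.Agent.Lib.TB

private theorem Tgc_gcd (x : ℤ) (n : ℕ) : Int.gcd x (n : ℤ) = Nat.gcd x.natAbs n := rfl

/-- the gcd with t1 only sees the part θ h1 -/
private theorem Tgc_part (θ a b : ℤ) (t1 t2 : ℕ) (h : Nat.Coprime t1 t2) :
    Int.gcd (θ * (a * (t2 : ℤ) - b * (t1 : ℤ))) (t1 : ℤ) ∣ Int.gcd (θ * a) (t1 : ℤ) := by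
  set d : ℕ := Int.gcd (θ * (a * (t2 : ℤ) - b * (t1 : ℤ))) (t1 : ℤ) with hd
  have h1 : (d : ℤ) ∣ θ * (a * (t2 : ℤ) - b * (t1 : ℤ)) := Int.gcd_dvd_left _ _
  have h2 : (d : ℤ) ∣ (t1 : ℤ) := Int.gcd_dvd_right _ _
  have h3 : (d : ℤ) ∣ (θ * a) * (t2 : ℤ) := by
    have e : (θ * a) * (t2 : ℤ) = θ * (a * (t2 : ℤ) - b * (t1 : ℤ)) + θ * b * (t1 : ℤ) := by ring
    rw [e]
    exact dvd_add h1 (h2.mul_left (θ * b))
  have h4 : IsCoprime (d : ℤ) (t2 : ℤ) := by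
    have hc : Nat.Coprime d t2 := Nat.Coprime.coprime_dvd_left (Int.natCast_dvd_natCast.1 h2) h
    exact Nat.isCoprime_iff_coprime.2 hc
  have h5 : (d : ℤ) ∣ θ * a := h4.dvd_of_dvd_mul_right h3
  exact Int.dvd_gcd h5 h2

private theorem Tgc_part2 (θ a b : ℤ) (t1 t2 : ℕ) (h : Nat.Coprime t1 t2) :
    Int.gcd (θ * (a * (t2 : ℤ) - b * (t1 : ℤ))) (t2 : ℤ) ∣ Int.gcd (θ * b) (t2 : ℤ) := by
  have e : θ * (a * (t2 : ℤ) - b * (t1 : ℤ)) = -(θ * (b * (t1 : ℤ) - a * (t2 : ℤ))) := by ring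
  rw [e, Int.neg_gcd]
  exact Tgc_part θ b a t2 t1 h.symm

private theorem Tgc_nat (K r g t1 t2 a b : ℕ) (hr : 1 ≤ r) (hg : 1 ≤ g) (ht1 : 1 ≤ t1) (ht2 : 1 ≤ t2)
    (ha : Nat.gcd K t1 ≤ a) (hb : Nat.gcd K t2 ≤ b) :
    Nat.gcd K (r * (g * t1 * t2)) ≤ Nat.gcd K r * g * a * b := by
  have h1 : Nat.gcd K (r * (g * t1 * t2)) ∣
      Nat.gcd K r * (Nat.gcd K g * Nat.gcd K t1 * Nat.gcd K t2) := by
    refine (Nat.gcd_mul_right_dvd_mul_gcd K r (g * t1 * t2)).trans ?_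
    refine Nat.mul_dvd_mul_left _ ?_
    refine (Nat.gcd_mul_right_dvd_mul_gcd K (g * t1) t2).trans ?_
    refine Nat.mul_dvd_mul_right ?_ _
    exact Nat.gcd_mul_right_dvd_mul_gcd K g t1
  have p1 : 0 < Nat.gcd K r := Nat.gcd_pos_of_pos_right _ (by omega)
  have p2 : 0 < Nat.gcd K g := Nat.gcd_pos_of_pos_right _ (by omega)
  have p3 : 0 < Nat.gcd K t1 := Nat.gcd_pos_of_pos_right _ (by omega)
  have p4 : 0 < Nat.gcd K t2 := Nat.gcd_pos_of_pos_right _ (by omega)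
  have h2 := Nat.le_of_dvd (Nat.mul_pos p1 (Nat.mul_pos (Nat.mul_pos p2 p3) p4)) h1
  have h3 : Nat.gcd K g ≤ g := Nat.le_of_dvd (by omega) (Nat.gcd_dvd_right K g)
  calc Nat.gcd K (r * (g * t1 * t2))
      ≤ Nat.gcd K r * (Nat.gcd K g * Nat.gcd K t1 * Nat.gcd K t2) := h2
    _ ≤ Nat.gcd K r * (g * a * b) :=
        Nat.mul_le_mul_left _ (Nat.mul_le_mul (Nat.mul_le_mul h3 ha) hb)
    _ = Nat.gcd K r * g * a * b := by ring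

theorem tTgc : TgcStmt := by
  intro θ r s1 s2 h1 h2 hr hs1 hs2
  have hg : 0 < Nat.gcd s1 s2 := Nat.gcd_pos_of_pos_left _ (by omega)
  set g : ℕ := Nat.gcd s1 s2 with hgdef
  have e1 : g * (s1 / g) = s1 := Nat.mul_div_cancel' (Nat.gcd_dvd_left s1 s2)
  have e2 : g * (s2 / g) = s2 := Nat.mul_div_cancel' (Nat.gcd_dvd_right s1 s2)
  have hcop : Nat.Coprime (s1 / g) (s2 / g) := Nat.coprime_div_gcd_div_gcd hg
  have ht1 : 1 ≤ s1 / g := Nat.div_pos (Nat.le_of_dvd (by omega) (Nat.gcd_dvd_left s1 s2)) hg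
  have ht2 : 1 ≤ s2 / g := Nat.div_pos (Nat.le_of_dvd (by omega) (Nat.gcd_dvd_right s1 s2)) hg
  have hl : Nat.lcm s1 s2 = g * (s1 / g) * (s2 / g) := by
    have h := Nat.gcd_mul_lcm s1 s2
    rw [← hgdef] at h
    have h' : g * Nat.lcm s1 s2 = g * (g * (s1 / g) * (s2 / g)) := by
      rw [h]
      calc s1 * s2 = (g * (s1 / g)) * (g * (s2 / g)) := by rw [e1, e2]
        _ = g * (g * (s1 / g) * (s2 / g)) := by ring
    exact Nat.eq_of_mul_eq_mul_left hg h'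
  have hq : q0 r s1 s2 = r * (g * (s1 / g) * (s2 / g)) := by
    unfold q0
    rw [hl]
  have hk : kk h1 h2 s1 s2 = (h1 : ℤ) * ((s2 / g : ℕ) : ℤ) - (h2 : ℤ) * ((s1 / g : ℕ) : ℤ) := rfl
  rw [hq, hk]
  generalize s1 / g = t1 at *
  generalize s2 / g = t2 at *
  have a1 : Int.gcd (θ * ((h1 : ℤ) * (t2 : ℤ) - (h2 : ℤ) * (t1 : ℤ))) (t1 : ℤ) ≤
      Int.gcd (θ * (h1 : ℤ)) (t1 : ℤ) := by
    refine Nat.le_of_dvd ?_ (Tgc_part θ h1 h2 t1 t2 hcop)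
    rw [Tgc_gcd]
    exact Nat.gcd_pos_of_pos_right _ (by omega)
  have a2 : Int.gcd (θ * ((h1 : ℤ) * (t2 : ℤ) - (h2 : ℤ) * (t1 : ℤ))) (t2 : ℤ) ≤
      Int.gcd (θ * (h2 : ℤ)) (t2 : ℤ) := by
    refine Nat.le_of_dvd ?_ (Tgc_part2 θ h1 h2 t1 t2 hcop)
    rw [Tgc_gcd]
    exact Nat.gcd_pos_of_pos_right _ (by omega)
  have h := Tgc_nat (θ * ((h1 : ℤ) * (t2 : ℤ) - (h2 : ℤ) * (t1 : ℤ))).natAbs r g t1 t2
    (Int.gcd (θ * (h1 : ℤ)) (t1 : ℤ)) (Int.gcd (θ * (h2 : ℤ)) (t2 : ℤ)) hr hg ht1 ht2 a1 a2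
  exact_mod_cast h

end Pool.Agent.Lib.TN
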