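import Pool.Agent.Lib.TN.SpecT
import Pool.Agent.Lib.TB.Tauk

/-!
MP_00e23e_nt: module Tgd, the sum over r for one quadruple with kk ≠ 0.
-/

namespace Pool.Agent.Lib.TN

open Finset Pool.Agent.Lib.EH3 Pool.Agent.Lib.TB

private lemma Tgd_kk (S H s1 s2 h1 h2 : ℕ) (h1s : s1 ≤ 2 * S) (h2s : s2 ≤ 2 * S) (hh1 : h1 ≤ H) (hh2 : h2 ≤ H) :
    |((kk h1 h2 s1 s2 : ℤ) : ℝ)| ≤ 4 * ((H : ℝ) * S) := by
  have ht1 : ((s1 / Nat.gcd s1 s2 : ℕ) : ℝ) ≤ 2 * S := by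
    have : s1 / Nat.gcd s1 s2 ≤ 2 * S := le_trans (Nat.div_le_self _ _) h1s
    exact_mod_cast this
  have ht2 : ((s2 / Nat.gcd s1 s2 : ℕ) : ℝ) ≤ 2 * S := by
    have : s2 / Nat.gcd s1 s2 ≤ 2 * S := le_trans (Nat.div_le_self _ _) h2s
    exact_mod_cast this
  have hH1 : (h1 : ℝ) ≤ H := by exact_mod_cast hh1
  have hH2 : (h2 : ℝ) ≤ H := by exact_mod_cast hh2
  have a1 : (h1 : ℝ) * ((s2 / Nat.gcd s1 s2 : ℕ) : ℝ) ≤ H * (2 * S) :=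
    mul_le_mul hH1 ht2 (by positivity) (by positivity)
  have a2 : (h2 : ℝ) * ((s1 / Nat.gcd s1 s2 : ℕ) : ℝ) ≤ H * (2 * S) :=
    mul_le_mul hH2 ht1 (by positivity) (by positivity)
  have b1 : 0 ≤ (h1 : ℝ) * ((s2 / Nat.gcd s1 s2 : ℕ) : ℝ) := by positivity
  have b2 : 0 ≤ (h2 : ℝ) * ((s1 / Nat.gcd s1 s2 : ℕ) : ℝ) := by positivity
  have e : ((kk h1 h2 s1 s2 : ℤ) : ℝ) = (h1 : ℝ) * ((s2 / Nat.gcd s1 s2 : ℕ) : ℝ) -
      (h2 : ℝ) * ((s1 / Nat.gcd s1 s2 : ℕ) : ℝ) := by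
    unfold kk
    rw [Int.cast_sub, Int.cast_mul, Int.cast_mul, Int.cast_natCast, Int.cast_natCast, Int.cast_natCast,
      Int.cast_natCast]
  rw [e, abs_le]
  constructor <;> nlinarith

theorem tTgd (h1 : TgsStmt) (h2 : TgcStmt) : TgdStmt := by
  intro ε hε
  obtain ⟨C, hC1, hC⟩ := tTauk ε hε
  refine ⟨C * 4 ^ ε, by positivity, ?_⟩
  intro R S H θ s1 s2 a1 a2 hS hH hθ hs1 hs2 hs1S hs2S ha1 ha2 hk
  set K : ℤ := kk a1 a2 s1 s2 with hK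
  have hD : θ * K ≠ 0 := mul_ne_zero hθ hk
  set G : ℝ := ((Nat.gcd s1 s2 : ℝ) * (Int.gcd (θ * a1) (s1 / Nat.gcd s1 s2 : ℕ) : ℝ) *
      (Int.gcd (θ * a2) (s2 / Nat.gcd s1 s2 : ℕ) : ℝ)) with hG
  have hG0 : 0 ≤ G := by positivity
  have e1 : ∑ r ∈ Icc 1 R, (Int.gcd (θ * K) (q0 r s1 s2) : ℝ) ≤ ∑ r ∈ Icc 1 R, (Int.gcd (θ * K) r : ℝ) * G := by
    apply Finset.sum_le_sum
    intro r hr
    have hr1 := (Finset.mem_Icc.1 hr).1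
    have := h2 θ r s1 s2 a1 a2 hr1 hs1 hs2
    calc (Int.gcd (θ * K) (q0 r s1 s2) : ℝ) ≤ _ := this
      _ = (Int.gcd (θ * K) r : ℝ) * G := by rw [hG]; ring
  have e2 : ∑ r ∈ Icc 1 R, (Int.gcd (θ * K) r : ℝ) * G ≤ (((θ * K).natAbs.divisors.card : ℝ) * R) * G := by
    rw [← Finset.sum_mul]
    exact mul_le_mul_of_nonneg_right (h1 (θ * K) R hD) hG0
  have hn : 1 ≤ (θ * K).natAbs := Int.natAbs_pos.2 hD
  have e3 : ((θ * K).natAbs.divisors.card : ℝ) ≤ C * (4 ^ ε * (|(θ : ℝ)| * H * S) ^ ε) := by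
    refine le_trans (hC _ hn) ?_
    apply mul_le_mul_of_nonneg_left _ (by positivity)
    rw [← Real.mul_rpow (by norm_num) (by positivity)]
    apply Real.rpow_le_rpow (by positivity) _ hε.le
    have : (((θ * K).natAbs : ℕ) : ℝ) = |(θ : ℝ)| * |((K : ℤ) : ℝ)| := by
      rw [Nat.cast_natAbs, Int.cast_abs, Int.cast_mul, abs_mul]
    rw [this]
    have hb := Tgd_kk S H s1 s2 a1 a2 hs1S hs2S ha1 ha2
    calc |(θ : ℝ)| * |((K : ℤ) : ℝ)| ≤ |(θ : ℝ)| * (4 * ((H : ℝ) * S)) :=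
          mul_le_mul_of_nonneg_left hb (abs_nonneg _)
      _ = 4 * (|(θ : ℝ)| * H * S) := by ring
  calc ∑ r ∈ Icc 1 R, (Int.gcd (θ * K) (q0 r s1 s2) : ℝ) ≤ (((θ * K).natAbs.divisors.card : ℝ) * R) * G := le_trans e1 e2
    _ ≤ ((C * (4 ^ ε * (|(θ : ℝ)| * H * S) ^ ε)) * R) * G := by
        apply mul_le_mul_of_nonneg_right _ hG0
        exact mul_le_mul_of_nonneg_right e3 (by positivity)
    _ = C * 4 ^ ε * (|(θ : ℝ)| * H * S) ^ ε * R * G := by ring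

end Pool.Agent.Lib.TN
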