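import Pool.Agent.Lib.TN.SpecT

/-!
MP_00e23e_nt, directory Lib/TN, module Tph (helper51): the product of two phases.
-/

namespace Pool.Agent.Lib.TN

open Finset Pool.Agent.Lib.EH3 Pool.Agent.Lib.TB

private lemma Tph_shift (a : ℤ) (m n t q : ℕ) (hn : 1 ≤ n) (ht : 1 ≤ t) (hq : n * t = q) (hm : m.Coprime q) :
    ee ((a : ℝ) * (iv m n : ℝ) / (n : ℝ)) = ee ((a : ℝ) * (t : ℝ) * (iv m q : ℝ) / (q : ℝ)) := by
  have hq1 : 1 ≤ q := by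
    rw [← hq]
    exact Nat.mul_pos hn ht
  have hmn : m.Coprime n := Nat.Coprime.coprime_dvd_right (Dvd.intro t hq) hm
  have h1 : (n : ℤ) ∣ (iv m q : ℤ) * m - 1 := by
    refine dvd_trans ?_ (iv_dvd hm hq1)
    exact_mod_cast Dvd.intro t hq
  have h2 : (n : ℤ) ∣ (iv m q : ℤ) - iv m n := iv_unique hmn hn h1
  have h3 : (n : ℤ) ∣ a * (iv m n : ℤ) - a * (iv m q : ℤ) := by
    have h4 : a * (iv m n : ℤ) - a * (iv m q : ℤ) = (-a) * ((iv m q : ℤ) - iv m n) := by ring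
    rw [h4]
    exact Dvd.dvd.mul_left h2 _
  have h5 := ee_congr h3
  push_cast at h5
  rw [h5]
  have hn0 : (n : ℝ) ≠ 0 := by
    have : (0 : ℝ) < n := by exact_mod_cast hn
    exact this.ne'
  have ht0 : (t : ℝ) ≠ 0 := by
    have : (0 : ℝ) < t := by exact_mod_cast ht
    exact this.ne'
  have hqr : (q : ℝ) = n * t := by exact_mod_cast hq.symm
  have h6 : (a : ℝ) * (iv m q : ℝ) / (n : ℝ) = (a : ℝ) * (t : ℝ) * (iv m q : ℝ) / (q : ℝ) := by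
    rw [hqr]
    field_simp
  rw [h6]

private lemma Tph_eB (θ : ℤ) (τ : ℝ) (h m r s t q : ℕ) (hn : 1 ≤ r * s) (ht : 1 ≤ t) (hq : r * s * t = q)
    (hm : m.Coprime q) :
    eB ((h : ℤ) * θ) ((h : ℝ) * τ) m (r * s) =
      ee ((h : ℝ) * (θ : ℝ) * (t : ℝ) * (iv m q : ℝ) / (q : ℝ) + (h : ℝ) * τ / ((m : ℝ) * ((r : ℝ) * s))) := by
  unfold eB
  rw [ee_add, ee_add, Tph_shift ((h : ℤ) * θ) m (r * s) t q hn ht hq hm]
  push_cast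
  rfl

theorem tTph : TphStmt := by
  intro θ τ r s1 s2 h1 h2 m hr hs1 hs2 hm hc1 hc2
  have hg : 0 < Nat.gcd s1 s2 := Nat.gcd_pos_of_pos_left _ hs1
  have hd1 : Nat.gcd s1 s2 ∣ s1 := Nat.gcd_dvd_left s1 s2
  have hd2 : Nat.gcd s1 s2 ∣ s2 := Nat.gcd_dvd_right s1 s2
  have ht1 : 1 ≤ s1 / Nat.gcd s1 s2 := Nat.div_pos (Nat.le_of_dvd hs1 hd1) hg
  have ht2 : 1 ≤ s2 / Nat.gcd s1 s2 := Nat.div_pos (Nat.le_of_dvd hs2 hd2) hg
  have hl1 : Nat.lcm s1 s2 = s1 * (s2 / Nat.gcd s1 s2) := by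
    unfold Nat.lcm
    exact Nat.mul_div_assoc s1 hd2
  have hl2 : Nat.lcm s1 s2 = s2 * (s1 / Nat.gcd s1 s2) := by
    unfold Nat.lcm
    rw [Nat.mul_comm s1 s2]
    exact Nat.mul_div_assoc s2 hd1
  have hq1 : r * s1 * (s2 / Nat.gcd s1 s2) = q0 r s1 s2 := by
    unfold q0
    rw [hl1, Nat.mul_assoc]
  have hq2 : r * s2 * (s1 / Nat.gcd s1 s2) = q0 r s1 s2 := by
    unfold q0
    rw [hl2, Nat.mul_assoc]
  have hms2 : m.Coprime s2 := Nat.Coprime.coprime_mul_left_right hc2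
  have hcop : m.Coprime (q0 r s1 s2) := by
    rw [← hq1]
    exact Nat.Coprime.mul_right hc1 (Nat.Coprime.coprime_dvd_right (Nat.div_dvd_of_dvd hd2) hms2)
  rw [Tph_eB θ τ h1 m r s1 (s2 / Nat.gcd s1 s2) (q0 r s1 s2) (Nat.mul_pos hr hs1) ht2 hq1 hcop,
    Tph_eB θ τ h2 m r s2 (s1 / Nat.gcd s1 s2) (q0 r s1 s2) (Nat.mul_pos hr hs2) ht1 hq2 hcop, conj_ee,
    ← ee_add, ← ee_add]
  have hm0 : (m : ℝ) ≠ 0 := by
    have : (0 : ℝ) < m := by exact_mod_cast hm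
    exact this.ne'
  have hr0 : (r : ℝ) ≠ 0 := by
    have : (0 : ℝ) < r := by exact_mod_cast hr
    exact this.ne'
  have hs10 : (s1 : ℝ) ≠ 0 := by
    have : (0 : ℝ) < s1 := by exact_mod_cast hs1
    exact this.ne'
  have hs20 : (s2 : ℝ) ≠ 0 := by
    have : (0 : ℝ) < s2 := by exact_mod_cast hs2
    exact this.ne'
  refine congrArg ee ?_
  have hk : ((θ * kk h1 h2 s1 s2 : ℤ) : ℝ) = (θ : ℝ) * ((h1 : ℝ) * ((s2 / Nat.gcd s1 s2 : ℕ) : ℝ) -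
      (h2 : ℝ) * ((s1 / Nat.gcd s1 s2 : ℕ) : ℝ)) := by
    unfold kk
    rw [Int.cast_mul, Int.cast_sub, Int.cast_mul, Int.cast_mul, Int.cast_natCast, Int.cast_natCast,
      Int.cast_natCast, Int.cast_natCast]
  rw [hk]
  generalize ((s2 / Nat.gcd s1 s2 : ℕ) : ℝ) = t2
  generalize ((s1 / Nat.gcd s1 s2 : ℕ) : ℝ) = t1
  generalize ((iv m (q0 r s1 s2) : ℕ) : ℝ) = v
  generalize ((q0 r s1 s2 : ℕ) : ℝ) = q
  have e1 : τ * ((h1 : ℝ) / ((r : ℝ) * s1) - (h2 : ℝ) / ((r : ℝ) * s2)) / m =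
      (h1 : ℝ) * τ / ((m : ℝ) * ((r : ℝ) * s1)) - (h2 : ℝ) * τ / ((m : ℝ) * ((r : ℝ) * s2)) := by
    field_simp
  rw [e1]
  ring

end Pool.Agent.Lib.TN
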