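import Pool.Agent.Lib.TN.SpecG
import Pool.Agent.Lib.TB.Mft

/-!
MP_00e23e_nt, directory Lib/TN, module Wb: basic properties of the weight.
-/

namespace Pool.Agent.Lib.TN

open Finset Pool.Agent.Lib.EH3 Pool.Agent.Lib.TB

private lemma Wb_tri_nonneg (N : ℕ) (n : ℤ) : 0 ≤ tri N n := le_max_left _ _

private lemma Wb_tri_le (N : ℕ) (n : ℤ) : tri N n ≤ 1 := by
  unfold tri
  refine max_le zero_le_one ?_
  have : 0 ≤ |(n : ℝ)| / (N : ℝ) := by positivity
  linarith

private lemma Wb_tri_zero {N : ℕ} (hN : 1 ≤ N) {n : ℤ} (h : (N : ℤ) ≤ |n|) : tri N n = 0 := by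
  have hN0 : (0 : ℝ) < N := by exact_mod_cast hN
  unfold tri
  refine max_eq_left ?_
  have h1 : (N : ℝ) ≤ |(n : ℝ)| := by exact_mod_cast h
  have h2 : 1 ≤ |(n : ℝ)| / (N : ℝ) := (one_le_div hN0).2 h1
  linarith

private lemma Wb_tri_half {N : ℕ} (hN : 1 ≤ N) {n : ℤ} (h : 2 * |n| ≤ (N : ℤ)) : 1 / 2 ≤ tri N n := by
  have hN0 : (0 : ℝ) < N := by exact_mod_cast hN
  unfold tri
  refine le_max_of_le_right ?_
  have h1 : 2 * |(n : ℝ)| ≤ (N : ℝ) := by exact_mod_cast h
  have h2 : |(n : ℝ)| / (N : ℝ) ≤ 1 / 2 := by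
    rw [div_le_div_iff₀ hN0 two_pos]
    linarith
  linarith

private lemma Wb_mass {N : ℕ} (hN : 1 ≤ N) : ∑ m ∈ Icc (-(N : ℤ)) N, tri N m = N := by
  have hN0 : (N : ℝ) ≠ 0 := by
    have : (0 : ℝ) < N := by exact_mod_cast hN
    exact this.ne'
  have h := tMft N 0 hN
  have hG : GG N 0 = (N : ℂ) := by
    unfold GG
    have : ∀ k ∈ range N, ee ((k : ℝ) * 0) = 1 := by
      intro k _
      rw [mul_zero, ee_zero]
    rw [Finset.sum_congr rfl this]
    simp
  rw [hG, Complex.norm_natCast] at h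
  have h2 : ∑ n ∈ Icc (-(N : ℤ)) N, ((tri N n : ℝ) : ℂ) * ee ((n : ℝ) * 0) =
      ((∑ n ∈ Icc (-(N : ℤ)) N, tri N n : ℝ) : ℂ) := by
    push_cast
    refine Finset.sum_congr rfl fun n _ => ?_
    rw [mul_zero, ee_zero, mul_one]
  rw [h2] at h
  have h3 := Complex.ofReal_injective h
  rw [h3]
  field_simp

/-- module Wb -/
theorem tWb : WbStmt := by
  intro N j hN
  have hN0 : (0 : ℝ) < N := by exact_mod_cast hN
  induction j with
  | zero =>
    refine ⟨fun n => Wb_tri_nonneg N n, fun n => Wb_tri_le N n, fun n hn => ?_, fun n hn => ?_⟩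
    · refine Wb_tri_zero hN ?_
      simpa using hn
    · have := Wb_tri_half hN hn
      change ((1 : ℝ) / 4) ^ (0 + 1) ≤ tri N n
      norm_num
      linarith
  | succ j ih =>
    obtain ⟨i1, i2, i3, i4⟩ := ih
    have hst : ∀ n, wt N (j + 1) n = (1 / (N : ℝ)) * ∑ m ∈ Icc (-(N : ℤ)) N, tri N m * wt N j (n - m) :=
      fun _ => rfl
    refine ⟨fun n => ?_, fun n => ?_, fun n hn => ?_, fun n hn => ?_⟩
    · rw [hst]
      exact mul_nonneg (by positivity)
        (Finset.sum_nonneg fun m _ => mul_nonneg (Wb_tri_nonneg N m) (i1 _))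
    · rw [hst]
      have h1 : ∑ m ∈ Icc (-(N : ℤ)) N, tri N m * wt N j (n - m) ≤ N := by
        rw [← Wb_mass hN]
        refine Finset.sum_le_sum fun m _ => ?_
        calc tri N m * wt N j (n - m) ≤ tri N m * 1 :=
              mul_le_mul_of_nonneg_left (i2 _) (Wb_tri_nonneg N m)
          _ = tri N m := mul_one _
      calc 1 / (N : ℝ) * ∑ m ∈ Icc (-(N : ℤ)) N, tri N m * wt N j (n - m) ≤ 1 / (N : ℝ) * N :=
            mul_le_mul_of_nonneg_left h1 (by positivity)
        _ = 1 := by field_simp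
    · rw [hst]
      have h1 : ∀ m ∈ Icc (-(N : ℤ)) N, tri N m * wt N j (n - m) = 0 := by
        intro m hm
        rw [mem_Icc] at hm
        rw [i3 (n - m), mul_zero]
        have h2 : |m| ≤ (N : ℤ) := abs_le.2 hm
        have h3 : |n| - |m| ≤ |n - m| := abs_sub_abs_le_abs_sub n m
        push_cast at hn ⊢
        linarith
      rw [Finset.sum_eq_zero h1, mul_zero]
    · rw [hst]
      obtain ⟨h, hh1, hh2⟩ : ∃ h : ℤ, 2 * h ≤ (N : ℤ) ∧ (N : ℤ) ≤ 2 * h + 1 := ⟨(N : ℤ) / 2, by omega, by omega⟩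
      set S : Finset ℤ := Icc (max n 0 - h) (min n 0 + h) with hS
      have hnh : |n| ≤ h := by omega
      have hSm : ∀ m ∈ S, |m| ≤ h ∧ |n - m| ≤ h := by
        intro m hm
        rw [hS, mem_Icc] at hm
        rw [abs_le, abs_le]
        rcases le_total n 0 with h0 | h0
        · rw [max_eq_right h0, min_eq_left h0] at hm
          omega
        · rw [max_eq_left h0, min_eq_right h0] at hm
          omega
      have hcard : (N : ℝ) / 2 ≤ (S.card : ℝ) := by
        have h1 : (h : ℤ) + 1 ≤ (S.card : ℤ) := by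
          rw [hS, Int.card_Icc]
          rcases le_total n 0 with h0 | h0
          · rw [max_eq_right h0, min_eq_left h0]
            rw [abs_of_nonpos h0] at hnh
            omega
          · rw [max_eq_left h0, min_eq_right h0]
            rw [abs_of_nonneg h0] at hnh
            omega
        have h2 : (N : ℤ) ≤ 2 * (S.card : ℤ) := by omega
        have h3 : (N : ℝ) ≤ 2 * (S.card : ℝ) := by exact_mod_cast h2
        linarith
      have hsub : S ⊆ Icc (-(N : ℤ)) N := by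
        intro m hm
        obtain ⟨h1, -⟩ := hSm m hm
        rw [abs_le] at h1
        rw [mem_Icc]
        have h0 : 0 ≤ h := (abs_nonneg n).trans hnh
        omega
      have hlow : ∀ m ∈ S, (1 : ℝ) / 2 * (1 / 4) ^ (j + 1) ≤ tri N m * wt N j (n - m) := by
        intro m hm
        obtain ⟨h1, h2⟩ := hSm m hm
        exact mul_le_mul (Wb_tri_half hN (by omega)) (i4 _ (by omega)) (by positivity) (Wb_tri_nonneg N m)
      have hsum : (S.card : ℝ) * ((1 : ℝ) / 2 * (1 / 4) ^ (j + 1)) ≤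
          ∑ m ∈ Icc (-(N : ℤ)) N, tri N m * wt N j (n - m) := by
        calc (S.card : ℝ) * ((1 : ℝ) / 2 * (1 / 4) ^ (j + 1)) = ∑ _m ∈ S, (1 : ℝ) / 2 * (1 / 4) ^ (j + 1) := by
              rw [Finset.sum_const, nsmul_eq_mul]
          _ ≤ ∑ m ∈ S, tri N m * wt N j (n - m) := Finset.sum_le_sum hlow
          _ ≤ ∑ m ∈ Icc (-(N : ℤ)) N, tri N m * wt N j (n - m) :=
              Finset.sum_le_sum_of_subset_of_nonneg hsub fun m _ _ =>
                mul_nonneg (Wb_tri_nonneg N m) (i1 _)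
      calc ((1 : ℝ) / 4) ^ (j + 1 + 1) = 1 / (N : ℝ) * ((N : ℝ) / 2 * ((1 : ℝ) / 2 * (1 / 4) ^ (j + 1))) := by
            field_simp
            ring
        _ ≤ 1 / (N : ℝ) * ((S.card : ℝ) * ((1 : ℝ) / 2 * (1 / 4) ^ (j + 1))) :=
            mul_le_mul_of_nonneg_left (mul_le_mul_of_nonneg_right hcard (by positivity)) (by positivity)
        _ ≤ 1 / (N : ℝ) * ∑ m ∈ Icc (-(N : ℤ)) N, tri N m * wt N j (n - m) :=
            mul_le_mul_of_nonneg_left hsum (by positivity)

end Pool.Agent.Lib.TN
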