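import Pool.Agent.Lib.TN.SpecG
import Pool.Agent.Lib.TB.Mft

/-!
MP_00e23e_nt, directory Lib/TN, module Wf: the Fourier transform of the weight.
-/

namespace Pool.Agent.Lib.TN

open Finset Pool.Agent.Lib.EH3 Pool.Agent.Lib.TB

private lemma Wf_inner (h1 : WbStmt) {N j : ℕ} (hN : 1 ≤ N) (t : ℝ) {m : ℤ} (hm : m ∈ Icc (-(N : ℤ)) N) :
    ∑ n ∈ Iw N (j + 1), ((wt N j (n - m) : ℝ) : ℂ) * ee (((n - m : ℤ) : ℝ) * t) =
      ∑ n ∈ Iw N j, ((wt N j n : ℝ) : ℂ) * ee ((n : ℝ) * t) := by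
  obtain ⟨-, -, h3, -⟩ := h1 N j hN
  rw [mem_Icc] at hm
  have hinj : Set.InjOn (fun n : ℤ => n - m) (Iw N (j + 1) : Set ℤ) := by
    intro a _ b _ hab
    have : a - m = b - m := hab
    omega
  have e1 : ∑ n ∈ Iw N (j + 1), ((wt N j (n - m) : ℝ) : ℂ) * ee (((n - m : ℤ) : ℝ) * t) =
      ∑ n ∈ (Iw N (j + 1)).image (fun n => n - m), ((wt N j n : ℝ) : ℂ) * ee ((n : ℝ) * t) := by
    rw [Finset.sum_image hinj]
  rw [e1]
  symm
  refine Finset.sum_subset ?_ ?_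
  · intro n hn
    rw [mem_image]
    refine ⟨n + m, ?_, by ring⟩
    unfold Iw at hn ⊢
    rw [mem_Icc] at hn ⊢
    push_cast at hn ⊢
    constructor <;> nlinarith
  · intro n _ hn
    have h4 : (((j + 1) * N : ℕ) : ℤ) ≤ |n| := by
      by_contra hlt
      push Not at hlt
      apply hn
      rw [abs_lt] at hlt
      unfold Iw
      rw [mem_Icc]
      exact ⟨hlt.1.le, hlt.2.le⟩
    rw [h3 n h4]
    simp

/-- module Wf -/
theorem tWf (h1 : WbStmt) : WfStmt := by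
  intro N j t hN
  have hN0 : (N : ℝ) ≠ 0 := by
    have : (0 : ℝ) < N := by exact_mod_cast hN
    exact this.ne'
  have hft := tMft N t hN
  induction j with
  | zero =>
    have hI : Iw N 0 = Icc (-(N : ℤ)) N := by
      unfold Iw
      simp
    rw [hI]
    change ∑ n ∈ Icc (-(N : ℤ)) N, ((tri N n : ℝ) : ℂ) * ee ((n : ℝ) * t) = _
    rw [hft]
    congr 1
    rw [mul_zero, zero_add, zero_add, pow_one]
    field_simp
  | succ j ih =>
    have e1 : ∀ n ∈ Iw N (j + 1), ((wt N (j + 1) n : ℝ) : ℂ) * ee ((n : ℝ) * t) =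
        ∑ m ∈ Icc (-(N : ℤ)) N, (1 / (N : ℂ)) * ((((tri N m : ℝ) : ℂ) * ee ((m : ℝ) * t)) *
          (((wt N j (n - m) : ℝ) : ℂ) * ee (((n - m : ℤ) : ℝ) * t))) := by
      intro n _
      have e2 : ((wt N (j + 1) n : ℝ) : ℂ) = (1 / (N : ℂ)) * ∑ m ∈ Icc (-(N : ℤ)) N,
          ((tri N m : ℝ) : ℂ) * ((wt N j (n - m) : ℝ) : ℂ) := by
        have e3 : wt N (j + 1) n = (1 / (N : ℝ)) * ∑ m ∈ Icc (-(N : ℤ)) N, tri N m * wt N j (n - m) := rfl
        rw [e3]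
        push_cast
        rfl
      rw [e2, mul_assoc, Finset.sum_mul, Finset.mul_sum]
      refine Finset.sum_congr rfl fun m _ => ?_
      have e4 : (n : ℝ) * t = (m : ℝ) * t + ((n - m : ℤ) : ℝ) * t := by
        push_cast
        ring
      rw [e4, ee_add]
      ring
    rw [Finset.sum_congr rfl e1, Finset.sum_comm]
    have e5 : ∀ m ∈ Icc (-(N : ℤ)) N, ∑ n ∈ Iw N (j + 1), (1 / (N : ℂ)) * ((((tri N m : ℝ) : ℂ) * ee ((m : ℝ) * t)) *
          (((wt N j (n - m) : ℝ) : ℂ) * ee (((n - m : ℤ) : ℝ) * t))) =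
        (1 / (N : ℂ)) * ((((tri N m : ℝ) : ℂ) * ee ((m : ℝ) * t)) *
          ((‖GG N t‖ ^ (2 * j + 2) / (N : ℝ) ^ (2 * j + 1) : ℝ) : ℂ)) := by
      intro m hm
      rw [← Finset.mul_sum, ← Finset.mul_sum, Wf_inner h1 hN t hm, ih]
    rw [Finset.sum_congr rfl e5, ← Finset.mul_sum, ← Finset.sum_mul, hft]
    have e6 : (1 / (N : ℂ)) = ((1 / (N : ℝ) : ℝ) : ℂ) := by push_cast; rfl
    rw [e6, ← Complex.ofReal_mul, ← Complex.ofReal_mul]
    congr 1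
    have e7 : 2 * (j + 1) + 2 = (2 * j + 2) + 2 := by ring
    have e8 : 2 * (j + 1) + 1 = (2 * j + 1) + 2 := by ring
    rw [e7, e8, pow_add, pow_add (N : ℝ)]
    field_simp
    ring

end Pool.Agent.Lib.TN
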