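import Pool.Agent.Lib.TN.SpecG
import Pool.Agent.Lib.TB.Msm

/-!
MP_00e23e_nt, directory Lib/TN, module Wtr: the truncated Fourier expansion.
-/

namespace Pool.Agent.Lib.TN

open Finset Pool.Agent.Lib.EH3 Pool.Agent.Lib.TB

/-- the term of the Fourier expansion -/
private noncomputable def Wtr_F (N j q : ℕ) (b : ℤ) (h : ℕ) : ℂ :=
  ee (-((h : ℝ) * (b : ℝ) / (q : ℝ))) *
    ((‖GG N ((h : ℝ) / (q : ℝ))‖ ^ (2 * j + 2) / (N : ℝ) ^ (2 * j + 1) : ℝ) : ℂ)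

private lemma Wtr_zero (N j q : ℕ) (b : ℤ) (hN : 1 ≤ N) : Wtr_F N j q b 0 = (N : ℂ) := by
  have h1 : GG N (((0 : ℕ) : ℝ) / (q : ℝ)) = (N : ℂ) := by
    unfold GG
    have : ∀ k ∈ range N, ee ((k : ℝ) * (((0 : ℕ) : ℝ) / (q : ℝ))) = 1 := by
      intro k _
      rw [Nat.cast_zero, zero_div, mul_zero, ee_zero]
    rw [Finset.sum_congr rfl this]
    simp
  have h2 : (N : ℝ) ≠ 0 := by
    have : 0 < N := by omega
    positivity
  unfold Wtr_F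
  rw [h1, Nat.cast_zero, zero_mul, zero_div, neg_zero, ee_zero, one_mul, Complex.norm_natCast]
  have : (N : ℝ) ^ (2 * j + 2) / (N : ℝ) ^ (2 * j + 1) = N := by
    rw [pow_succ (N : ℝ) (2 * j + 1)]
    field_simp
  rw [this]
  simp

private lemma Wtr_pos (h1 : WfStmt) (N j q : ℕ) (b : ℤ) (hN : 1 ≤ N) (h : ℕ) :
    Wtr_F N j q b h = ∑ t ∈ Iw N j, ((wt N j t : ℝ) : ℂ) *
      ee ((h : ℝ) * ((t : ℝ) - (b : ℝ)) / (q : ℝ)) := by
  unfold Wtr_F
  rw [← h1 N j _ hN, Finset.mul_sum]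
  refine Finset.sum_congr rfl fun t _ => ?_
  have e : (h : ℝ) * ((t : ℝ) - (b : ℝ)) / (q : ℝ) =
      -((h : ℝ) * (b : ℝ) / (q : ℝ)) + (t : ℝ) * ((h : ℝ) / (q : ℝ)) := by ring
  rw [e, ee_add]
  ring

private lemma Wtr_neg (h1 : WfStmt) (N j q : ℕ) (b : ℤ) (hN : 1 ≤ N) (hq : 1 ≤ q) (h : ℕ)
    (hh : h ≤ q) :
    Wtr_F N j q b (q - h) = ∑ t ∈ Iw N j, ((wt N j t : ℝ) : ℂ) *
      ee (-((h : ℝ) * ((t : ℝ) - (b : ℝ)) / (q : ℝ))) := by
  rw [Wtr_pos h1 N j q b hN]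
  refine Finset.sum_congr rfl fun t _ => ?_
  have hq' : (q : ℝ) ≠ 0 := by
    have : 0 < q := by omega
    positivity
  have e : ((q - h : ℕ) : ℝ) * ((t : ℝ) - (b : ℝ)) / (q : ℝ) =
      -((h : ℝ) * ((t : ℝ) - (b : ℝ)) / (q : ℝ)) + ((t - b : ℤ) : ℝ) := by
    rw [Nat.cast_sub hh]
    push_cast
    field_simp
    ring
  rw [e, ee_add, ee_int, mul_one]

private lemma Wtr_pt {N q H h : ℕ} (hH : 1 ≤ H) (h0 : H < h) (h1 : h < q - H) :
    ‖GG N ((h : ℝ) / (q : ℝ))‖ ^ 2 ≤ (q : ℝ) ^ 2 / (4 * (H : ℝ) ^ 2) := by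
  have hq : (0 : ℝ) < q := by exact_mod_cast (by omega : 0 < q)
  have hH0 : (0 : ℝ) < H := by exact_mod_cast (by omega : 0 < H)
  have hHh : (H : ℝ) ≤ h := by exact_mod_cast h0.le
  have hhq : (h : ℝ) + H ≤ q := by exact_mod_cast (by omega : h + H ≤ q)
  set t : ℝ := (h : ℝ) / q with ht
  have ht0 : (H : ℝ) / q ≤ t := (div_le_div_iff_of_pos_right hq).2 hHh
  have ht1 : (H : ℝ) / q ≤ 1 - t := by
    rw [ht, le_sub_iff_add_le, ← add_div, div_le_one hq]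
    linarith
  have hHq : 0 < (H : ℝ) / q := div_pos hH0 hq
  have hfr : Int.fract t = t := Int.fract_eq_self.2 ⟨by linarith, by linarith⟩
  have h2 : |t - round t| = min t (1 - t) := by
    rw [abs_sub_round_eq_min, hfr]
  have h3 : (H : ℝ) / q ≤ |t - round t| := by
    rw [h2]
    exact le_min ht0 ht1
  have h4 := norm_GG_sq_le (N := N) (abs_pos.1 (hHq.trans_le h3))
  refine h4.trans ?_
  have h5 : ((H : ℝ) / q) ^ 2 ≤ (t - round t) ^ 2 := by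
    rw [← sq_abs (t - round t)]
    exact pow_le_pow_left₀ hHq.le h3 2
  have h6 : (q : ℝ) ^ 2 / (4 * (H : ℝ) ^ 2) = 1 / (4 * ((H : ℝ) / q) ^ 2) := by
    field_simp
  rw [h6]
  exact one_div_le_one_div_of_le (by positivity) (by linarith)

/-- module Wtr -/
theorem tWtr (h1 : WfStmt) (h2 : WxStmt) : TruncNStmt := by
  intro N j q H b hN hq hH hHq
  have hq0 : (0 : ℝ) < q := by
    have : 0 < q := by omega
    exact_mod_cast this
  have hN0 : (0 : ℝ) < N := by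
    have : 0 < N := by omega
    exact_mod_cast this
  have hH0 : (0 : ℝ) < H := by
    have : 0 < H := by omega
    exact_mod_cast this
  have hex : ((clN N j q b : ℝ) : ℂ) = (1 / (q : ℂ)) * ∑ h ∈ range q, Wtr_F N j q b h := h2 N j q b hN hq
  -- the splitting
  have hsplit : ∑ h ∈ range q, Wtr_F N j q b h = (N : ℂ) + (∑ h ∈ Icc 1 H,
      ∑ t ∈ Iw N j, ((wt N j t : ℝ) : ℂ) *
        (ee ((h : ℝ) * ((t : ℝ) - (b : ℝ)) / (q : ℝ)) +
          ee (-((h : ℝ) * ((t : ℝ) - (b : ℝ)) / (q : ℝ))))) +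
      ∑ h ∈ Ioo H (q - H), Wtr_F N j q b h := by
    rw [Finset.range_eq_Ico, ← Finset.sum_Ico_consecutive _ (Nat.zero_le 1) (by omega : 1 ≤ q),
      ← Finset.sum_Ico_consecutive _ (by omega : 1 ≤ H + 1) (by omega : H + 1 ≤ q),
      ← Finset.sum_Ico_consecutive _ (by omega : H + 1 ≤ q - H) (by omega : q - H ≤ q)]
    have e0 : ∑ i ∈ Ico 0 1, Wtr_F N j q b i = (N : ℂ) := by
      rw [Finset.sum_Ico_eq_sum_range]
      simp [Wtr_zero N j q b hN]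
    have e1 : Ico 1 (H + 1) = Icc 1 H := by
      ext x
      simp only [mem_Ico, mem_Icc]
      omega
    have e2 : Ico (H + 1) (q - H) = Ioo H (q - H) := by
      ext x
      simp only [mem_Ico, mem_Ioo]
      omega
    have e3 : ∑ i ∈ Ico (q - H) q, Wtr_F N j q b i = ∑ h ∈ Icc 1 H, Wtr_F N j q b (q - h) := by
      symm
      refine Finset.sum_nbij' (fun h => q - h) (fun i => q - i) ?_ ?_ ?_ ?_ ?_
      · intro h hh
        rw [mem_Icc] at hh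
        rw [mem_Ico]
        omega
      · intro i hi
        rw [mem_Ico] at hi
        rw [mem_Icc]
        omega
      · intro h hh
        rw [mem_Icc] at hh
        omega
      · intro i hi
        rw [mem_Ico] at hi
        omega
      · intro h _
        rfl
    rw [e0, e1, e2, e3]
    have e4 : ∑ h ∈ Icc 1 H, ∑ t ∈ Iw N j, ((wt N j t : ℝ) : ℂ) *
        (ee ((h : ℝ) * ((t : ℝ) - (b : ℝ)) / (q : ℝ)) +
          ee (-((h : ℝ) * ((t : ℝ) - (b : ℝ)) / (q : ℝ)))) =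
        ∑ h ∈ Icc 1 H, Wtr_F N j q b h + ∑ h ∈ Icc 1 H, Wtr_F N j q b (q - h) := by
      rw [← Finset.sum_add_distrib]
      refine Finset.sum_congr rfl fun h hh => ?_
      rw [mem_Icc] at hh
      rw [Wtr_pos h1 N j q b hN h, Wtr_neg h1 N j q b hN hq h (by omega), ← Finset.sum_add_distrib]
      exact Finset.sum_congr rfl fun t _ => by ring
    rw [e4]
    ring
  -- the middle part
  have hmid : ‖∑ h ∈ Ioo H (q - H), Wtr_F N j q b h‖ ≤
      (1 / (N : ℝ) ^ (2 * j + 1)) * (((q : ℝ) ^ 2 / (4 * (H : ℝ) ^ 2)) ^ j * ((q : ℝ) ^ 2 / (2 * (H : ℝ)))) := by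
    refine (norm_sum_le _ _).trans ?_
    have e : ∀ h ∈ Ioo H (q - H), ‖Wtr_F N j q b h‖ ≤
        (1 / (N : ℝ) ^ (2 * j + 1)) * (((q : ℝ) ^ 2 / (4 * (H : ℝ) ^ 2)) ^ j *
          ‖GG N ((h : ℝ) / (q : ℝ))‖ ^ 2) := by
      intro h hh
      rw [mem_Ioo] at hh
      unfold Wtr_F
      rw [norm_mul, norm_ee, one_mul, Complex.norm_real, Real.norm_of_nonneg (by positivity)]
      have e1 : ‖GG N ((h : ℝ) / (q : ℝ))‖ ^ (2 * j + 2) =
          (‖GG N ((h : ℝ) / (q : ℝ))‖ ^ 2) ^ j * ‖GG N ((h : ℝ) / (q : ℝ))‖ ^ 2 := by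
        rw [← pow_mul, ← pow_add]
      rw [e1, div_eq_mul_one_div, mul_comm _ (1 / (N : ℝ) ^ (2 * j + 1))]
      refine mul_le_mul_of_nonneg_left ?_ (by positivity)
      exact mul_le_mul_of_nonneg_right
        (pow_le_pow_left₀ (by positivity) (Wtr_pt hH hh.1 hh.2) j) (by positivity)
    refine (Finset.sum_le_sum e).trans ?_
    rw [← Finset.mul_sum, ← Finset.mul_sum]
    exact mul_le_mul_of_nonneg_left
      (mul_le_mul_of_nonneg_left ((tMsm N q hN hq).1 H hH hHq) (by positivity)) (by positivity)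
  rw [hex, hsplit]
  have e5 : (1 / (q : ℂ)) * ((N : ℂ) + (∑ h ∈ Icc 1 H,
      ∑ t ∈ Iw N j, ((wt N j t : ℝ) : ℂ) *
        (ee ((h : ℝ) * ((t : ℝ) - (b : ℝ)) / (q : ℝ)) +
          ee (-((h : ℝ) * ((t : ℝ) - (b : ℝ)) / (q : ℝ))))) +
      ∑ h ∈ Ioo H (q - H), Wtr_F N j q b h) - (N : ℂ) / (q : ℂ) - (1 / (q : ℂ)) * ∑ h ∈ Icc 1 H,
      ∑ t ∈ Iw N j, ((wt N j t : ℝ) : ℂ) *
        (ee ((h : ℝ) * ((t : ℝ) - (b : ℝ)) / (q : ℝ)) +
          ee (-((h : ℝ) * ((t : ℝ) - (b : ℝ)) / (q : ℝ)))) =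
      (1 / (q : ℂ)) * ∑ h ∈ Ioo H (q - H), Wtr_F N j q b h := by ring
  rw [e5, norm_mul]
  have e6 : ‖(1 / (q : ℂ))‖ = 1 / (q : ℝ) := by
    rw [norm_div, norm_one, Complex.norm_natCast]
  rw [e6]
  calc 1 / (q : ℝ) * ‖∑ h ∈ Ioo H (q - H), Wtr_F N j q b h‖ ≤
      1 / (q : ℝ) * ((1 / (N : ℝ) ^ (2 * j + 1)) *
        (((q : ℝ) ^ 2 / (4 * (H : ℝ) ^ 2)) ^ j * ((q : ℝ) ^ 2 / (2 * (H : ℝ))))) :=
        mul_le_mul_of_nonneg_left hmid (by positivity)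
    _ = ((q : ℝ) / (2 * ((N : ℝ) * H))) ^ (2 * j + 1) := by
      have e7 : (q : ℝ) ^ 2 / (4 * (H : ℝ) ^ 2) = ((q : ℝ) / (2 * H)) ^ 2 := by
        rw [div_pow, mul_pow]
        norm_num
      have e8 : (q : ℝ) / (2 * ((N : ℝ) * H)) = ((q : ℝ) / (2 * H)) * (1 / N) := by
        field_simp
      rw [e7, e8, mul_pow, ← pow_mul, pow_succ ((q : ℝ) / (2 * H)) (2 * j), one_div_pow]
      field_simp
    _ ≤ ((q : ℝ) / ((N : ℝ) * H)) ^ (2 * j + 1) := by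
      refine pow_le_pow_left₀ (by positivity) ?_ _
      refine div_le_div_of_nonneg_left hq0.le (by positivity) ?_
      have : 0 < (N : ℝ) * H := by positivity
      linarith

end Pool.Agent.Lib.TN
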