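import Pool.Agent.Lib.TB.AllM
import Pool.Agent.Lib.TN.Isq
import Pool.Agent.Lib.TN.Ksq
import Pool.Agent.Lib.TN.N2
import Pool.Agent.Lib.TN.N2a
import Pool.Agent.Lib.TN.N3
import Pool.Agent.Lib.TN.N4
import Pool.Agent.Lib.TN.N6
import Pool.Agent.Lib.TN.N7
import Pool.Agent.Lib.TN.N8
import Pool.Agent.Lib.TN.Nof
import Pool.Agent.Lib.TN.Nsc
import Pool.Agent.Lib.TN.Pdy
import Pool.Agent.Lib.TN.Pgt
import Pool.Agent.Lib.TN.Psl
import Pool.Agent.Lib.TN.Tcs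
import Pool.Agent.Lib.TN.Tdg
import Pool.Agent.Lib.TN.Tgc
import Pool.Agent.Lib.TN.Tgd
import Pool.Agent.Lib.TN.Tge
import Pool.Agent.Lib.TN.Tgf
import Pool.Agent.Lib.TN.Tgs
import Pool.Agent.Lib.TN.Tim
import Pool.Agent.Lib.TN.Tph
import Pool.Agent.Lib.TN.Tri
import Pool.Agent.Lib.TN.Wb
import Pool.Agent.Lib.TN.Wf
import Pool.Agent.Lib.TN.Wtr
import Pool.Agent.Lib.TN.Wx

/-!
MP_00e23e_nt, directory Lib/TN (THEOREM N): glue of the parts I, T, G and M: the estimate (OFF) for convenient moduli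
from Weil's bound.
-/

namespace Pool.Agent.Lib.TN

open Pool.Agent.Lib.TB

/-- the sum of the error terms of all pairs of moduli, from the trilinear form -/
theorem tEEN_of (h : PgtStmt) : EENStmt :=
  tN8 tG1 (tN2 tWb (tN2a tWb tMta)) (tN3 tSszeN)
    (tN6 tWb (tN4 (tWtr (tWf tWb) (tWx (tWf tWb))) tSsclN) h) tN7 tMta

/-- the trilinear form for the pairs, from Weil's bound -/
theorem tPgt_of (h : WeilStmt) : PgtStmt :=
  tPgt (tTri tTcs (tTim (tIsq (tKsq h)) tTph) tTdg (tTgf (tTgd tTgs tTgc) (tTge tTgs))) tPsl tPdy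

/-- (OFF) for convenient moduli, from Weil's bound -/
theorem tOffN_of (h : WeilStmt) : OffNStmt :=
  tOffN tWb (tWx (tWf tWb)) (tEEN_of (tPgt_of h))

end Pool.Agent.Lib.TN
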