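import Pool.Agent.Lib.TN.FinN
import Pool.Agent.Lib.TN.AllG
import Pool.Agent.Lib.TB.DiaK
import Pool.Agent.Lib.TB.LpS
import Pool.Agent.Lib.BV.All

/-!
MP_00e23e_nt, directory Lib/TN (THEOREM N): theorem N from Weil's bound for Kloosterman sums modulo primes.
-/

namespace Pool.Agent.Lib.TN

open Pool.Agent.Lib.TB

/-- theorem N, from Weil's bound -/
theorem tTN_weil (h : WeilStmt) : TNStmt :=
  tTN_of (tOffN_of h) tWb tDiaK tLpS Pool.Agent.Lib.BV.aExt

end Pool.Agent.Lib.TN
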