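import Pool.Agent.Lib.TN.Stmts

/-!
MP_00e23e_nt, directory Lib/TN (THEOREM N): the weight wt, the counts with the weight, and the interfaces between
part G (helper95) and part M.
-/

namespace Pool.Agent.Lib.TN

open Finset Pool.Agent.Lib.EH3 Pool.Agent.Lib.TB

/-- the support of the weight wt N j (the same expression as in OffNStmt) -/
noncomputable def Iw (N j : ℕ) : Finset ℤ :=
  Icc (-(((j + 1) * N : ℕ) : ℤ)) ((j + 1) * N : ℕ)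

/-- the weighted number of n congruent to b modulo q -/
noncomputable def clN (N j q : ℕ) (b : ℤ) : ℝ :=
  ∑ n ∈ Iw N j, wt N j n * (if (q : ℤ) ∣ n - b then 1 else 0)

/-- the weighted number of n with u | n - a, w | n - b (main term: MM N u w a b of Lib/TB/DefsM.lean) -/
noncomputable def SSN (N j u w : ℕ) (a b : ℤ) : ℝ :=
  ∑ n ∈ Iw N j, wt N j n * (if (u : ℤ) ∣ n - a ∧ (w : ℤ) ∣ n - b then 1 else 0)

/-- basic properties of the weight (part G, module Wb) -/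
def WbStmt : Prop := ∀ N j : ℕ, 1 ≤ N →
  (∀ n, 0 ≤ wt N j n) ∧ (∀ n, wt N j n ≤ 1) ∧
  (∀ n : ℤ, (((j + 1) * N : ℕ) : ℤ) ≤ |n| → wt N j n = 0) ∧
  (∀ n : ℤ, 2 * |n| ≤ (N : ℤ) → ((1 : ℝ) / 4) ^ (j + 1) ≤ wt N j n)

/-- the Fourier transform of the weight (part G, module Wf) -/
def WfStmt : Prop := ∀ (N j : ℕ) (t : ℝ), 1 ≤ N →
  ∑ n ∈ Iw N j, ((wt N j n : ℝ) : ℂ) * ee ((n : ℝ) * t) =
    ((‖GG N t‖ ^ (2 * j + 2) / (N : ℝ) ^ (2 * j + 1) : ℝ) : ℂ)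

/-- the exact Fourier expansion of the count (part G, module Wx) -/
def WxStmt : Prop := ∀ (N j q : ℕ) (b : ℤ), 1 ≤ N → 1 ≤ q →
  ((clN N j q b : ℝ) : ℂ) = (1 / (q : ℂ)) * ∑ h ∈ range q,
    ee (-((h : ℝ) * (b : ℝ) / (q : ℝ))) *
      ((‖GG N ((h : ℝ) / (q : ℝ))‖ ^ (2 * j + 2) / (N : ℝ) ^ (2 * j + 1) : ℝ) : ℂ)

/-- the truncated Fourier expansion of the count (part G, module Wtr) -/
def TruncNStmt : Prop := ∀ (N j q H : ℕ) (b : ℤ), 1 ≤ N → 1 ≤ q → 1 ≤ H → 2 * H < q →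
  ‖((clN N j q b : ℝ) : ℂ) - (N : ℂ) / (q : ℂ) - (1 / (q : ℂ)) * ∑ h ∈ Icc 1 H,
      ∑ t ∈ Iw N j, ((wt N j t : ℝ) : ℂ) *
        (ee ((h : ℝ) * ((t : ℝ) - (b : ℝ)) / (q : ℝ)) + ee (-((h : ℝ) * ((t : ℝ) - (b : ℝ)) / (q : ℝ))))‖ ≤
    ((q : ℝ) / ((N : ℝ) * H)) ^ (2 * j + 1)

/-- two congruences are one congruence modulo the least common multiple (part M; copy of Msc of Lib/TB) -/
def SsclNStmt : Prop := ∀ (N j u w : ℕ) (a b ν : ℤ), 1 ≤ u → 1 ≤ w → (u : ℤ) ∣ ν - a → (w : ℤ) ∣ ν - b →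
  SSN N j u w a b = clN N j (Nat.lcm u w) ν ∧ MM N u w a b = (N : ℝ) / (Nat.lcm u w : ℝ)

/-- no solution if (u, w) does not divide a - b (part M; copy of Msc of Lib/TB) -/
def SszeNStmt : Prop := ∀ (N j u w : ℕ) (a b : ℤ), ¬ (((Nat.gcd u w : ℕ) : ℤ) ∣ a - b) →
  SSN N j u w a b = 0 ∧ MM N u w a b = 0

/-- the count with error q/N (part M, copy of Mcb; from WxStmt, ‖GG‖ ≤ N and MsmStmt of Lib/TB) -/
def McbNStmt : Prop := ∀ (N j q : ℕ) (b : ℤ), 1 ≤ N → 1 ≤ q → |clN N j q b - (N : ℝ) / q| ≤ (q : ℝ) / N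

/-- bound of the error term of a pair (part M, copy of Msb; from SsclNStmt, SszeNStmt, McbNStmt) -/
def SsbdNStmt : Prop := ∀ (N j u w : ℕ) (a b : ℤ), 1 ≤ N → 1 ≤ u → 1 ≤ w →
  |SSN N j u w a b - MM N u w a b| ≤ (Nat.lcm u w : ℝ) / N

/-- the sum of the error terms of the pairs (d, d') (result of part G, used by part M) -/
def EENStmt : Prop := ∀ δ ε : ℝ, 0 ≤ δ → 0 < ε → 2 * δ + ε ≤ 1 / 2 - 7 * δ - ε →
  ∃ (j : ℕ) (C η κ : ℝ) (N0 : ℕ), 0 < η ∧ 0 < κ ∧ ∀ (N Q : ℕ) (L1 L2 : ℝ) (c c' : ℕ → ℝ) (a b : ℤ),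
    N0 ≤ N → 1 ≤ N →
    (N : ℝ) ^ ((1 : ℝ) / 2 - κ) ≤ Q → (Q : ℝ) ≤ 2 * (N : ℝ) ^ ((1 : ℝ) / 2 + δ) →
    (N : ℝ) ^ (2 * δ + ε) ≤ L1 → L2 ≤ (N : ℝ) ^ ((1 : ℝ) / 2 - 7 * δ - ε) →
    (∀ d, |c d| ≤ 1) → (∀ d, |c' d| ≤ 1) → (∀ d, c' d ≠ 0 → Conv L1 L2 d) →
    a ≠ b → |a| ≤ (N : ℤ) → |b| ≤ (N : ℤ) →
    |∑ d ∈ Ioc Q (2 * Q), ∑ d' ∈ Ioc Q (2 * Q), c d * c' d' * (SSN N j d d' a b - MM N d d' a b)| ≤
      C * (N : ℝ) ^ (1 - η)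

end Pool.Agent.Lib.TN
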