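import Pool.Agent.Lib.TN.Stm2
import Pool.Agent.Lib.TB.SpecM

/-!
MP_00e23e_nt, directory Lib/TN (THEOREM N), part G (helper95): the weight, the truncated Fourier expansion, and the sum
of the error terms of all pairs (EENStmt) from the trilinear form (PgtStmt).

Every module proves ONE of the propositions (file TN/Xyz.lean; first lines: `import Pool.Agent.Lib.TN.SpecG`, then
`namespace Pool.Agent.Lib.TN` and `open Finset Pool.Agent.Lib.EH3 Pool.Agent.Lib.TB`; private lemmas start with the name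
of the module; final theorem `tXyz`). What a module may use is said in its docstring; then it is an argument of the
theorem (for example theorem tWf (h1 : WbStmt) : WfStmt). Most modules are adaptations (copies) of modules of Lib/TB.

Modules of the weight (statements in Stm2):

**Wb** (theorem tWb : WbStmt, 120 lines). Proof. Induction on j. All n: tri N n = max 0 (1 - |n|/N) is in [0, 1], is 0
for |n| ≥ N and ≥ 1/2 for 2|n| ≤ N. Step j -> j+1: wt N (j+1) n = (1/N) ∑_{|m| ≤ N} tri N m wt N j (n - m) ≥ 0;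
≤ (1/N) ∑_m tri N m = 1 (∑_{|m| ≤ N} tri N m = N: tMft of Lib/TB/Mft.lean at t = 0: ee 0 = 1, GG N 0 = N; take real
parts / Complex.ofReal_injective). If |n| ≥ (j+2) N then |n - m| ≥ (j+1) N for |m| ≤ N, so every term is 0. Lower bound:
let 2|n| ≤ N, h = N/2 (integer division of the natural number N), and S = Icc (max n 0 - h) (min n 0 + h) (integers);
for m ∈ S: -h ≤ m ≤ h, so 2|m| ≤ N, and -h ≤ n - m ≤ h, so 2|n - m| ≤ N; m ∈ Icc (-N) N; the number of elements of S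
is 2h + 1 - |n| ≥ h + 1 ≥ N/2 (|n| ≤ h as 2|n| ≤ N); the terms outside S are ≥ 0, those in S are ≥ (1/2)(1/4)^(j+1), so
wt N (j+1) n ≥ (1/N)(N/2)(1/2)(1/4)^(j+1) = (1/4)^(j+2).

**Wf** (theorem tWf (h1 : WbStmt) : WfStmt, 80 lines; uses tMft). Proof. Induction on j; j = 0 is tMft (Iw N 0 =
Icc (-N) N). Step: ∑_{n ∈ Iw N (j+1)} (1/N) ∑_m tri N m wt N j (n - m) ee(n t) = (1/N) ∑_m tri N m ee(m t)
∑_{n ∈ Iw N (j+1)} wt N j (n - m) ee((n - m) t), and for |m| ≤ N the inner sum is (substitution n' = n - m; n' runs over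
Icc (-(j+2)N - m) ((j+2)N - m), which contains Iw N j, and wt N j vanishes at the points of the difference: |n'| ≥
(j+1)N there) ∑_{n' ∈ Iw N j} wt N j n' ee(n' t) (Finset.sum_subset). Product:
(1/N) ((1/N)‖GG‖^2 N) ... : (1/N) * (∑_m tri ee) * (‖GG‖^(2j+2)/N^(2j+1)) = (1/N)(‖GG‖^2/N)(‖GG‖^(2j+2)/N^(2j+1)) =
‖GG‖^(2j+4)/N^(2j+3).

**Wx** (theorem tWx (h1 : WfStmt) : WxStmt, 50 lines). Proof. Copy of tMex (Lib/TB/Mex.lean, copy also its private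
lemmas Mex_one, Mex_ind) with Wf in place of Mft.

**Wtr** (theorem tWtr (h1 : WfStmt) (h2 : WxStmt) : TruncNStmt, 150 lines; uses tMsm of Lib/TB/Msm.lean). Proof. Copy of
tMtr (Lib/TB/Mtr.lean) with F(h) = ee(-(h b/q)) ‖GG N (h/q)‖^(2j+2)/N^(2j+1); F(0) = N^(2j+2)/N^(2j+1) = N. Middle part:
for H < h < q - H: |h/q - round(h/q)| = min(h, q-h)/q > H/q (as in Msm: copy the argument there), so by norm_GG_sq_le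
(EH3.LS1) ‖GG N (h/q)‖^2 ≤ q^2/(4 H^2), so ‖GG‖^(2j+2) ≤ ‖GG‖^2 (q^2/(4H^2))^j, and with the first part of Msm the sum of
‖GG‖^(2j+2) is ≤ (q^2/(4H^2))^j q^2/(2H). The norm of the middle part is ≤ (1/q)(1/N^(2j+1)) (q/(2H))^(2j) q^2/(2H) =
(q/(2 H N))^(2j+1) ≤ (q/(N H))^(2j+1).
-/

namespace Pool.Agent.Lib.TN

open Finset Pool.Agent.Lib.EH3 Pool.Agent.Lib.TB

/-- the error term of the pair (g m, g n) with its coefficients -/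
noncomputable def fEN (N j g : ℕ) (c c' : ℕ → ℝ) (a b : ℤ) (m n : ℕ) : ℂ :=
  ((c (g * m) * c' (g * n) * (SSN N j (g * m) (g * n) a b - MM N (g * m) (g * n) a b) : ℝ) : ℂ)

/-- **N2a** (120 lines; uses WbStmt, TauMStmt; theorem tN2a (h1 : WbStmt) (h2 : TauMStmt) : SN2a). Sum of the counts.
Proof. Write I = Ioc (Q/g) (2Q/g). Exchange the sums: the left side is ∑_{t ∈ Iw N j} wt N j t A(t - a) B(t - b), where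
A(x) = B(x) = card {m ∈ I : (g m : Z) | x} (the indicator of both conditions is the product of the two indicators).
0 ≤ wt ≤ 1. For x ≠ 0: A(x) ≤ card (divisors x.natAbs) (the map m -> g m is injective, g ≥ 1) and A(x) = 0 unless
(g : Z) | x. A(0) ≤ card I ≤ 2Q. Let C1 ≥ 1 be the constant of TauMStmt with eps/2 (n = 1 shows C1 ≥ 1); for
0 < |x| ≤ (j+2) N: A(x) ≤ C1 ((j+2)N)^(eps/2) =: D, D ≥ 1. t = a: the term is ≤ 2Q D (as a ≠ b, |a - b| ≤ 2N); t = b: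
the same. The other t have A B ≤ D^2 and are 0 unless g | t - a; the number of t ∈ Iw N j with g | t - a is at most
(2(j+1)N + 1)/g + 1 ≤ 3(j+1)N/g + 1 (Int.Ioc_filter_modEq_card as in Msb_count of Lib/TB/Msb.lean). Total
≤ D^2 (3(j+1)N/g + 1 + 4Q) ≤ C N^eps (N/g + Q + 1) with C = C1^2 (j+2)^eps (3(j+1) + 4)
(D^2 = C1^2 ((j+2)N)^eps). -/
def SN2a : Prop := ∀ (ε : ℝ) (j : ℕ), 0 < ε → ∃ C : ℝ, 0 ≤ C ∧ ∀ (N Q g : ℕ) (a b : ℤ), 1 ≤ N → 1 ≤ Q → 1 ≤ g →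
  a ≠ b → |a| ≤ (N : ℤ) → |b| ≤ (N : ℤ) →
  ∑ m ∈ Ioc (Q / g) (2 * Q / g), ∑ n ∈ Ioc (Q / g) (2 * Q / g), SSN N j (g * m) (g * n) a b ≤
    C * (N : ℝ) ^ ε * ((N : ℝ) / g + Q + 1)

/-- **N2** (100 lines; uses WbStmt, SN2a; theorem tN2 (h1 : WbStmt) (h2 : SN2a) : SN2). Trivial bound for one g.
Proof. |c c' (SS - MM)| ≤ SS + MM (both are ≥ 0: wt ≥ 0 by Wb). The sum of SS over the pairs is at most the sum over all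
m, n (drop the condition of coprimality), SN2a. For m, n ∈ Ioc (Q/g) (2Q/g) coprime: gcd(g m, g n) = g, so
MM N (g m) (g n) a b is 0 or N g/(g m g n) = N/(g m n); and g m > Q gives 1/m ≤ g/Q, 1/n ≤ g/Q; the number of m (of n) is
≤ 2Q/g (as in G2 of Lib/TB): total of MM ≤ (2Q/g)^2 (N/g)(g/Q)^2 = 4N/g ≤ 4 N^eps (N/g). Constant C + 4. -/
def SN2 : Prop := ∀ (ε : ℝ) (j : ℕ), 0 < ε → ∃ C : ℝ, 0 ≤ C ∧ ∀ (N Q g : ℕ) (c c' : ℕ → ℝ) (a b : ℤ), 1 ≤ N →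
  1 ≤ Q → 1 ≤ g → (∀ d, |c d| ≤ 1) → (∀ d, |c' d| ≤ 1) → a ≠ b → |a| ≤ (N : ℤ) → |b| ≤ (N : ℤ) →
  ‖pg Q g (fEN N j g c c' a b)‖ ≤ C * (N : ℝ) ^ ε * ((N : ℝ) / g + Q + 1)

/-- **N3** (30 lines; uses SszeNStmt; theorem tN3 (h : SszeNStmt) : SN3). Copy of G3 of Lib/TB. -/
def SN3 : Prop := ∀ (N j Q g : ℕ) (c c' : ℕ → ℝ) (a b : ℤ), ¬ ((g : ℤ) ∣ b - a) →
  pg Q g (fEN N j g c c' a b) = 0

/-- **N4** (90 lines; uses TruncNStmt, SsclNStmt; theorem tN4 (h1 : TruncNStmt) (h2 : SsclNStmt) : SN4). Copy of G4 of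
Lib/TB: K1 = (b - a)/g, nu = a + g m K1 iv(m, n), SS - MM = cl nu - N/q with q = g m n, and
h (t - nu)/q = h (t - a)/(g m n) - h K1 iv(m,n)/n. -/
def SN4 : Prop := ∀ (N j H g m n : ℕ) (a b : ℤ), 1 ≤ N → 1 ≤ H → 1 ≤ g → 1 ≤ m → 1 ≤ n → m.Coprime n →
  (g : ℤ) ∣ b - a → 2 * H < g * m * n →
  ‖((SSN N j (g * m) (g * n) a b - MM N (g * m) (g * n) a b : ℝ) : ℂ) -
      (1 / ((g : ℂ) * m * n)) * ∑ h ∈ Icc 1 H, ∑ t ∈ Iw N j, ((wt N j t : ℝ) : ℂ) *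
        (eB ((h : ℤ) * (-((b - a) / g))) ((h : ℝ) * (((t : ℝ) - a) / g)) m n +
          eB ((h : ℤ) * ((b - a) / g)) ((h : ℝ) * (-(((t : ℝ) - a) / g))) m n)‖ ≤
    ((g : ℝ) * m * n / ((N : ℝ) * H)) ^ (2 * j + 1)

/-- **N6** (180 lines; uses WbStmt, SN4, PgtStmt; theorem tN6 (h1 : WbStmt) (h4 : SN4) (h5 : PgtStmt) : SN6). One g
dividing b - a. Adaptation of G6 of Lib/TB (copy its lemmas on pg).
Proof. As in G6: for every pair of pg, Q^2/g < g m n ≤ 4Q^2, so 2H < g m n, and by SN4 fEN is the main part plus an error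
of norm ≤ (4Q^2/(N H))^(2j+1); at most (2Q)^2 pairs. Main part: c c' (1/(g m n)) ∑_h ∑_t wt(t) (..): exchange the sums
so that t is outside and h is inside:
(1/g) ∑_{t ∈ Iw} wt(t) [∑_{h ≤ H} pg Q g (c c' (1/(m n)) eB (h * (-K1)) (h * tau)) + the same with K1, -tau],
tau = (t - a)/g, K1 = (b - a)/g ≠ 0. PgtStmt (with eps) bounds each bracket: |K1| ≤ 2N, and for t ∈ Iw N j:
|tau| ≤ |t - a| ≤ (j+2) N, so 1 + H |tau|/P^2 ≤ (j+2)(1 + H N/P^2), P = Q/g; (Q H |K1|)^eps ≤ (Q H (2N))^eps. The number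
of t is 2(j+1)N + 1 ≤ 3(j+1) N, wt ≤ 1, 1/g ≤ 1. Total ≤ 6 (j+1)(j+2) C0 N (..). -/
def SN6 : Prop := ∀ (ε : ℝ) (j : ℕ), 0 < ε → ∃ C : ℝ, 0 ≤ C ∧ ∀ (N Q H g : ℕ) (L1 L2 : ℝ) (c c' : ℕ → ℝ)
    (a b : ℤ),
  1 ≤ N → 1 ≤ H → 1 ≤ g → g ≤ Q → 2 * H * g ≤ Q ^ 2 → 4 * (g : ℝ) ≤ L1 → L1 ≤ L2 → L2 ≤ ((Q / g : ℕ) : ℝ) →
  (∀ d, |c d| ≤ 1) → (∀ d, |c' d| ≤ 1) → (∀ d, c' d ≠ 0 → Conv L1 L2 d) → a ≠ b →
  |a| ≤ (N : ℤ) → |b| ≤ (N : ℤ) → (g : ℤ) ∣ b - a →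
  ‖pg Q g (fEN N j g c c' a b)‖ ≤ 4 * (Q : ℝ) ^ 2 * (4 * (Q : ℝ) ^ 2 / ((N : ℝ) * H)) ^ (2 * j + 1) +
    C * N * ((Q : ℝ) * H * (2 * N)) ^ ε * (1 + (H : ℝ) * N / ((Q / g : ℕ) : ℝ) ^ 2) *
      (((H : ℝ) * g / L1) ^ ((1 : ℝ) / 2) + (H : ℝ) * (L2 / ((Q / g : ℕ) : ℝ)) ^ ((1 : ℝ) / 4))

/-- **N7** (200 lines; uses nothing; theorem tN7 : SN7). The exponents. kap = eps/200; 9 delta + 2 eps ≤ 1/2, so
delta ≤ 1/18, eps ≤ 1/4, kap ≤ 1/800.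
Proof. H = ⌈N^kap (1 + 4Q^2/N)⌉, so N^kap (1 + 4Q^2/N) ≤ H ≤ 2 N^kap (1 + 4Q^2/N). N0 with N0 ≥ 5000, N0^(eps/2) ≥ 4.
(1) 4Q^2/(N H) ≤ N^(-kap), so its power 2j+1 is ≤ N^(-kap(2j+1)) ≤ N^(-3); 4Q^2 ≤ 16 N^(1+2 delta) ≤ 16 N^2; the first
term is ≤ 16 N^(-1) ≤ 16 N^(1 - eps/10).
(2) 1 + 4Q^2/N ≤ 17 N^(2 delta), H ≤ 34 N^(kap + 2 delta) ≤ 34 N.
(3) (Q H 2N)^(eps/1000) ≤ (136 N^3)^(eps/1000) ≤ 2 N^(3 eps/1000) (Q ≤ 2N; 136^(eps/1000) ≤ 136^(1/4000) ≤ 2).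
(4) P = floor(Q/g) ≥ Q/(2g) (g ≤ Q; as G7_div of Lib/TB/G7.lean). H N/P^2 ≤ 4 g^2 H N/Q^2 ≤ 8 g^2 N^kap (N/Q^2 + 4)
≤ 8 N^(3 kap) (N^(2 kap) + 4) ≤ 40 N^(5 kap) (Q ≥ N^(1/2-kap)). So 1 + H N/P^2 ≤ 41 N^(5 kap).
(5) (H g/L1)^(1/2) ≤ (34 N^(kap + 2 delta + kap - 2 delta - eps))^(1/2) ≤ 6 N^(kap - eps/2).
(6) H (L2/P)^(1/4) ≤ H (2 g L2/Q)^(1/4) ≤ 2 N^(kap/4) H (L2/Q)^(1/4), and H (L2/Q)^(1/4) ≤
2 N^kap ((L2/Q)^(1/4) + 4 Q^(7/4) L2^(1/4)/N) [Q^2 (L2/Q)^(1/4) = Q^(7/4) L2^(1/4)]; (L2/Q)^(1/4) ≤ N^((kap-eps)/4)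
(L2 ≤ N^(1/2 - 7 delta - eps) ≤ N^(1/2-eps)), Q^(7/4) L2^(1/4)/N ≤ 2^(7/4) N^((7/4)(1/2+delta) + (1/4)(1/2 - 7 delta - eps)
- 1) = 2^(7/4) N^(-eps/4) ≤ 4 N^(-eps/4). So H (L2/Q)^(1/4) ≤ 34 N^(kap + kap/4 - eps/4), and
H (L2/P)^(1/4) ≤ 68 N^((3/2) kap - eps/4). (5) + (6) ≤ 74 N^((3/2) kap - eps/4).
(7) Product: C N * 2 N^(3 eps/1000) * 41 N^(5 kap) * 74 N^((3/2) kap - eps/4) = 6068 C N^(1 + 3 eps/1000 + (13/2) eps/200 -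
eps/4) ≤ 6068 C N^(1 - eps/10). C1 = 16 + 6068 C.
(8) Conditions: Q ≥ N^(1/2-kap) ≥ 1; g ≤ N^kap ≤ N^(1/2-kap) ≤ Q; 2 H g ≤ 68 N^(2 kap + 2 delta) ≤ N^(1-2 kap) ≤ Q^2,
since 1 - 4 kap - 2 delta ≥ 3/4 and N ≥ 5000 (N^(3/4) ≥ 68); 4 g ≤ 4 N^kap ≤ N^(kap + eps/2) ≤ N^(2 delta + eps) ≤ L1;
L2 ≤ N^(1/2 - eps) ≤ N^(1/2 - 2 kap)/4 ≤ Q/(2g) ≤ P (as N^(eps - 2 kap) ≥ N^(eps/2) ≥ 4). -/
def SN7 : Prop := ∀ (δ ε C : ℝ) (j : ℕ), 0 ≤ δ → 0 < ε → 2 * δ + ε ≤ 1 / 2 - 7 * δ - ε → 0 ≤ C →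
  3 ≤ ε / 200 * (2 * j + 1) →
  ∃ C1 : ℝ, ∃ N0 : ℕ, 0 ≤ C1 ∧ ∀ (N Q : ℕ) (L1 L2 : ℝ), N0 ≤ N → 1 ≤ N →
    (N : ℝ) ^ ((1 : ℝ) / 2 - ε / 200) ≤ Q → (Q : ℝ) ≤ 2 * (N : ℝ) ^ ((1 : ℝ) / 2 + δ) →
    (N : ℝ) ^ (2 * δ + ε) ≤ L1 → L1 ≤ L2 → L2 ≤ (N : ℝ) ^ ((1 : ℝ) / 2 - 7 * δ - ε) →
    1 ≤ Q ∧ ∃ H : ℕ, 1 ≤ H ∧ ∀ g : ℕ, 1 ≤ g → (g : ℝ) ≤ (N : ℝ) ^ (ε / 200) →
      g ≤ Q ∧ 2 * H * g ≤ Q ^ 2 ∧ 4 * (g : ℝ) ≤ L1 ∧ L2 ≤ ((Q / g : ℕ) : ℝ) ∧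
      4 * (Q : ℝ) ^ 2 * (4 * (Q : ℝ) ^ 2 / ((N : ℝ) * H)) ^ (2 * j + 1) +
        C * N * ((Q : ℝ) * H * (2 * N)) ^ (ε / 1000) * (1 + (H : ℝ) * N / ((Q / g : ℕ) : ℝ) ^ 2) *
          (((H : ℝ) * g / L1) ^ ((1 : ℝ) / 2) + (H : ℝ) * (L2 / ((Q / g : ℕ) : ℝ)) ^ ((1 : ℝ) / 4)) ≤
        C1 * (N : ℝ) ^ ((1 : ℝ) - ε / 10)

/-- **N8** (130 lines; theorem tN8 (h1 : SG1) (h2 : SN2) (h3 : SN3) (h6 : SN6) (h7 : SN7) (hT : TauMStmt) : EENStmt).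
The result; adaptation of G8 of Lib/TB.
Proof. Given delta, eps: 9 delta + 2 eps ≤ 1/2. kap = eps/200, j = ⌈600/eps⌉ (natural; then eps/200 (2j+1) ≥ 3),
C6 from SN6 with eps/1000 and j, C1 and N0 from SN7 with C = C6, C2 from SN2 with eps/1000 and j, Ct from TauMStmt with
eps/1000. eta = 3 eps/1000. If L2 < L1 then c' d = 0 for all d and the sum is 0. Otherwise, as in G8: SG1, SN3; the
g with (g : Z) | b - a are divisors of k = (b - a).natAbs, 1 ≤ k ≤ 2N: at most Ct (2N)^(eps/1000) ≤ 2 Ct N^(eps/1000). If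
g ≤ N^kap: SN6 and SN7, ≤ C1 N^(1 - eps/10) ≤ C1 N^(1 - 4 eps/1000). If g > N^kap: SN2: ≤ C2 N^(eps/1000) (N^(1-kap) +
2 N^(1/2+delta) + 1) ≤ 4 C2 N^(eps/1000 + 1 - kap) = 4 C2 N^(1 - 4 eps/1000) (1/2 + delta ≤ 1 - kap). Total ≤
2 Ct (C1 + 4 C2) N^(1 - 3 eps/1000). -/
def SN8 : Prop := EENStmt

end Pool.Agent.Lib.TN
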