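import Pool.Agent.Lib.TN.Stmts

/-!
MP_00e23e_nt, directory Lib/TN, part T (helper3): the trilinear form. Final statements TriStmt and PgtStmt
(Lib/TN/Stmts.lean).

RULES. Module X: file Pool/Agent/Lib/TN/X.lean, first line `import Pool.Agent.Lib.TN.SpecT`, then
`namespace Pool.Agent.Lib.TN` and `open Finset Pool.Agent.Lib.EH3 Pool.Agent.Lib.TB`, private lemmas with names starting
with X_, final theorem `theorem tX (h1 : AStmt) ... : XStmt`; the statements listed under Uses are hypotheses of your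
theorem, in this order. The docstring contains a complete proof. Basic lemmas: iv_mul, iv_dvd, iv_congr, iv_unique,
ee_congr, ee_add_int in TB/Basic.lean, ee_add, ee_int, norm_ee, conj_ee in EH3/LS1.lean. Proved and usable (import the
file): TB.tPsm : PsmStmt (TB/Psm.lean), TB.tTauk : TaukStmt (TB/Tauk.lean; the divisor bound).
Never use congr!. Every module below 60 s. x / y for natural numbers in a range is the floor.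
-/

namespace Pool.Agent.Lib.TN

open Finset Pool.Agent.Lib.EH3 Pool.Agent.Lib.TB Pool.Agent.Results.MP_00e23e_nt

/-- the trilinear form -/
noncomputable def Tf (P S H : ℕ) (α : ℕ → ℂ) (β : ℕ → ℕ → ℂ) (θ : ℤ) (τ : ℝ) : ℂ :=
  ∑ h ∈ Icc 1 H, ∑ m ∈ Ioc P (3 * P), ∑ r ∈ Icc 1 (3 * P / S),
      ∑ s ∈ (Ioc S (2 * S)).filter (fun s => m.Coprime (r * s)),
        α m * β r s * eB ((h : ℤ) * θ) ((h : ℝ) * τ) m (r * s)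

/-- the inner sum over m after Cauchy's inequality -/
noncomputable def Im (P : ℕ) (θ : ℤ) (τ : ℝ) (r s1 s2 h1 h2 : ℕ) : ℂ :=
  ∑ m ∈ (Ioc P (3 * P)).filter (fun m => m.Coprime (r * s1) ∧ m.Coprime (r * s2)),
    eB ((h1 : ℤ) * θ) ((h1 : ℝ) * τ) m (r * s1) * (starRingEnd ℂ) (eB ((h2 : ℤ) * θ) ((h2 : ℝ) * τ) m (r * s2))

/-- the modulus of the inner sum -/
def q0 (r s1 s2 : ℕ) : ℕ := r * Nat.lcm s1 s2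

/-- the frequency of the inner sum -/
def kk (h1 h2 s1 s2 : ℕ) : ℤ :=
  (h1 : ℤ) * ((s2 / Nat.gcd s1 s2 : ℕ) : ℤ) - (h2 : ℤ) * ((s1 / Nat.gcd s1 s2 : ℕ) : ℤ)

/-- Module Tcs (theorem tTcs; Cauchy's inequality over m and r). Uses: nothing.
Proof. Exchange the sums: Tf = ∑_m ∑_r α m X(m, r), X(m, r) = ∑_{s ∈ Ioc S 2S} ∑_h [m coprime to r s] β r s eB(..). As ‖α m‖ ≤ 1,
‖Tf‖ ≤ ∑_m ∑_r ‖X(m, r)‖, and by Cauchy ‖Tf‖^2 ≤ (number of pairs (m, r) = 2P * (3P/S)) ∑_r ∑_m ‖X(m, r)‖^2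
(sq_sum_le_card_mul_sum_sq over the product). ‖X‖^2 = X conj X = ∑_{s1, h1, s2, h2} [m coprime to r s1 and r s2]
β r s1 conj (β r s2) eB(h1..) conj (eB(h2..)); sum over m ∈ Ioc P (3P) inside: ∑_m ‖X(m, r)‖^2 = ∑_{s1, s2, h1, h2} β r s1 conj(β r s2) Im,
a real number, at most the sum of the norms; the norm of a term is ≤ ‖Im‖ and it is 0 if β r s1 = 0 or β r s2 = 0. -/
def TcsStmt : Prop := ∀ (P S H : ℕ) (α : ℕ → ℂ) (β : ℕ → ℕ → ℂ) (θ : ℤ) (τ : ℝ), (∀ m, ‖α m‖ ≤ 1) →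
  (∀ r s, ‖β r s‖ ≤ 1) →
  ‖Tf P S H α β θ τ‖ ^ 2 ≤ 2 * (P : ℝ) * ((3 * P / S : ℕ) : ℝ) *
    ∑ r ∈ Icc 1 (3 * P / S), ∑ s1 ∈ Ioc S (2 * S), ∑ s2 ∈ Ioc S (2 * S), ∑ h1 ∈ Icc 1 H, ∑ h2 ∈ Icc 1 H,
      (if β r s1 ≠ 0 ∧ β r s2 ≠ 0 then ‖Im P θ τ r s1 s2 h1 h2‖ else 0)

/-- Module Tph (theorem tTph; the product of two phases). Uses: nothing.
Proof. g0 = gcd(s1, s2), t1 = s1/g0, t2 = s2/g0, lcm(s1, s2) = s1 t2 = s2 t1, q0 = r s1 t2 = r s2 t1. m is coprime to q0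
(q0 divides (r s1)(r s2)). By iv_dvd, q0 | iv m q0 * m - 1, so r s1 and r s2 divide it, and by iv_unique r s1 | iv m q0 - iv m (r s1),
r s2 | iv m q0 - iv m (r s2). ee_congr: ee(h1 θ iv m (r s1)/(r s1)) = ee(h1 θ iv m q0/(r s1)) = ee(h1 θ t2 iv m q0/q0), and the same for
s2 with t1. eB = ee(..) * ee(vt/(m n)) by ee_add; conj (ee x) = ee (-x); collect: θ (h1 t2 - h2 t1) iv m q0/q0 and
h1 τ/(m r s1) - h2 τ/(m r s2) = τ (h1/(r s1) - h2/(r s2))/m. -/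
def TphStmt : Prop := ∀ (θ : ℤ) (τ : ℝ) (r s1 s2 h1 h2 m : ℕ), 1 ≤ r → 1 ≤ s1 → 1 ≤ s2 → 1 ≤ m →
  m.Coprime (r * s1) → m.Coprime (r * s2) →
  eB ((h1 : ℤ) * θ) ((h1 : ℝ) * τ) m (r * s1) * (starRingEnd ℂ) (eB ((h2 : ℤ) * θ) ((h2 : ℝ) * τ) m (r * s2)) =
    ee (((θ * kk h1 h2 s1 s2 : ℤ) : ℝ) * (iv m (q0 r s1 s2) : ℝ) / ((q0 r s1 s2 : ℕ) : ℝ)) *
      ee (τ * ((h1 : ℝ) / ((r : ℝ) * s1) - (h2 : ℝ) / ((r : ℝ) * s2)) / m)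

/-- Module Tim (theorem tTim; the inner sum). Uses: IsqStmt, TphStmt. (Import also TB/Psm.lean: tPsm.)
Proof. m is coprime to r s1 and r s2 iff m is coprime to q0 = r lcm(s1, s2) (q0 | (r s1)(r s2), and r s1 | q0, r s2 | q0). r, s1, s2 ≥ 1 as
r s1 > P ≥ 1. q0 is squarefree: r is coprime to s1 and to s2 (r s1, r s2 squarefree), so to the lcm, r is squarefree, and lcm(s1, s2) is squarefree
(s1, s2 squarefree: the exponent of a prime in the lcm is the maximum; Nat.squarefree_iff_factorization_le_one and Nat.factorization_lcm).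
By TphStmt, Im = ∑_{m ∈ Ico (P+1) (3P+1)} f m g m, f m = (if m coprime to q0 then ee(θ kk iv m q0/q0) else 0),
g m = ee(τ w/m), w = h1/(r s1) - h2/(r s2), |w| ≤ H/P (two nonnegative numbers ≤ H/P). IsqStmt for Ico (P+1) T, T ≤ 3P+1, length ≤ 2P: bound
B = τ(q0) gcd^(1/2) q0^(1/2) (2P/q0 + 1 + log q0) ≤ τ(q0) gcd^(1/2) q0^(1/2) (3 + log q0) because q0 ≥ r s1 > P. tPsm:
‖Im‖ ≤ B (1 + ∑_{m} ‖g (m+1) - g m‖), ‖ee x - ee y‖ ≤ 2π |x - y|, ∑_{m ≥ P+1} |τ w| (1/m - 1/(m+1)) ≤ (H |τ|/P) (1/P) (telescoping).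
So ‖Im‖ ≤ B (1 + 2π H |τ|/P^2) ≤ 7 B (1 + H |τ|/P^2). -/
def TimStmt : Prop := ∀ (P H : ℕ) (θ : ℤ) (τ : ℝ) (r s1 s2 h1 h2 : ℕ), 1 ≤ P → h1 ≤ H → h2 ≤ H → P < r * s1 → P < r * s2 →
  Squarefree (r * s1) → Squarefree (r * s2) →
  ‖Im P θ τ r s1 s2 h1 h2‖ ≤ 7 * (1 + (H : ℝ) * |τ| / (P : ℝ) ^ 2) *
    (((q0 r s1 s2).divisors.card : ℝ) * (Int.gcd (θ * kk h1 h2 s1 s2) (q0 r s1 s2) : ℝ) ^ ((1 : ℝ) / 2) *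
      ((q0 r s1 s2 : ℕ) : ℝ) ^ ((1 : ℝ) / 2) * (3 + Real.log (q0 r s1 s2 : ℕ)))

/-- Module Tdg (theorem tTdg; the diagonal). Uses: nothing. (Import also TB/Tauk.lean: tTauk.)
Proof. kk = 0 iff h1 t2 = h2 t1 iff h1 s2 = h2 s1 (multiply by g0 = gcd(s1, s2) > 0). For fixed s1 ∈ Ioc S 2S and h2 ∈ Icc 1 H, s2 is a divisor of the
number h2 s1 (1 ≤ h2 s1 ≤ 2 S H) and h1 is determined by s2 (h1 = h2 s1/s2): at most τ(h2 s1) ≤ C (2 S H)^ε pairs (s2, h1). There are S H pairs (s1, h2). -/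
def TdgStmt : Prop := ∀ ε : ℝ, 0 < ε → ∃ C : ℝ, 0 ≤ C ∧ ∀ (S H : ℕ), 1 ≤ S → 1 ≤ H →
  ∑ s1 ∈ Ioc S (2 * S), ∑ s2 ∈ Ioc S (2 * S), ∑ h1 ∈ Icc 1 H, ∑ h2 ∈ Icc 1 H,
    (if kk h1 h2 s1 s2 = 0 then (1 : ℝ) else 0) ≤ C * ((S : ℝ) * H) ^ ε * ((S : ℝ) * H)

/-- Module Tgs (theorem tTgs; greatest common divisors on average). Uses: nothing.
Proof. Group the m ∈ Icc 1 N by g = gcd(D, m), a divisor of |D|; at most N/g values of m are divisible by g, each contributes g: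
∑_{g | |D|} g (N/g) = τ(|D|) N. (Compare TB/Smg.lean, the same with the square root.) -/
def TgsStmt : Prop := ∀ (D : ℤ) (N : ℕ), D ≠ 0 → ∑ m ∈ Icc 1 N, (Int.gcd D m : ℝ) ≤ (D.natAbs.divisors.card : ℝ) * N

/-- Module Tgc (theorem tTgc; the greatest common divisor of one quadruple). Uses: nothing.
Proof. q0 = r g0 t1 t2 with g0 = gcd(s1, s2), t_i = s_i/g0, gcd(t1, t2) = 1 (lcm(s1, s2) = g0 t1 t2). gcd(D, u v) divides gcd(D, u) gcd(D, v)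
(Nat.gcd_mul_dvd_mul_gcd, or Int version), so gcd(θ k, q0) ≤ gcd(θ k, r) gcd(θ k, g0) gcd(θ k, t1) gcd(θ k, t2), k = h1 t2 - h2 t1. gcd(θ k, g0) ≤ g0.
θ k ≡ θ h1 t2 mod t1, so gcd(θ k, t1) = gcd(θ h1 t2, t1) = gcd(θ h1, t1) since t2 is coprime to t1; in the same way gcd(θ k, t2) = gcd(θ h2, t2).
(Only ≤ is needed. All the factors are positive since r, g0, t1, t2 ≥ 1.) -/
def TgcStmt : Prop := ∀ (θ : ℤ) (r s1 s2 h1 h2 : ℕ), 1 ≤ r → 1 ≤ s1 → 1 ≤ s2 →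
  (Int.gcd (θ * kk h1 h2 s1 s2) (q0 r s1 s2) : ℝ) ≤ (Int.gcd (θ * kk h1 h2 s1 s2) r : ℝ) * (Nat.gcd s1 s2 : ℝ) *
    (Int.gcd (θ * h1) (s1 / Nat.gcd s1 s2 : ℕ) : ℝ) * (Int.gcd (θ * h2) (s2 / Nat.gcd s1 s2 : ℕ) : ℝ)

/-- Module Tgd (theorem tTgd; the sum over r, for one quadruple with kk ≠ 0). Uses: TgsStmt, TgcStmt. (Import also TB/Tauk.lean.)
Proof. Sum TgcStmt over r ∈ Icc 1 R and use TgsStmt for D = θ kk ≠ 0: ∑_r gcd(θ kk, r) ≤ τ(|θ kk|) R ≤ C |θ kk|^ε R, and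
|kk| ≤ 2 H (2S) = 4 H S (|h1 t2 - h2 t1| with 0 ≤ h_i ≤ H, 0 ≤ t_i ≤ s_i ≤ 2S; even ≤ 2 H S), |θ| ≥ 1. -/
def TgdStmt : Prop := ∀ ε : ℝ, 0 < ε → ∃ C : ℝ, 0 ≤ C ∧ ∀ (R S H : ℕ) (θ : ℤ) (s1 s2 h1 h2 : ℕ), 1 ≤ S → 1 ≤ H → θ ≠ 0 →
  1 ≤ s1 → 1 ≤ s2 → s1 ≤ 2 * S → s2 ≤ 2 * S → h1 ≤ H → h2 ≤ H → kk h1 h2 s1 s2 ≠ 0 →
  ∑ r ∈ Icc 1 R, (Int.gcd (θ * kk h1 h2 s1 s2) (q0 r s1 s2) : ℝ) ≤ C * (|(θ : ℝ)| * H * S) ^ ε * R *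
    ((Nat.gcd s1 s2 : ℝ) * (Int.gcd (θ * h1) (s1 / Nat.gcd s1 s2 : ℕ) : ℝ) *
      (Int.gcd (θ * h2) (s2 / Nat.gcd s1 s2 : ℕ) : ℝ))

/-- Module Tge (theorem tTge; the sum over s1, s2). Uses: TgsStmt. (Import also TB/Tauk.lean.)
Proof. The map (s1, s2) ↦ (g0, t1, t2) is injective and maps the pairs of Ioc S (2S) into the triples g0 ∈ Icc 1 (2S), t1, t2 ∈ Icc 1 (2S/g0). So the sum is
at most ∑_{g0 ≤ 2S} g0 (∑_{t ≤ 2S/g0} gcd(D1, t)) (∑_{t ≤ 2S/g0} gcd(D2, t)) ≤ ∑_{g0} g0 τ(|D1|) τ(|D2|) (2S/g0)^2 =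
4 S^2 τ(|D1|) τ(|D2|) ∑_{g0 ≤ 2S} 1/g0 ≤ 4 S^2 τ τ (1 + log (2S)), log(2S) ≤ C S^ε, τ(|D|) ≤ C |D|^ε. -/
def TgeStmt : Prop := ∀ ε : ℝ, 0 < ε → ∃ C : ℝ, 0 ≤ C ∧ ∀ (S : ℕ) (D1 D2 : ℤ), 1 ≤ S → D1 ≠ 0 → D2 ≠ 0 →
  ∑ s1 ∈ Ioc S (2 * S), ∑ s2 ∈ Ioc S (2 * S), (Nat.gcd s1 s2 : ℝ) * (Int.gcd D1 (s1 / Nat.gcd s1 s2 : ℕ) : ℝ) *
      (Int.gcd D2 (s2 / Nat.gcd s1 s2 : ℕ) : ℝ) ≤
    C * (|(D1 : ℝ)| * |(D2 : ℝ)| * S) ^ ε * (S : ℝ) ^ 2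

/-- Module Tgf (theorem tTgf; the sum of the greatest common divisors). Uses: TgdStmt, TgeStmt.
Proof. Move the sum over r inside; TgdStmt for the quadruples with kk ≠ 0 (the others contribute 0, and the right side of TgdStmt is ≥ 0), then for fixed
h1, h2 (in Icc 1 H) TgeStmt with D_i = θ h_i ≠ 0, |D_i| ≤ |θ| H, then sum over h1, h2 (H^2 pairs): C C' (|θ| H S)^(ε') (|θ|^2 H^2 S)^(ε') R S^2 H^2, ε' = ε/3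
(all the bases are ≥ 1: |θ| ≥ 1, H, S ≥ 1; (|θ|^2 H^2 S) ≤ (|θ| H S)^2). -/
def TgfStmt : Prop := ∀ ε : ℝ, 0 < ε → ∃ C : ℝ, 0 ≤ C ∧ ∀ (R S H : ℕ) (θ : ℤ), 1 ≤ S → 1 ≤ H → θ ≠ 0 →
  ∑ r ∈ Icc 1 R, ∑ s1 ∈ Ioc S (2 * S), ∑ s2 ∈ Ioc S (2 * S), ∑ h1 ∈ Icc 1 H, ∑ h2 ∈ Icc 1 H,
    (if kk h1 h2 s1 s2 ≠ 0 then (Int.gcd (θ * kk h1 h2 s1 s2) (q0 r s1 s2) : ℝ) else 0) ≤
    C * (|(θ : ℝ)| * H * S) ^ ε * ((R : ℝ) * S ^ 2 * H ^ 2)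

/-- Module Tri (theorem tTri). FINAL STATEMENT TriStmt (TN/Stmts.lean). Uses: TcsStmt, TimStmt, TdgStmt, TgfStmt. (Import also TB/Tauk.lean.)
Proof. The form of TriStmt is Tf (rfl). R = 3P/S ≥ 1 (S ≤ P), R ≤ 3P/S as reals. V = 1 + H|τ|/P^2. Let r, s1, s2 have β r s1, β r s2 ≠ 0: P < r s_i ≤ 3P,
squarefree. If kk = 0: ‖Im‖ ≤ 2P (norm of every term is 1, at most 2P terms). If kk ≠ 0: TimStmt, with q0 = r s1 t2 ≤ 3P * 2S = 6 P S ≤ 6 P^2,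
τ(q0) (3 + log q0) ≤ C (P)^ε', gcd^(1/2) ≤ gcd (gcd ≥ 1): ‖Im‖ ≤ 7 V C P^ε' (6 P S)^(1/2) gcd(θ kk, q0). Tcs:
‖Tf‖^2 ≤ 2P (3P/S) [R * C (S H)^ε' (S H) * 2P + 7 V C P^ε' (6 P S)^(1/2) C (|θ| H S)^ε' R S^2 H^2], R ≤ 3P/S, S ≤ P:
first part ≤ C (P H)^(2ε') P^4 H/S, second part ≤ C V (P H |θ|)^(3ε') P^(7/2) S^(1/2) H^2 (P^2/S * P^(1/2) S^(1/2) * P/S * S^2 = P^(7/2) S^(1/2)).
‖Tf‖ ≤ √(first) + √(second), √V ≤ V, ε' = ε/3. -/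
def TriStmt' : Prop := TriStmt

/-- the sum for the pairs (g m, g n), with the sum over h -/
noncomputable def Pf (Q g H : ℕ) (c c' : ℕ → ℝ) (θ : ℤ) (τ : ℝ) : ℂ :=
  ∑ h ∈ Icc 1 H, pg Q g (fun m n => ((c (g * m) * c' (g * n) : ℝ) : ℂ) * (1 / ((m : ℂ) * n)) *
    eB ((h : ℤ) * θ) ((h : ℝ) * τ) m n)

/-- the coefficients α -/
noncomputable def al (Q g : ℕ) (c : ℕ → ℝ) (m : ℕ) : ℂ :=
  if Q / g < m ∧ m ≤ 2 * Q / g then ((c (g * m) * ((Q / g : ℕ) : ℝ) / m : ℝ) : ℂ) else 0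

/-- the coefficients β: σ chooses a divisor of n -/
noncomputable def be (Q g : ℕ) (c' : ℕ → ℝ) (σ : ℕ → ℕ) (r s : ℕ) : ℂ :=
  if Q / g < r * s ∧ r * s ≤ 2 * Q / g ∧ σ (r * s) = s ∧ c' (g * (r * s)) ≠ 0 then
    ((c' (g * (r * s)) * ((Q / g : ℕ) : ℝ) / ((r : ℝ) * s) : ℝ) : ℂ) else 0

/-- Module Psl (theorem tPsl; the choice of a divisor). Uses: nothing.
Proof. Define σ n = s0/gcd(s0, g) for a chosen divisor s0 of g n (Classical.choose) with L1 ≤ s0 ≤ L2 if c' (g n) ≠ 0 and σ n = 1 otherwise. s0 | g n implies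
s0/(s0,g) | (g/(s0,g)) n, and s0/(s0,g) is coprime to g/(s0,g), so σ n | n. σ n ≥ s0/g ≥ L1/g, σ n ≤ s0 ≤ L2. -/
def PslStmt : Prop := ∀ (g : ℕ) (L1 L2 : ℝ) (c' : ℕ → ℝ), 1 ≤ g →
  (∀ d, c' d ≠ 0 → Squarefree d ∧ ∃ s : ℕ, s ∣ d ∧ L1 ≤ s ∧ (s : ℝ) ≤ L2) →
  ∃ σ : ℕ → ℕ, ∀ n, 1 ≤ n → c' (g * n) ≠ 0 → σ n ∣ n ∧ L1 / g ≤ (σ n : ℝ) ∧ (σ n : ℝ) ≤ L2

/-- Module Pdy (theorem tPdy; dyadic decomposition of the divisors). Uses: nothing.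
Proof. P = Q/g ≥ 1 (g ≤ Q), 2Q/g ≤ 2P + 1 ≤ 3P. Fix h. P^2 pg(..) = ∑_{m ∈ Ioc P (2Q/g)} ∑_{n ∈ Ioc P (2Q/g), (m,n)=1} (c(gm) P/m)(c'(gn) P/n) eB. Only n with
c'(g n) ≠ 0 matter; put s = σ n, r = n/s, s ≥ 2; j = Nat.clog 2 s - 1 is the unique j with 2^j < s ≤ 2^(j+1); 2^j < s ≤ n ≤ 3P, so j < J (J with 3P ≤ 2^J).
For fixed j, S = 2^j, the map n ↦ (n/σ n, σ n) is a bijection from the n ∈ Ioc P (2Q/g) with c'(gn) ≠ 0 and S < σ n ≤ 2S onto the pairs (r, s), r ∈ Icc 1 (3P/S), s ∈ Ioc S (2S)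
with be ≠ 0 or at least with the condition of be (r S < r s = n ≤ 3P, so r ≤ 3P/S; conversely n = r s), and n = r s. In Tf the terms with m outside (P, 2Q/g] vanish
(al = 0), Ioc P (2Q/g) ⊆ Ioc P (3P). The terms agree: α m β r s eB(hθ)(hτ) m (r s). Sum over h. -/
def PdyStmt : Prop := ∀ (Q g H J : ℕ) (c c' : ℕ → ℝ) (σ : ℕ → ℕ) (θ : ℤ) (τ : ℝ), 1 ≤ g → g ≤ Q → 3 * (Q / g) ≤ 2 ^ J →
  (∀ n, 1 ≤ n → c' (g * n) ≠ 0 → σ n ∣ n ∧ 2 ≤ σ n) →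
  (((Q / g : ℕ) : ℂ)) ^ 2 * Pf Q g H c c' θ τ =
    ∑ j ∈ range J, Tf (Q / g) (2 ^ j) H (al Q g c) (be Q g c' σ) θ τ

/-- Module Pgt (theorem tPgt). FINAL STATEMENT PgtStmt (TN/Stmts.lean). Uses: TriStmt, PslStmt, PdyStmt.
Proof. P = Q/g ≥ 1. σ from PslStmt; σ n ≥ L1/g ≥ 4 for c'(gn) ≠ 0 (4 g ≤ L1), so σ n ≥ 2. J with 2^(J-1) < 3P ≤ 2^J (Nat.clog 2 (3P)), J ≤ 2 + log(3P)/log 2 ≤
C P^ε'. PdyStmt: P^2 ‖Pf‖ ≤ ∑_{j < J} ‖Tf_j‖. For j: if be = 0 for all (r, s) with s ∈ Ioc S (2S), S = 2^j, then Tf_j = 0. Otherwise there is n with S < σ n ≤ 2S, c'(gn) ≠ 0: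
S < σ n ≤ L2 ≤ P and S ≥ σ n/2 ≥ L1/(2g). TriStmt for (P, S, H, α, β', θ, τ) with β' r s = be r s if S < s, s ≤ 2S, else 0 (or be directly: its hypotheses hold for all r s:
be ≠ 0 → P < r s ≤ 2Q/g ≤ 3P and r s is squarefree as a divisor of the squarefree number g (r s)); |α|, |β| ≤ 1 because P < m, P < r s. So
‖Tf_j‖ ≤ C (P H|θ|)^ε' V ((P^4 H/S)^(1/2) + H (P^(7/2) S^(1/2))^(1/2)) ≤ C (P H|θ|)^ε' V P^2 ((2 H g/L1)^(1/2) + H (L2/P)^(1/4)) (P^(7/4) S^(1/4) = P^2 (S/P)^(1/4)).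
Divide by P^2, sum over J values of j, P ≤ Q, ε' = ε/2. -/
def PgtStmt' : Prop := PgtStmt

end Pool.Agent.Lib.TN
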