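import Pool.Agent.Lib.TN.SpecGf

namespace Pool.Agent.Lib.TN

open Finset Pool.Agent.Lib.EH3 Pool.Agent.Lib.TB

private theorem F1_one (Q Q2 g : ℕ) (hg : 1 ≤ g) (f : ℕ → ℕ → ℂ) :
    ∑ p ∈ (Ioc Q (2 * Q) ×ˢ Ioc Q2 (2 * Q2)).filter (fun p => Nat.gcd p.1 p.2 = g), f p.1 p.2 =
      pg2 Q Q2 g (fun m n => f (g * m) (g * n)) := by
  unfold pg2
  rw [Finset.sum_sigma']
  symm
  refine Finset.sum_bij (fun (x : (_ : ℕ) × ℕ) _ => (g * x.1, g * x.2)) ?_ ?_ ?_ ?_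
  · intro x hx
    simp only [mem_sigma, mem_filter, mem_Ioc] at hx
    simp only [mem_filter, mem_product, mem_Ioc]
    obtain ⟨⟨h1, h2⟩, ⟨h3, h4⟩, h5⟩ := hx
    have e1 : ∀ Q y, Q / g < y → Q < g * y := by
      intro Q y hy
      rw [Nat.div_lt_iff_lt_mul (by omega)] at hy
      rwa [mul_comm]
    have e2 : ∀ Q y, y ≤ 2 * Q / g → g * y ≤ 2 * Q := by
      intro Q y hy
      rw [Nat.le_div_iff_mul_le (by omega)] at hy
      rwa [mul_comm]
    refine ⟨⟨⟨e1 _ _ h1, e2 _ _ h2⟩, e1 _ _ h3, e2 _ _ h4⟩, ?_⟩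
    rw [Nat.gcd_mul_left, h5.gcd_eq_one, mul_one]
  · intro x _ y _ hxy
    simp only [Prod.mk.injEq] at hxy
    have a1 := Nat.eq_of_mul_eq_mul_left (by omega : 0 < g) hxy.1
    have a2 := Nat.eq_of_mul_eq_mul_left (by omega : 0 < g) hxy.2
    cases x; cases y
    simp only at a1 a2
    subst a1 a2
    rfl
  · intro p hp
    simp only [mem_filter, mem_product, mem_Ioc] at hp
    obtain ⟨⟨⟨h1, h2⟩, h3, h4⟩, h5⟩ := hp
    obtain ⟨m, hm⟩ : g ∣ p.1 := h5 ▸ Nat.gcd_dvd_left _ _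
    obtain ⟨n, hn⟩ : g ∣ p.2 := h5 ▸ Nat.gcd_dvd_right _ _
    refine ⟨⟨m, n⟩, ?_, ?_⟩
    · simp only [mem_sigma, mem_filter, mem_Ioc]
      rw [hm] at h1 h2
      rw [hn] at h3 h4
      rw [hm, hn, Nat.gcd_mul_left] at h5
      have h6 : Nat.gcd m n = 1 := by
        have : g * Nat.gcd m n = g * 1 := by rw [h5, mul_one]
        exact Nat.eq_of_mul_eq_mul_left (by omega) this
      refine ⟨⟨?_, ?_⟩, ⟨?_, ?_⟩, h6⟩
      · rw [Nat.div_lt_iff_lt_mul (by omega)]; rwa [mul_comm]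
      · rw [Nat.le_div_iff_mul_le (by omega)]; rwa [mul_comm]
      · rw [Nat.div_lt_iff_lt_mul (by omega)]; rwa [mul_comm]
      · rw [Nat.le_div_iff_mul_le (by omega)]; rwa [mul_comm]
    · simp only
      rw [← hm, ← hn]
  · intro x _
    rfl

theorem tF1 : SF1 := by
  intro Q Q2 f
  rw [← Finset.sum_product']
  rw [← Finset.sum_fiberwise_of_maps_to (s := Ioc Q (2 * Q) ×ˢ Ioc Q2 (2 * Q2)) (t := Icc 1 (2 * Q2))
    (g := fun p => Nat.gcd p.1 p.2)]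
  · refine Finset.sum_congr rfl fun g hg => ?_
    rw [mem_Icc] at hg
    exact F1_one Q Q2 g hg.1 f
  · intro p hp
    simp only [mem_product, mem_Ioc] at hp
    rw [mem_Icc]
    constructor
    · exact Nat.gcd_pos_of_pos_left _ (by omega)
    · exact (Nat.le_of_dvd (by omega) (Nat.gcd_dvd_right _ _)).trans hp.2.2

end Pool.Agent.Lib.TN
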