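import Pool.Agent.Lib.TN.SpecGf

/-!
MP_00e23e_nt, directory Lib/TN, module F2 (helper23): the trivial bound for one greatest common divisor, with the
congruence f | n and two blocks.
-/

namespace Pool.Agent.Lib.TN

open Finset Pool.Agent.Lib.EH3 Pool.Agent.Lib.TB

/-- the count with the weight is nonnegative -/
private theorem F2_ss (h1 : WbStmt) (N j f u w : ℕ) (a b : ℤ) (hN : 1 ≤ N) : 0 ≤ SSG N j f u w a b := by
  unfold SSG
  refine Finset.sum_nonneg fun n _ => mul_nonneg ((h1 N j hN).1 n) ?_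
  split_ifs
  · exact zero_le_one
  · exact le_refl 0

/-- the main term of one pair -/
private theorem F2_mm (N Q Q2 g m n : ℕ) (a b : ℤ) (hQ : 1 ≤ Q) (hQ2 : 1 ≤ Q2) (hg : 1 ≤ g) (hm : Q / g < m)
    (hn : Q2 / g < n) (hmn : m.Coprime n) :
    0 ≤ MM N (g * m) (g * n) a b ∧ MM N (g * m) (g * n) a b ≤ (N : ℝ) * g / ((Q : ℝ) * Q2) := by
  have hQR : (0 : ℝ) < Q := by exact_mod_cast hQ
  have hQ2R : (0 : ℝ) < Q2 := by exact_mod_cast hQ2
  have hb0 : 0 ≤ (N : ℝ) * g / ((Q : ℝ) * Q2) := by positivity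
  have hm1 : Q < g * m := by
    have := (Nat.div_lt_iff_lt_mul hg).1 hm
    rwa [mul_comm] at this
  have hn1 : Q2 < g * n := by
    have := (Nat.div_lt_iff_lt_mul hg).1 hn
    rwa [mul_comm] at this
  have hgcd : Nat.gcd (g * m) (g * n) = g := by
    rw [Nat.gcd_mul_left, hmn, mul_one]
  have hmR : (Q : ℝ) < ((g * m : ℕ) : ℝ) := by exact_mod_cast hm1
  have hnR : (Q2 : ℝ) < ((g * n : ℕ) : ℝ) := by exact_mod_cast hn1
  unfold MM
  rw [hgcd]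
  split_ifs with hd
  · refine ⟨by positivity, ?_⟩
    refine div_le_div_of_nonneg_left (by positivity) (by positivity) ?_
    exact mul_le_mul hmR.le hnR.le hQ2R.le (hQR.trans hmR).le
  · exact ⟨le_refl 0, hb0⟩

/-- one pair -/
private theorem F2_pair (h1 : WbStmt) (N j Q Q2 f g : ℕ) (c c' : ℕ → ℝ) (a b : ℤ) (hN : 1 ≤ N) (hQ : 1 ≤ Q)
    (hQ2 : 1 ≤ Q2) (hf : 1 ≤ f) (hg : 1 ≤ g) (hc : ∀ d, |c d| ≤ 1) (hc' : ∀ d, |c' d| ≤ 1) {m n : ℕ}
    (hm : Q / g < m) (hn : Q2 / g < n) (hmn : m.Coprime n) :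
    ‖fEG N j f g c c' a b m n‖ ≤ SSG N j f (g * m) (g * n) a b + (N : ℝ) * g / ((Q : ℝ) * Q2) := by
  have hs := F2_ss h1 N j f (g * m) (g * n) a b hN
  obtain ⟨hm0, hm1⟩ := F2_mm N Q Q2 g m n a b hQ hQ2 hg hm hn hmn
  have hfR : (1 : ℝ) ≤ f := by exact_mod_cast hf
  have hm2 : 0 ≤ MM N (g * m) (g * n) a b / f := div_nonneg hm0 (by linarith)
  have hm3 : MM N (g * m) (g * n) a b / f ≤ MM N (g * m) (g * n) a b := div_le_self hm0 hfR
  unfold fEG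
  rw [Complex.norm_real, Real.norm_eq_abs, abs_mul, abs_mul]
  have h6 : |c (g * m)| * |c' (g * n)| ≤ 1 := mul_le_one₀ (hc _) (abs_nonneg _) (hc' _)
  have h7 : |SSG N j f (g * m) (g * n) a b - MM N (g * m) (g * n) a b / f| ≤
      SSG N j f (g * m) (g * n) a b + MM N (g * m) (g * n) a b := by
    rw [abs_le]
    constructor <;> linarith
  calc |c (g * m)| * |c' (g * n)| * |SSG N j f (g * m) (g * n) a b - MM N (g * m) (g * n) a b / f|
      ≤ 1 * |SSG N j f (g * m) (g * n) a b - MM N (g * m) (g * n) a b / f| :=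
        mul_le_mul_of_nonneg_right h6 (abs_nonneg _)
    _ ≤ _ := by
        rw [one_mul]
        linarith

/-- the number of indices -/
private theorem F2_card (Q g : ℕ) : (((Ioc (Q / g) (2 * Q / g)).card : ℕ) : ℝ) ≤ 2 * (Q : ℝ) / g := by
  rw [Nat.card_Ioc]
  have h1 : (((2 * Q / g - Q / g : ℕ)) : ℝ) ≤ ((2 * Q / g : ℕ) : ℝ) := by
    exact_mod_cast Nat.sub_le _ _
  have h2 : ((2 * Q / g : ℕ) : ℝ) ≤ ((2 * Q : ℕ) : ℝ) / g := Nat.cast_div_le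
  push_cast at h2
  exact h1.trans h2

/-- the sum of the bounds over the pairs -/
private theorem F2_sum (h1 : WbStmt) (N j Q Q2 f g : ℕ) (c c' : ℕ → ℝ) (a b : ℤ) (hN : 1 ≤ N) (hQ : 1 ≤ Q)
    (hQ2 : 1 ≤ Q2) (hf : 1 ≤ f) (hg : 1 ≤ g) (hc : ∀ d, |c d| ≤ 1) (hc' : ∀ d, |c' d| ≤ 1) :
    ‖pg2 Q Q2 g (fEG N j f g c c' a b)‖ ≤
      (∑ m ∈ Ioc (Q / g) (2 * Q / g), ∑ n ∈ Ioc (Q2 / g) (2 * Q2 / g), SSG N j f (g * m) (g * n) a b) +
        4 * ((N : ℝ) / g) := by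
  have hgR : (0 : ℝ) < g := by exact_mod_cast hg
  have hQR : (0 : ℝ) < Q := by exact_mod_cast hQ
  have hQ2R : (0 : ℝ) < Q2 := by exact_mod_cast hQ2
  set B : ℝ := (N : ℝ) * g / ((Q : ℝ) * Q2) with hB
  have hB0 : 0 ≤ B := by positivity
  have hcard := F2_card Q g
  have hcard2 := F2_card Q2 g
  unfold pg2
  have h2 : ∀ m ∈ Ioc (Q / g) (2 * Q / g),
      ‖∑ n ∈ (Ioc (Q2 / g) (2 * Q2 / g)).filter (fun n => m.Coprime n), fEG N j f g c c' a b m n‖ ≤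
        (∑ n ∈ Ioc (Q2 / g) (2 * Q2 / g), SSG N j f (g * m) (g * n) a b) + 2 * (Q2 : ℝ) / g * B := by
    intro m hm
    refine (norm_sum_le _ _).trans ?_
    have h3 : ∀ n ∈ (Ioc (Q2 / g) (2 * Q2 / g)).filter (fun n => m.Coprime n),
        ‖fEG N j f g c c' a b m n‖ ≤ SSG N j f (g * m) (g * n) a b + B := by
      intro n hn
      rw [mem_filter, mem_Ioc] at hn
      exact F2_pair h1 N j Q Q2 f g c c' a b hN hQ hQ2 hf hg hc hc' (mem_Ioc.1 hm).1 hn.1.1 hn.2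
    refine (Finset.sum_le_sum h3).trans ?_
    have h4 : ∑ n ∈ (Ioc (Q2 / g) (2 * Q2 / g)).filter (fun n => m.Coprime n),
        (SSG N j f (g * m) (g * n) a b + B) ≤
        ∑ n ∈ Ioc (Q2 / g) (2 * Q2 / g), (SSG N j f (g * m) (g * n) a b + B) := by
      refine Finset.sum_le_sum_of_subset_of_nonneg (Finset.filter_subset _ _) fun n _ _ => ?_
      have := F2_ss h1 N j f (g * m) (g * n) a b hN
      linarith
    refine h4.trans ?_
    rw [Finset.sum_add_distrib, Finset.sum_const, nsmul_eq_mul]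
    have h5 : (((Ioc (Q2 / g) (2 * Q2 / g)).card : ℕ) : ℝ) * B ≤ 2 * (Q2 : ℝ) / g * B :=
      mul_le_mul_of_nonneg_right hcard2 hB0
    linarith
  refine (norm_sum_le _ _).trans ((Finset.sum_le_sum h2).trans ?_)
  rw [Finset.sum_add_distrib, Finset.sum_const, nsmul_eq_mul]
  have h6 : (((Ioc (Q / g) (2 * Q / g)).card : ℕ) : ℝ) * (2 * (Q2 : ℝ) / g * B) ≤
      2 * (Q : ℝ) / g * (2 * (Q2 : ℝ) / g * B) :=
    mul_le_mul_of_nonneg_right hcard (by positivity)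
  have h7 : 2 * (Q : ℝ) / g * (2 * (Q2 : ℝ) / g * B) = 4 * ((N : ℝ) / g) := by
    rw [hB]
    field_simp
    ring
  linarith

theorem tF2 (h1 : WbStmt) (h2 : SF2a) : SF2 := by
  intro ε j hε
  obtain ⟨C, hC0, hC⟩ := h2 ε j hε
  refine ⟨C + 4, by linarith, ?_⟩
  intro N Q Q2 f g c c' a b hN hQ hQ2 hf hg hc hc' hab ha hb
  have hgR : (0 : ℝ) < g := by exact_mod_cast hg
  have hNR : (1 : ℝ) ≤ N := by exact_mod_cast hN
  have hQR : (0 : ℝ) ≤ Q := Nat.cast_nonneg _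
  have hQ2R : (0 : ℝ) ≤ Q2 := Nat.cast_nonneg _
  have hs := hC N Q Q2 f g a b hN hQ hQ2 hf hg hab ha hb
  have hp : (1 : ℝ) ≤ (N : ℝ) ^ ε := Real.one_le_rpow hNR hε.le
  have hd0 : (0 : ℝ) ≤ (N : ℝ) / g := by positivity
  refine (F2_sum h1 N j Q Q2 f g c c' a b hN hQ hQ2 hf hg hc hc').trans ?_
  have h8 : 4 * ((N : ℝ) / g) ≤ 4 * ((N : ℝ) ^ ε * ((N : ℝ) / g + Q + Q2 + 1)) := by
    have h9 : (N : ℝ) / g ≤ (N : ℝ) ^ ε * ((N : ℝ) / g + Q + Q2 + 1) := by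
      have h10 : (N : ℝ) / g + Q + Q2 + 1 ≤ (N : ℝ) ^ ε * ((N : ℝ) / g + Q + Q2 + 1) :=
        le_mul_of_one_le_left (by linarith) hp
      linarith
    linarith
  calc (∑ m ∈ Ioc (Q / g) (2 * Q / g), ∑ n ∈ Ioc (Q2 / g) (2 * Q2 / g), SSG N j f (g * m) (g * n) a b) +
        4 * ((N : ℝ) / g)
      ≤ C * (N : ℝ) ^ ε * ((N : ℝ) / g + Q + Q2 + 1) + 4 * ((N : ℝ) ^ ε * ((N : ℝ) / g + Q + Q2 + 1)) := by
        linarith
    _ = (C + 4) * (N : ℝ) ^ ε * ((N : ℝ) / g + Q + Q2 + 1) := by ring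

end Pool.Agent.Lib.TN
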