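import Pool.Agent.Lib.TN.SpecGf

/-!
MP_00e23e_nt, directory Lib/TN, module F2a: the sum of the counts over the pairs, two blocks.
-/

namespace Pool.Agent.Lib.TN

open Finset Pool.Agent.Lib.EH3 Pool.Agent.Lib.TB

private lemma F2a_count (N q : ℕ) (ν : ℤ) (hq : 1 ≤ q) :
    (((Icc (-(N : ℤ)) N).filter (fun n => (q : ℤ) ∣ n - ν)).card : ℝ) ≤ (2 * (N : ℝ) + 1) / q + 1 := by
  have hq0 : (0 : ℤ) < (q : ℤ) := by exact_mod_cast hq
  have hsub : (Icc (-(N : ℤ)) N).filter (fun n => (q : ℤ) ∣ n - ν) ⊆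
      (Ioc (-(N : ℤ) - 1) N).filter (fun n => n ≡ ν [ZMOD (q : ℤ)]) := by
    intro n hn
    rw [mem_filter, mem_Icc] at hn
    rw [mem_filter, mem_Ioc]
    refine ⟨⟨by omega, hn.1.2⟩, ?_⟩
    exact (Int.modEq_iff_dvd.2 (by
      have h := hn.2
      rwa [← dvd_neg, neg_sub] at h))
  have h1 := Finset.card_le_card hsub
  have h2 := Int.Ioc_filter_modEq_card (-(N : ℤ) - 1) (N : ℤ) hq0 ν
  have h3 : (((Ioc (-(N : ℤ) - 1) (N : ℤ)).filter (fun n => n ≡ ν [ZMOD (q : ℤ)])).card : ℤ) ≤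
      max (⌊(((N : ℤ) : ℚ) - ν) / (q : ℤ)⌋ - ⌊((((-(N : ℤ) - 1 : ℤ)) : ℚ) - ν) / (q : ℤ)⌋) 0 := by
    rw [h2]
  have hqQ : (0 : ℚ) < (q : ℚ) := by exact_mod_cast hq
  have h4 : (((Ioc (-(N : ℤ) - 1) (N : ℤ)).filter (fun n => n ≡ ν [ZMOD (q : ℤ)])).card : ℚ) ≤
      (2 * (N : ℚ) + 1) / q + 1 := by
    have h5 : (((Ioc (-(N : ℤ) - 1) (N : ℤ)).filter (fun n => n ≡ ν [ZMOD (q : ℤ)])).card : ℚ) ≤
        ((max (⌊(((N : ℤ) : ℚ) - ν) / (q : ℤ)⌋ - ⌊((((-(N : ℤ) - 1 : ℤ)) : ℚ) - ν) / (q : ℤ)⌋) 0 : ℤ) : ℚ) := by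
      exact_mod_cast h3
    refine h5.trans ?_
    rw [Int.cast_max]
    refine max_le ?_ ?_
    · rw [Int.cast_sub]
      have a1 := Int.floor_le ((((N : ℤ) : ℚ) - ν) / (q : ℤ))
      have a2 := Int.lt_floor_add_one (((((-(N : ℤ) - 1 : ℤ)) : ℚ) - ν) / (q : ℤ))
      have a3 : (((N : ℤ) : ℚ) - ν) / (q : ℤ) - ((((-(N : ℤ) - 1 : ℤ)) : ℚ) - ν) / (q : ℤ) =
          (2 * (N : ℚ) + 1) / q := by
        push_cast
        field_simp
        ring
      linarith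
    · rw [Int.cast_zero]
      positivity
  have h6 : (((Icc (-(N : ℤ)) N).filter (fun n => (q : ℤ) ∣ n - ν)).card : ℚ) ≤
      (2 * (N : ℚ) + 1) / q + 1 := le_trans (by exact_mod_cast h1) h4
  have h7 : ((((Icc (-(N : ℤ)) N).filter (fun n => (q : ℤ) ∣ n - ν)).card : ℚ) : ℝ) ≤
      (((2 * (N : ℚ) + 1) / q + 1 : ℚ) : ℝ) := by exact_mod_cast h6
  simpa using h7

/-- the number of multiples `g m` which divide `x` -/
private noncomputable def F2a_A (Q g : ℕ) (x : ℤ) : ℝ :=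
  (((Ioc (Q / g) (2 * Q / g)).filter (fun m => ((g * m : ℕ) : ℤ) ∣ x)).card : ℝ)

private lemma F2a_exch (N j Q Q2 g : ℕ) (a b : ℤ) :
    ∑ m ∈ Ioc (Q / g) (2 * Q / g), ∑ n ∈ Ioc (Q2 / g) (2 * Q2 / g), SSN N j (g * m) (g * n) a b =
      ∑ t ∈ Iw N j, wt N j t * (F2a_A Q g (t - a) * F2a_A Q2 g (t - b)) := by
  have h1 : ∀ t : ℤ, F2a_A Q g (t - a) * F2a_A Q2 g (t - b) =
      ∑ m ∈ Ioc (Q / g) (2 * Q / g), ∑ n ∈ Ioc (Q2 / g) (2 * Q2 / g),
        (if ((g * m : ℕ) : ℤ) ∣ t - a ∧ ((g * n : ℕ) : ℤ) ∣ t - b then (1 : ℝ) else 0) := by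
    intro t
    unfold F2a_A
    rw [← Finset.sum_boole, ← Finset.sum_boole, Finset.sum_mul_sum]
    refine sum_congr rfl fun m _ => sum_congr rfl fun n _ => ?_
    by_cases h : ((g * m : ℕ) : ℤ) ∣ t - a
    · by_cases h' : ((g * n : ℕ) : ℤ) ∣ t - b
      · rw [if_pos h, if_pos h', if_pos ⟨h, h'⟩, mul_one]
      · have hn : ¬ (((g * m : ℕ) : ℤ) ∣ t - a ∧ ((g * n : ℕ) : ℤ) ∣ t - b) := fun hh => h' hh.2
        rw [if_neg h', if_neg hn, mul_zero]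
    · have hn : ¬ (((g * m : ℕ) : ℤ) ∣ t - a ∧ ((g * n : ℕ) : ℤ) ∣ t - b) := fun hh => h hh.1
      rw [if_neg h, if_neg hn, zero_mul]
  unfold SSN
  calc _ = ∑ m ∈ Ioc (Q / g) (2 * Q / g), ∑ t ∈ Iw N j, ∑ n ∈ Ioc (Q2 / g) (2 * Q2 / g),
        wt N j t * (if ((g * m : ℕ) : ℤ) ∣ t - a ∧ ((g * n : ℕ) : ℤ) ∣ t - b then (1 : ℝ) else 0) :=
        sum_congr rfl fun m _ => sum_comm
    _ = ∑ t ∈ Iw N j, ∑ m ∈ Ioc (Q / g) (2 * Q / g), ∑ n ∈ Ioc (Q2 / g) (2 * Q2 / g),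
        wt N j t * (if ((g * m : ℕ) : ℤ) ∣ t - a ∧ ((g * n : ℕ) : ℤ) ∣ t - b then (1 : ℝ) else 0) :=
        sum_comm
    _ = _ := by
        refine sum_congr rfl fun t _ => ?_
        rw [h1, mul_sum]
        refine sum_congr rfl fun m _ => ?_
        rw [mul_sum]

private lemma F2a_mono (N j f u w : ℕ) (a b : ℤ) (hw : ∀ n, 0 ≤ wt N j n) :
    SSG N j f u w a b ≤ SSN N j u w a b := by
  unfold SSG SSN
  refine sum_le_sum fun t _ => mul_le_mul_of_nonneg_left ?_ (hw t)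
  by_cases h : (u : ℤ) ∣ t - a ∧ (w : ℤ) ∣ t - b
  · rw [if_pos h]
    split_ifs <;> norm_num
  · rw [if_neg h, if_neg (fun hh => h hh.2)]

private lemma F2a_nonneg (Q g : ℕ) (x : ℤ) : 0 ≤ F2a_A Q g x := Nat.cast_nonneg _

private lemma F2a_le (Q g : ℕ) (x : ℤ) : F2a_A Q g x ≤ 2 * (Q : ℝ) := by
  unfold F2a_A
  have h1 : ((Ioc (Q / g) (2 * Q / g)).filter (fun m => ((g * m : ℕ) : ℤ) ∣ x)).card ≤ 2 * Q := by
    refine (card_filter_le _ _).trans ?_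
    rw [Nat.card_Ioc]
    exact (Nat.sub_le _ _).trans (Nat.div_le_self _ _)
  exact_mod_cast h1

private lemma F2a_zero (Q g : ℕ) (x : ℤ) (hx : ¬ ((g : ℤ) ∣ x)) : F2a_A Q g x = 0 := by
  unfold F2a_A
  rw [filter_eq_empty_iff.2, card_empty, Nat.cast_zero]
  intro m _ h
  apply hx
  refine dvd_trans ?_ h
  push_cast
  exact dvd_mul_right _ _

private lemma F2a_div (Q g : ℕ) (x : ℤ) (hg : 1 ≤ g) (hx : x ≠ 0) :
    F2a_A Q g x ≤ (x.natAbs.divisors.card : ℝ) := by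
  unfold F2a_A
  have h1 : ((Ioc (Q / g) (2 * Q / g)).filter (fun m => ((g * m : ℕ) : ℤ) ∣ x)).card ≤
      x.natAbs.divisors.card := by
    refine card_le_card_of_injOn (fun m => g * m) ?_ ?_
    · intro m hm
      have h2 := (mem_filter.1 (Finset.mem_coe.1 hm)).2
      rw [Finset.mem_coe, Nat.mem_divisors]
      exact ⟨Int.natCast_dvd.1 h2, Int.natAbs_ne_zero.2 hx⟩
    · intro m _ m' _ h
      exact Nat.eq_of_mul_eq_mul_left (by omega) h
  exact_mod_cast h1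

theorem tF2a (h1 : WbStmt) (h2 : TauMStmt) : SF2a := by
  intro ε j hε
  obtain ⟨C1, hC1, hT⟩ := h2 (ε / 2) (by positivity)
  have hC : 1 ≤ C1 := by
    have h := hT 1 le_rfl
    simpa using h
  refine ⟨C1 ^ 2 * ((j : ℝ) + 2) ^ ε * (3 * ((j : ℝ) + 1) + 4), by positivity, ?_⟩
  intro N Q Q2 f g a b hN hQ hQ2 _ hg hab ha hb
  obtain ⟨w1, w2, -, -⟩ := h1 N j hN
  have hN1 : (1 : ℝ) ≤ N := by exact_mod_cast hN
  have hQ1 : (1 : ℝ) ≤ Q := by exact_mod_cast hQ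
  have hQ21 : (1 : ℝ) ≤ Q2 := by exact_mod_cast hQ2
  have hg1 : (1 : ℝ) ≤ g := by exact_mod_cast hg
  set D : ℝ := C1 * (((j : ℝ) + 2) * N) ^ (ε / 2) with hD
  have hM1 : (1 : ℝ) ≤ ((j : ℝ) + 2) * N := by
    have hj : (0 : ℝ) ≤ j := Nat.cast_nonneg j
    nlinarith
  have hD1 : 1 ≤ D := by
    have h := Real.one_le_rpow hM1 (by positivity : 0 ≤ ε / 2)
    rw [hD]
    nlinarith
  have hA : ∀ (R : ℕ) (x : ℤ), x ≠ 0 → |x| ≤ ((((j + 2) * N : ℕ)) : ℤ) → F2a_A R g x ≤ D := by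
    intro R x hx hx'
    refine (F2a_div R g x hg hx).trans ?_
    have h3 : 1 ≤ x.natAbs := Nat.one_le_iff_ne_zero.2 (Int.natAbs_ne_zero.2 hx)
    refine (hT _ h3).trans ?_
    rw [hD]
    refine mul_le_mul_of_nonneg_left ?_ hC1.le
    refine Real.rpow_le_rpow (Nat.cast_nonneg _) ?_ (by positivity)
    have h4 : x.natAbs ≤ (j + 2) * N := by
      have h5 : ((x.natAbs : ℕ) : ℤ) ≤ ((((j + 2) * N : ℕ)) : ℤ) := by
        rw [Int.natCast_natAbs]
        exact hx'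
      exact_mod_cast h5
    exact_mod_cast h4
  refine (sum_le_sum fun m _ => sum_le_sum fun n _ => F2a_mono N j f (g * m) (g * n) a b w1).trans ?_
  rw [F2a_exch]
  have hterm : ∀ t ∈ Iw N j, wt N j t * (F2a_A Q g (t - a) * F2a_A Q2 g (t - b)) ≤
      (if t = a then 2 * (Q : ℝ) * D else 0) + (if t = b then 2 * (Q2 : ℝ) * D else 0) +
        D ^ 2 * (if (g : ℤ) ∣ t - a then 1 else 0) := by
    intro t ht
    rw [Iw, mem_Icc] at ht
    have e1 : ((((j + 2) * N : ℕ)) : ℤ) = (((j + 1) * N : ℕ) : ℤ) + N := by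
      push_cast
      ring
    have hNj : (N : ℤ) ≤ (((j + 1) * N : ℕ) : ℤ) := by
      push_cast
      nlinarith [Int.natCast_nonneg j, Int.natCast_nonneg N]
    have n1 := F2a_nonneg Q g (t - a)
    have n2 := F2a_nonneg Q2 g (t - b)
    have h3 : wt N j t * (F2a_A Q g (t - a) * F2a_A Q2 g (t - b)) ≤
        F2a_A Q g (t - a) * F2a_A Q2 g (t - b) := by
      have h4 := w2 t
      have h5 : 0 ≤ F2a_A Q g (t - a) * F2a_A Q2 g (t - b) := mul_nonneg n1 n2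
      nlinarith
    refine h3.trans ?_
    have hD0 : 0 ≤ D := zero_le_one.trans hD1
    have hQD : 0 ≤ 2 * (Q : ℝ) * D := by positivity
    have hQD2 : 0 ≤ 2 * (Q2 : ℝ) * D := by positivity
    have p2 : (0 : ℝ) ≤ D ^ 2 * (if (g : ℤ) ∣ t - a then 1 else 0) := by
      split_ifs <;> positivity
    rw [abs_le] at ha hb
    by_cases hta : t = a
    · have hx : F2a_A Q2 g (t - b) ≤ D := by
        refine hA _ _ (by omega) ?_
        rw [abs_le]
        omega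
      have p1 : (0 : ℝ) ≤ (if t = b then 2 * (Q2 : ℝ) * D else 0) := by
        split_ifs <;> positivity
      have hy := F2a_le Q g (t - a)
      have h6 : F2a_A Q g (t - a) * F2a_A Q2 g (t - b) ≤ 2 * (Q : ℝ) * D :=
        mul_le_mul hy hx n2 (by positivity)
      rw [if_pos hta]
      linarith
    · by_cases htb : t = b
      · have hx : F2a_A Q g (t - a) ≤ D := by
          refine hA _ _ (by omega) ?_
          rw [abs_le]
          omega
        have hy := F2a_le Q2 g (t - b)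
        have h6 : F2a_A Q g (t - a) * F2a_A Q2 g (t - b) ≤ D * (2 * (Q2 : ℝ)) :=
          mul_le_mul hx hy n2 hD0
        rw [if_neg hta, if_pos htb]
        linarith
      · rw [if_neg hta, if_neg htb, zero_add, zero_add]
        by_cases hdv : (g : ℤ) ∣ t - a
        · rw [if_pos hdv, mul_one, sq]
          refine mul_le_mul (hA _ _ (by omega) ?_) (hA _ _ (by omega) ?_) n2 hD0
          · rw [abs_le]
            omega
          · rw [abs_le]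
            omega
        · rw [if_neg hdv, F2a_zero Q g _ hdv, zero_mul, mul_zero]
  refine (sum_le_sum hterm).trans ?_
  rw [sum_add_distrib, sum_add_distrib, ← mul_sum, sum_ite_eq', sum_ite_eq', sum_boole]
  have hD0 : 0 ≤ D := zero_le_one.trans hD1
  have hcnt : (((Iw N j).filter (fun n => (g : ℤ) ∣ n - a)).card : ℝ) ≤
      3 * ((j : ℝ) + 1) * (N / g) + 1 := by
    have h := F2a_count ((j + 1) * N) g a hg
    rw [Iw]
    refine h.trans ?_
    have hj : (0 : ℝ) ≤ j := Nat.cast_nonneg j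
    have h4 : (1 : ℝ) ≤ ((j : ℝ) + 1) * N := by nlinarith
    have h5 : (2 * ((((j + 1) * N : ℕ)) : ℝ) + 1) / g ≤ (3 * (((j : ℝ) + 1) * N)) / g := by
      apply div_le_div_of_nonneg_right _ (by linarith)
      push_cast
      linarith
    have h6 : (3 * (((j : ℝ) + 1) * N)) / g = 3 * ((j : ℝ) + 1) * (N / g) := by ring
    linarith
  have q1 : (if a ∈ Iw N j then 2 * (Q : ℝ) * D else 0) ≤ 2 * Q * D ^ 2 := by
    have : 2 * (Q : ℝ) * D ≤ 2 * Q * D ^ 2 := by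
      apply mul_le_mul_of_nonneg_left _ (by positivity)
      nlinarith
    split_ifs
    · exact this
    · positivity
  have q2 : (if b ∈ Iw N j then 2 * (Q2 : ℝ) * D else 0) ≤ 2 * Q2 * D ^ 2 := by
    have : 2 * (Q2 : ℝ) * D ≤ 2 * Q2 * D ^ 2 := by
      apply mul_le_mul_of_nonneg_left _ (by positivity)
      nlinarith
    split_ifs
    · exact this
    · positivity
  have q3 := mul_le_mul_of_nonneg_left hcnt (by positivity : 0 ≤ D ^ 2)
  have hDsq : D ^ 2 = C1 ^ 2 * ((j : ℝ) + 2) ^ ε * (N : ℝ) ^ ε := by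
    rw [hD, mul_pow, ← Real.rpow_natCast (((((j : ℝ) + 2) * N) ^ (ε / 2))) 2, ← Real.rpow_mul (by positivity),
      Real.mul_rpow (by positivity) (by positivity)]
    have : ε / 2 * ((2 : ℕ) : ℝ) = ε := by
      push_cast
      ring
    rw [this]
    ring
  have hNg : 0 ≤ (N : ℝ) / g := by positivity
  have hj : (0 : ℝ) ≤ j := Nat.cast_nonneg j
  calc _ ≤ 2 * (Q : ℝ) * D ^ 2 + 2 * Q2 * D ^ 2 + D ^ 2 * (3 * ((j : ℝ) + 1) * (N / g) + 1) := by
        linarith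
    _ = D ^ 2 * (2 * Q + 2 * Q2 + 3 * ((j : ℝ) + 1) * (N / g) + 1) := by ring
    _ ≤ D ^ 2 * ((3 * ((j : ℝ) + 1) + 4) * ((N : ℝ) / g + Q + Q2 + 1)) := by
        apply mul_le_mul_of_nonneg_left _ (by positivity)
        nlinarith [mul_nonneg hj (zero_le_one.trans hQ1), mul_nonneg hj (zero_le_one.trans hQ21)]
    _ = C1 ^ 2 * ((j : ℝ) + 2) ^ ε * (3 * ((j : ℝ) + 1) + 4) * (N : ℝ) ^ ε * ((N : ℝ) / g + Q + Q2 + 1) := by
        rw [hDsq]
        ring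

end Pool.Agent.Lib.TN
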