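import Pool.Agent.Lib.TN.SpecGf
import Pool.Agent.Lib.TB.Basic

/-!
MP_00e23e_nt, directory Lib/TN (part Gf), module F4: the error term of one pair, with the factor f.
-/

namespace Pool.Agent.Lib.TN

open Finset Pool.Agent.Lib.EH3 Pool.Agent.Lib.TB

private lemma F4_id {f g m n : ℕ} (hf : 1 ≤ f) (hg : 1 ≤ g) (hm : 1 ≤ m) (hn : 1 ≤ n) (h K A B I J v w : ℤ)
    (a t : ℝ) (hA : f * I + J * (g * m * n : ℕ) - 1 = f * (g * m * n : ℕ) * A) (hB : I * v - w = n * B)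
    (aZ : ℤ) (ha : a = (aZ : ℝ)) :
    (h : ℝ) * (a * (J : ℝ) / f) +
        (((h * (-K) : ℤ) : ℝ) * (w : ℝ) / (n : ℝ) + ((h : ℝ) * ((t - a) / ((f : ℝ) * g))) / ((m : ℝ) * n)) =
      (h : ℝ) * (t - (f : ℝ) * I * (a + (g : ℝ) * m * K * v)) / ((f : ℝ) * (g * m * n)) +
        ((h * (aZ * A + K * B) : ℤ) : ℝ) := by
  have h0 : (f : ℝ) ≠ 0 := by positivity
  have h1 : (g : ℝ) ≠ 0 := by positivity
  have h2 : (m : ℝ) ≠ 0 := by positivity
  have h3 : (n : ℝ) ≠ 0 := by positivity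
  have hA' : (f : ℝ) * I + J * (g * m * n) - 1 = f * (g * m * n) * A := by exact_mod_cast hA
  have hB' : (I : ℝ) * v - w = n * B := by exact_mod_cast hB
  subst ha
  have e1 : (h : ℝ) * ((aZ : ℝ) * (J : ℝ) / f) +
        (((h * (-K) : ℤ) : ℝ) * (w : ℝ) / (n : ℝ) + ((h : ℝ) * ((t - aZ) / ((f : ℝ) * g))) / ((m : ℝ) * n)) =
      ((h : ℝ) * aZ * J * (g * m * n) - h * K * w * (f * g * m) + h * (t - aZ)) / ((f : ℝ) * (g * m * n)) := by
    push_cast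
    field_simp
    ring
  have e2 : (h : ℝ) * (t - (f : ℝ) * I * (aZ + (g : ℝ) * m * K * v)) / ((f : ℝ) * (g * m * n)) +
        ((h * (aZ * A + K * B) : ℤ) : ℝ) =
      ((h : ℝ) * (t - (f : ℝ) * I * (aZ + (g : ℝ) * m * K * v)) +
        h * (aZ * A + K * B) * (f * (g * m * n))) / ((f : ℝ) * (g * m * n)) := by
    push_cast
    field_simp
  rw [e1, e2]
  congr 1
  linear_combination (h : ℝ) * aZ * hA' + (h : ℝ) * K * f * g * m * hB'

/-- Module F4: the error term of one pair. -/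
theorem tF4 (h1 : TruncNStmt) (h2 : SsclGStmt) : SF4 := by
  intro N j H f g m n a b hN hH hf hg hm hn hmn hfm hfn hdvd hH2
  obtain ⟨K, hK⟩ := hdvd
  have hg0 : (g : ℤ) ≠ 0 := by positivity
  have hKe : (b - a) / (g : ℤ) = K := by
    rw [hK, Int.mul_ediv_cancel_left _ hg0]
  rw [hKe]
  have hGpos : 1 ≤ g * m * n := Nat.mul_pos (Nat.mul_pos hg hm) hn
  have hfn' : f.Coprime n := Nat.Coprime.of_dvd_right (Dvd.intro_left g rfl) hfn
  have hfG : f.Coprime (g * m * n) := Nat.Coprime.mul_right hfm hfn'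
  have hfmn : (f * m).Coprime n := Nat.Coprime.mul_left hfn' hmn
  set I : ℤ := (iv f (g * m * n) : ℤ) with hI
  set J : ℤ := (iv (g * m * n) f : ℤ) with hJ
  set v : ℤ := (iv m n : ℤ) with hv
  set w : ℤ := (iv (f * m) n : ℤ) with hw
  have hI1 : ((g * m * n : ℕ) : ℤ) ∣ I * f - 1 := iv_dvd hfG hGpos
  have hJ1 : (f : ℤ) ∣ J * ((g * m * n : ℕ) : ℤ) - 1 := iv_dvd hfG.symm hf
  have hv1 : (n : ℤ) ∣ v * m - 1 := iv_dvd hmn hn
  obtain ⟨A, hA⟩ : ((f : ℤ) * ((g * m * n : ℕ) : ℤ)) ∣ f * I + J * ((g * m * n : ℕ) : ℤ) - 1 := by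
    apply IsCoprime.mul_dvd (Nat.isCoprime_iff_coprime.2 hfG)
    · have : (f : ℤ) * I + J * ((g * m * n : ℕ) : ℤ) - 1 = f * I + (J * ((g * m * n : ℕ) : ℤ) - 1) := by ring
      rw [this]
      exact dvd_add (Dvd.intro _ rfl) hJ1
    · have : (f : ℤ) * I + J * ((g * m * n : ℕ) : ℤ) - 1 = (I * f - 1) + J * ((g * m * n : ℕ) : ℤ) := by ring
      rw [this]
      exact dvd_add hI1 (Dvd.intro_left _ rfl)
  obtain ⟨B, hB⟩ : (n : ℤ) ∣ I * v - w := by
    apply iv_unique hfmn hn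
    have hn1 : (n : ℤ) ∣ I * f - 1 := by
      refine dvd_trans ?_ hI1
      exact_mod_cast Dvd.intro_left (g * m) rfl
    have : I * v * ((f * m : ℕ) : ℤ) - 1 = (I * f - 1) * (v * m) + (v * m - 1) := by
      push_cast
      ring
    rw [this]
    exact dvd_add (Dvd.dvd.mul_right hn1 _) hv1
  set ν0 : ℤ := a + (g : ℤ) * m * K * v with hν0
  set ν : ℤ := (f : ℤ) * I * ν0 with hν
  have hq : f * Nat.lcm (g * m) (g * n) = f * (g * m * n) := by
    rw [Nat.lcm_mul_left, hmn.lcm_eq_mul, mul_assoc]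
  have hνν0 : ((g * m * n : ℕ) : ℤ) ∣ ν - ν0 := by
    have : ν - ν0 = (I * f - 1) * ν0 := by
      rw [hν]
      ring
    rw [this]
    exact Dvd.dvd.mul_right hI1 _
  have hd1 : (((g * m : ℕ) : ℤ)) ∣ ν - a := by
    have e1 : ν - a = (ν - ν0) + ((g * m : ℕ) : ℤ) * (K * v) := by
      rw [hν0]
      push_cast
      ring
    rw [e1]
    refine dvd_add (dvd_trans ?_ hνν0) (Dvd.intro _ rfl)
    exact_mod_cast Dvd.intro n rfl
  have hd2 : (((g * n : ℕ) : ℤ)) ∣ ν - b := by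
    obtain ⟨c, hc⟩ := hv1
    have e1 : ν - b = (ν - ν0) + ((g * n : ℕ) : ℤ) * (K * c) := by
      have h3 : ν0 - b = (g : ℤ) * K * (v * m - 1) := by
        rw [hν0]
        linear_combination (-1 : ℤ) * hK
      have h4 : ν - b = (ν - ν0) + (ν0 - b) := by ring
      rw [h4, h3, hc]
      push_cast
      ring
    rw [e1]
    refine dvd_add (dvd_trans ?_ hνν0) (Dvd.intro _ rfl)
    have : g * m * n = (g * n) * m := by ring
    rw [this]
    exact_mod_cast Dvd.intro m rfl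
  have hd0 : (f : ℤ) ∣ ν := by
    rw [hν, mul_assoc]
    exact Dvd.intro _ rfl
  obtain ⟨hS, hM⟩ := h2 N j f (g * m) (g * n) a b ν hf (Nat.mul_pos hg hm) (Nat.mul_pos hg hn) hfm hfn hd0 hd1 hd2
  rw [hS, hM, hq]
  have h4 := h1 N j (f * (g * m * n)) H ν hN (Nat.mul_pos hf hGpos) hH hH2
  have h5 : ((clN N j (f * (g * m * n)) ν - (N : ℝ) / ((f * (g * m * n) : ℕ) : ℝ) : ℝ) : ℂ) =
      ((clN N j (f * (g * m * n)) ν : ℝ) : ℂ) - (N : ℂ) / ((f * (g * m * n) : ℕ) : ℂ) := by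
    push_cast
    rfl
  have h6 : (1 / ((f : ℂ) * (g * m * n))) = (1 / ((f * (g * m * n) : ℕ) : ℂ)) := by
    push_cast
    rfl
  have h7 : ((f : ℝ) * (g * m * n) / ((N : ℝ) * H)) = (((f * (g * m * n) : ℕ) : ℝ) / ((N : ℝ) * H)) := by
    push_cast
    rfl
  have h8 : ∀ (h : ℕ) (t : ℤ),
      ee ((h : ℝ) * ((a : ℝ) * (iv (g * m * n) f : ℝ) / f)) *
          eF f ((h : ℤ) * (-K)) ((h : ℝ) * (((t : ℝ) - a) / ((f : ℝ) * g))) m n =
        ee ((h : ℝ) * ((t : ℝ) - (ν : ℝ)) / ((f * (g * m * n) : ℕ) : ℝ)) ∧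
      ee (-((h : ℝ) * ((a : ℝ) * (iv (g * m * n) f : ℝ) / f))) *
          eF f ((h : ℤ) * K) ((h : ℝ) * (-(((t : ℝ) - a) / ((f : ℝ) * g)))) m n =
        ee (-((h : ℝ) * ((t : ℝ) - (ν : ℝ)) / ((f * (g * m * n) : ℕ) : ℝ))) := by
    intro h t
    have h9 := F4_id hf hg hm hn (h : ℤ) K A B I J v w (a : ℝ) (t : ℝ) hA hB a rfl
    have h10 : (ν : ℝ) = (f : ℝ) * I * ((a : ℝ) + (g : ℝ) * m * K * v) := by
      rw [hν, hν0]
      push_cast
      ring
    have h11 : ((h : ℤ) : ℝ) = (h : ℝ) := by norm_cast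
    have h12 : ((f * (g * m * n) : ℕ) : ℝ) = (f : ℝ) * (g * m * n) := by push_cast; ring
    have h13 : ((J : ℤ) : ℝ) = (iv (g * m * n) f : ℝ) := by rw [hJ]; norm_cast
    have h14 : ((w : ℤ) : ℝ) = (iv (f * m) n : ℝ) := by rw [hw]; norm_cast
    rw [h11, h13, h14, ← h10, ← h12] at h9
    constructor
    · unfold eF
      rw [← ee_add, h9, ee_add_int]
    · unfold eF
      rw [← ee_add]
      have h15 : -((h : ℝ) * ((a : ℝ) * (iv (g * m * n) f : ℝ) / f)) +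
          ((((h : ℤ) * K : ℤ) : ℝ) * (iv (f * m) n : ℝ) / (n : ℝ) +
            ((h : ℝ) * (-(((t : ℝ) - a) / ((f : ℝ) * g)))) / ((m : ℝ) * n)) =
          -((h : ℝ) * ((t : ℝ) - (ν : ℝ)) / ((f * (g * m * n) : ℕ) : ℝ)) +
            ((-((h : ℤ) * (a * A + K * B)) : ℤ) : ℝ) := by
        have h16 : ((-((h : ℤ) * (a * A + K * B)) : ℤ) : ℝ) = -((((h : ℤ) * (a * A + K * B) : ℤ)) : ℝ) := by
          push_cast
          ring
        have h17 : (((h : ℤ) * (-K) : ℤ) : ℝ) = -(((h : ℤ) * K : ℤ) : ℝ) := by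
          push_cast
          ring
        rw [h16]
        rw [h17] at h9
        linear_combination (-1 : ℝ) * h9
      rw [h15, ee_add_int]
  rw [h5, h6, h7]
  refine le_trans (le_of_eq ?_) h4
  congr 2
  refine congrArg _ (Finset.sum_congr rfl fun h _ => Finset.sum_congr rfl fun t _ => ?_)
  rw [(h8 h t).1, (h8 h t).2]

end Pool.Agent.Lib.TN
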