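import Pool.Agent.Lib.TN.SpecGf
import Pool.Agent.Lib.TB.Basic

/-!
MP_00e23e_nt, Lib/TN, module F5: the trilinear form with the factor e(h a iv(g m n, f)/f), by classes modulo f.
-/

namespace Pool.Agent.Lib.TN

open Finset Pool.Agent.Lib.EH3 Pool.Agent.Lib.TB

/-- the coefficients of a class -/
private noncomputable def F5_c (f g : ℕ) (c : ℕ → ℝ) (u d : ℕ) : ℝ :=
  if (d / g) % f = u then c d else 0

private lemma F5_c_le (f g : ℕ) (c : ℕ → ℝ) (hc : ∀ d, |c d| ≤ 1) (u d : ℕ) : |F5_c f g c u d| ≤ 1 := by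
  unfold F5_c
  split_ifs
  · exact hc d
  · simp

private lemma F5_c_ne {f g : ℕ} {c : ℕ → ℝ} {u d : ℕ} (h : F5_c f g c u d ≠ 0) : c d ≠ 0 := by
  unfold F5_c at h
  split_ifs at h
  · exact h
  · exact absurd rfl h

private lemma F5_c_mul {f g : ℕ} (hg : 1 ≤ g) (c : ℕ → ℝ) (u m : ℕ) :
    F5_c f g c u (g * m) = if m % f = u then c (g * m) else 0 := by
  unfold F5_c
  rw [Nat.mul_div_cancel_left m (by omega)]

/-- a double sum over pairs splits by the classes -/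
private lemma F5_split {f g : ℕ} (hf : 1 ≤ f) (hg : 1 ≤ g) (Q Q2 : ℕ) (c c' : ℕ → ℝ)
    (φ : ℕ → ℂ) (F : ℕ → ℕ → ℂ) :
    pg2 Q Q2 g (fun m n => ((c (g * m) * c' (g * n) : ℝ) : ℂ) * (1 / ((m : ℂ) * n)) *
      (φ ((g * (m % f) * (n % f)) % f) * F m n)) =
    ∑ u ∈ range f, ∑ v ∈ range f, φ ((g * u * v) % f) *
      pg2 Q Q2 g (fun m n => ((F5_c f g c u (g * m) * F5_c f g c' v (g * n) : ℝ) : ℂ) *
        (1 / ((m : ℂ) * n)) * F m n) := by
  have h1 : ∀ m n : ℕ, ((c (g * m) * c' (g * n) : ℝ) : ℂ) * (1 / ((m : ℂ) * n)) *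
      (φ ((g * (m % f) * (n % f)) % f) * F m n) =
      ∑ u ∈ range f, ∑ v ∈ range f, φ ((g * u * v) % f) *
        (((F5_c f g c u (g * m) * F5_c f g c' v (g * n) : ℝ) : ℂ) *
        (1 / ((m : ℂ) * n)) * F m n) := by
    intro m n
    rw [Finset.sum_eq_single (m % f)]
    · rw [Finset.sum_eq_single (n % f)]
      · rw [F5_c_mul hg, F5_c_mul hg, if_pos rfl, if_pos rfl]
        ring
      · intro v _ hv
        rw [F5_c_mul hg c' v n, if_neg (Ne.symm hv)]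
        simp
      · intro h
        exact absurd (mem_range.2 (Nat.mod_lt _ (by omega))) h
    · intro u _ hu
      refine Finset.sum_eq_zero fun v _ => ?_
      rw [F5_c_mul hg c u m, if_neg (Ne.symm hu)]
      simp
    · intro h
      exact absurd (mem_range.2 (Nat.mod_lt _ (by omega))) h
  unfold pg2
  simp only [h1]
  simp only [Finset.mul_sum]
  calc _ = ∑ m ∈ Ioc (Q / g) (2 * Q / g), ∑ u ∈ range f, ∑ v ∈ range f,
      ∑ n ∈ (Ioc (Q2 / g) (2 * Q2 / g)).filter (fun n => m.Coprime n), φ ((g * u * v) % f) *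
        (((F5_c f g c u (g * m) * F5_c f g c' v (g * n) : ℝ) : ℂ) *
        (1 / ((m : ℂ) * n)) * F m n) := by
        refine Finset.sum_congr rfl fun m _ => ?_
        rw [Finset.sum_comm]
        refine Finset.sum_congr rfl fun u _ => ?_
        rw [Finset.sum_comm]
    _ = _ := by
        rw [Finset.sum_comm]
        refine Finset.sum_congr rfl fun u _ => ?_
        rw [Finset.sum_comm]

private lemma F5_iv {f g m n : ℕ} :
    iv (g * m * n) f = iv ((g * (m % f) * (n % f)) % f) f := by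
  apply iv_congr
  have h1 : g * m * n ≡ g * (m % f) * (n % f) [MOD f] :=
    Nat.ModEq.mul (Nat.ModEq.mul_left g (Nat.mod_modEq m f).symm) (Nat.mod_modEq n f).symm
  exact h1.trans (Nat.mod_modEq _ _).symm

theorem tF5 (h : PglStmt) : SF5 := by
  intro ε hε
  obtain ⟨C, hC, hB⟩ := h ε hε
  refine ⟨C, hC, ?_⟩
  intro Q Q2 g H f L1 L2 c c' s a θ τ hg hgQ hQQ hH hf hL1 hL12 hL2 hc hc' hcf hc'f hθ
  obtain ⟨B, hBd⟩ : ∃ B, B = C * ((Q : ℝ) * H * |(θ : ℝ)|) ^ ε *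
      (1 + (H : ℝ) * |τ| / (((Q / g : ℕ) : ℝ) * ((Q2 / g : ℕ) : ℝ))) *
      (((H : ℝ) * g / L1) ^ ((1 : ℝ) / 2) + (H : ℝ) * (L2 / ((Q / g : ℕ) : ℝ)) ^ ((1 : ℝ) / 4) +
        (H : ℝ) * ((Q2 / g : ℕ) : ℝ) ^ (-(1 : ℝ) / 4)) := ⟨_, rfl⟩
  have h1 : ∀ h : ℕ, pg2 Q Q2 g (fun m n => ((c (g * m) * c' (g * n) : ℝ) : ℂ) * (1 / ((m : ℂ) * n)) *
      (ee (s * ((h : ℝ) * ((a : ℝ) * (iv (g * m * n) f : ℝ) / f))) *
        eF f ((h : ℤ) * θ) ((h : ℝ) * τ) m n)) =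
      ∑ u ∈ range f, ∑ v ∈ range f,
        ee (s * ((h : ℝ) * ((a : ℝ) * (iv ((g * u * v) % f) f : ℝ) / f))) *
        pg2 Q Q2 g (fun m n => ((F5_c f g c u (g * m) * F5_c f g c' v (g * n) : ℝ) : ℂ) *
          (1 / ((m : ℂ) * n)) * eF f ((h : ℤ) * θ) ((h : ℝ) * τ) m n) := by
    intro h
    have h2 := F5_split (f := f) hf hg Q Q2 c c'
      (fun w => ee (s * ((h : ℝ) * ((a : ℝ) * (iv w f : ℝ) / f))))
      (fun m n => eF f ((h : ℤ) * θ) ((h : ℝ) * τ) m n)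
    rw [← h2]
    unfold pg2
    refine Finset.sum_congr rfl fun m _ => Finset.sum_congr rfl fun n _ => ?_
    dsimp only
    rw [F5_iv]
  rw [Finset.sum_congr rfl (fun h _ => h1 h), Finset.sum_comm]
  have h3 : ∀ u ∈ range f, ‖∑ h ∈ Icc 1 H, ∑ v ∈ range f,
        ee (s * ((h : ℝ) * ((a : ℝ) * (iv ((g * u * v) % f) f : ℝ) / f))) *
        pg2 Q Q2 g (fun m n => ((F5_c f g c u (g * m) * F5_c f g c' v (g * n) : ℝ) : ℂ) *
          (1 / ((m : ℂ) * n)) * eF f ((h : ℤ) * θ) ((h : ℝ) * τ) m n)‖ ≤ f * B := by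
    intro u _
    rw [Finset.sum_comm]
    refine (norm_sum_le _ _).trans ?_
    have h4 : ∀ v ∈ range f, ‖∑ h ∈ Icc 1 H,
        ee (s * ((h : ℝ) * ((a : ℝ) * (iv ((g * u * v) % f) f : ℝ) / f))) *
        pg2 Q Q2 g (fun m n => ((F5_c f g c u (g * m) * F5_c f g c' v (g * n) : ℝ) : ℂ) *
          (1 / ((m : ℂ) * n)) * eF f ((h : ℤ) * θ) ((h : ℝ) * τ) m n)‖ ≤ B := by
      intro v _
      rw [hBd]
      exact hB Q Q2 g H f L1 L2 (F5_c f g c u) (F5_c f g c' v)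
        (fun h => ee (s * ((h : ℝ) * ((a : ℝ) * (iv ((g * u * v) % f) f : ℝ) / f)))) θ τ hg hgQ hQQ hH hf
        hL1 hL12 hL2 (F5_c_le f g c hc u) (F5_c_le f g c' hc' v) (fun h => (norm_ee _).le)
        (fun d hd => by
          obtain ⟨⟨h5, h6⟩, h7⟩ := hc'f d (F5_c_ne hd)
          exact ⟨h5, h7, h6⟩) hθ
    refine (Finset.sum_le_card_nsmul _ _ _ h4).trans ?_
    rw [nsmul_eq_mul, card_range]
  refine (norm_sum_le _ _).trans ((Finset.sum_le_card_nsmul _ _ _ h3).trans ?_)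
  rw [nsmul_eq_mul, card_range, hBd]
  apply le_of_eq
  ring

end Pool.Agent.Lib.TN
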