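import Pool.Agent.Lib.TN.SpecGf
set_option autoImplicit false

/-!
MP_00e23e_nt, directory Lib/TN, module F6: one g dividing b - a, with the congruence f | n and two blocks.
-/

namespace Pool.Agent.Lib.TN

open Finset Pool.Agent.Lib.EH3 Pool.Agent.Lib.TB

/-- the main part of the term of a pair -/
private noncomputable def F6_W (N j H f g : ℕ) (c c' : ℕ → ℝ) (a b : ℤ) (m n : ℕ) : ℂ :=
  ((c (g * m) * c' (g * n) : ℝ) : ℂ) * ((1 / ((f : ℂ) * (g * m * n))) * ∑ h ∈ Icc 1 H,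
    ∑ t ∈ Iw N j, ((wt N j t : ℝ) : ℂ) *
      (ee ((h : ℝ) * ((a : ℝ) * (iv (g * m * n) f : ℝ) / f)) *
          eF f ((h : ℤ) * (-((b - a) / g))) ((h : ℝ) * (((t : ℝ) - a) / ((f : ℝ) * g))) m n +
        ee (-((h : ℝ) * ((a : ℝ) * (iv (g * m * n) f : ℝ) / f))) *
          eF f ((h : ℤ) * ((b - a) / g)) ((h : ℝ) * (-(((t : ℝ) - a) / ((f : ℝ) * g)))) m n))

/-- the summands of the bilinear forms -/
private noncomputable def F6_v (f g : ℕ) (c c' : ℕ → ℝ) (s : ℝ) (a th : ℤ) (vt : ℝ) (h m n : ℕ) : ℂ :=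
  ((c (g * m) * c' (g * n) : ℝ) : ℂ) * (1 / ((m : ℂ) * n)) *
    (ee (s * ((h : ℝ) * ((a : ℝ) * (iv (g * m * n) f : ℝ) / f))) *
      eF f ((h : ℤ) * th) ((h : ℝ) * vt) m n)

private lemma F6_pg_sub (Q Q2 g : ℕ) (f f' : ℕ → ℕ → ℂ) :
    pg2 Q Q2 g f - pg2 Q Q2 g f' = pg2 Q Q2 g (fun m n => f m n - f' m n) := by
  unfold pg2
  rw [← sum_sub_distrib]
  apply sum_congr rfl
  intro m _
  rw [← sum_sub_distrib]

private lemma F6_pg_add (Q Q2 g : ℕ) (f f' : ℕ → ℕ → ℂ) :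
    pg2 Q Q2 g (fun m n => f m n + f' m n) = pg2 Q Q2 g f + pg2 Q Q2 g f' := by
  unfold pg2
  rw [← sum_add_distrib]
  apply sum_congr rfl
  intro m _
  rw [← sum_add_distrib]

private lemma F6_pg_mul (Q Q2 g : ℕ) (z : ℂ) (f : ℕ → ℕ → ℂ) :
    pg2 Q Q2 g (fun m n => z * f m n) = z * pg2 Q Q2 g f := by
  unfold pg2
  rw [mul_sum]
  apply sum_congr rfl
  intro m _
  rw [mul_sum]

private lemma F6_pg_sum {ι : Type} (s : Finset ι) (Q Q2 g : ℕ) (f : ι → ℕ → ℕ → ℂ) :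
    pg2 Q Q2 g (fun m n => ∑ i ∈ s, f i m n) = ∑ i ∈ s, pg2 Q Q2 g (f i) := by
  classical
  induction s using Finset.induction_on with
  | empty =>
    simp only [sum_empty]
    unfold pg2
    simp
  | insert i s hi ih =>
    simp only [sum_insert hi]
    rw [F6_pg_add, ih]

private lemma F6_pg_congr (Q Q2 g : ℕ) (f f' : ℕ → ℕ → ℂ)
    (h : ∀ m n, m ∈ Ioc (Q / g) (2 * Q / g) → n ∈ Ioc (Q2 / g) (2 * Q2 / g) → m.Coprime n →
      f m n = f' m n) : pg2 Q Q2 g f = pg2 Q Q2 g f' := by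
  unfold pg2
  apply sum_congr rfl
  intro m hm
  apply sum_congr rfl
  intro n hn
  rw [mem_filter] at hn
  exact h m n hm hn.1 hn.2

private lemma F6_pg_norm (Q Q2 g : ℕ) (f : ℕ → ℕ → ℂ) (B : ℝ) (hB : 0 ≤ B)
    (h : ∀ m n, m ∈ Ioc (Q / g) (2 * Q / g) → n ∈ Ioc (Q2 / g) (2 * Q2 / g) → m.Coprime n →
      ‖f m n‖ ≤ B) : ‖pg2 Q Q2 g f‖ ≤ (2 * (Q : ℝ)) * (2 * (Q2 : ℝ)) * B := by
  have hc : ∀ Q : ℕ, ((Ioc (Q / g) (2 * Q / g)).card : ℝ) ≤ 2 * (Q : ℝ) := by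
    intro Q
    rw [Nat.card_Ioc]
    have : 2 * Q / g - Q / g ≤ 2 * Q := by
      refine (Nat.sub_le _ _).trans (Nat.div_le_self _ _)
    exact_mod_cast this
  unfold pg2
  calc ‖∑ m ∈ Ioc (Q / g) (2 * Q / g),
        ∑ n ∈ (Ioc (Q2 / g) (2 * Q2 / g)).filter (fun n => m.Coprime n), f m n‖
      ≤ ∑ m ∈ Ioc (Q / g) (2 * Q / g),
        ‖∑ n ∈ (Ioc (Q2 / g) (2 * Q2 / g)).filter (fun n => m.Coprime n), f m n‖ :=
          norm_sum_le _ _
    _ ≤ ∑ _m ∈ Ioc (Q / g) (2 * Q / g), (2 * (Q2 : ℝ)) * B := by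
        apply sum_le_sum
        intro m hm
        calc ‖∑ n ∈ (Ioc (Q2 / g) (2 * Q2 / g)).filter (fun n => m.Coprime n), f m n‖
            ≤ ∑ n ∈ (Ioc (Q2 / g) (2 * Q2 / g)).filter (fun n => m.Coprime n), ‖f m n‖ :=
              norm_sum_le _ _
          _ ≤ ∑ _n ∈ (Ioc (Q2 / g) (2 * Q2 / g)).filter (fun n => m.Coprime n), B := by
              apply sum_le_sum
              intro n hn
              rw [mem_filter] at hn
              exact h m n hm hn.1 hn.2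
          _ = (((Ioc (Q2 / g) (2 * Q2 / g)).filter (fun n => m.Coprime n)).card : ℝ) * B := by
              rw [sum_const, nsmul_eq_mul]
          _ ≤ (2 * (Q2 : ℝ)) * B := by
              apply mul_le_mul_of_nonneg_right _ hB
              refine le_trans ?_ (hc Q2)
              exact_mod_cast card_filter_le _ _
    _ = ((Ioc (Q / g) (2 * Q / g)).card : ℝ) * ((2 * (Q2 : ℝ)) * B) := by
        rw [sum_const, nsmul_eq_mul]
    _ ≤ (2 * (Q : ℝ)) * ((2 * (Q2 : ℝ)) * B) := by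
        apply mul_le_mul_of_nonneg_right (hc Q) (by positivity)
    _ = (2 * (Q : ℝ)) * (2 * (Q2 : ℝ)) * B := by ring

private lemma F6_mem {Q g m : ℕ} (hg : 1 ≤ g) (hm : m ∈ Ioc (Q / g) (2 * Q / g)) :
    1 ≤ m ∧ Q < g * m ∧ g * m ≤ 2 * Q := by
  rw [mem_Ioc] at hm
  refine ⟨(Nat.zero_le _).trans_lt hm.1, ?_, ?_⟩
  · have := (Nat.div_lt_iff_lt_mul (by omega : 0 < g)).mp hm.1
    rw [mul_comm]
    exact this
  · have := (Nat.le_div_iff_mul_le (by omega : 0 < g)).mp hm.2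
    rw [mul_comm]
    exact this

/-- the error part -/
private lemma F6_err (h4 : SF4) {N j Q Q2 H f g : ℕ} {c c' : ℕ → ℝ} {a b : ℤ} (hN : 1 ≤ N)
    (hH : 1 ≤ H) (hf : 1 ≤ f) (hg : 1 ≤ g) (hHg : 2 * H * g ≤ Q * Q2)
    (hc : ∀ d, |c d| ≤ 1) (hc' : ∀ d, |c' d| ≤ 1) (hcf : ∀ d, c d ≠ 0 → f.Coprime d)
    (hcf' : ∀ d, c' d ≠ 0 → f.Coprime d) (hdvd : (g : ℤ) ∣ b - a) :
    ‖pg2 Q Q2 g (fEG N j f g c c' a b) - pg2 Q Q2 g (F6_W N j H f g c c' a b)‖ ≤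
      4 * (Q : ℝ) * Q2 * (4 * (f : ℝ) * Q * Q2 / ((N : ℝ) * H)) ^ (2 * j + 1) := by
  have hN' : (1 : ℝ) ≤ N := by exact_mod_cast hN
  have hH' : (1 : ℝ) ≤ H := by exact_mod_cast hH
  have hf' : (1 : ℝ) ≤ f := by exact_mod_cast hf
  have hcc : ∀ m n : ℕ, ‖((c (g * m) * c' (g * n) : ℝ) : ℂ)‖ ≤ 1 := by
    intro m n
    rw [Complex.norm_real, Real.norm_eq_abs, abs_mul]
    have := mul_le_mul (hc (g * m)) (hc' (g * n)) (abs_nonneg _) zero_le_one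
    linarith
  rw [F6_pg_sub]
  refine (F6_pg_norm Q Q2 g _ ((4 * (f : ℝ) * Q * Q2 / ((N : ℝ) * H)) ^ (2 * j + 1))
    (by positivity) ?_).trans (le_of_eq (by ring))
  intro m n hm hn hmn
  have e : fEG N j f g c c' a b m n - F6_W N j H f g c c' a b m n =
      ((c (g * m) * c' (g * n) : ℝ) : ℂ) *
      (((SSG N j f (g * m) (g * n) a b - MM N (g * m) (g * n) a b / f : ℝ) : ℂ) -
        (1 / ((f : ℂ) * (g * m * n))) * ∑ h ∈ Icc 1 H, ∑ t ∈ Iw N j, ((wt N j t : ℝ) : ℂ) *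
        (ee ((h : ℝ) * ((a : ℝ) * (iv (g * m * n) f : ℝ) / f)) *
            eF f ((h : ℤ) * (-((b - a) / g))) ((h : ℝ) * (((t : ℝ) - a) / ((f : ℝ) * g))) m n +
          ee (-((h : ℝ) * ((a : ℝ) * (iv (g * m * n) f : ℝ) / f))) *
            eF f ((h : ℤ) * ((b - a) / g)) ((h : ℝ) * (-(((t : ℝ) - a) / ((f : ℝ) * g)))) m n)) := by
    unfold fEG F6_W
    push_cast
    ring
  obtain ⟨m1, m2, m3⟩ := F6_mem hg hm
  obtain ⟨n1, n2, n3⟩ := F6_mem hg hn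
  rw [e]
  by_cases hz : c (g * m) * c' (g * n) = 0
  · rw [hz, Complex.ofReal_zero, zero_mul, norm_zero]
    positivity
  have hz1 : c (g * m) ≠ 0 := left_ne_zero_of_mul hz
  have hz2 : c' (g * n) ≠ 0 := right_ne_zero_of_mul hz
  have hgmn : (g * m) * (g * n) = g * (g * m * n) := by ring
  have hlow : 2 * H < f * (g * m * n) := by
    have h1 : Q * Q2 < (g * m) * (g * n) := Nat.mul_lt_mul'' m2 n2
    rw [hgmn] at h1
    have h6 : 2 * H < g * m * n := by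
      by_contra hcon
      push Not at hcon
      have h2 : g * (g * m * n) ≤ g * (2 * H) := Nat.mul_le_mul_left g hcon
      have h3 : Q * Q2 < g * (2 * H) := lt_of_lt_of_le h1 h2
      have h4 : 2 * H * g = g * (2 * H) := by ring
      rw [h4] at hHg
      omega
    have h7 : 1 * (g * m * n) ≤ f * (g * m * n) := Nat.mul_le_mul_right _ hf
    omega
  have hup : (f : ℝ) * (g * m * n) ≤ 4 * (f : ℝ) * Q * Q2 := by
    have h1 : g * m * n ≤ (g * m) * (g * n) := by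
      calc g * m * n = (g * m) * (1 * n) := by ring
        _ ≤ (g * m) * (g * n) := Nat.mul_le_mul_left _ (Nat.mul_le_mul_right _ hg)
    have h2 : (g * m) * (g * n) ≤ (2 * Q) * (2 * Q2) := Nat.mul_le_mul m3 n3
    have h3 : f * (g * m * n) ≤ 4 * f * Q * Q2 := by
      calc f * (g * m * n) ≤ f * ((2 * Q) * (2 * Q2)) := Nat.mul_le_mul_left f (h1.trans h2)
        _ = 4 * f * Q * Q2 := by ring
    exact_mod_cast h3
  have h4' := h4 N j H f g m n a b hN hH hf hg m1 n1 hmn (hcf _ hz1) (hcf' _ hz2) hdvd hlow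
  rw [norm_mul]
  calc _ ≤ 1 * ((f : ℝ) * (g * m * n) / ((N : ℝ) * H)) ^ (2 * j + 1) :=
        mul_le_mul (hcc m n) h4' (norm_nonneg _) zero_le_one
    _ = ((f : ℝ) * (g * m * n) / ((N : ℝ) * H)) ^ (2 * j + 1) := one_mul _
    _ ≤ (4 * (f : ℝ) * Q * Q2 / ((N : ℝ) * H)) ^ (2 * j + 1) := by
        apply pow_le_pow_left₀ (by positivity)
        apply div_le_div_of_nonneg_right hup (by positivity)

/-- the main part as a sum over t of trilinear forms -/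
private lemma F6_main (N j Q Q2 H f g : ℕ) (c c' : ℕ → ℝ) (a b : ℤ) :
    pg2 Q Q2 g (F6_W N j H f g c c' a b) = ∑ t ∈ Iw N j,
      (((wt N j t : ℝ) : ℂ) * (1 / ((f : ℂ) * g))) *
      ((∑ h ∈ Icc 1 H, pg2 Q Q2 g (F6_v f g c c' 1 a (-((b - a) / g))
          (((t : ℝ) - a) / ((f : ℝ) * g)) h)) +
        ∑ h ∈ Icc 1 H, pg2 Q Q2 g (F6_v f g c c' (-1) a ((b - a) / g)
          (-(((t : ℝ) - a) / ((f : ℝ) * g))) h)) := by
  have s1 : ∀ m n : ℕ, F6_W N j H f g c c' a b m n = ∑ t ∈ Iw N j, ∑ h ∈ Icc 1 H,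
      (((wt N j t : ℝ) : ℂ) * (1 / ((f : ℂ) * g))) *
      (F6_v f g c c' 1 a (-((b - a) / g)) (((t : ℝ) - a) / ((f : ℝ) * g)) h m n +
        F6_v f g c c' (-1) a ((b - a) / g) (-(((t : ℝ) - a) / ((f : ℝ) * g))) h m n) := by
    intro m n
    have hinv : (1 / ((f : ℂ) * (g * m * n))) = (1 / ((f : ℂ) * g)) * (1 / ((m : ℂ) * n)) := by
      rw [one_div_mul_one_div]
      congr 1
      ring
    unfold F6_W F6_v
    rw [hinv, mul_sum, mul_sum, sum_comm]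
    apply sum_congr rfl
    intro h _
    rw [mul_sum, mul_sum]
    apply sum_congr rfl
    intro t _
    rw [one_mul, neg_one_mul]
    ring
  rw [F6_pg_congr Q Q2 g _ _ (fun m n _ _ _ => s1 m n), F6_pg_sum]
  apply sum_congr rfl
  intro t _
  rw [F6_pg_sum, ← sum_add_distrib, mul_sum]
  apply sum_congr rfl
  intro h _
  rw [F6_pg_mul, F6_pg_add]

theorem tF6 (h1 : WbStmt) (h4 : SF4) (h5 : SF5) : SF6 := by
  intro ε j hε
  obtain ⟨C, hC, hC5⟩ := h5 ε hε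
  refine ⟨6 * ((j : ℝ) + 1) * ((j : ℝ) + 2) * C, by positivity, ?_⟩
  intro N Q Q2 H f g L1 L2 c c' a b hN hH hf hg hgQ2 hQ2Q hHg hL1 hL12 hL2 hc hc' hcf hconv
    hab ha hb hdvd
  have hN' : (1 : ℝ) ≤ N := by exact_mod_cast hN
  have hH' : (1 : ℝ) ≤ H := by exact_mod_cast hH
  have hf' : (1 : ℝ) ≤ f := by exact_mod_cast hf
  have hg' : (1 : ℝ) ≤ g := by exact_mod_cast hg
  have hfg : (1 : ℝ) ≤ (f : ℝ) * g := one_le_mul_of_one_le_of_one_le hf' hg'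
  have hgQ : g ≤ Q := hgQ2.trans hQ2Q
  have hP1 : 1 ≤ Q / g := (Nat.one_le_div_iff (by omega)).mpr hgQ
  have hP : (1 : ℝ) ≤ ((Q / g : ℕ) : ℝ) := by exact_mod_cast hP1
  have hP2' : 1 ≤ Q2 / g := (Nat.one_le_div_iff (by omega)).mpr hgQ2
  have hP2 : (1 : ℝ) ≤ ((Q2 / g : ℕ) : ℝ) := by exact_mod_cast hP2'
  have hQ1 : 1 ≤ Q := le_trans hg hgQ
  have hQ' : (1 : ℝ) ≤ Q := by exact_mod_cast hQ1
  have e1 := F6_err h4 (N := N) (j := j) (Q := Q) (Q2 := Q2) (H := H) (f := f) (g := g)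
    (c := c) (c' := c') (a := a) (b := b) hN hH hf hg hHg hc hc' hcf
    (fun d hd => (hconv d hd).2) hdvd
  have e2 := F6_main N j Q Q2 H f g c c' a b
  obtain ⟨K, hK⟩ := hdvd
  have hK1 : (b - a) / (g : ℤ) = K := by
    rw [hK]
    exact Int.mul_ediv_cancel_left K (by omega)
  have hK0 : K ≠ 0 := by
    rintro rfl
    apply hab
    rw [mul_zero] at hK
    omega
  have hP0 : (0 : ℝ) < ((Q / g : ℕ) : ℝ) := by linarith
  have hP20 : (0 : ℝ) < ((Q2 / g : ℕ) : ℝ) := by linarith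
  have hL1p : 0 < L1 := by linarith
  have hL2p : 0 < L2 := by linarith
  set X : ℝ := ((H : ℝ) * g / L1) ^ ((1 : ℝ) / 2) +
    (H : ℝ) * (L2 / ((Q / g : ℕ) : ℝ)) ^ ((1 : ℝ) / 4) +
      (H : ℝ) * ((Q2 / g : ℕ) : ℝ) ^ (-(1 : ℝ) / 4) with hXdef
  have hX0 : 0 ≤ X := by positivity
  set Y : ℝ := ((Q : ℝ) * H * (2 * N)) ^ ε with hYdef
  have hY0 : 0 ≤ Y := by positivity
  set Z : ℝ := 1 + (H : ℝ) * N / (((Q / g : ℕ) : ℝ) * ((Q2 / g : ℕ) : ℝ)) with hZdef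
  have hZ0 : 0 ≤ Z := by positivity
  have hKabs : |(K : ℝ)| ≤ 2 * (N : ℝ) := by
    have h1 : |K| ≤ |b - a| := by
      rw [hK, abs_mul]
      have : (1 : ℤ) ≤ |(g : ℤ)| := by
        rw [abs_of_nonneg (by positivity)]
        exact_mod_cast hg
      calc |K| = 1 * |K| := (one_mul _).symm
        _ ≤ |(g : ℤ)| * |K| := mul_le_mul_of_nonneg_right this (abs_nonneg _)
    have h2 : |b - a| ≤ 2 * (N : ℤ) := by
      have := abs_sub b a
      linarith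
    have h3 : |K| ≤ 2 * (N : ℤ) := h1.trans h2
    exact_mod_cast h3
  have haR : |(a : ℝ)| ≤ N := by exact_mod_cast ha
  -- the trilinear forms
  have e3 : ∀ (s : ℝ) (th : ℤ) (vt : ℝ), th ≠ 0 → |(th : ℝ)| ≤ 2 * (N : ℝ) →
      |vt| ≤ ((j : ℝ) + 2) * N →
      ‖∑ h ∈ Icc 1 H, pg2 Q Q2 g (F6_v f g c c' s a th vt h)‖ ≤
        C * (f : ℝ) ^ 2 * Y * (((j : ℝ) + 2) * Z) * X := by
    intro s th vt hth hth1 hvt
    have h5' := hC5 Q Q2 g H f L1 L2 c c' s a th vt hg hgQ2 hQ2Q hH hf hL1 hL12 hL2 hc hc' hcf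
      hconv hth
    refine le_trans h5' ?_
    have b1 : ((Q : ℝ) * H * |(th : ℝ)|) ^ ε ≤ Y := by
      rw [hYdef]
      apply Real.rpow_le_rpow (by positivity) _ hε.le
      exact mul_le_mul_of_nonneg_left hth1 (by positivity)
    have b2 : 1 + (H : ℝ) * |vt| / (((Q / g : ℕ) : ℝ) * ((Q2 / g : ℕ) : ℝ)) ≤
        ((j : ℝ) + 2) * Z := by
      have b3 : (H : ℝ) * |vt| / (((Q / g : ℕ) : ℝ) * ((Q2 / g : ℕ) : ℝ)) ≤
          ((j : ℝ) + 2) * ((H : ℝ) * N / (((Q / g : ℕ) : ℝ) * ((Q2 / g : ℕ) : ℝ))) := by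
        rw [← mul_div_assoc]
        apply div_le_div_of_nonneg_right _ (by positivity)
        have := mul_le_mul_of_nonneg_left hvt (by linarith : (0 : ℝ) ≤ H)
        linarith
      rw [hZdef]
      have hj0 : (0 : ℝ) ≤ j := Nat.cast_nonneg j
      linarith
    apply mul_le_mul_of_nonneg_right _ hX0
    apply mul_le_mul _ b2 (by positivity) (by positivity)
    exact mul_le_mul_of_nonneg_left b1 (by positivity)
  have e4 : ‖pg2 Q Q2 g (F6_W N j H f g c c' a b)‖ ≤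
      (3 * ((j : ℝ) + 1) * N) * (2 * (C * (f : ℝ) ^ 2 * Y * (((j : ℝ) + 2) * Z) * X)) := by
    rw [e2]
    have hterm : ∀ t ∈ Iw N j,
        ‖(((wt N j t : ℝ) : ℂ) * (1 / ((f : ℂ) * g))) *
      ((∑ h ∈ Icc 1 H, pg2 Q Q2 g (F6_v f g c c' 1 a (-((b - a) / g))
          (((t : ℝ) - a) / ((f : ℝ) * g)) h)) +
        ∑ h ∈ Icc 1 H, pg2 Q Q2 g (F6_v f g c c' (-1) a ((b - a) / g)
          (-(((t : ℝ) - a) / ((f : ℝ) * g))) h))‖ ≤
        2 * (C * (f : ℝ) ^ 2 * Y * (((j : ℝ) + 2) * Z) * X) := by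
      intro t ht
      unfold Iw at ht
      rw [mem_Icc] at ht
      rw [hK1]
      have htR : |(t : ℝ)| ≤ ((j : ℝ) + 1) * N := by
        have : |t| ≤ (((j + 1) * N : ℕ) : ℤ) := abs_le.mpr ht
        have h2 : |(t : ℝ)| ≤ (((j + 1) * N : ℕ) : ℝ) := by exact_mod_cast this
        push_cast at h2
        exact h2
      have hv : |((t : ℝ) - a) / ((f : ℝ) * g)| ≤ ((j : ℝ) + 2) * N := by
        rw [abs_div, abs_of_nonneg (by linarith : (0 : ℝ) ≤ (f : ℝ) * g),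
          div_le_iff₀ (by linarith)]
        have g1 : |(t : ℝ) - a| ≤ ((j : ℝ) + 2) * N := by
          have := abs_sub (t : ℝ) (a : ℝ)
          linarith
        have g2 : ((j : ℝ) + 2) * N * 1 ≤ ((j : ℝ) + 2) * N * ((f : ℝ) * g) :=
          mul_le_mul_of_nonneg_left hfg (by positivity)
        linarith
      have p1 := e3 (-1) K (-(((t : ℝ) - a) / ((f : ℝ) * g))) hK0 hKabs (by rw [abs_neg]; exact hv)
      have p2 := e3 1 (-K) (((t : ℝ) - a) / ((f : ℝ) * g)) (neg_ne_zero.mpr hK0)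
        (by push_cast; rw [abs_neg]; exact hKabs) hv
      have q1 : ‖((wt N j t : ℝ) : ℂ) * (1 / ((f : ℂ) * g))‖ ≤ 1 := by
        rw [norm_mul, Complex.norm_real, Real.norm_eq_abs, norm_div, norm_one, norm_mul,
          Complex.norm_natCast, Complex.norm_natCast]
        obtain ⟨w1, w2, -, -⟩ := h1 N j hN
        have r1 : |wt N j t| ≤ 1 := by
          rw [abs_of_nonneg (w1 t)]
          exact w2 t
        have r2 : 1 / ((f : ℝ) * g) ≤ 1 := by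
          rw [div_le_one (by linarith)]
          exact hfg
        have := mul_le_mul r1 r2 (by positivity) zero_le_one
        linarith
      rw [norm_mul]
      calc _ ≤ 1 * (C * (f : ℝ) ^ 2 * Y * (((j : ℝ) + 2) * Z) * X +
            C * (f : ℝ) ^ 2 * Y * (((j : ℝ) + 2) * Z) * X) := by
            apply mul_le_mul q1 _ (norm_nonneg _) zero_le_one
            exact (norm_add_le _ _).trans (add_le_add p2 p1)
        _ = 2 * (C * (f : ℝ) ^ 2 * Y * (((j : ℝ) + 2) * Z) * X) := by ring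
    calc _ ≤ ∑ t ∈ Iw N j, ‖(((wt N j t : ℝ) : ℂ) * (1 / ((f : ℂ) * g))) *
      ((∑ h ∈ Icc 1 H, pg2 Q Q2 g (F6_v f g c c' 1 a (-((b - a) / g))
          (((t : ℝ) - a) / ((f : ℝ) * g)) h)) +
        ∑ h ∈ Icc 1 H, pg2 Q Q2 g (F6_v f g c c' (-1) a ((b - a) / g)
          (-(((t : ℝ) - a) / ((f : ℝ) * g))) h))‖ := norm_sum_le _ _
      _ ≤ ∑ _t ∈ Iw N j, 2 * (C * (f : ℝ) ^ 2 * Y * (((j : ℝ) + 2) * Z) * X) := sum_le_sum hterm
      _ = ((Iw N j).card : ℝ) * (2 * (C * (f : ℝ) ^ 2 * Y * (((j : ℝ) + 2) * Z) * X)) := by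
          rw [sum_const, nsmul_eq_mul]
      _ ≤ (3 * ((j : ℝ) + 1) * N) * (2 * (C * (f : ℝ) ^ 2 * Y * (((j : ℝ) + 2) * Z) * X)) := by
          apply mul_le_mul_of_nonneg_right _ (by positivity)
          unfold Iw
          rw [Int.card_Icc]
          have h0 : ((((j + 1) * N : ℕ) : ℤ) + 1 - -(((j + 1) * N : ℕ) : ℤ)).toNat =
              2 * ((j + 1) * N) + 1 := by omega
          rw [h0]
          push_cast
          have hj0 : (0 : ℝ) ≤ j := Nat.cast_nonneg j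
          have : (1 : ℝ) ≤ ((j : ℝ) + 1) * N := by
            have := mul_le_mul (by linarith : (1 : ℝ) ≤ (j : ℝ) + 1) hN' zero_le_one
              (by linarith)
            linarith
          linarith
  calc ‖pg2 Q Q2 g (fEG N j f g c c' a b)‖
      = ‖(pg2 Q Q2 g (fEG N j f g c c' a b) - pg2 Q Q2 g (F6_W N j H f g c c' a b)) +
        pg2 Q Q2 g (F6_W N j H f g c c' a b)‖ := by rw [sub_add_cancel]
    _ ≤ 4 * (Q : ℝ) * Q2 * (4 * (f : ℝ) * Q * Q2 / ((N : ℝ) * H)) ^ (2 * j + 1) +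
        (3 * ((j : ℝ) + 1) * N) * (2 * (C * (f : ℝ) ^ 2 * Y * (((j : ℝ) + 2) * Z) * X)) :=
        (norm_add_le _ _).trans (add_le_add e1 e4)
    _ = _ := by ring

end Pool.Agent.Lib.TN
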