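import Pool.Agent.Lib.TN.SpecGf

/-!
MP_00e23e_nt, Lib/TN, module F9: symmetry in the two blocks.
-/

namespace Pool.Agent.Lib.TN

open Finset Pool.Agent.Lib.EH3 Pool.Agent.Lib.TB

private lemma F9_SSG (N j f u w : ℕ) (a b : ℤ) : SSG N j f u w a b = SSG N j f w u b a := by
  unfold SSG
  refine sum_congr rfl fun n _ => ?_
  have h : ((f : ℤ) ∣ n ∧ (u : ℤ) ∣ n - a ∧ (w : ℤ) ∣ n - b) ↔
      ((f : ℤ) ∣ n ∧ (w : ℤ) ∣ n - b ∧ (u : ℤ) ∣ n - a) :=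
    and_congr_right fun _ => and_comm
  simp only [h]

private lemma F9_MM (N u w : ℕ) (a b : ℤ) : MM N u w a b = MM N w u b a := by
  unfold MM
  have h : (((Nat.gcd u w : ℕ) : ℤ) ∣ a - b) ↔ (((Nat.gcd w u : ℕ) : ℤ) ∣ b - a) := by
    rw [Nat.gcd_comm, ← dvd_neg, neg_sub]
  by_cases hd : ((Nat.gcd u w : ℕ) : ℤ) ∣ a - b
  · rw [if_pos hd, if_pos (h.1 hd), Nat.gcd_comm, mul_comm (u : ℝ)]
  · rw [if_neg hd, if_neg (fun h' => hd (h.2 h'))]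

theorem tF9 (h : SF8) : EEGStmt := by
  intro δ ε hδ hε hde
  obtain ⟨j, C, η, κ, N0, hη, hκ, hB⟩ := h δ ε hδ hε hde
  refine ⟨j, C, η, κ, N0, hη, hκ, ?_⟩
  intro N Q Q2 f L1 L2 c c' a b hN0 hN hQ1 hQ2 hQ21 hQ22 hf hf2 hL1 hL2 hc hc' hcc hcc' hab ha hb
  rcases le_total Q2 Q with hle | hle
  · exact hB N Q Q2 f L1 L2 c c' a b hN0 hN hle hQ21 hQ2 hf hf2 hL1 hL2 hc hc'
      (fun d hd => (hcc d hd).2) hcc' hab ha hb
  · have h1 := hB N Q2 Q f L1 L2 c' c b a hN0 hN hle hQ1 hQ22 hf hf2 hL1 hL2 hc' hc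
      (fun d hd => (hcc' d hd).2) hcc (Ne.symm hab) hb ha
    rw [Finset.sum_comm] at h1
    refine le_trans (le_of_eq ?_) h1
    congr 1
    refine sum_congr rfl fun d _ => sum_congr rfl fun d' _ => ?_
    rw [F9_SSG N j f d d' a b, F9_MM N d d' a b]
    ring

end Pool.Agent.Lib.TN
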