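import Pool.Agent.Lib.TN.SpecTl
set_option autoImplicit false

namespace Pool.Agent.Lib.TN

open Finset Pool.Agent.Lib.EH3 Pool.Agent.Lib.TB

/-- the number of dyadic blocks -/
private lemma Pgl_J (e : ℝ) (he : 0 < e) (P : ℕ) (hP : 1 ≤ P) :
    ((Nat.clog 2 (3 * P) : ℕ) : ℝ) ≤ (4 + 2 / e) * (P : ℝ) ^ e := by
  have hPr : (1 : ℝ) ≤ P := by exact_mod_cast hP
  have hP0 : (0 : ℝ) < P := by linarith
  set J := Nat.clog 2 (3 * P) with hJ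
  have h1 : 2 ^ (J - 1) < 3 * P := by
    have := Nat.pow_pred_clog_lt_self (b := 2) (by norm_num) (x := 3 * P) (by omega)
    exact this
  have h2 : ((2 : ℝ)) ^ (J - 1) < 3 * P := by exact_mod_cast h1
  have h3 : ((J - 1 : ℕ) : ℝ) * Real.log 2 < Real.log (3 * P) := by
    rw [← Real.log_pow]
    exact Real.log_lt_log (by positivity) h2
  have h4 : Real.log (3 * P) = Real.log 3 + Real.log P := Real.log_mul (by norm_num) hP0.ne'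
  have h5 : Real.log 3 ≤ 2 * Real.log 2 := by
    rw [← Real.log_rpow (by norm_num)]
    apply Real.log_le_log (by norm_num)
    norm_num
  have h6 : (1 : ℝ) / 2 < Real.log 2 := by
    have := Real.log_two_gt_d9
    linarith
  have h7 : Real.log P ≤ (P : ℝ) ^ e / e := Real.log_le_rpow_div hP0.le he
  have h8 : (1 : ℝ) ≤ (P : ℝ) ^ e := Real.one_le_rpow hPr he.le
  have hlogP : 0 ≤ Real.log P := Real.log_nonneg hPr
  have h9 : ((J - 1 : ℕ) : ℝ) ≤ 2 + 2 * Real.log P := by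
    by_contra hcon
    push Not at hcon
    have : (2 + 2 * Real.log P) * Real.log 2 ≤ ((J - 1 : ℕ) : ℝ) * Real.log 2 :=
      mul_le_mul_of_nonneg_right hcon.le (by linarith)
    have h10 : 2 * Real.log P * (1 / 2) ≤ 2 * Real.log P * Real.log 2 :=
      mul_le_mul_of_nonneg_left h6.le (by linarith)
    nlinarith
  have h11 : (J : ℝ) ≤ ((J - 1 : ℕ) : ℝ) + 1 := by
    have : J ≤ (J - 1) + 1 := by omega
    exact_mod_cast this
  have h12 : (4 + 2 / e) * (P : ℝ) ^ e = 4 * (P : ℝ) ^ e + 2 * ((P : ℝ) ^ e / e) := by ring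
  rw [h12]
  linarith

private lemma Pgl_div (Q g : ℕ) (hg : 1 ≤ g) (hgQ : g ≤ Q) : 2 * Q / g ≤ 3 * (Q / g) := by
  have hP1 : 1 ≤ Q / g := (Nat.one_le_div_iff (by omega)).mpr hgQ
  have h1 : 2 * Q < g * (2 * (Q / g) + 2) := by
    have := Nat.div_add_mod Q g
    have h2 := Nat.mod_lt Q (by omega : g > 0)
    have h3 : g * (2 * (Q / g) + 2) = 2 * (g * (Q / g)) + 2 * g := by ring
    omega
  have h4 : 2 * Q / g < 2 * (Q / g) + 2 := by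
    rw [Nat.div_lt_iff_lt_mul (by omega)]
    have h5 : (2 * (Q / g) + 2) * g = g * (2 * (Q / g) + 2) := mul_comm _ _
    rw [h5]
    exact h1
  omega

private lemma Pgl_al (Q g : ℕ) (c : ℕ → ℝ) (hc : ∀ d, |c d| ≤ 1) (m : ℕ) : ‖al Q g c m‖ ≤ 1 := by
  unfold al
  split_ifs with h
  · rw [Complex.norm_real, Real.norm_eq_abs, abs_div, abs_mul]
    have hm : (0 : ℝ) < m := by
      have : 0 < m := lt_of_le_of_lt (Nat.zero_le _) h.1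
      exact_mod_cast this
    have h1 : (((Q / g : ℕ) : ℝ)) ≤ m := by exact_mod_cast h.1.le
    rw [Nat.abs_cast, Nat.abs_cast, div_le_one hm]
    calc |c (g * m)| * ((Q / g : ℕ) : ℝ) ≤ 1 * ((Q / g : ℕ) : ℝ) :=
          mul_le_mul_of_nonneg_right (hc _) (Nat.cast_nonneg _)
      _ ≤ m := by rw [one_mul]; exact h1
  · simp

private lemma Pgl_be (Q g : ℕ) (c' : ℕ → ℝ) (σ : ℕ → ℕ) (hc' : ∀ d, |c' d| ≤ 1) (r s : ℕ) :
    ‖be Q g c' σ r s‖ ≤ 1 := by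
  unfold be
  split_ifs with h
  · rw [Complex.norm_real, Real.norm_eq_abs, abs_div, abs_mul]
    have hm : (0 : ℝ) < (r : ℝ) * s := by
      have : 0 < r * s := lt_of_le_of_lt (Nat.zero_le _) h.1
      exact_mod_cast this
    have h1 : (((Q / g : ℕ) : ℝ)) ≤ (r : ℝ) * s := by exact_mod_cast h.1.le
    rw [Nat.abs_cast, abs_of_pos hm, div_le_one hm]
    calc |c' (g * (r * s))| * ((Q / g : ℕ) : ℝ) ≤ 1 * ((Q / g : ℕ) : ℝ) :=
          mul_le_mul_of_nonneg_right (hc' _) (Nat.cast_nonneg _)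
      _ ≤ (r : ℝ) * s := by rw [one_mul]; exact h1
  · simp

/-- the exponents for one dyadic block -/
private lemma Pgl_exp (P P2 S H g L1 L2 : ℝ) (hP2 : 1 ≤ P2) (hPP : P2 ≤ P) (hS : 1 ≤ S)
    (hH : 1 ≤ H) (hg : 1 ≤ g)
    (hL1 : 0 < L1) (hS1 : L1 / (2 * g) ≤ S) (hS2 : S ≤ L2) :
    (P ^ 2 * P2 ^ 2 * H / S) ^ ((1 : ℝ) / 2) +
        H * (P * P2 ^ ((5 : ℝ) / 2) * S ^ ((1 : ℝ) / 2) + P ^ 2 * P2 ^ ((3 : ℝ) / 2)) ^ ((1 : ℝ) / 2) ≤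
      P * P2 * (2 * ((H * g / L1) ^ ((1 : ℝ) / 2) + H * (L2 / P) ^ ((1 : ℝ) / 4) +
        H * P2 ^ (-(1 : ℝ) / 4))) := by
  have hP20 : 0 < P2 := by linarith
  have hP0 : 0 < P := by linarith
  have hS0 : 0 < S := by linarith
  have hL2 : 0 < L2 := by linarith
  have hg0 : 0 < g := by linarith
  have h1 : P ^ 2 * P2 ^ 2 * H / S ≤ (2 * (P * P2)) ^ 2 * (H * g / L1) := by
    have h2 : 1 / S ≤ 2 * g / L1 := by
      rw [div_le_div_iff₀ hS0 hL1]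
      rw [div_le_iff₀ (by positivity)] at hS1
      linarith
    have h3 : P ^ 2 * P2 ^ 2 * H / S = P ^ 2 * P2 ^ 2 * H * (1 / S) := by ring
    have h4 : (2 * (P * P2)) ^ 2 * (H * g / L1) = 2 * (P ^ 2 * P2 ^ 2 * H * (2 * g / L1)) := by ring
    rw [h3, h4]
    have h5 : P ^ 2 * P2 ^ 2 * H * (1 / S) ≤ P ^ 2 * P2 ^ 2 * H * (2 * g / L1) :=
      mul_le_mul_of_nonneg_left h2 (by positivity)
    have h6 : 0 ≤ P ^ 2 * P2 ^ 2 * H * (2 * g / L1) := by positivity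
    linarith
  have h2 : (P ^ 2 * P2 ^ 2 * H / S) ^ ((1 : ℝ) / 2) ≤
      2 * (P * P2) * (H * g / L1) ^ ((1 : ℝ) / 2) := by
    calc (P ^ 2 * P2 ^ 2 * H / S) ^ ((1 : ℝ) / 2) ≤
          ((2 * (P * P2)) ^ 2 * (H * g / L1)) ^ ((1 : ℝ) / 2) :=
          Real.rpow_le_rpow (by positivity) h1 (by norm_num)
      _ = 2 * (P * P2) * (H * g / L1) ^ ((1 : ℝ) / 2) := by
          rw [Real.mul_rpow (by positivity) (by positivity), ← Real.sqrt_eq_rpow,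
            Real.sqrt_sq (by positivity)]
  have h3 : (P * P2 ^ ((5 : ℝ) / 2) * S ^ ((1 : ℝ) / 2)) ^ ((1 : ℝ) / 2) ≤
      P * P2 * (L2 / P) ^ ((1 : ℝ) / 4) := by
    have e1 : (P * P2 ^ ((5 : ℝ) / 2) * S ^ ((1 : ℝ) / 2)) ^ ((1 : ℝ) / 2) =
        P ^ ((1 : ℝ) / 2) * (P2 * P2 ^ ((1 : ℝ) / 4)) * S ^ ((1 : ℝ) / 4) := by
      rw [Real.mul_rpow (by positivity) (by positivity),
        Real.mul_rpow (by positivity) (by positivity), ← Real.rpow_mul hP20.le,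
        ← Real.rpow_mul hS0.le]
      have e3 : P2 * P2 ^ ((1 : ℝ) / 4) = P2 ^ ((5 : ℝ) / 2 * (1 / 2)) := by
        nth_rewrite 1 [← Real.rpow_one P2]
        rw [← Real.rpow_add hP20]
        norm_num
      rw [e3]
      norm_num
    have e2 : P * P2 * (L2 / P) ^ ((1 : ℝ) / 4) =
        P ^ ((1 : ℝ) / 2) * (P2 * P ^ ((1 : ℝ) / 4)) * L2 ^ ((1 : ℝ) / 4) := by
      rw [Real.div_rpow hL2.le hP0.le]
      have e4 : P = P ^ ((1 : ℝ) / 2) * P ^ ((1 : ℝ) / 4) * P ^ ((1 : ℝ) / 4) := by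
        rw [← Real.rpow_add hP0, ← Real.rpow_add hP0]
        norm_num
      have : P ^ ((1 : ℝ) / 4) ≠ 0 := (Real.rpow_pos_of_pos hP0 _).ne'
      nth_rewrite 1 [e4]
      field_simp
    rw [e1, e2]
    have k1 : P2 ^ ((1 : ℝ) / 4) ≤ P ^ ((1 : ℝ) / 4) :=
      Real.rpow_le_rpow hP20.le hPP (by norm_num)
    have k2 : S ^ ((1 : ℝ) / 4) ≤ L2 ^ ((1 : ℝ) / 4) :=
      Real.rpow_le_rpow hS0.le hS2 (by norm_num)
    have k3 : P ^ ((1 : ℝ) / 2) * (P2 * P2 ^ ((1 : ℝ) / 4)) ≤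
        P ^ ((1 : ℝ) / 2) * (P2 * P ^ ((1 : ℝ) / 4)) :=
      mul_le_mul_of_nonneg_left (mul_le_mul_of_nonneg_left k1 hP20.le) (by positivity)
    exact mul_le_mul k3 k2 (by positivity) (by positivity)
  have h4 : (P ^ 2 * P2 ^ ((3 : ℝ) / 2)) ^ ((1 : ℝ) / 2) = P * P2 * P2 ^ (-(1 : ℝ) / 4) := by
    rw [Real.mul_rpow (by positivity) (by positivity), ← Real.rpow_mul hP20.le,
      ← Real.sqrt_eq_rpow, Real.sqrt_sq hP0.le, mul_assoc]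
    congr 1
    nth_rewrite 2 [← Real.rpow_one P2]
    rw [← Real.rpow_add hP20]
    norm_num
  have h5 : (P * P2 ^ ((5 : ℝ) / 2) * S ^ ((1 : ℝ) / 2) + P ^ 2 * P2 ^ ((3 : ℝ) / 2)) ^ ((1 : ℝ) / 2) ≤
      (P * P2 ^ ((5 : ℝ) / 2) * S ^ ((1 : ℝ) / 2)) ^ ((1 : ℝ) / 2) +
        (P ^ 2 * P2 ^ ((3 : ℝ) / 2)) ^ ((1 : ℝ) / 2) :=
    Real.rpow_add_le_add_rpow (by positivity) (by positivity) (by norm_num) (by norm_num)
  rw [h4] at h5
  have h6 : H * (P * P2 ^ ((5 : ℝ) / 2) * S ^ ((1 : ℝ) / 2) +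
      P ^ 2 * P2 ^ ((3 : ℝ) / 2)) ^ ((1 : ℝ) / 2) ≤
      H * (P * P2 * (L2 / P) ^ ((1 : ℝ) / 4) + P * P2 * P2 ^ (-(1 : ℝ) / 4)) :=
    mul_le_mul_of_nonneg_left (by linarith) (by linarith)
  have h7 : 0 ≤ H * (P * P2 * (L2 / P) ^ ((1 : ℝ) / 4) + P * P2 * P2 ^ (-(1 : ℝ) / 4)) := by
    positivity
  have h8 : P * P2 * (2 * ((H * g / L1) ^ ((1 : ℝ) / 2) + H * (L2 / P) ^ ((1 : ℝ) / 4) +
        H * P2 ^ (-(1 : ℝ) / 4))) =
      2 * (P * P2) * (H * g / L1) ^ ((1 : ℝ) / 2) +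
        2 * (H * (P * P2 * (L2 / P) ^ ((1 : ℝ) / 4) + P * P2 * P2 ^ (-(1 : ℝ) / 4))) := by
    ring
  rw [h8]
  linarith

theorem tPgl (h1 : TrlStmt) (h2 : PslStmt) (h3 : PdlStmt) : PglStmt := by
  intro ε hε
  obtain ⟨C0, hC0, hC⟩ := h1 (ε / 4) (by positivity)
  refine ⟨(4 + 2 / (ε / 2)) * (2 * C0), by positivity, ?_⟩
  intro Q Q2 g H f L1 L2 c c' lam θ τ hg hgQ2 hQQ hH hf hL1 hL12 hL2 hc hc' hlam hconv hθ
  have hgQ : g ≤ Q := hgQ2.trans hQQ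
  have hP1 : 1 ≤ Q / g := (Nat.one_le_div_iff (by omega)).mpr hgQ
  have hP21 : 1 ≤ Q2 / g := (Nat.one_le_div_iff (by omega)).mpr hgQ2
  have hPP : Q2 / g ≤ Q / g := Nat.div_le_div_right hQQ
  have hPr : (1 : ℝ) ≤ ((Q / g : ℕ) : ℝ) := by exact_mod_cast hP1
  have hP2r : (1 : ℝ) ≤ ((Q2 / g : ℕ) : ℝ) := by exact_mod_cast hP21
  have hPPr : ((Q2 / g : ℕ) : ℝ) ≤ ((Q / g : ℕ) : ℝ) := by exact_mod_cast hPP
  have hHr : (1 : ℝ) ≤ H := by exact_mod_cast hH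
  have hgr : (1 : ℝ) ≤ g := by exact_mod_cast hg
  have hL1p : 0 < L1 := by linarith
  have hL2p : 0 < L2 := by linarith
  have hθr : (1 : ℝ) ≤ |(θ : ℝ)| := by
    have : (1 : ℤ) ≤ |θ| := Int.one_le_abs hθ
    exact_mod_cast this
  have hHθ : (1 : ℝ) ≤ (H : ℝ) * |(θ : ℝ)| := by
    calc (1 : ℝ) = 1 * 1 := (one_mul _).symm
      _ ≤ (H : ℝ) * |(θ : ℝ)| := mul_le_mul hHr hθr zero_le_one (by linarith)
  have hPQ : ((Q / g : ℕ) : ℝ) ≤ Q := by exact_mod_cast Nat.div_le_self Q g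
  have hP2Q : ((Q2 / g : ℕ) : ℝ) ≤ Q := hPPr.trans hPQ
  have hQr : (1 : ℝ) ≤ (Q : ℝ) := hPr.trans hPQ
  obtain ⟨σ, hσ⟩ := h2 g L1 L2 c' hg (fun d hd => ⟨(hconv d hd).1, (hconv d hd).2.2⟩)
  have hσ2 : ∀ n, 1 ≤ n → c' (g * n) ≠ 0 → σ n ∣ n ∧ 2 ≤ σ n := by
    intro n hn hcn
    obtain ⟨s1, s2, -⟩ := hσ n hn hcn
    refine ⟨s1, ?_⟩
    have : (4 : ℝ) ≤ L1 / g := by
      rw [le_div_iff₀ (by linarith)]
      exact hL1
    have h5 : (2 : ℝ) ≤ (σ n : ℝ) := by linarith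
    exact_mod_cast h5
  set J := Nat.clog 2 (3 * (Q2 / g)) with hJ
  have hJ1 : 3 * (Q2 / g) ≤ 2 ^ J := Nat.le_pow_clog (by norm_num) _
  have hdy := h3 Q Q2 g H J f lam c c' σ θ τ hg hgQ hgQ2 hJ1 hσ2
  set V : ℝ := 1 + (H : ℝ) * |τ| / (((Q / g : ℕ) : ℝ) * ((Q2 / g : ℕ) : ℝ)) with hV
  have hV0 : 0 ≤ V := by positivity
  set X : ℝ := ((H : ℝ) * g / L1) ^ ((1 : ℝ) / 2) +
    (H : ℝ) * (L2 / ((Q / g : ℕ) : ℝ)) ^ ((1 : ℝ) / 4) +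
    (H : ℝ) * ((Q2 / g : ℕ) : ℝ) ^ (-(1 : ℝ) / 4) with hX
  have hX0 : 0 ≤ X := by positivity
  set Y : ℝ := ((Q : ℝ) * H * |(θ : ℝ)|) ^ (ε / 2) with hY
  have hY0 : 0 ≤ Y := by positivity
  have hYt : (((Q / g : ℕ) : ℝ) * ((Q2 / g : ℕ) : ℝ) * H * |(θ : ℝ)|) ^ (ε / 4) ≤ Y := by
    have e1 : Y = (((Q : ℝ) * H * |(θ : ℝ)|) ^ 2) ^ (ε / 4) := by
      rw [hY, ← Real.rpow_natCast, ← Real.rpow_mul (by positivity)]
      congr 1
      push_cast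
      ring
    rw [e1]
    apply Real.rpow_le_rpow (by positivity) _ (by positivity)
    calc ((Q / g : ℕ) : ℝ) * ((Q2 / g : ℕ) : ℝ) * H * |(θ : ℝ)|
        = (((Q / g : ℕ) : ℝ) * ((Q2 / g : ℕ) : ℝ)) * ((H : ℝ) * |(θ : ℝ)|) := by ring
      _ ≤ ((Q : ℝ) * Q) * ((H : ℝ) * |(θ : ℝ)|) :=
          mul_le_mul_of_nonneg_right (mul_le_mul hPQ hP2Q (by linarith) (by linarith))
            (by linarith)
      _ = ((Q : ℝ) * Q) * ((H : ℝ) * |(θ : ℝ)|) * 1 := (mul_one _).symm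
      _ ≤ ((Q : ℝ) * Q) * ((H : ℝ) * |(θ : ℝ)|) * ((H : ℝ) * |(θ : ℝ)|) :=
          mul_le_mul_of_nonneg_left hHθ (by positivity)
      _ = ((Q : ℝ) * H * |(θ : ℝ)|) ^ 2 := by ring
  have hterm : ∀ j ∈ range J, ‖Tll (Q / g) (Q2 / g) (2 ^ j) H f lam (al Q g c) (be Q2 g c' σ) θ τ‖ ≤
      C0 * Y * V * (((Q / g : ℕ) : ℝ) * ((Q2 / g : ℕ) : ℝ) * (2 * X)) := by
    intro j _
    by_cases hz : ∀ r s, s ∈ Ioc (2 ^ j) (2 * 2 ^ j) → be Q2 g c' σ r s = 0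
    · have : Tll (Q / g) (Q2 / g) (2 ^ j) H f lam (al Q g c) (be Q2 g c' σ) θ τ = 0 := by
        unfold Tll
        apply Finset.sum_eq_zero
        intro h _
        apply Finset.sum_eq_zero
        intro m _
        apply Finset.sum_eq_zero
        intro r _
        apply Finset.sum_eq_zero
        intro s hs
        rw [mem_filter] at hs
        rw [hz r s hs.1]
        ring
      rw [this, norm_zero]
      positivity
    · push Not at hz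
      obtain ⟨r, s, hs, hrs⟩ := hz
      rw [mem_Ioc] at hs
      have hcond : Q2 / g < r * s ∧ r * s ≤ 2 * Q2 / g ∧ σ (r * s) = s ∧ c' (g * (r * s)) ≠ 0 := by
        by_contra hcon
        exact hrs (by unfold be; rw [if_neg hcon])
      obtain ⟨k1, k2, k3, k4⟩ := hcond
      obtain ⟨-, s1, s2⟩ := hσ (r * s) (by omega) k4
      rw [k3] at s1 s2
      have hSs : ((2 ^ j : ℕ) : ℝ) ≤ s := by exact_mod_cast hs.1.le
      have hsS : (s : ℝ) ≤ 2 * ((2 ^ j : ℕ) : ℝ) := by exact_mod_cast hs.2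
      have hSL2 : ((2 ^ j : ℕ) : ℝ) ≤ L2 := hSs.trans s2
      have hSP : 2 ^ j ≤ Q2 / g := by
        have : ((2 ^ j : ℕ) : ℝ) ≤ ((Q2 / g : ℕ) : ℝ) := hSL2.trans hL2
        exact_mod_cast this
      have hS1 : 1 ≤ 2 ^ j := Nat.one_le_two_pow
      have hS1r : (1 : ℝ) ≤ ((2 ^ j : ℕ) : ℝ) := by exact_mod_cast hS1
      have hSL1 : L1 / (2 * (g : ℝ)) ≤ ((2 ^ j : ℕ) : ℝ) := by
        have h5 : L1 / g ≤ 2 * ((2 ^ j : ℕ) : ℝ) := s1.trans hsS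
        rw [div_le_iff₀ (by linarith)] at h5
        rw [div_le_iff₀ (by linarith)]
        linarith
      have hb : ∀ r s, be Q2 g c' σ r s ≠ 0 → Q2 / g < r * s ∧ r * s ≤ 3 * (Q2 / g) ∧
          Squarefree (r * s) ∧ f.Coprime (r * s) := by
        intro r s hrs
        have hcond : Q2 / g < r * s ∧ r * s ≤ 2 * Q2 / g ∧ σ (r * s) = s ∧
            c' (g * (r * s)) ≠ 0 := by
          by_contra hcon
          exact hrs (by unfold be; rw [if_neg hcon])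
        obtain ⟨k1, k2, k3, k4⟩ := hcond
        exact ⟨k1, k2.trans (Pgl_div Q2 g hg hgQ2), (hconv _ k4).1.of_mul_right,
          (hconv _ k4).2.1.coprime_mul_left_right⟩
      have hT := hC (Q / g) (Q2 / g) (2 ^ j) H f lam (al Q g c) (be Q2 g c' σ) θ τ hP1 hP21 hS1 hH hf
        hSP hlam (Pgl_al Q g c hc) (Pgl_be Q2 g c' σ hc') hb hθ
      have hE := Pgl_exp ((Q / g : ℕ) : ℝ) ((Q2 / g : ℕ) : ℝ) ((2 ^ j : ℕ) : ℝ) H g L1 L2 hP2r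
        hPPr hS1r hHr hgr hL1p hSL1 hSL2
      refine (le_trans hT ?_)
      refine mul_le_mul ?_ hE (by positivity) (by positivity)
      exact mul_le_mul_of_nonneg_right (mul_le_mul_of_nonneg_left hYt hC0) hV0
  have hsum : (((Q / g : ℕ) : ℝ) * ((Q2 / g : ℕ) : ℝ)) * ‖Pll Q Q2 g H f lam c c' θ τ‖ ≤
      (J : ℝ) * (C0 * Y * V * (((Q / g : ℕ) : ℝ) * ((Q2 / g : ℕ) : ℝ) * (2 * X))) := by
    have e1 : (((Q / g : ℕ) : ℝ) * ((Q2 / g : ℕ) : ℝ)) * ‖Pll Q Q2 g H f lam c c' θ τ‖ =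
        ‖(((Q / g : ℕ) : ℂ)) * (((Q2 / g : ℕ) : ℂ)) * Pll Q Q2 g H f lam c c' θ τ‖ := by
      rw [norm_mul, norm_mul, Complex.norm_natCast, Complex.norm_natCast]
    rw [e1, hdy]
    calc _ ≤ ∑ j ∈ range J, ‖Tll (Q / g) (Q2 / g) (2 ^ j) H f lam (al Q g c) (be Q2 g c' σ) θ τ‖ :=
          norm_sum_le _ _
      _ ≤ ∑ _j ∈ range J, C0 * Y * V * (((Q / g : ℕ) : ℝ) * ((Q2 / g : ℕ) : ℝ) * (2 * X)) :=
          sum_le_sum hterm
      _ = _ := by rw [sum_const, nsmul_eq_mul, card_range]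
  have hP2 : (0 : ℝ) < ((Q / g : ℕ) : ℝ) * ((Q2 / g : ℕ) : ℝ) := by positivity
  have hmain : ‖Pll Q Q2 g H f lam c c' θ τ‖ ≤ (J : ℝ) * (C0 * Y * V * (2 * X)) := by
    have e2 : (J : ℝ) * (C0 * Y * V * (((Q / g : ℕ) : ℝ) * ((Q2 / g : ℕ) : ℝ) * (2 * X))) =
        (((Q / g : ℕ) : ℝ) * ((Q2 / g : ℕ) : ℝ)) * ((J : ℝ) * (C0 * Y * V * (2 * X))) := by ring
    rw [e2] at hsum
    exact le_of_mul_le_mul_left hsum hP2
  have hJ2 : (J : ℝ) ≤ (4 + 2 / (ε / 2)) * Y := by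
    refine (Pgl_J (ε / 2) (by positivity) (Q2 / g) hP21).trans ?_
    apply mul_le_mul_of_nonneg_left _ (by positivity)
    apply Real.rpow_le_rpow (by positivity) _ (by positivity)
    calc ((Q2 / g : ℕ) : ℝ) ≤ (Q : ℝ) := hP2Q
      _ = (Q : ℝ) * 1 := (mul_one _).symm
      _ ≤ (Q : ℝ) * ((H : ℝ) * |(θ : ℝ)|) := mul_le_mul_of_nonneg_left hHθ (by linarith)
      _ = (Q : ℝ) * H * |(θ : ℝ)| := by ring
  have hYY : Y * Y = ((Q : ℝ) * H * |(θ : ℝ)|) ^ ε := by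
    rw [hY, ← Real.rpow_add (by positivity)]
    congr 1
    ring
  change ‖Pll Q Q2 g H f lam c c' θ τ‖ ≤ _
  calc ‖Pll Q Q2 g H f lam c c' θ τ‖ ≤ (J : ℝ) * (C0 * Y * V * (2 * X)) := hmain
    _ ≤ ((4 + 2 / (ε / 2)) * Y) * (C0 * Y * V * (2 * X)) :=
        mul_le_mul_of_nonneg_right hJ2 (by positivity)
    _ = ((4 + 2 / (ε / 2)) * (2 * C0)) * (Y * Y) * (V * X) := by ring
    _ = ((4 + 2 / (ε / 2)) * (2 * C0)) * (((Q : ℝ) * H * |(θ : ℝ)|) ^ ε) * (V * X) := by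
        rw [hYY]
    _ = _ := by ring

end Pool.Agent.Lib.TN
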