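import Pool.Agent.Lib.TN.AllG
import Pool.Agent.Lib.TN.F1
import Pool.Agent.Lib.TN.F2
import Pool.Agent.Lib.TN.F2a
import Pool.Agent.Lib.TN.F3
import Pool.Agent.Lib.TN.F4
import Pool.Agent.Lib.TN.F5
import Pool.Agent.Lib.TN.F6
import Pool.Agent.Lib.TN.F7
import Pool.Agent.Lib.TN.F8
import Pool.Agent.Lib.TN.F9
import Pool.Agent.Lib.TN.Pdl
import Pool.Agent.Lib.TN.Pgl
import Pool.Agent.Lib.TN.Tcl
import Pool.Agent.Lib.TN.Tif
import Pool.Agent.Lib.TN.Tpf
import Pool.Agent.Lib.TN.Trl

/-!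
MP_00e23e_nt, directory Lib/TN (THEOREM N, version with the factor f and two blocks): glue of the parts I, T and G: the
sum of the error terms (EEGStmt) from Weil's bound and the three elementary statements of part Mf.
-/

namespace Pool.Agent.Lib.TN

open Pool.Agent.Lib.TB

/-- the trilinear form with the factor f and coefficients lam h, from Weil's bound -/
theorem tPgl_of (h : WeilStmt) : PglStmt :=
  tPgl (tTrl tTcl (tTif (tIsq (tKsq h)) tTpf) tTdg (tTgf (tTgd tTgs tTgc) (tTge tTgs))) tPsl tPdl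

/-- the sum of the error terms of all pairs of moduli, with f and two blocks, from the trilinear form -/
theorem tEEG_of (h : PglStmt) (hs : SsclGStmt) (hz : SszeGStmt) : EEGStmt :=
  tF9 (tF8 tF1 (tF2 tWb (tF2a tWb tMta)) (tF3 hz)
    (tF6 tWb (tF4 (tWtr (tWf tWb) (tWx (tWf tWb))) hs) (tF5 h)) tF7 tMta)

end Pool.Agent.Lib.TN
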