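import Pool.Agent.Lib.TN.Tcs
import Pool.Agent.Lib.TN.Tph
import Pool.Agent.Lib.TN.Tim
import Pool.Agent.Lib.TN.Tdg
import Pool.Agent.Lib.TN.Tgs
import Pool.Agent.Lib.TN.Tgc
import Pool.Agent.Lib.TN.Tgd
import Pool.Agent.Lib.TN.Tge
import Pool.Agent.Lib.TN.Tgf
import Pool.Agent.Lib.TN.Tri
import Pool.Agent.Lib.TN.Psl
import Pool.Agent.Lib.TN.Pdy
import Pool.Agent.Lib.TN.Pgt

/-! MP_00e23e_nt, Lib/TN: part T complete (the trilinear form), from IsqStmt. -/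

namespace Pool.Agent.Lib.TN

/-- the trilinear form -/
theorem aTri (h : IsqStmt) : TriStmt :=
  tTri tTcs (tTim h tTph) tTdg (tTgf (tTgd tTgs tTgc) (tTge tTgs))

/-- the form for the pairs (g m, g n) -/
theorem aPgt (h : IsqStmt) : PgtStmt := tPgt (aTri h) tPsl tPdy

end Pool.Agent.Lib.TN
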