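import Pool.Agent.Lib.TB.AspS
import Pool.Agent.Lib.TB.LpS
import Pool.Agent.Lib.TN.Stm2

/-!
# TN: assembly, auxiliary inequalities
-/

namespace Pool.Agent.Lib.TN

open Finset Filter Pool.Agent.Lib.TB Pool.Agent.Lib.EH Pool.Agent.Results.MP_00e23e_nt

/-- The error term for an integer residue is bounded by the largest error term. -/
theorem AspN_err (y : ℝ) {d : ℕ} (hd : 1 ≤ d) (a : ℤ) (h : IsCoprime (d : ℤ) a) :
    |(pcz y d a : ℝ) - li y / (d.totient : ℝ)| ≤ maxErr y d := by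
  have h1 : (pcz y d a : ℝ) = (primeCount y d (Lprep a d) : ℝ) := by
    rw [← Lp_count y a d hd]
    unfold pcz
    rw [← Finset.sum_filter, Finset.sum_const, nsmul_eq_mul, mul_one, Finset.filter_filter]
    congr 2
    apply Finset.filter_congr
    intro p _
    rw [Int.modEq_comm, Int.modEq_iff_dvd]
  obtain ⟨h2, h3, _⟩ := Lprep_spec a d hd
  rw [h1]
  exact le_maxErr y d (Lprep a d) h2 h3 (Lprep_coprime a d hd h)

/-- Powers of `N = 2 ⌈x⌉`. -/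
theorem AspN_pow {x θ : ℝ} (hx : 16 ≤ x) (h0 : 0 ≤ θ) (h1 : θ ≤ 1) :
    x ^ θ ≤ ((2 * ⌈x⌉₊ : ℕ) : ℝ) ^ θ ∧ ((2 * ⌈x⌉₊ : ℕ) : ℝ) ^ θ ≤ 4 * x ^ θ := by
  obtain ⟨e1, e2, -, -⟩ := Asn_N hx
  have hx0 : 0 < x := by linarith
  refine ⟨Real.rpow_le_rpow hx0.le e1 h0, ?_⟩
  calc ((2 * ⌈x⌉₊ : ℕ) : ℝ) ^ θ ≤ (4 * x) ^ θ := Real.rpow_le_rpow (by positivity) e2 h0
    _ = 4 ^ θ * x ^ θ := Real.mul_rpow (by norm_num) hx0.le
    _ ≤ 4 * x ^ θ := by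
        apply mul_le_mul_of_nonneg_right _ (Real.rpow_nonneg hx0.le _)
        calc (4 : ℝ) ^ θ ≤ 4 ^ (1 : ℝ) := Real.rpow_le_rpow_of_exponent_le (by norm_num) h1
          _ = 4 := Real.rpow_one 4

/-- `RN δ ε N` is about `x ^ (1/2 - δ - ε)`. -/
theorem AspN_RN {x δ ε : ℝ} (hx : 16 ≤ x) (hr0 : 0 ≤ (1 : ℝ) / 2 - δ - ε) (hr1 : (1 : ℝ) / 2 - δ - ε ≤ 1) :
    1 ≤ RN δ ε (2 * ⌈x⌉₊) ∧ (RN δ ε (2 * ⌈x⌉₊) : ℝ) ≤ 4 * x ^ ((1 : ℝ) / 2 - δ - ε) ∧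
      x ^ ((1 : ℝ) / 2 - δ - ε) ≤ 2 * (RN δ ε (2 * ⌈x⌉₊) : ℝ) := by
  obtain ⟨e1, e2⟩ := AspN_pow hx hr0 hr1
  have h5 : (1 : ℝ) ≤ x ^ ((1 : ℝ) / 2 - δ - ε) := Real.one_le_rpow (by linarith) hr0
  have h6 : (RN δ ε (2 * ⌈x⌉₊) : ℝ) ≤ ((2 * ⌈x⌉₊ : ℕ) : ℝ) ^ ((1 : ℝ) / 2 - δ - ε) := by
    unfold RN
    exact Nat.floor_le (by positivity)
  have h7 : ((2 * ⌈x⌉₊ : ℕ) : ℝ) ^ ((1 : ℝ) / 2 - δ - ε) < (RN δ ε (2 * ⌈x⌉₊) : ℝ) + 1 := by
    unfold RN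
    exact Nat.lt_floor_add_one _
  have h8 : 1 ≤ RN δ ε (2 * ⌈x⌉₊) := by
    unfold RN
    rw [Nat.one_le_floor_iff]
    linarith
  have h9 : (1 : ℝ) ≤ (RN δ ε (2 * ⌈x⌉₊) : ℝ) := by exact_mod_cast h8
  exact ⟨h8, h6.trans e2, by linarith⟩

/-- The terms of the Bombieri-Vinogradov bound. -/
theorem AspN_bv {x R : ℝ} (hx : 16 ≤ x) (hlog : 1 ≤ Real.log x) (hR1 : 1 ≤ R) :
    Real.sqrt x * R * (Real.log (16 + Real.sqrt x / (R * Real.log x)) *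
      Real.log (Real.log (16 + Real.sqrt x / (R * Real.log x)))) ≤
      4 * (Real.sqrt x * R) * (Real.log x) ^ 2 := by
  have hx0 : 0 < x := by linarith
  have hs : Real.sqrt x ≤ x := by
    rw [Real.sqrt_le_left hx0.le]
    nlinarith
  have hs0 : 0 ≤ Real.sqrt x := Real.sqrt_nonneg x
  have hRL : 1 ≤ R * Real.log x := by nlinarith
  have h1 : Real.sqrt x / (R * Real.log x) ≤ x := (div_le_self hs0 hRL).trans hs
  have h1' : 0 ≤ Real.sqrt x / (R * Real.log x) := by positivity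
  obtain ⟨K, hK⟩ : ∃ K, K = 16 + Real.sqrt x / (R * Real.log x) := ⟨_, rfl⟩
  rw [← hK]
  have hK16 : 16 ≤ K := by rw [hK]; linarith
  have hK2 : K ≤ x ^ 2 := by rw [hK]; nlinarith
  have h2 : Real.log K ≤ 2 * Real.log x := by
    calc Real.log K ≤ Real.log (x ^ 2) := Real.log_le_log (by linarith) hK2
      _ = 2 * Real.log x := by rw [Real.log_pow]; push_cast; ring
  have h3 : 1 ≤ Real.log K := by
    rw [Real.le_log_iff_exp_le (by linarith)]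
    have := Real.exp_one_lt_d9
    linarith
  have h4 : Real.log (Real.log K) ≤ 2 * Real.log x := by
    have := Real.log_le_sub_one_of_pos (show 0 < Real.log K by linarith)
    linarith
  have h5 : 0 ≤ Real.log (Real.log K) := Real.log_nonneg h3
  have h6 : Real.log K * Real.log (Real.log K) ≤ 4 * (Real.log x) ^ 2 := by
    calc Real.log K * Real.log (Real.log K) ≤ (2 * Real.log x) * (2 * Real.log x) :=
          mul_le_mul h2 h4 h5 (by linarith)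
      _ = 4 * (Real.log x) ^ 2 := by ring
  calc Real.sqrt x * R * (Real.log K * Real.log (Real.log K)) ≤
      (Real.sqrt x * R) * (4 * (Real.log x) ^ 2) :=
        mul_le_mul_of_nonneg_left h6 (by positivity)
    _ = 4 * (Real.sqrt x * R) * (Real.log x) ^ 2 := by ring

/-- The sum of the largest error terms up to `R ≤ b x^r`, `r < 1/2`. -/
theorem AspN_bvsum {C₄ U b r x y : ℝ} {R : ℕ} (hC₄ : 0 ≤ C₄)
    (hx : 16 ≤ x) (hlog : 1 ≤ Real.log x) (hR1 : 1 ≤ R) (hR : (R : ℝ) ≤ b * x ^ r)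
    (hBV : ∑ e ∈ Icc 1 R, maxErr y e ≤ C₄ * (x / (Real.log x) ^ (U + 3) + Real.sqrt x * R *
      (Real.log (16 + Real.sqrt x / (R * Real.log x)) *
        Real.log (Real.log (16 + Real.sqrt x / (R * Real.log x))))))
    (h1 : 4 * b * x ^ ((1 : ℝ) / 2 + r) * (Real.log x) ^ (2 : ℝ) ≤ x / (Real.log x) ^ (U + 3)) :
    ∑ e ∈ Icc 1 R, maxErr y e ≤ 2 * C₄ * (x / (Real.log x) ^ (U + 3)) := by
  have hx0 : 0 < x := by linarith
  have hR1' : (1 : ℝ) ≤ R := by exact_mod_cast hR1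
  have hs0 : 0 ≤ Real.sqrt x := Real.sqrt_nonneg x
  refine hBV.trans ?_
  have h2 := AspN_bv hx hlog hR1'
  have h3 : 4 * (Real.sqrt x * R) * (Real.log x) ^ 2 ≤
      4 * b * x ^ ((1 : ℝ) / 2 + r) * (Real.log x) ^ (2 : ℝ) := by
    have e1 : Real.sqrt x * R ≤ b * x ^ ((1 : ℝ) / 2 + r) := by
      calc Real.sqrt x * R ≤ Real.sqrt x * (b * x ^ r) := mul_le_mul_of_nonneg_left hR hs0
        _ = b * (x ^ ((1 : ℝ) / 2) * x ^ r) := by rw [Real.sqrt_eq_rpow]; ring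
        _ = _ := by rw [← Real.rpow_add hx0]
    have e2 : (Real.log x) ^ (2 : ℝ) = (Real.log x) ^ 2 := by norm_cast
    rw [e2]
    have e3 : 0 ≤ (Real.log x) ^ 2 := sq_nonneg _
    nlinarith
  calc C₄ * (x / (Real.log x) ^ (U + 3) + Real.sqrt x * R *
      (Real.log (16 + Real.sqrt x / (R * Real.log x)) *
        Real.log (Real.log (16 + Real.sqrt x / (R * Real.log x))))) ≤
      C₄ * (x / (Real.log x) ^ (U + 3) + x / (Real.log x) ^ (U + 3)) := by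
        apply mul_le_mul_of_nonneg_left _ hC₄
        linarith
    _ = _ := by ring

/-- The low frequencies. -/
theorem AspN_lp {C₃ C₄ U r x y S : ℝ} {R : ℕ} (hC₃ : 0 ≤ C₃)
    (hx : 16 ≤ x) (hlog : 1 ≤ Real.log x) (hyx : y ≤ x) (hR1 : 1 ≤ R)
    (hR2 : x ^ r ≤ 2 * (R : ℝ))
    (hLp : S ≤ C₃ * (Real.log x) ^ 3 * (∑ e ∈ Icc 1 R, maxErr y e + y / R))
    (hBV : ∑ e ∈ Icc 1 R, maxErr y e ≤ 2 * C₄ * (x / (Real.log x) ^ (U + 3)))
    (h2 : 2 * C₃ * x ^ (1 - r) * (Real.log x) ^ (3 : ℝ) ≤ x / (Real.log x) ^ U) :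
    S ≤ (2 * C₃ * C₄ + 1) * (x / (Real.log x) ^ U) := by
  have hx0 : 0 < x := by linarith
  have hR1' : (1 : ℝ) ≤ R := by exact_mod_cast hR1
  have hR0 : (0 : ℝ) < R := by linarith
  obtain ⟨L, hL⟩ : ∃ L, Real.log x = L := ⟨_, rfl⟩
  rw [hL] at hlog hBV h2 hLp ⊢
  have hL0 : 0 < L := by linarith
  have h4 : y / R ≤ 2 * x ^ (1 - r) := by
    rw [div_le_iff₀ hR0]
    have e1 : x = x ^ (1 - r) * x ^ r := by
      rw [← Real.rpow_add hx0]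
      simp
    have e2 : 0 ≤ x ^ (1 - r) := Real.rpow_nonneg hx0.le _
    calc y ≤ x ^ (1 - r) * x ^ r := by rw [← e1]; exact hyx
      _ ≤ x ^ (1 - r) * (2 * (R : ℝ)) := mul_le_mul_of_nonneg_left hR2 e2
      _ = 2 * x ^ (1 - r) * R := by ring
  have h8 : L ^ 3 * (x / L ^ (U + 3)) = x / L ^ U := by
    rw [Real.rpow_add hL0]
    norm_cast
    have := (Real.rpow_pos_of_pos hL0 U).ne'
    field_simp
  have h10 : L ^ (3 : ℝ) = L ^ 3 := by norm_cast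
  rw [h10] at h2
  calc S ≤ C₃ * L ^ 3 * (∑ e ∈ Icc 1 R, maxErr y e + y / R) := hLp
    _ ≤ C₃ * L ^ 3 * (2 * C₄ * (x / L ^ (U + 3)) + 2 * x ^ (1 - r)) := by
        apply mul_le_mul_of_nonneg_left _ (by positivity)
        linarith
    _ = 2 * C₃ * C₄ * (L ^ 3 * (x / L ^ (U + 3))) + 2 * C₃ * x ^ (1 - r) * L ^ 3 := by ring
    _ ≤ 2 * C₃ * C₄ * (x / L ^ U) + x / L ^ U := by
        rw [h8]
        linarith
    _ = _ := by ring

/-- The bound of the bad sets. -/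
theorem AspN_card {c₂ E U x V J k P : ℝ} {m : ℕ} (hx : 16 ≤ x) (hlog : 1 ≤ Real.log x) (hk : 0 ≤ k)
    (hc₂ : 0 ≤ c₂) (hE : 0 ≤ E) (hP : P ≤ x) (hJ1 : 1 ≤ J) (hJ : J ≤ 5 * Real.log x)
    (hV : V = x / (Real.log x) ^ U) (hbig : 50 * E * (Real.log x) ^ (2 * U + 2) ≤ x)
    (h : k * (V / J) ^ 2 ≤ P * (c₂ * x * (Real.log x) ^ m + k * E)) :
    k ≤ 50 * c₂ * (Real.log x) ^ (2 * U + 2 + m) := by
  have hx0 : 0 < x := by linarith
  obtain ⟨L, hL⟩ : ∃ L, Real.log x = L := ⟨_, rfl⟩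
  rw [hL] at hlog hJ hV hbig h ⊢
  have hL0 : 0 < L := by linarith
  have hLU : 0 < L ^ U := Real.rpow_pos_of_pos hL0 U
  have hLp : 0 < L ^ (2 * U + 2) := Real.rpow_pos_of_pos hL0 _
  have h1 : x ^ 2 / (25 * L ^ (2 * U + 2)) ≤ (V / J) ^ 2 := by
    have e1 : L ^ (2 * U + 2) = (L ^ U) ^ 2 * L ^ 2 := by
      rw [Real.rpow_add hL0, mul_comm 2 U, Real.rpow_mul hL0.le]
      norm_cast
    rw [e1, hV]
    have e2 : x ^ 2 / (25 * ((L ^ U) ^ 2 * L ^ 2)) = (x / L ^ U / (5 * L)) ^ 2 := by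
      field_simp
      ring
    rw [e2]
    apply pow_le_pow_left₀ (by positivity)
    exact div_le_div_of_nonneg_left (by positivity) (by linarith) hJ
  have h4 : 0 ≤ c₂ * x * L ^ m + k * E := by positivity
  have h5 : k * (x ^ 2 / (25 * L ^ (2 * U + 2))) ≤ x * (c₂ * x * L ^ m + k * E) :=
    (mul_le_mul_of_nonneg_left h1 hk).trans (h.trans (mul_le_mul_of_nonneg_right hP h4))
  have h6 : E ≤ x / (50 * L ^ (2 * U + 2)) := by
    rw [le_div_iff₀ (by positivity)]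
    linarith
  have h7 : k * (x ^ 2 / (25 * L ^ (2 * U + 2))) ≤
      x * (c₂ * x * L ^ m) + x * (k * (x / (50 * L ^ (2 * U + 2)))) := by
    have := mul_le_mul_of_nonneg_left (mul_le_mul_of_nonneg_left h6 hk) hx0.le
    linarith
  have h8 : k / (50 * L ^ (2 * U + 2)) * x ^ 2 ≤ (c₂ * L ^ m) * x ^ 2 := by
    have e1 : k * (x ^ 2 / (25 * L ^ (2 * U + 2))) = 2 * (k / (50 * L ^ (2 * U + 2)) * x ^ 2) := by
      field_simp
      ring
    have e2 : x * (k * (x / (50 * L ^ (2 * U + 2)))) = k / (50 * L ^ (2 * U + 2)) * x ^ 2 := by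
      field_simp
    rw [e1, e2] at h7
    linarith
  have h9 : k / (50 * L ^ (2 * U + 2)) ≤ c₂ * L ^ m := le_of_mul_le_mul_right h8 (by positivity)
  rw [div_le_iff₀ (by positivity)] at h9
  have h10 : L ^ (2 * U + 2 + m) = L ^ (2 * U + 2) * L ^ m := by
    rw [Real.rpow_add hL0, Real.rpow_natCast]
  rw [h10]
  linarith

end Pool.Agent.Lib.TN
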