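import Pool.Agent.Lib.TN.AspN
import Pool.Agent.Lib.TN.CntN
import Pool.Agent.Lib.BV.SpecF

/-!
# TN: theorem N at one point `y`, for large `x`
-/

namespace Pool.Agent.Lib.TN

open Finset Filter Pool.Agent.Lib.TB Pool.Agent.Lib.EH Pool.Agent.Results.MP_00e23e_nt

/-- Theorem N at one point `y ∈ [x / (log x)^K, x]`, for large `x`. -/
theorem AsqN_at (hOff : OffNStmt) (hWb : WbStmt) (hDia : DiaKStmt) (hLp : LpSStmt)
    (hBV : Pool.Agent.Lib.BV.ExtStmt) {δ ε : ℝ} (hδ0 : 0 ≤ δ) (hδ : δ < 1 / 18) (hε : 0 < ε)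
    (hδε : 2 * δ + ε ≤ 1 / 2 - 7 * δ - ε) :
    ∃ η : ℝ, 0 < η ∧ ∃ k : ℕ, ∀ U K : ℝ, 0 < U → ∃ C : ℝ, 0 ≤ C ∧ ∀ᶠ x : ℝ in atTop,
      ∀ y : ℝ, x / (Real.log x) ^ K ≤ y → y ≤ x →
      ∀ (I : Finset ℕ) (s : ℕ → ℕ → ℤ) (Ms : ℕ → Finset ℕ),
      (∀ i ∈ I, ∀ d ∈ Ms i, 1 ≤ d ∧ (d : ℝ) ≤ x ^ ((1 : ℝ) / 2 + δ) ∧ IsCoprime (d : ℤ) (s i d) ∧
        Conv (x ^ (2 * δ + ε)) (x ^ ((1 : ℝ) / 2 - 7 * δ - ε)) d) →
      (∀ i ∈ I, ∀ d ∈ Ms i, |(s i d : ℝ)| ≤ x) →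
      (∀ i ∈ I, (((Ms i).image (s i)).card : ℝ) ≤ x ^ η) →
      (∀ i ∈ I, ∀ i' ∈ I, i ≠ i' → ∀ d ∈ Ms i, d ∈ Ms i' → s i d ≠ s i' d) →
      ∃ S ⊆ I, (S.card : ℝ) ≤ C * (Real.log x) ^ (2 * U + 3 + k) ∧ ∀ i ∈ I, i ∉ S →
          ∑ d ∈ Ms i, |(pcz y d (s i d) : ℝ) - li y / (d.totient : ℝ)| ≤
            C * (x / (Real.log x) ^ U) := by
  classical
  obtain ⟨j, C₁', η', κ', hη', hκ', hoff'⟩ := hOff δ (ε / 2) hδ0 (by linarith) (by linarith)
  obtain ⟨C₂', k, hdia'⟩ := hDia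
  obtain ⟨C₃', hlp'⟩ := hLp
  -- non-negative constants
  obtain ⟨C₁, hC₁⟩ : ∃ C₁, C₁ = max C₁' 0 := ⟨_, rfl⟩
  obtain ⟨C₂, hC₂⟩ : ∃ C₂, C₂ = max C₂' 0 := ⟨_, rfl⟩
  obtain ⟨C₃, hC₃⟩ : ∃ C₃, C₃ = max C₃' 0 := ⟨_, rfl⟩
  obtain ⟨η, hη⟩ : ∃ η, η = min η' 1 := ⟨_, rfl⟩
  obtain ⟨κ, hκ⟩ : ∃ κ, κ = min κ' (1 / 4) := ⟨_, rfl⟩
  have hC₁0 : 0 ≤ C₁ := by rw [hC₁]; exact le_max_right _ _
  have hC₂0 : 0 ≤ C₂ := by rw [hC₂]; exact le_max_right _ _
  have hC₃0 : 0 ≤ C₃ := by rw [hC₃]; exact le_max_right _ _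
  have hη0 : 0 < η := by rw [hη]; exact lt_min hη' one_pos
  have hη1 : η ≤ 1 := by rw [hη]; exact min_le_right _ _
  have hκ0 : 0 < κ := by rw [hκ]; exact lt_min hκ' (by norm_num)
  have hκ1 : κ ≤ 1 / 4 := by rw [hκ]; exact min_le_right _ _
  have hκ2 : κ ≤ κ' := by rw [hκ]; exact min_le_left _ _
  have hdia : ∀ (N R Q : ℕ) (c : ℤ → ℕ → ℝ) (A : Finset ℤ) (K : ℝ),
      2 ≤ N → R ≤ N → Q ≤ N → (∀ a ∈ A, ∀ d, |c a d| ≤ 1) → (∀ d, ∑ a ∈ A, |c a d| ≤ K) →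
      (∀ a ∈ A, |a| ≤ (N : ℤ)) →
      ∑ a ∈ A, ∑ n ∈ Icc (-(N : ℤ)) N, tri N n * (FF R Q (c a) (n - a)) ^ 2 ≤
        C₂ * K * (N : ℝ) * (Real.log N) ^ k := by
    intro N R Q c A K h1 h2 h3 h4 h5 h6
    refine (hdia' N R Q c A K h1 h2 h3 h4 h5 h6).trans ?_
    have hN1 : (1 : ℝ) ≤ N := by exact_mod_cast (by omega : 1 ≤ N)
    have hK : 0 ≤ K := le_trans (Finset.sum_nonneg fun a _ => abs_nonneg _) (h5 0)
    have e2 : 0 ≤ (Real.log N) ^ k := pow_nonneg (Real.log_nonneg hN1) k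
    apply mul_le_mul_of_nonneg_right _ e2
    apply mul_le_mul_of_nonneg_right _ (by linarith)
    exact mul_le_mul_of_nonneg_right (by rw [hC₂]; exact le_max_left _ _) hK
  refine ⟨η / 4, by positivity, k, ?_⟩
  intro U K hU
  obtain ⟨C₄', hbv'⟩ := hBV (U + 3) (by linarith)
  obtain ⟨C₄, hC₄⟩ : ∃ C₄, C₄ = max C₄' 0 := ⟨_, rfl⟩
  have hC₄0 : 0 ≤ C₄ := by rw [hC₄]; exact le_max_right _ _
  obtain ⟨c₂, hc₂⟩ : ∃ c₂ : ℝ, c₂ = 4 ^ (j + 1) * (2 * (C₂ * (8 * (j + 1)) * 2 ^ k)) := ⟨_, rfl⟩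
  have hc₂0 : 0 ≤ c₂ := by rw [hc₂]; positivity
  obtain ⟨r, hr⟩ : ∃ r : ℝ, r = (1 : ℝ) / 2 - δ - ε / 2 := ⟨_, rfl⟩
  have hr0 : 0 < r := by rw [hr]; linarith
  have hr1 : r < 1 / 2 := by rw [hr]; linarith
  refine ⟨250 * c₂ + 2 * C₄ + 2 * C₃ * C₄ + 3, by positivity, ?_⟩
  filter_upwards [eventually_ge_atTop (16 : ℝ), eventually_ge_atTop (8 * ((j : ℝ) + 1)),
    Asy_pow (50 * (4 ^ (j + 1) * (4 * C₁))) (2 * U + 2) (1 - η / 2) (by linarith),
    Asy_div 1 0 U (1 / 2 + δ) (by linarith),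
    Asy_div 4 0 K (6 / 10) (by norm_num),
    Asy_div (4 * 4) 2 (U + 3) (1 / 2 + r) (by linarith),
    Asy_div (4 * 8) 2 (U + 3) (1 / 2 + (1 / 2 - κ)) (by linarith),
    Asy_div (2 * C₃) 3 U (1 - r) (by linarith),
    (tendsto_rpow_atTop (show 0 < ε / 2 by linarith)).eventually_ge_atTop 4]
    with x hx hxj e1 e2 e3 e4 e5 e6 e7 y hy hyx I s Ms hMs hsx hsM hne
  have hx0 : 0 < x := by linarith
  have hx1 : 1 ≤ x := by linarith
  have hlog : 1 ≤ Real.log x := by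
    rw [Real.le_log_iff_exp_le hx0]
    have := Real.exp_one_lt_d9
    linarith
  have hL0 : 0 < Real.log x := by linarith
  rw [Real.rpow_zero, mul_one] at e2 e3
  have hx6 : 1 ≤ x ^ ((6 : ℝ) / 10) := Real.one_le_rpow hx1 (by norm_num)
  have hy6 : 2 ≤ y := by
    have := e3.trans hy
    linarith
  obtain ⟨hN1, hN2, hN3, hN4⟩ := Asn_N hx
  obtain ⟨hR1, hR2, hR3⟩ := AspN_RN (δ := δ) (ε := ε / 2) hx (by rw [← hr]; exact hr0.le)
    (by rw [← hr]; linarith)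
  obtain ⟨hJ1, hJ2⟩ := Asn_J hx
  have hQ1 := AspN_pow (θ := (1 : ℝ) / 2 - κ) hx (by linarith) (by linarith)
  have hQ2 := AspN_pow (θ := (1 : ℝ) / 2 + δ) hx (by linarith) (by linarith)
  have hQ3 := AspN_pow (θ := 2 * δ + ε / 2) hx (by linarith) (by linarith)
  have hQ4 := AspN_pow (θ := (1 : ℝ) / 2 - 7 * δ - ε / 2) hx (by linarith) (by linarith)
  have hQ5 := AspN_pow (θ := 1 - η / 2) hx (by linarith) (by linarith)
  obtain ⟨N, hN⟩ : ∃ N, N = 2 * ⌈x⌉₊ := ⟨_, rfl⟩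
  rw [← hN] at hN1 hN2 hN3 hN4 hR1 hR2 hR3 hJ1 hJ2 hQ1 hQ2 hQ3 hQ4 hQ5
  rw [← hr] at hR2 hR3
  obtain ⟨J, hJ⟩ : ∃ J, J = Nat.clog 2 N := ⟨_, rfl⟩
  rw [← hJ] at hJ1 hJ2
  obtain ⟨R, hR⟩ : ∃ R, R = RN δ (ε / 2) N := ⟨_, rfl⟩
  rw [← hR] at hR1 hR2 hR3
  obtain ⟨D, hD⟩ : ∃ D, D = ⌊x ^ ((1 : ℝ) / 2 + δ)⌋₊ := ⟨_, rfl⟩
  have hN0 : (0 : ℝ) < N := by linarith
  have hNr1 : (1 : ℝ) ≤ N := by linarith
  have hDx : (D : ℝ) ≤ x ^ ((1 : ℝ) / 2 + δ) := by rw [hD]; exact Nat.floor_le (by positivity)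
  have hxD : x ^ ((1 : ℝ) / 2 + δ) ≤ x := by
    calc x ^ ((1 : ℝ) / 2 + δ) ≤ x ^ (1 : ℝ) := Real.rpow_le_rpow_of_exponent_le hx1 (by linarith)
      _ = x := Real.rpow_one x
  have hDx' : (D : ℝ) ≤ x := hDx.trans hxD
  have hDN : D ≤ N := by
    have : (D : ℝ) ≤ N := by linarith
    exact_mod_cast this
  have hRx : (R : ℝ) ≤ x := by
    have h1 : x ^ r ≤ x ^ ((1 : ℝ) / 2) := Real.rpow_le_rpow_of_exponent_le hx1 hr1.le
    have h2 : 4 * x ^ ((1 : ℝ) / 2) ≤ x := by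
      rw [← Real.sqrt_eq_rpow]
      have h3 : 4 ≤ Real.sqrt x := by
        rw [show (4 : ℝ) = Real.sqrt 16 by
          rw [show (16 : ℝ) = 4 ^ 2 by norm_num]; exact (Real.sqrt_sq (by norm_num)).symm]
        exact Real.sqrt_le_sqrt hx
      calc 4 * Real.sqrt x ≤ Real.sqrt x * Real.sqrt x :=
            mul_le_mul_of_nonneg_right h3 (Real.sqrt_nonneg x)
        _ = x := Real.mul_self_sqrt hx0.le
    linarith
  have hRN : R ≤ N := by
    have : (R : ℝ) ≤ N := by linarith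
    exact_mod_cast this
  obtain ⟨Q₀, hQ₀⟩ : ∃ Q₀, Q₀ = ⌈(N : ℝ) ^ ((1 : ℝ) / 2 - κ)⌉₊ := ⟨_, rfl⟩
  have hNκ : 1 ≤ (N : ℝ) ^ ((1 : ℝ) / 2 - κ) := Real.one_le_rpow hNr1 (by linarith)
  have hQ₀1 : (N : ℝ) ^ ((1 : ℝ) / 2 - κ) ≤ Q₀ := by rw [hQ₀]; exact Nat.le_ceil _
  have hQ₀2 : (Q₀ : ℝ) ≤ 8 * x ^ ((1 : ℝ) / 2 - κ) := by
    have := (Nat.ceil_lt_add_one (show 0 ≤ (N : ℝ) ^ ((1 : ℝ) / 2 - κ) by linarith)).le
    rw [← hQ₀] at this
    linarith [hQ1.2]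
  have hQ₀n : 1 ≤ Q₀ := by
    have : (1 : ℝ) ≤ Q₀ := hNκ.trans hQ₀1
    exact_mod_cast this
  have hDJ : D ≤ Q₀ * 2 ^ J := by
    have h1 : N ≤ 2 ^ J := by rw [hJ]; exact Nat.le_pow_clog (by norm_num) N
    calc D ≤ 1 * 2 ^ J := by omega
      _ ≤ Q₀ * 2 ^ J := Nat.mul_le_mul_right _ hQ₀n
  have hV : 0 < x / (Real.log x) ^ U := div_pos hx0 (Real.rpow_pos_of_pos hL0 U)
  obtain ⟨P, hP⟩ : ∃ P : Finset ℕ, P = (Icc 1 ⌊y⌋₊).filter Nat.Prime := ⟨_, rfl⟩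
  have hyf : ⌊y⌋₊ ≤ ⌊x⌋₊ := Nat.floor_le_floor hyx
  have hMD : ∀ i ∈ I, Ms i ⊆ Icc 1 D := by
    intro i hi d hd
    obtain ⟨h1, h2, -, -⟩ := hMs i hi d hd
    rw [Finset.mem_Icc]
    refine ⟨h1, ?_⟩
    rw [hD]
    exact Nat.le_floor h2
  obtain ⟨B, hB0, hB1, hB2⟩ := CntN_count (E := C₁ * (N : ℝ) ^ (1 - η))
    (L1 := x ^ (2 * δ + ε)) (L2 := x ^ ((1 : ℝ) / 2 - 7 * δ - ε)) (R := R) (Q₀ := Q₀) (j := j)
    hWb hdia hC₂0 (by positivity) (by omega) hRN hDN hQ₀n hDJ hJ1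
    (by
      intro Q hQ0 hQD c c' a b h1 h2 h3 h4 h5 h6 h7
      have h8 : (N : ℝ) ^ ((1 : ℝ) / 2 - κ') ≤ Q := by
        calc (N : ℝ) ^ ((1 : ℝ) / 2 - κ') ≤ (N : ℝ) ^ ((1 : ℝ) / 2 - κ) :=
              Real.rpow_le_rpow_of_exponent_le hNr1 (by linarith)
          _ ≤ Q₀ := hQ₀1
          _ ≤ Q := by exact_mod_cast hQ0
      have h9 : (Q : ℝ) ≤ 2 * (N : ℝ) ^ ((1 : ℝ) / 2 + δ) := by
        have : (Q : ℝ) ≤ D := by exact_mod_cast hQD.le
        have h0 : 0 ≤ (N : ℝ) ^ ((1 : ℝ) / 2 + δ) := by positivity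
        linarith [hQ2.1]
      have h10 : (N : ℝ) ^ (2 * δ + ε / 2) ≤ x ^ (2 * δ + ε) := by
        refine hQ3.2.trans ?_
        have e : x ^ (2 * δ + ε) = x ^ (ε / 2) * x ^ (2 * δ + ε / 2) := by
          rw [← Real.rpow_add hx0]
          congr 1
          ring
        rw [e]
        exact mul_le_mul_of_nonneg_right e7 (by positivity)
      have h11 : x ^ ((1 : ℝ) / 2 - 7 * δ - ε) ≤ (N : ℝ) ^ ((1 : ℝ) / 2 - 7 * δ - ε / 2) :=
        (Real.rpow_le_rpow_of_exponent_le hx1 (by linarith)).trans hQ4.1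
      have h12 := hoff' N Q (x ^ (2 * δ + ε)) (x ^ ((1 : ℝ) / 2 - 7 * δ - ε)) c c' a b (by omega)
        h8 h9 h10 h11 h1 h2 h3 h4 h5 h6 h7
      rw [← hR] at h12
      refine le_trans h12 ?_
      have e1 : (N : ℝ) ^ (1 - η') ≤ (N : ℝ) ^ (1 - η) :=
        Real.rpow_le_rpow_of_exponent_le hNr1 (by rw [hη]; linarith [min_le_left η' 1])
      have e2 : 0 ≤ (N : ℝ) ^ (1 - η') := Real.rpow_nonneg (by linarith) _
      calc C₁' * (N : ℝ) ^ (1 - η') ≤ C₁ * (N : ℝ) ^ (1 - η') :=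
            mul_le_mul_of_nonneg_right (by rw [hC₁]; exact le_max_left _ _) e2
        _ ≤ _ := mul_le_mul_of_nonneg_left e1 hC₁0)
    I s Ms hMD (fun i hi d hd => (hMs i hi d hd).2.2.2)
    (by
      intro i hi d hd
      have h1 : ((|s i d| : ℤ) : ℝ) ≤ ((N : ℤ) : ℝ) := by
        push_cast
        have := hsx i hi d hd
        linarith
      exact_mod_cast h1) hsM hne P (by
      intro p hp
      rw [hP, Finset.mem_filter, Finset.mem_Icc] at hp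
      omega) hV
  have hPc : (P.card : ℝ) ≤ x := by
    have h1 : P.card ≤ ⌊x⌋₊ := by
      rw [hP]
      refine (Finset.card_filter_le _ _).trans ?_
      rw [Nat.card_Icc]
      omega
    calc (P.card : ℝ) ≤ (⌊x⌋₊ : ℝ) := by exact_mod_cast h1
      _ ≤ x := Nat.floor_le hx0.le
  -- the size of the sets of values is absorbed
  have hM : (x ^ (η / 4)) ^ 2 * (C₁ * (N : ℝ) ^ (1 - η)) ≤ C₁ * (4 * x ^ (1 - η / 2)) := by
    have h1 : (x ^ (η / 4)) ^ 2 ≤ (N : ℝ) ^ (η / 2) := by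
      calc (x ^ (η / 4)) ^ 2 = x ^ (η / 2) := by
            rw [← Real.rpow_natCast, ← Real.rpow_mul hx0.le]
            congr 1
            push_cast
            ring
        _ ≤ (N : ℝ) ^ (η / 2) := Real.rpow_le_rpow hx0.le hN1 (by linarith)
    have h2 : (N : ℝ) ^ (1 - η / 2) = (N : ℝ) ^ (η / 2) * (N : ℝ) ^ (1 - η) := by
      rw [← Real.rpow_add hN0]
      congr 1
      ring
    calc (x ^ (η / 4)) ^ 2 * (C₁ * (N : ℝ) ^ (1 - η)) ≤
          (N : ℝ) ^ (η / 2) * (C₁ * (N : ℝ) ^ (1 - η)) :=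
          mul_le_mul_of_nonneg_right h1 (by positivity)
      _ = C₁ * (N : ℝ) ^ (1 - η / 2) := by rw [h2]; ring
      _ ≤ _ := mul_le_mul_of_nonneg_left hQ5.2 hC₁0
  have hN'x : ((2 * ((j + 1) * N) : ℕ) : ℝ) ≤ 8 * ((j : ℝ) + 1) * x := by
    push_cast
    calc 2 * (((j : ℝ) + 1) * (N : ℝ)) = 2 * ((j : ℝ) + 1) * N := by ring
      _ ≤ 2 * ((j : ℝ) + 1) * (4 * x) := mul_le_mul_of_nonneg_left hN2 (by positivity)
      _ = 8 * ((j : ℝ) + 1) * x := by ring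
  have hlogN' : Real.log ((2 * ((j + 1) * N) : ℕ) : ℝ) ≤ 2 * Real.log x := by
    calc Real.log ((2 * ((j + 1) * N) : ℕ) : ℝ) ≤ Real.log (x ^ 2) := by
          apply Real.log_le_log
          · have : 0 < 2 * ((j + 1) * N) := by positivity
            exact_mod_cast this
          · calc ((2 * ((j + 1) * N) : ℕ) : ℝ) ≤ 8 * ((j : ℝ) + 1) * x := hN'x
              _ ≤ x * x := mul_le_mul_of_nonneg_right hxj hx0.le
              _ = x ^ 2 := by ring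
      _ = 2 * Real.log x := by rw [Real.log_pow]; push_cast; ring
  have hlogN'0 : 0 ≤ Real.log ((2 * ((j + 1) * N) : ℕ) : ℝ) := by
    apply Real.log_nonneg
    have : 1 ≤ 2 * ((j + 1) * N) := Nat.mul_pos (by norm_num) (Nat.mul_pos (by omega) (by omega))
    exact_mod_cast this
  refine ⟨(range J).biUnion B, Finset.biUnion_subset.2 fun t _ => hB0 t, ?_, ?_⟩
  · have h1 : ∀ t ∈ range J, ((B t).card : ℝ) ≤ 50 * c₂ * (Real.log x) ^ (2 * U + 2 + k) := by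
      intro t ht
      refine AspN_card (E := 4 ^ (j + 1) * (C₁ * (4 * x ^ (1 - η / 2)))) hx hlog (Nat.cast_nonneg _)
        hc₂0 (by positivity) hPc (by exact_mod_cast hJ1) hJ2 rfl ?_ ((hB2 t (Finset.mem_range.1 ht)).trans ?_)
      · calc 50 * (4 ^ (j + 1) * (C₁ * (4 * x ^ (1 - η / 2)))) * (Real.log x) ^ (2 * U + 2) =
              50 * (4 ^ (j + 1) * (4 * C₁)) * x ^ (1 - η / 2) * (Real.log x) ^ (2 * U + 2) := by ring
          _ ≤ x := e1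
      · apply mul_le_mul_of_nonneg_left _ (Nat.cast_nonneg _)
        have t1 : (Real.log ((2 * ((j + 1) * N) : ℕ) : ℝ)) ^ k ≤ 2 ^ k * (Real.log x) ^ k := by
          calc (Real.log ((2 * ((j + 1) * N) : ℕ) : ℝ)) ^ k ≤ (2 * Real.log x) ^ k :=
                pow_le_pow_left₀ hlogN'0 hlogN' k
            _ = _ := mul_pow _ _ _
        have t2 : C₂ * ((2 * ((j + 1) * N) : ℕ) : ℝ) * (Real.log ((2 * ((j + 1) * N) : ℕ) : ℝ)) ^ k ≤
            C₂ * (8 * ((j : ℝ) + 1) * x) * (2 ^ k * (Real.log x) ^ k) := by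
          apply mul_le_mul _ t1 (by positivity) (by positivity)
          exact mul_le_mul_of_nonneg_left hN'x hC₂0
        have t3 : ((B t).card : ℝ) * ((x ^ (η / 4)) ^ 2 * (C₁ * (N : ℝ) ^ (1 - η))) ≤
            (B t).card * (C₁ * (4 * x ^ (1 - η / 2))) :=
          mul_le_mul_of_nonneg_left hM (Nat.cast_nonneg _)
        calc 4 ^ (j + 1) * (2 * (C₂ * ((2 * ((j + 1) * N) : ℕ) : ℝ) *
              (Real.log ((2 * ((j + 1) * N) : ℕ) : ℝ)) ^ k) +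
              (B t).card * ((x ^ (η / 4)) ^ 2 * (C₁ * (N : ℝ) ^ (1 - η)))) ≤
              4 ^ (j + 1) * (2 * (C₂ * (8 * ((j : ℝ) + 1) * x) * (2 ^ k * (Real.log x) ^ k)) +
              (B t).card * (C₁ * (4 * x ^ (1 - η / 2)))) := by
              apply mul_le_mul_of_nonneg_left _ (by positivity)
              linarith
          _ = _ := by rw [hc₂]; ring
    have h2 : (((range J).biUnion B).card : ℝ) ≤
        J * (50 * c₂ * (Real.log x) ^ (2 * U + 2 + k)) := by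
      calc (((range J).biUnion B).card : ℝ) ≤ ((∑ t ∈ range J, (B t).card : ℕ) : ℝ) := by
            exact_mod_cast Finset.card_biUnion_le
        _ = ∑ t ∈ range J, ((B t).card : ℝ) := by push_cast; rfl
        _ ≤ ∑ t ∈ range J, (50 * c₂ * (Real.log x) ^ (2 * U + 2 + k)) := Finset.sum_le_sum h1
        _ = _ := by rw [Finset.sum_const, Finset.card_range, nsmul_eq_mul]
    have h3 : (Real.log x) ^ (2 * U + 3 + k) = (Real.log x) ^ (2 * U + 2 + k) * Real.log x := by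
      rw [show 2 * U + 3 + k = (2 * U + 2 + k) + 1 by ring, Real.rpow_add hL0, Real.rpow_one]
    have h4 : 0 ≤ (Real.log x) ^ (2 * U + 2 + k) := Real.rpow_nonneg hL0.le _
    have h5 : 0 ≤ 50 * c₂ * (Real.log x) ^ (2 * U + 2 + k) := by positivity
    calc (((range J).biUnion B).card : ℝ) ≤
          J * (50 * c₂ * (Real.log x) ^ (2 * U + 2 + k)) := h2
      _ ≤ (5 * Real.log x) * (50 * c₂ * (Real.log x) ^ (2 * U + 2 + k)) :=
          mul_le_mul_of_nonneg_right hJ2 h5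
      _ = 250 * c₂ * (Real.log x) ^ (2 * U + 3 + k) := by rw [h3]; ring
      _ ≤ _ := by
          apply mul_le_mul_of_nonneg_right _ (Real.rpow_nonneg hL0.le _)
          have : 0 ≤ C₃ * C₄ := by positivity
          linarith
  · intro i hi hiS
    have hgg := hB1 i hi (by
      intro t ht hmem
      exact hiS (Finset.mem_biUnion.2 ⟨t, Finset.mem_range.2 ht, hmem⟩))
    have hbvR : ∀ (R : ℕ), 1 ≤ R → ∑ e ∈ Icc 1 R, maxErr y e ≤
        C₄ * (x / (Real.log x) ^ (U + 3) + Real.sqrt x * R *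
          (Real.log (16 + Real.sqrt x / (R * Real.log x)) *
            Real.log (Real.log (16 + Real.sqrt x / (R * Real.log x))))) := by
      intro R hR1
      refine (hbv' x R (fun _ => y) hx hR1 (fun _ => ⟨hy6, hyx⟩)).trans ?_
      unfold Pool.Agent.Lib.BV.Kf
      have h0 := Asp_nonneg hx hlog (show (1 : ℝ) ≤ (R : ℝ) by exact_mod_cast hR1)
      have h1 : 0 ≤ x / (Real.log x) ^ (U + 3) := by
        have := Real.rpow_pos_of_pos hL0 (U + 3)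
        positivity
      exact mul_le_mul_of_nonneg_right (by rw [hC₄]; exact le_max_left _ _) (by linarith)
    have hbv1 := AspN_bvsum (U := U) hC₄0 hx hlog hR1 hR2 (hbvR R hR1) e4
    have hbv2 := AspN_bvsum (U := U) hC₄0 hx hlog hQ₀n hQ₀2 (hbvR Q₀ hQ₀n) e5
    have hlpa := AspN_lp (U := U) (C₄ := C₄) hC₃0 hx hlog hyx hR1 hR3
      (S := ∑ d ∈ (Icc 1 D).filter (fun d : ℕ => IsCoprime (d : ℤ) (s i d)),
        |∑ p ∈ (Icc 1 ⌊y⌋₊).filter Nat.Prime, ld R d ((p : ℤ) - s i d) - li y / (d.totient : ℝ)|) (by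
      refine (hlp' x y R D (s i) (by linarith) (by linarith) hR1 hRx hDx').trans ?_
      have h1 : 0 ≤ (Real.log x) ^ 3 := pow_nonneg hL0.le 3
      have h2 : 0 ≤ ∑ e ∈ Icc 1 R, maxErr y e + y / (R : ℝ) := by
        have : 0 ≤ ∑ e ∈ Icc 1 R, maxErr y e := Finset.sum_nonneg fun e _ => maxErr_nonneg y e
        have h3 : 0 ≤ y / (R : ℝ) := div_nonneg (by linarith) (Nat.cast_nonneg _)
        linarith
      apply mul_le_mul_of_nonneg_right _ h2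
      exact mul_le_mul_of_nonneg_right (by rw [hC₃]; exact le_max_left _ _) h1) hbv1 e6
    -- split at `Q₀`
    rw [← Finset.sum_filter_add_sum_filter_not (Ms i) (fun d => Q₀ < d)]
    have s1 : ∑ d ∈ (Ms i).filter (fun d => Q₀ < d),
        |(pcz y d (s i d) : ℝ) - li y / (d.totient : ℝ)| ≤
        x / (Real.log x) ^ U + x / (Real.log x) ^ U + (2 * C₃ * C₄ + 1) * (x / (Real.log x) ^ U) := by
      have h1 : ∑ d ∈ (Ms i).filter (fun d => Q₀ < d),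
          |(pcz y d (s i d) : ℝ) - li y / (d.totient : ℝ)| ≤
          ∑ d ∈ (Ms i).filter (fun d => Q₀ < d), (|gg R P (s i d) d| + 1 +
          |∑ p ∈ P, ld R d ((p : ℤ) - s i d) - li y / (d.totient : ℝ)|) := by
        apply Finset.sum_le_sum
        intro d hd
        rw [Finset.mem_filter] at hd
        rw [hP]
        exact Asm_one R d (hMs i hi d hd.1).1 y (s i d)
      refine h1.trans ?_
      rw [Finset.sum_add_distrib, Finset.sum_add_distrib]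
      have h2 : ∑ d ∈ (Ms i).filter (fun d => Q₀ < d), (1 : ℝ) ≤ x / (Real.log x) ^ U := by
        rw [Finset.sum_const, nsmul_eq_mul, mul_one]
        have h3 : ((Ms i).filter (fun d => Q₀ < d)).card ≤ D := by
          calc ((Ms i).filter (fun d => Q₀ < d)).card ≤ (Icc 1 D).card :=
                Finset.card_le_card ((Finset.filter_subset _ _).trans (hMD i hi))
            _ = D := by rw [Nat.card_Icc]; omega
        calc ((((Ms i).filter (fun d => Q₀ < d)).card : ℕ) : ℝ) ≤ (D : ℝ) := by exact_mod_cast h3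
          _ ≤ x / (Real.log x) ^ U := by linarith
      have h4 : ∑ d ∈ (Ms i).filter (fun d => Q₀ < d),
          |∑ p ∈ P, ld R d ((p : ℤ) - s i d) - li y / (d.totient : ℝ)| ≤
          ∑ d ∈ (Icc 1 D).filter (fun d : ℕ => IsCoprime (d : ℤ) (s i d)),
            |∑ p ∈ (Icc 1 ⌊y⌋₊).filter Nat.Prime, ld R d ((p : ℤ) - s i d) -
              li y / (d.totient : ℝ)| := by
        rw [hP]
        apply Finset.sum_le_sum_of_subset_of_nonneg
        · intro d hd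
          rw [Finset.mem_filter] at hd
          rw [Finset.mem_filter]
          exact ⟨hMD i hi hd.1, (hMs i hi d hd.1).2.2.1⟩
        · intro d _ _
          exact abs_nonneg _
      linarith
    have s2 : ∑ d ∈ (Ms i).filter (fun d => ¬ Q₀ < d),
        |(pcz y d (s i d) : ℝ) - li y / (d.totient : ℝ)| ≤ 2 * C₄ * (x / (Real.log x) ^ U) := by
      calc ∑ d ∈ (Ms i).filter (fun d => ¬ Q₀ < d),
            |(pcz y d (s i d) : ℝ) - li y / (d.totient : ℝ)| ≤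
            ∑ d ∈ (Ms i).filter (fun d => ¬ Q₀ < d), maxErr y d := by
            apply Finset.sum_le_sum
            intro d hd
            rw [Finset.mem_filter] at hd
            exact AspN_err y (hMs i hi d hd.1).1 (s i d) (hMs i hi d hd.1).2.2.1
        _ ≤ ∑ d ∈ Icc 1 Q₀, maxErr y d := by
            apply Finset.sum_le_sum_of_subset_of_nonneg
            · intro d hd
              rw [Finset.mem_filter] at hd
              rw [Finset.mem_Icc]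
              exact ⟨(hMs i hi d hd.1).1, not_lt.1 hd.2⟩
            · intro d _ _
              exact maxErr_nonneg y d
        _ ≤ 2 * C₄ * (x / (Real.log x) ^ (U + 3)) := hbv2
        _ ≤ _ := by
            apply mul_le_mul_of_nonneg_left _ (by positivity)
            apply div_le_div_of_nonneg_left hx0.le (Real.rpow_pos_of_pos hL0 U)
            exact Real.rpow_le_rpow_of_exponent_le hlog (by linarith)
    have h6 : 0 ≤ 250 * c₂ * (x / (Real.log x) ^ U) := by positivity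
    linarith

end Pool.Agent.Lib.TN
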