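import Pool.Agent.Lib.TB.CntS

/-!
# Duality for families of residue functions (generic)

A family of functions `s i` of the modulus, pairwise distinct at every modulus, kernels `Φ d m`; the weighted sum
of the absolute values of `∑_{p ∈ P} Φ d (p - s i d)` is bounded by the diagonal and the off-diagonal terms.
-/

namespace Pool.Agent.Lib.TN

open Finset Pool.Agent.Lib.TB

/-- Duality with weights `v i`. -/
theorem Dul_main {ι : Type} (T : Finset ι) (v : ι → ℝ) (s : ι → ℕ → ℤ) (Ms : ι → Finset ℕ)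
    (DD : Finset ℕ) (Φ : ℕ → ℤ → ℝ) (I : Finset ℤ) (w : ℤ → ℝ) (P : Finset ℕ) (A : Finset ℤ)
    (Cv : ℤ → ℕ → Prop) {ρ vm Dg E : ℝ} (hvm0 : 0 ≤ vm)
    (hv0 : ∀ i ∈ T, 0 ≤ v i) (hvm : ∀ i ∈ T, v i ≤ vm) (hMs : ∀ i ∈ T, Ms i ⊆ DD)
    (hsA : ∀ i ∈ T, ∀ d ∈ Ms i, s i d ∈ A) (hCv : ∀ i ∈ T, ∀ d ∈ Ms i, Cv (s i d) d)
    (hne : ∀ i ∈ T, ∀ j ∈ T, i ≠ j → ∀ d ∈ Ms i, d ∈ Ms j → s i d ≠ s j d)
    (hw : ∀ n ∈ I, 0 ≤ w n) (hP : ∀ p ∈ P, (p : ℤ) ∈ I) (hPw : ∀ p ∈ P, ρ ≤ w p) (hρ : 0 < ρ)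
    (hE : 0 ≤ E)
    (hdia : ∀ c : ℤ → ℕ → ℝ, (∀ a d, |c a d| ≤ vm) → (∀ d, ∑ a ∈ A, |c a d| ≤ ∑ i ∈ T, v i) →
      (∀ d, ∑ a ∈ A, (c a d) ^ 2 ≤ ∑ i ∈ T, (v i) ^ 2) → (∀ a d, c a d ≠ 0 → Cv a d) →
      ∑ a ∈ A, ∑ n ∈ I, w n * (∑ d ∈ DD, c a d * Φ d (n - a)) ^ 2 ≤ Dg)
    (hoff : ∀ (c c' : ℕ → ℝ) (a b : ℤ), a ∈ A → b ∈ A → a ≠ b → (∀ d, |c d| ≤ vm) →
      (∀ d, |c' d| ≤ vm) → (∀ d, c d ≠ 0 → Cv a d) → (∀ d, c' d ≠ 0 → Cv b d) →
      |∑ n ∈ I, w n * ((∑ d ∈ DD, c d * Φ d (n - a)) * ∑ d ∈ DD, c' d * Φ d (n - b))| ≤ E) :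
    (∑ i ∈ T, v i * ∑ d ∈ Ms i, |∑ p ∈ P, Φ d ((p : ℤ) - s i d)|) ^ 2 ≤
      P.card * ((1 / ρ) * (Dg + A.card * A.card * E)) := by
  classical
  -- the signs and the coefficients
  obtain ⟨σ, hσ⟩ : ∃ σ : ι → ℕ → ℝ, σ = fun i d =>
      if d ∈ Ms i then (if 0 ≤ ∑ p ∈ P, Φ d ((p : ℤ) - s i d) then 1 else -1) else 0 := ⟨_, rfl⟩
  have hσ1 : ∀ i d, |σ i d| ≤ 1 := by
    intro i d
    rw [hσ]
    beta_reduce
    split_ifs <;> simp
  have hσ0 : ∀ i d, σ i d ≠ 0 → d ∈ Ms i := by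
    intro i d h
    rw [hσ] at h
    beta_reduce at h
    by_contra h1
    rw [if_neg h1] at h
    exact h rfl
  obtain ⟨c₀, hc₀⟩ : ∃ c₀ : ι → ℤ → ℕ → ℝ, c₀ = fun i a d =>
      if s i d = a then v i * σ i d else 0 := ⟨_, rfl⟩
  have hc₀1 : ∀ i ∈ T, ∀ a d, |c₀ i a d| ≤ v i := by
    intro i hi a d
    rw [hc₀]
    beta_reduce
    split_ifs
    · rw [abs_mul, abs_of_nonneg (hv0 i hi)]
      calc v i * |σ i d| ≤ v i * 1 := mul_le_mul_of_nonneg_left (hσ1 i d) (hv0 i hi)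
        _ = v i := mul_one _
    · rw [abs_zero]
      exact hv0 i hi
  have hc₀2 : ∀ i a d, c₀ i a d ≠ 0 → s i d = a ∧ d ∈ Ms i := by
    intro i a d h
    rw [hc₀] at h
    beta_reduce at h
    by_cases h1 : s i d = a
    · rw [if_pos h1] at h
      exact ⟨h1, hσ0 i d (right_ne_zero_of_mul h)⟩
    · rw [if_neg h1] at h
      exact absurd rfl h
  -- at most one member of the family contributes
  have hone : ∀ a d, (∃ i ∈ T, ∑ j ∈ T, c₀ j a d = c₀ i a d ∧ c₀ i a d ≠ 0) ∨ ∑ j ∈ T, c₀ j a d = 0 := by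
    intro a d
    by_cases hex : ∃ i ∈ T, c₀ i a d ≠ 0
    · obtain ⟨i, hi, hne0⟩ := hex
      left
      refine ⟨i, hi, ?_, hne0⟩
      apply Finset.sum_eq_single i
      · intro j hj hji
        by_contra hne1
        obtain ⟨e1, m1⟩ := hc₀2 i a d hne0
        obtain ⟨e2, m2⟩ := hc₀2 j a d hne1
        exact hne i hi j hj (Ne.symm hji) d m1 m2 (e1.trans e2.symm)
      · intro h3
        exact absurd hi h3
    · right
      apply Finset.sum_eq_zero
      intro i hi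
      by_contra h3
      exact hex ⟨i, hi, h3⟩
  obtain ⟨c, hc⟩ : ∃ c : ℤ → ℕ → ℝ, c = fun a d => ∑ i ∈ T, c₀ i a d := ⟨_, rfl⟩
  have hc1 : ∀ a d, |c a d| ≤ vm := by
    intro a d
    rw [hc]
    beta_reduce
    rcases hone a d with ⟨i, hi, h1, -⟩ | h1
    · rw [h1]
      exact (hc₀1 i hi a d).trans (hvm i hi)
    · rw [h1, abs_zero]
      exact hvm0
  have hcC : ∀ a d, c a d ≠ 0 → Cv a d := by
    intro a d h
    rw [hc] at h
    beta_reduce at h
    rcases hone a d with ⟨i, hi, -, h2⟩ | h1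
    · obtain ⟨e1, m1⟩ := hc₀2 i a d h2
      rw [← e1]
      exact hCv i hi d m1
    · exact absurd h1 h
  have hc₀A : ∀ i ∈ T, ∀ d (g : ℝ → ℝ), g 0 = 0 → (∀ a, 0 ≤ g (c₀ i a d)) →
      ∑ a ∈ A, g (c₀ i a d) ≤ g (c₀ i (s i d) d) := by
    intro i _ d g hg0 hg1
    by_cases hmem : s i d ∈ A
    · rw [Finset.sum_eq_single (s i d)]
      · intro a _ ha
        have : c₀ i a d = 0 := by
          by_contra h
          exact ha (hc₀2 i a d h).1.symm
        rw [this, hg0]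
      · intro h3
        exact absurd hmem h3
    · rw [Finset.sum_eq_zero]
      · exact hg1 _
      · intro a ha
        have : c₀ i a d = 0 := by
          by_contra h
          exact hmem ((hc₀2 i a d h).1 ▸ ha)
        rw [this, hg0]
  have hcK : ∀ d, ∑ a ∈ A, |c a d| ≤ ∑ i ∈ T, v i := by
    intro d
    calc ∑ a ∈ A, |c a d| ≤ ∑ a ∈ A, ∑ i ∈ T, |c₀ i a d| := by
          apply Finset.sum_le_sum
          intro a _
          rw [hc]
          exact Finset.abs_sum_le_sum_abs _ _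
      _ = ∑ i ∈ T, ∑ a ∈ A, |c₀ i a d| := Finset.sum_comm
      _ ≤ ∑ i ∈ T, v i := by
          apply Finset.sum_le_sum
          intro i hi
          exact (hc₀A i hi d (fun t => |t|) abs_zero fun a => abs_nonneg _).trans (hc₀1 i hi _ d)
  have hcK2 : ∀ d, ∑ a ∈ A, (c a d) ^ 2 ≤ ∑ i ∈ T, (v i) ^ 2 := by
    intro d
    calc ∑ a ∈ A, (c a d) ^ 2 ≤ ∑ a ∈ A, ∑ i ∈ T, (c₀ i a d) ^ 2 := by
          apply Finset.sum_le_sum
          intro a _
          rw [hc]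
          beta_reduce
          rcases hone a d with ⟨i, hi, h1, -⟩ | h1
          · rw [h1]
            exact Finset.single_le_sum (f := fun i => (c₀ i a d) ^ 2) (fun j _ => sq_nonneg _) hi
          · rw [h1, zero_pow two_ne_zero]
            exact Finset.sum_nonneg fun j _ => sq_nonneg _
      _ = ∑ i ∈ T, ∑ a ∈ A, (c₀ i a d) ^ 2 := Finset.sum_comm
      _ ≤ ∑ i ∈ T, (v i) ^ 2 := by
          apply Finset.sum_le_sum
          intro i hi
          refine (hc₀A i hi d (fun t => t ^ 2) (zero_pow two_ne_zero) fun a => sq_nonneg _).trans ?_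
          rw [← sq_abs]
          exact pow_le_pow_left₀ (abs_nonneg _) (hc₀1 i hi _ d) 2
  -- the sum as a sum over `P`
  obtain ⟨G, hG⟩ : ∃ G : ℤ → ℝ, G = fun n => ∑ a ∈ A, ∑ d ∈ DD, c a d * Φ d (n - a) := ⟨_, rfl⟩
  have hsum : ∑ i ∈ T, v i * ∑ d ∈ Ms i, |∑ p ∈ P, Φ d ((p : ℤ) - s i d)| = ∑ p ∈ P, G p := by
    have h1 : ∀ i ∈ T, v i * ∑ d ∈ Ms i, |∑ p ∈ P, Φ d ((p : ℤ) - s i d)| =
        ∑ p ∈ P, ∑ a ∈ A, ∑ d ∈ DD, c₀ i a d * Φ d ((p : ℤ) - a) := by
      intro i hi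
      have h2 : ∀ p ∈ P, ∑ a ∈ A, ∑ d ∈ DD, c₀ i a d * Φ d ((p : ℤ) - a) =
          ∑ d ∈ Ms i, v i * (σ i d * Φ d ((p : ℤ) - s i d)) := by
        intro p _
        rw [Finset.sum_comm]
        rw [← Finset.sum_subset (hMs i hi) (f := fun d => ∑ a ∈ A, c₀ i a d * Φ d ((p : ℤ) - a))]
        · apply Finset.sum_congr rfl
          intro d hd
          rw [Finset.sum_eq_single (s i d)]
          · rw [hc₀]
            beta_reduce
            rw [if_pos rfl]
            ring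
          · intro a _ ha
            have : c₀ i a d = 0 := by
              by_contra h
              exact ha (hc₀2 i a d h).1.symm
            rw [this, zero_mul]
          · intro h3
            exact absurd (hsA i hi d hd) h3
        · intro d _ hd
          apply Finset.sum_eq_zero
          intro a _
          have : c₀ i a d = 0 := by
            by_contra h
            exact hd (hc₀2 i a d h).2
          rw [this, zero_mul]
      rw [Finset.sum_congr rfl h2, Finset.sum_comm, Finset.mul_sum]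
      apply Finset.sum_congr rfl
      intro d hd
      rw [← Finset.mul_sum, ← Finset.mul_sum]
      congr 1
      rw [hσ]
      beta_reduce
      rw [if_pos hd]
      split_ifs with h3
      · rw [abs_of_nonneg h3, one_mul]
      · rw [abs_of_neg (not_le.1 h3)]
        ring
    rw [Finset.sum_congr rfl h1, Finset.sum_comm]
    apply Finset.sum_congr rfl
    intro p _
    rw [hG, hc]
    beta_reduce
    rw [Finset.sum_comm]
    apply Finset.sum_congr rfl
    intro a _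
    rw [Finset.sum_comm]
    apply Finset.sum_congr rfl
    intro d _
    rw [Finset.sum_mul]
  -- Cauchy-Schwarz
  have hCS : (∑ p ∈ P, G p) ^ 2 ≤ P.card * ∑ p ∈ P, (G p) ^ 2 := sq_sum_le_card_mul_sum_sq
  have hmaj : ∑ p ∈ P, (G p) ^ 2 ≤ (1 / ρ) * ∑ n ∈ I, w n * (G n) ^ 2 := by
    rw [Finset.mul_sum]
    calc ∑ p ∈ P, (G p) ^ 2 = ∑ n ∈ P.map Nat.castEmbedding, (G n) ^ 2 := by
          rw [Finset.sum_map]
          rfl
      _ ≤ ∑ n ∈ P.map Nat.castEmbedding, (1 / ρ) * (w n * (G n) ^ 2) := by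
          apply Finset.sum_le_sum
          intro n hn
          obtain ⟨p, hp, rfl⟩ := Finset.mem_map.1 hn
          have h3 : ρ ≤ w ((Nat.castEmbedding p : ℤ)) := hPw p hp
          have h4 := sq_nonneg (G ((Nat.castEmbedding p : ℤ)))
          have h5 : 1 ≤ (1 / ρ) * w ((Nat.castEmbedding p : ℤ)) := by
            rw [one_div, ← div_eq_inv_mul, le_div_iff₀ hρ, one_mul]
            exact h3
          calc (G ((Nat.castEmbedding p : ℤ))) ^ 2 = 1 * (G ((Nat.castEmbedding p : ℤ))) ^ 2 := by ring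
            _ ≤ (1 / ρ * w ((Nat.castEmbedding p : ℤ))) * (G ((Nat.castEmbedding p : ℤ))) ^ 2 :=
                mul_le_mul_of_nonneg_right h5 h4
            _ = _ := by ring
      _ ≤ ∑ n ∈ I, (1 / ρ) * (w n * (G n) ^ 2) := by
          apply Finset.sum_le_sum_of_subset_of_nonneg
          · intro n hn
            obtain ⟨p, hp, rfl⟩ := Finset.mem_map.1 hn
            exact hP p hp
          · intro n hn _
            have := hw n hn
            positivity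
  have hdiag : ∑ n ∈ I, w n * (G n) ^ 2 ≤ Dg + A.card * A.card * E := by
    rw [hG]
    refine CntS_diag I w A (fun a n => ∑ d ∈ DD, c a d * Φ d (n - a)) hE
      (hdia c hc1 hcK hcK2 hcC) ?_
    intro a ha b hb hab
    exact hoff (c a) (c b) a b ha hb hab (hc1 a) (hc1 b) (hcC a) (hcC b)
  rw [hsum]
  calc (∑ p ∈ P, G p) ^ 2 ≤ P.card * ∑ p ∈ P, (G p) ^ 2 := hCS
    _ ≤ P.card * ((1 / ρ) * (Dg + A.card * A.card * E)) := by
        apply mul_le_mul_of_nonneg_left _ (Nat.cast_nonneg _)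
        refine hmaj.trans ?_
        exact mul_le_mul_of_nonneg_left hdiag (by positivity)

end Pool.Agent.Lib.TN
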