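import Pool.Agent.Lib.TN.Stm5

/-! Three congruences (part Mf): SsclGStmt, SszeGStmt, SsbdGStmt. -/

namespace Pool.Agent.Lib.TN

open Finset Pool.Agent.Lib.EH3 Pool.Agent.Lib.TB

private lemma Msf_lcm (u w : ℕ) (m : ℤ) :
    ((Nat.lcm u w : ℕ) : ℤ) ∣ m ↔ (u : ℤ) ∣ m ∧ (w : ℤ) ∣ m := by
  rw [Int.natCast_dvd, Int.natCast_dvd, Int.natCast_dvd, Nat.lcm_dvd_iff]

private lemma Msf_cop {f u w : ℕ} (hu : f.Coprime u) (hw : f.Coprime w) : f.Coprime (Nat.lcm u w) := by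
  have h1 : f.Coprime (u * w) := Nat.Coprime.mul_right hu hw
  exact Nat.Coprime.coprime_dvd_right (Nat.lcm_dvd_mul u w) h1

private lemma Msf_mul {f l : ℕ} (h : f.Coprime l) (m : ℤ) :
    ((f * l : ℕ) : ℤ) ∣ m ↔ (f : ℤ) ∣ m ∧ (l : ℤ) ∣ m := by
  rw [Int.natCast_dvd, Int.natCast_dvd, Int.natCast_dvd]
  constructor
  · intro h1
    exact ⟨(Dvd.intro _ rfl).trans h1, (Dvd.intro_left _ rfl).trans h1⟩
  · rintro ⟨h1, h2⟩
    exact Nat.Coprime.mul_dvd_of_dvd_of_dvd h h1 h2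

theorem tSsclG : SsclGStmt := by
  intro N j f u w a b ν hf hu hw hfu hfw hν ha hb
  constructor
  · unfold SSG clN
    refine sum_congr rfl fun n _ => ?_
    have h : ((f : ℤ) ∣ n ∧ (u : ℤ) ∣ n - a ∧ (w : ℤ) ∣ n - b) ↔ ((f * Nat.lcm u w : ℕ) : ℤ) ∣ n - ν := by
      rw [Msf_mul (Msf_cop hfu hfw), Msf_lcm]
      have e1 : n - a = (n - ν) + (ν - a) := by ring
      have e2 : n - b = (n - ν) + (ν - b) := by ring
      have e3 : n = (n - ν) + ν := by ring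
      rw [e1, e2, dvd_add_left ha, dvd_add_left hb]
      constructor
      · rintro ⟨h1, h2⟩
        exact ⟨dvd_sub h1 hν, h2⟩
      · rintro ⟨h1, h2⟩
        exact ⟨by rw [e3]; exact dvd_add h1 hν, h2⟩
    simp only [h]
  · have hg : ((Nat.gcd u w : ℕ) : ℤ) ∣ a - b := by
      have e : a - b = (ν - b) - (ν - a) := by ring
      rw [e]
      exact dvd_sub ((Int.natCast_dvd_natCast.2 (Nat.gcd_dvd_right u w)).trans hb)
        ((Int.natCast_dvd_natCast.2 (Nat.gcd_dvd_left u w)).trans ha)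
    unfold MM
    rw [if_pos hg]
    have h1 : (Nat.gcd u w : ℝ) * (Nat.lcm u w : ℝ) = (u : ℝ) * w := by
      exact_mod_cast Nat.gcd_mul_lcm u w
    have hl : (0 : ℝ) < (Nat.lcm u w : ℝ) := by
      exact_mod_cast Nat.lcm_pos hu hw
    have hg0 : (0 : ℝ) < (Nat.gcd u w : ℝ) := by
      exact_mod_cast Nat.gcd_pos_of_pos_left w hu
    have hf0 : (0 : ℝ) < f := by exact_mod_cast hf
    rw [← h1]
    push_cast
    field_simp

theorem tSszeG : SszeGStmt := by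
  intro N j f u w a b hg
  constructor
  · unfold SSG
    refine sum_eq_zero fun n _ => ?_
    rw [if_neg, mul_zero]
    rintro ⟨-, ha, hb⟩
    apply hg
    have e : a - b = (n - b) - (n - a) := by ring
    rw [e]
    exact dvd_sub ((Int.natCast_dvd_natCast.2 (Nat.gcd_dvd_right u w)).trans hb)
      ((Int.natCast_dvd_natCast.2 (Nat.gcd_dvd_left u w)).trans ha)
  · unfold MM
    rw [if_neg hg]

theorem tSsbdG (h1 : SsclGStmt) (h2 : SszeGStmt) (h3 : McbNStmt) : SsbdGStmt := by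
  intro N j f u w a b hN hf hu hw hfu hfw
  have hN0 : (0 : ℝ) < N := by exact_mod_cast hN
  have hl : 1 ≤ Nat.lcm u w := Nat.lcm_pos hu hw
  by_cases hg : ((Nat.gcd u w : ℕ) : ℤ) ∣ a - b
  · have hg' : ((Int.gcd (u : ℤ) (w : ℤ) : ℕ) : ℤ) ∣ a - b := by
      rwa [Int.gcd_natCast_natCast]
    obtain ⟨x, y, hxy⟩ : ∃ x y : ℤ, a - b = (u : ℤ) * x + (w : ℤ) * y := by
      obtain ⟨k, hk⟩ := hg'
      refine ⟨Int.gcdA u w * k, Int.gcdB u w * k, ?_⟩
      rw [hk, Int.gcd_eq_gcd_ab]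
      ring
    obtain ⟨X, Y, hXY⟩ : IsCoprime (f : ℤ) ((Nat.lcm u w : ℕ) : ℤ) :=
      Nat.isCoprime_iff_coprime.2 (Msf_cop hfu hfw)
    obtain ⟨ν0, hν0⟩ : ∃ ν0 : ℤ, ν0 = a - u * x := ⟨_, rfl⟩
    have hL : ((Nat.lcm u w : ℕ) : ℤ) ∣ ν0 * (X * f) - ν0 := ⟨-(ν0 * Y), by
      linear_combination ν0 * hXY⟩
    have hLu := (Int.natCast_dvd_natCast.2 (Nat.dvd_lcm_left u w)).trans hL
    have hLw := (Int.natCast_dvd_natCast.2 (Nat.dvd_lcm_right u w)).trans hL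
    have ha : (u : ℤ) ∣ ν0 * (X * f) - a := by
      have e : ν0 * (X * f) - a = (ν0 * (X * f) - ν0) + u * (-x) := by
        rw [hν0]
        ring
      rw [e]
      exact dvd_add hLu (dvd_mul_right _ _)
    have hb : (w : ℤ) ∣ ν0 * (X * f) - b := by
      have e : ν0 * (X * f) - b = (ν0 * (X * f) - ν0) + w * y := by
        rw [hν0]
        linear_combination hxy
      rw [e]
      exact dvd_add hLw (dvd_mul_right _ _)
    have hfν : (f : ℤ) ∣ ν0 * (X * f) := ⟨ν0 * X, by ring⟩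
    obtain ⟨hS, hM⟩ := h1 N j f u w a b (ν0 * (X * f)) hf hu hw hfu hfw hfν ha hb
    rw [hS, hM]
    have h4 := h3 N j (f * Nat.lcm u w) (ν0 * (X * f)) hN (Nat.mul_pos hf hl)
    push_cast at h4 ⊢
    exact h4
  · obtain ⟨hS, hM⟩ := h2 N j f u w a b hg
    rw [hS, hM, zero_div, sub_zero, abs_zero]
    positivity

end Pool.Agent.Lib.TN
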