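import Pool.Agent.Lib.TN.SpecTf

/-!
MP_00e23e_nt, Lib/TN: dyadic decomposition of the divisors, two blocks.
-/

namespace Pool.Agent.Lib.TN

open Finset Pool.Agent.Lib.EH3 Pool.Agent.Lib.TB Pool.Agent.Results.MP_00e23e_nt

private theorem Pdf_dyadic (J : ℕ) (F : ℕ → ℂ) :
    ∑ j ∈ range J, ∑ s ∈ Ioc (2 ^ j) (2 * 2 ^ j), F s = ∑ s ∈ Ioc 1 (2 ^ J), F s := by
  induction J with
  | zero => simp
  | succ J ih =>
    rw [Finset.sum_range_succ, ih, pow_succ, mul_comm (2 ^ J) 2]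
    exact Finset.sum_Ioc_consecutive F (Nat.one_le_two_pow) (by omega)

private theorem Pdf_U (Q g : ℕ) (hg : 1 ≤ g) (hgQ : g ≤ Q) : 2 * Q / g ≤ 3 * (Q / g) := by
  have hP1 : 1 ≤ Q / g := (Nat.one_le_div_iff hg).2 hgQ
  have h1 : 2 * Q < g * (2 * (Q / g) + 2) := by
    have h2 : Q < g * (Q / g + 1) := Nat.lt_mul_div_succ Q hg
    nlinarith
  have h3 : 2 * Q / g < 2 * (Q / g) + 2 := Nat.div_lt_of_lt_mul h1
  omega

private theorem Pdf_key (Q g J m : ℕ) (c' : ℕ → ℝ) (σ : ℕ → ℕ) (E : ℕ → ℂ) (hg : 1 ≤ g) (hgQ : g ≤ Q)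
    (hJ : 3 * (Q / g) ≤ 2 ^ J) (hσ : ∀ n, 1 ≤ n → c' (g * n) ≠ 0 → σ n ∣ n ∧ 2 ≤ σ n) :
    ∑ j ∈ range J, ∑ r ∈ Icc 1 (3 * (Q / g) / 2 ^ j),
      ∑ s ∈ (Ioc (2 ^ j) (2 * 2 ^ j)).filter (fun s => m.Coprime (r * s)), be Q g c' σ r s * E (r * s) =
    ∑ n ∈ (Ioc (Q / g) (2 * Q / g)).filter (fun n => m.Coprime n),
      ((c' (g * n) * ((Q / g : ℕ) : ℝ) / n : ℝ) : ℂ) * E n := by
  have hP1 : 1 ≤ Q / g := (Nat.one_le_div_iff hg).2 hgQ
  have hU := Pdf_U Q g hg hgQ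
  set P := Q / g with hP
  set U := 2 * Q / g with hUd
  let F : ℕ → ℕ → ℂ := fun r s => if m.Coprime (r * s) then be Q g c' σ r s * E (r * s) else 0
  have hFne : ∀ r s, F r s ≠ 0 → P < r * s ∧ r * s ≤ U ∧ σ (r * s) = s ∧ c' (g * (r * s)) ≠ 0 := by
    intro r s h
    by_contra hn
    apply h
    have hb : be Q g c' σ r s = 0 := by
      unfold be
      rw [if_neg hn]
    simp only [F]
    split_ifs
    · rw [hb, zero_mul]
    · rfl
  -- step 1: filters and the range of r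
  have h1 : ∑ j ∈ range J, ∑ r ∈ Icc 1 (3 * P / 2 ^ j),
      ∑ s ∈ (Ioc (2 ^ j) (2 * 2 ^ j)).filter (fun s => m.Coprime (r * s)), be Q g c' σ r s * E (r * s) =
      ∑ j ∈ range J, ∑ r ∈ Icc 1 (3 * P), ∑ s ∈ Ioc (2 ^ j) (2 * 2 ^ j), F r s := by
    apply Finset.sum_congr rfl
    intro j _
    have h2 : ∀ r, ∑ s ∈ (Ioc (2 ^ j) (2 * 2 ^ j)).filter (fun s => m.Coprime (r * s)),
        be Q g c' σ r s * E (r * s) = ∑ s ∈ Ioc (2 ^ j) (2 * 2 ^ j), F r s := by
      intro r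
      rw [Finset.sum_filter]
    simp only [h2]
    apply Finset.sum_subset
    · intro r hr
      rw [Finset.mem_Icc] at hr ⊢
      exact ⟨hr.1, le_trans hr.2 (Nat.div_le_self _ _)⟩
    · intro r hr hr'
      rw [Finset.mem_Icc] at hr hr'
      apply Finset.sum_eq_zero
      intro s hs
      rw [Finset.mem_Ioc] at hs
      by_contra hne
      obtain ⟨ha, hb, _, _⟩ := hFne r s hne
      apply hr'
      refine ⟨hr.1, ?_⟩
      rw [Nat.le_div_iff_mul_le (by positivity)]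
      calc r * 2 ^ j ≤ r * s := Nat.mul_le_mul_left r hs.1.le
        _ ≤ 3 * P := le_trans hb hU
  rw [h1, Finset.sum_comm]
  have h3 : ∀ r, ∑ j ∈ range J, ∑ s ∈ Ioc (2 ^ j) (2 * 2 ^ j), F r s = ∑ s ∈ Ioc 1 (2 ^ J), F r s :=
    fun r => Pdf_dyadic J (F r)
  simp only [h3]
  rw [← Finset.sum_product', Finset.sum_filter]
  symm
  refine Finset.sum_bij_ne_zero (fun n _ _ => (n / σ n, σ n)) ?_ ?_ ?_ ?_
  · intro n hn hne
    rw [Finset.mem_Ioc] at hn
    have hc : c' (g * n) ≠ 0 := by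
      intro h0
      apply hne
      rw [h0]
      simp
    obtain ⟨hd, h2⟩ := hσ n (by omega) hc
    have hle : σ n ≤ n := Nat.le_of_dvd (by omega) hd
    simp only [Finset.mem_product, Finset.mem_Icc, Finset.mem_Ioc]
    refine ⟨⟨(Nat.one_le_div_iff (by omega)).2 hle, le_trans (Nat.div_le_self _ _) (le_trans hn.2 hU)⟩,
      by omega, le_trans hle (le_trans (le_trans hn.2 hU) hJ)⟩
  · intro n hn hne n' hn' hne' heq
    rw [Finset.mem_Ioc] at hn hn'
    have hc : c' (g * n) ≠ 0 := by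
      intro h0
      apply hne
      rw [h0]
      simp
    have hc' : c' (g * n') ≠ 0 := by
      intro h0
      apply hne'
      rw [h0]
      simp
    obtain ⟨hd, _⟩ := hσ n (by omega) hc
    obtain ⟨hd', _⟩ := hσ n' (by omega) hc'
    simp only [Prod.mk.injEq] at heq
    rw [← Nat.div_mul_cancel hd, ← Nat.div_mul_cancel hd', heq.1, heq.2]
  · rintro ⟨r, s⟩ hrs hne
    simp only [Finset.mem_product, Finset.mem_Icc, Finset.mem_Ioc] at hrs
    obtain ⟨ha, hb, hs, hc⟩ := hFne r s hne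
    have hcop : m.Coprime (r * s) := by
      by_contra h
      apply hne
      simp only [F]
      rw [if_neg h]
    refine ⟨r * s, Finset.mem_Ioc.2 ⟨ha, hb⟩, ?_, ?_⟩
    · rw [if_pos hcop]
      have hF : F r s = be Q g c' σ r s * E (r * s) := by
        simp only [F]
        rw [if_pos hcop]
      have hE : E (r * s) ≠ 0 := by
        intro h0
        apply hne
        rw [hF, h0, mul_zero]
      apply mul_ne_zero _ hE
      rw [Complex.ofReal_ne_zero]
      apply div_ne_zero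
      · apply mul_ne_zero hc
        have : P ≠ 0 := by omega
        exact_mod_cast this
      · have : r * s ≠ 0 := by omega
        exact_mod_cast this
    · rw [hs, Nat.mul_div_cancel _ (by omega : 0 < s)]
  · intro n hn hne
    rw [Finset.mem_Ioc] at hn
    have hc : c' (g * n) ≠ 0 := by
      intro h0
      apply hne
      rw [h0]
      simp
    have hcop : m.Coprime n := by
      by_contra h
      apply hne
      rw [if_neg h]
    obtain ⟨hd, _⟩ := hσ n (by omega) hc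
    have hmul : n / σ n * σ n = n := Nat.div_mul_cancel hd
    rw [if_pos hcop]
    simp only [F]
    rw [hmul, if_pos hcop]
    unfold be
    rw [hmul, if_pos ⟨hn.1, hn.2, rfl, hc⟩]
    congr 3
    have : ((n / σ n : ℕ) : ℝ) * ((σ n : ℕ) : ℝ) = (n : ℝ) := by exact_mod_cast hmul
    rw [this]

theorem tPdf : PdfStmt := by
  intro Q Q2 g H J f c c' σ θ τ hg hgQ hgQ2 hJ hσ
  have hP1 : 1 ≤ Q / g := (Nat.one_le_div_iff hg).2 hgQ
  have hU := Pdf_U Q g hg hgQ
  unfold Pff pg2 Tff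
  rw [Finset.mul_sum, Finset.sum_comm]
  apply Finset.sum_congr rfl
  intro h _
  -- the right side
  have hR : ∑ j ∈ range J, ∑ m ∈ Ioc (Q / g) (3 * (Q / g)), ∑ r ∈ Icc 1 (3 * (Q2 / g) / 2 ^ j),
      ∑ s ∈ (Ioc (2 ^ j) (2 * 2 ^ j)).filter (fun s => m.Coprime (r * s)),
        al Q g c m * be Q2 g c' σ r s * eF f ((h : ℤ) * θ) ((h : ℝ) * τ) m (r * s) =
      ∑ m ∈ Ioc (Q / g) (3 * (Q / g)), al Q g c m *
        ∑ n ∈ (Ioc (Q2 / g) (2 * Q2 / g)).filter (fun n => m.Coprime n),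
          ((c' (g * n) * ((Q2 / g : ℕ) : ℝ) / n : ℝ) : ℂ) * eF f ((h : ℤ) * θ) ((h : ℝ) * τ) m n := by
    rw [Finset.sum_comm]
    apply Finset.sum_congr rfl
    intro m _
    rw [← Pdf_key Q2 g J m c' σ (fun n => eF f ((h : ℤ) * θ) ((h : ℝ) * τ) m n) hg hgQ2 hJ hσ]
    rw [Finset.mul_sum]
    apply Finset.sum_congr rfl
    intro j _
    rw [Finset.mul_sum]
    apply Finset.sum_congr rfl
    intro r _
    rw [Finset.mul_sum]
    apply Finset.sum_congr rfl
    intro s _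
    ring
  rw [hR]
  have hsub : ∑ m ∈ Ioc (Q / g) (2 * Q / g), al Q g c m *
        ∑ n ∈ (Ioc (Q2 / g) (2 * Q2 / g)).filter (fun n => m.Coprime n),
          ((c' (g * n) * ((Q2 / g : ℕ) : ℝ) / n : ℝ) : ℂ) * eF f ((h : ℤ) * θ) ((h : ℝ) * τ) m n =
      ∑ m ∈ Ioc (Q / g) (3 * (Q / g)), al Q g c m *
        ∑ n ∈ (Ioc (Q2 / g) (2 * Q2 / g)).filter (fun n => m.Coprime n),
          ((c' (g * n) * ((Q2 / g : ℕ) : ℝ) / n : ℝ) : ℂ) * eF f ((h : ℤ) * θ) ((h : ℝ) * τ) m n := by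
    apply Finset.sum_subset
    · intro m hm
      rw [Finset.mem_Ioc] at hm ⊢
      exact ⟨hm.1, le_trans hm.2 hU⟩
    · intro m hm hm'
      rw [Finset.mem_Ioc] at hm hm'
      have : al Q g c m = 0 := by
        unfold al
        rw [if_neg hm']
      rw [this, zero_mul]
  rw [← hsub, Finset.mul_sum]
  apply Finset.sum_congr rfl
  intro m hm
  rw [Finset.mem_Ioc] at hm
  have hal : al Q g c m = ((c (g * m) * ((Q / g : ℕ) : ℝ) / m : ℝ) : ℂ) := by
    unfold al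
    rw [if_pos hm]
  rw [hal, Finset.mul_sum, Finset.mul_sum]
  apply Finset.sum_congr rfl
  intro n hn
  rw [Finset.mem_filter, Finset.mem_Ioc] at hn
  have hm0 : (m : ℂ) ≠ 0 := by
    have : m ≠ 0 := by omega
    exact_mod_cast this
  have hn0 : (n : ℂ) ≠ 0 := by
    have : n ≠ 0 := by omega
    exact_mod_cast this
  push_cast
  field_simp

end Pool.Agent.Lib.TN
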