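import Pool.Agent.Lib.TN.Stm4
import Pool.Agent.Lib.TN.SpecG

/-!
MP_00e23e_nt, directory Lib/TN, part Gf (helper95): the sum of the error terms of all pairs with the congruence f | n and
two blocks (EEGStmt of Stm4.lean). Every module is an ADAPTATION of a finished module of part G (files TN/N2a.lean,
N2, N3, N4, N6, N7, N8 and TB/G1.lean): copy the file and change what is described.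

RULES. Module X: file Pool/Agent/Lib/TN/X.lean, first line `import Pool.Agent.Lib.TN.SpecGf`, then
`namespace Pool.Agent.Lib.TN` and `open Finset Pool.Agent.Lib.EH3 Pool.Agent.Lib.TB`, private lemmas with names starting
with X_, final theorem `theorem tX (h1 : AStmt) ... : X-statement`. Never use congr!. Every module below 60 s.
-/

namespace Pool.Agent.Lib.TN

open Finset Pool.Agent.Lib.EH3 Pool.Agent.Lib.TB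

/-- PgfStmt of StmF.lean with coefficients lam h of the frequencies h (the same proof) -/
def PglStmt : Prop := ∀ ε : ℝ, 0 < ε → ∃ C : ℝ, 0 ≤ C ∧ ∀ (Q Q2 g H f : ℕ) (L1 L2 : ℝ) (c c' : ℕ → ℝ)
    (lam : ℕ → ℂ) (θ : ℤ) (τ : ℝ), 1 ≤ g → g ≤ Q2 → Q2 ≤ Q → 1 ≤ H → 1 ≤ f → 4 * (g : ℝ) ≤ L1 → L1 ≤ L2 →
  L2 ≤ ((Q2 / g : ℕ) : ℝ) → (∀ d, |c d| ≤ 1) → (∀ d, |c' d| ≤ 1) → (∀ h, ‖lam h‖ ≤ 1) →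
  (∀ d, c' d ≠ 0 → Squarefree d ∧ f.Coprime d ∧ ∃ s : ℕ, s ∣ d ∧ L1 ≤ s ∧ (s : ℝ) ≤ L2) → θ ≠ 0 →
  ‖∑ h ∈ Icc 1 H, lam h * pg2 Q Q2 g (fun m n => ((c (g * m) * c' (g * n) : ℝ) : ℂ) * (1 / ((m : ℂ) * n)) *
      eF f ((h : ℤ) * θ) ((h : ℝ) * τ) m n)‖ ≤
    C * ((Q : ℝ) * H * |(θ : ℝ)|) ^ ε * (1 + (H : ℝ) * |τ| / (((Q / g : ℕ) : ℝ) * ((Q2 / g : ℕ) : ℝ))) *
      (((H : ℝ) * g / L1) ^ ((1 : ℝ) / 2) + (H : ℝ) * (L2 / ((Q / g : ℕ) : ℝ)) ^ ((1 : ℝ) / 4) +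
        (H : ℝ) * ((Q2 / g : ℕ) : ℝ) ^ (-(1 : ℝ) / 4))

/-- the error term of the pair (g m, g n) with its coefficients -/
noncomputable def fEG (N j f g : ℕ) (c c' : ℕ → ℝ) (a b : ℤ) (m n : ℕ) : ℂ :=
  ((c (g * m) * c' (g * n) * (SSG N j f (g * m) (g * n) a b - MM N (g * m) (g * n) a b / f) : ℝ) : ℂ)

/-- **F1** (theorem tF1; copy of TB/G1.lean; uses nothing). Decomposition by g = gcd(d, d'), g ≤ 2 Q2. -/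
def SF1 : Prop := ∀ (Q Q2 : ℕ) (F : ℕ → ℕ → ℂ),
  ∑ d ∈ Ioc Q (2 * Q), ∑ d' ∈ Ioc Q2 (2 * Q2), F d d' =
    ∑ g ∈ Icc 1 (2 * Q2), pg2 Q Q2 g (fun m n => F (g * m) (g * n))

/-- **F2a** (theorem tF2a (h1 : WbStmt) (h2 : TauMStmt) : SF2a; adaptation of TN/N2a.lean). Proof. SSG ≤ SSN (the weight is
≥ 0 and the indicator is smaller); then as N2a with the block of Q for m and the block of Q2 for n (A for the block Q, B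
for the block Q2): the terms t = a, t = b are ≤ 2Q D and ≤ 2 Q2 D. -/
def SF2a : Prop := ∀ (ε : ℝ) (j : ℕ), 0 < ε → ∃ C : ℝ, 0 ≤ C ∧ ∀ (N Q Q2 f g : ℕ) (a b : ℤ), 1 ≤ N → 1 ≤ Q → 1 ≤ Q2 →
  1 ≤ f → 1 ≤ g → a ≠ b → |a| ≤ (N : ℤ) → |b| ≤ (N : ℤ) →
  ∑ m ∈ Ioc (Q / g) (2 * Q / g), ∑ n ∈ Ioc (Q2 / g) (2 * Q2 / g), SSG N j f (g * m) (g * n) a b ≤
    C * (N : ℝ) ^ ε * ((N : ℝ) / g + Q + Q2 + 1)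

/-- **F2** (theorem tF2 (h1 : WbStmt) (h2 : SF2a) : SF2; adaptation of TN/N2.lean). Proof. As N2 (MM/f ≤ MM since f ≥ 1);
sum of MM over the pairs ≤ (2Q/g)(2 Q2/g)(N/g)(g/Q)(g/Q2) = 4N/g. -/
def SF2 : Prop := ∀ (ε : ℝ) (j : ℕ), 0 < ε → ∃ C : ℝ, 0 ≤ C ∧ ∀ (N Q Q2 f g : ℕ) (c c' : ℕ → ℝ) (a b : ℤ), 1 ≤ N →
  1 ≤ Q → 1 ≤ Q2 → 1 ≤ f → 1 ≤ g → (∀ d, |c d| ≤ 1) → (∀ d, |c' d| ≤ 1) → a ≠ b → |a| ≤ (N : ℤ) → |b| ≤ (N : ℤ) →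
  ‖pg2 Q Q2 g (fEG N j f g c c' a b)‖ ≤ C * (N : ℝ) ^ ε * ((N : ℝ) / g + Q + Q2 + 1)

/-- **F3** (theorem tF3 (h : SszeGStmt) : SF3; copy of TN/N3.lean). -/
def SF3 : Prop := ∀ (N j Q Q2 f g : ℕ) (c c' : ℕ → ℝ) (a b : ℤ), ¬ ((g : ℤ) ∣ b - a) →
  pg2 Q Q2 g (fEG N j f g c c' a b) = 0

/-- **F4** (120 lines; theorem tF4 (h1 : TruncNStmt) (h2 : SsclGStmt) : SF4; adaptation of TN/N4.lean). The error term of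
one pair.
Proof. G := g m n, K1 = (b - a)/g, nu0 = a + g m K1 iv(m, n), nu = f iv(f, G) nu0. Then f | nu, and
G | nu - nu0 (iv_dvd: G | f iv(f, G) - 1; f is coprime to G), g m | nu0 - a, g n | nu0 - b (as in N4), so SsclGStmt gives
SSG - MM/f = clN nu - N/q with q = f G (lcm(g m, g n) = G). TruncNStmt (2H < f G), exponent h (t - nu)/(f G).
Modulo 1: nu/(f G) = iv(f,G) nu0/G = a iv(f,G)/G + K1 iv(f,G) iv(m,n)/n, iv(f,G) iv(m,n) = iv(f m, n) mod n (iv_unique), and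
iv(f,G)/G = 1/(f G) - iv(G,f)/f mod 1 (f iv(f,G) + G iv(G,f) - 1 is divisible by f and by G, so by f G). So
h (t - nu)/(f G) = h (t - a)/(f G) + h a iv(G,f)/f - h K1 iv(f m, n)/n mod 1, that is the product of the two factors
below (ee_add, ee_int/ee_congr). The term with the opposite sign is the complex conjugate (or the same computation). -/
def SF4 : Prop := ∀ (N j H f g m n : ℕ) (a b : ℤ), 1 ≤ N → 1 ≤ H → 1 ≤ f → 1 ≤ g → 1 ≤ m → 1 ≤ n → m.Coprime n →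
  f.Coprime (g * m) → f.Coprime (g * n) → (g : ℤ) ∣ b - a → 2 * H < f * (g * m * n) →
  ‖((SSG N j f (g * m) (g * n) a b - MM N (g * m) (g * n) a b / f : ℝ) : ℂ) -
      (1 / ((f : ℂ) * (g * m * n))) * ∑ h ∈ Icc 1 H, ∑ t ∈ Iw N j, ((wt N j t : ℝ) : ℂ) *
        (ee ((h : ℝ) * ((a : ℝ) * (iv (g * m * n) f : ℝ) / f)) *
            eF f ((h : ℤ) * (-((b - a) / g))) ((h : ℝ) * (((t : ℝ) - a) / ((f : ℝ) * g))) m n +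
          ee (-((h : ℝ) * ((a : ℝ) * (iv (g * m * n) f : ℝ) / f))) *
            eF f ((h : ℤ) * ((b - a) / g)) ((h : ℝ) * (-(((t : ℝ) - a) / ((f : ℝ) * g)))) m n)‖ ≤
    ((f : ℝ) * (g * m * n) / ((N : ℝ) * H)) ^ (2 * j + 1)

/-- **F5** (120 lines; theorem tF5 (h : PglStmt) : SF5). The trilinear form with the factor e(h a iv(g m n, f)/f).
Proof. Split the pairs (m, n) by the classes u = m % f, v = n % f (u, v ∈ range f): for f coprime to g m n (otherwise the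
coefficient c(g m) c'(g n) is 0) iv (g m n) f = iv (g u v) f (iv_congr), so the factor is the constant lam h =
ee (s h (a iv (g u v) f/f)) (s = 1 or -1; norm 1). With c_u(d) = if (d / g) % f = u then c d else 0 and c'_v in the same
way (so c_u(g m) = c(g m) [m % f = u] as g ≥ 1) the sum is the sum over u, v ∈ range f of
∑_h lam h * pg2 (c_u(g m) c'_v(g n) ..), and PglStmt applies to each (c'_v d ≠ 0 implies c' d ≠ 0). There are f^2 pairs (u, v).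
(The case f = 1: u = v = 0, the factor iv (.) 1 = 0.) -/
def SF5 : Prop := ∀ ε : ℝ, 0 < ε → ∃ C : ℝ, 0 ≤ C ∧ ∀ (Q Q2 g H f : ℕ) (L1 L2 : ℝ) (c c' : ℕ → ℝ)
    (s : ℝ) (a θ : ℤ) (τ : ℝ), 1 ≤ g → g ≤ Q2 → Q2 ≤ Q → 1 ≤ H → 1 ≤ f → 4 * (g : ℝ) ≤ L1 → L1 ≤ L2 →
  L2 ≤ ((Q2 / g : ℕ) : ℝ) → (∀ d, |c d| ≤ 1) → (∀ d, |c' d| ≤ 1) →
  (∀ d, c d ≠ 0 → f.Coprime d) → (∀ d, c' d ≠ 0 → Conv L1 L2 d ∧ f.Coprime d) → θ ≠ 0 →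
  ‖∑ h ∈ Icc 1 H, pg2 Q Q2 g (fun m n => ((c (g * m) * c' (g * n) : ℝ) : ℂ) * (1 / ((m : ℂ) * n)) *
      (ee (s * ((h : ℝ) * ((a : ℝ) * (iv (g * m * n) f : ℝ) / f))) * eF f ((h : ℤ) * θ) ((h : ℝ) * τ) m n))‖ ≤
    C * (f : ℝ) ^ 2 * ((Q : ℝ) * H * |(θ : ℝ)|) ^ ε *
      (1 + (H : ℝ) * |τ| / (((Q / g : ℕ) : ℝ) * ((Q2 / g : ℕ) : ℝ))) *
      (((H : ℝ) * g / L1) ^ ((1 : ℝ) / 2) + (H : ℝ) * (L2 / ((Q / g : ℕ) : ℝ)) ^ ((1 : ℝ) / 4) +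
        (H : ℝ) * ((Q2 / g : ℕ) : ℝ) ^ (-(1 : ℝ) / 4))

/-- **F6** (200 lines; theorem tF6 (h1 : WbStmt) (h4 : SF4) (h5 : SF5) : SF6; adaptation of TN/N6.lean). One g dividing
b - a. Proof. As N6. Pairs with c(g m) c'(g n) = 0 contribute 0 to both sides; for the others f is coprime to g m, g n, and
f g m n ≥ g m n > Q Q2/g, so 2 H g ≤ Q Q2 gives 2H < f g m n; f g m n ≤ 4 f Q Q2; at most (2Q)(2 Q2) pairs: error term. Main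
part: (1/(f g)) ∑_t wt(t) [SF5 with s = 1, theta = -K1, tau = (t-a)/(f g)] + [s = -1, K1, -tau]; |K1| ≤ 2N, |tau| ≤
(j+2) N, 1/(f g) ≤ 1, at most 3(j+1) N values of t. -/
def SF6 : Prop := ∀ (ε : ℝ) (j : ℕ), 0 < ε → ∃ C : ℝ, 0 ≤ C ∧ ∀ (N Q Q2 H f g : ℕ) (L1 L2 : ℝ) (c c' : ℕ → ℝ)
    (a b : ℤ),
  1 ≤ N → 1 ≤ H → 1 ≤ f → 1 ≤ g → g ≤ Q2 → Q2 ≤ Q → 2 * H * g ≤ Q * Q2 → 4 * (g : ℝ) ≤ L1 → L1 ≤ L2 →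
  L2 ≤ ((Q2 / g : ℕ) : ℝ) →
  (∀ d, |c d| ≤ 1) → (∀ d, |c' d| ≤ 1) → (∀ d, c d ≠ 0 → f.Coprime d) →
  (∀ d, c' d ≠ 0 → Conv L1 L2 d ∧ f.Coprime d) → a ≠ b →
  |a| ≤ (N : ℤ) → |b| ≤ (N : ℤ) → (g : ℤ) ∣ b - a →
  ‖pg2 Q Q2 g (fEG N j f g c c' a b)‖ ≤
    4 * (Q : ℝ) * Q2 * (4 * (f : ℝ) * Q * Q2 / ((N : ℝ) * H)) ^ (2 * j + 1) +
    C * N * (f : ℝ) ^ 2 * ((Q : ℝ) * H * (2 * N)) ^ ε *
      (1 + (H : ℝ) * N / (((Q / g : ℕ) : ℝ) * ((Q2 / g : ℕ) : ℝ))) *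
      (((H : ℝ) * g / L1) ^ ((1 : ℝ) / 2) + (H : ℝ) * (L2 / ((Q / g : ℕ) : ℝ)) ^ ((1 : ℝ) / 4) +
        (H : ℝ) * ((Q2 / g : ℕ) : ℝ) ^ (-(1 : ℝ) / 4))

/-- **F7** (250 lines; theorem tF7 : SF7; adaptation of TN/N7.lean; uses nothing). The exponents. kap = eps/200;
9 delta + 2 eps ≤ 1/2.
Proof. H = ⌈N^kap (1 + 4 f Q Q2/N)⌉, so N^kap (1 + 4 f Q Q2/N) ≤ H ≤ 2 N^kap (1 + 4 f Q Q2/N).
(1) 4 f Q Q2/(N H) ≤ N^(-kap), power ≤ N^(-3), 4 Q Q2 ≤ 16 N^2: first term ≤ 16 N^(1 - eps/10).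
(2) H ≤ 2 N^kap (1 + 16 N^(kap + 2 delta)) ≤ 34 N^(2 kap + 2 delta).
(3) (Q H 2N)^(eps/1000) ≤ 2 N^(3 eps/1000).
(4) P = Q/g ≥ Q/(2g), P2 = Q2/g ≥ Q2/(2g); H N/(P P2) ≤ 4 g^2 H N/(Q Q2) ≤ 8 N^(3 kap) (N/(Q Q2) + 4 f) ≤ 8 N^(3 kap) (N^(2 kap) +
4 N^kap) ≤ 40 N^(5 kap). So 1 + H N/(P P2) ≤ 41 N^(5 kap).
(5) (H g/L1)^(1/2) ≤ (34 N^(3 kap - eps))^(1/2) ≤ 6 N^((3/2) kap - eps/2).
(6) H (L2/P)^(1/4) ≤ 2 N^(kap/4) H (L2/Q)^(1/4), H (L2/Q)^(1/4) ≤ 2 N^kap (1 + 4 N^kap Q^2/N) (L2/Q)^(1/4) (Q2 ≤ Q) ≤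
2 N^(2 kap) (N^((kap-eps)/4) + 16 N^(-eps/4)) ≤ 34 N^(2 kap + kap/4 - eps/4); so H (L2/P)^(1/4) ≤ 68 N^((5/2) kap - eps/4).
(6') H P2^(-1/4) ≤ 34 N^(2 kap + 2 delta) 2 N^(kap/4) Q2^(-1/4) ≤ 68 N^(2 kap + 2 delta + kap/2 - 1/8) ≤ 68 N^((5/2) kap - eps/4)
(2 delta ≤ 1/9 - 4 eps/9).
(5) + (6) + (6') ≤ 142 N^((5/2) kap - eps/4). f^2 ≤ N^(2 kap).
(7) Product: C N * N^(2 kap) * 2 N^(3 eps/1000) * 41 N^(5 kap) * 142 N^((5/2) kap - eps/4) ≤ 11644 C N^(1 + 3 eps/1000 + (19/2) kap - eps/4)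
≤ 11644 C N^(1 - eps/10). C1 = 16 + 11644 C.
(8) Conditions as in N7: Q2 ≥ N^(1/2-kap) ≥ N^kap ≥ g; 2 H g ≤ 68 N^(3 kap + 2 delta) ≤ N^(1 - 2 kap) ≤ Q Q2; 4 g ≤ L1;
L2 ≤ N^(1/2-eps) ≤ Q2/(2g) ≤ P2. -/
def SF7 : Prop := ∀ (δ ε C : ℝ) (j : ℕ), 0 ≤ δ → 0 < ε → 2 * δ + ε ≤ 1 / 2 - 7 * δ - ε → 0 ≤ C →
  3 ≤ ε / 200 * (2 * j + 1) →
  ∃ C1 : ℝ, ∃ N0 : ℕ, 0 ≤ C1 ∧ ∀ (N Q Q2 f : ℕ) (L1 L2 : ℝ), N0 ≤ N → 1 ≤ N → Q2 ≤ Q →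
    (N : ℝ) ^ ((1 : ℝ) / 2 - ε / 200) ≤ Q2 → (Q : ℝ) ≤ 2 * (N : ℝ) ^ ((1 : ℝ) / 2 + δ) →
    1 ≤ f → (f : ℝ) ≤ (N : ℝ) ^ (ε / 200) →
    (N : ℝ) ^ (2 * δ + ε) ≤ L1 → L1 ≤ L2 → L2 ≤ (N : ℝ) ^ ((1 : ℝ) / 2 - 7 * δ - ε) →
    1 ≤ Q2 ∧ ∃ H : ℕ, 1 ≤ H ∧ ∀ g : ℕ, 1 ≤ g → (g : ℝ) ≤ (N : ℝ) ^ (ε / 200) →
      g ≤ Q2 ∧ 2 * H * g ≤ Q * Q2 ∧ 4 * (g : ℝ) ≤ L1 ∧ L2 ≤ ((Q2 / g : ℕ) : ℝ) ∧
      4 * (Q : ℝ) * Q2 * (4 * (f : ℝ) * Q * Q2 / ((N : ℝ) * H)) ^ (2 * j + 1) +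
        C * N * (f : ℝ) ^ 2 * ((Q : ℝ) * H * (2 * N)) ^ (ε / 1000) *
          (1 + (H : ℝ) * N / (((Q / g : ℕ) : ℝ) * ((Q2 / g : ℕ) : ℝ))) *
          (((H : ℝ) * g / L1) ^ ((1 : ℝ) / 2) + (H : ℝ) * (L2 / ((Q / g : ℕ) : ℝ)) ^ ((1 : ℝ) / 4) +
            (H : ℝ) * ((Q2 / g : ℕ) : ℝ) ^ (-(1 : ℝ) / 4)) ≤
        C1 * (N : ℝ) ^ ((1 : ℝ) - ε / 10)

/-- **F8** (150 lines; theorem tF8 (h1 : SF1) (h2 : SF2) (h3 : SF3) (h6 : SF6) (h7 : SF7) (hT : TauMStmt) : SF8;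
adaptation of TN/N8.lean). The result for Q2 ≤ Q.
Proof. As N8 with j = ⌈600/eps⌉, kap = eps/200, eta = 3 eps/1000. For g > N^kap: SF2 ≤ C2 N^(eps/1000) (N^(1-kap) +
4 N^(1/2+delta) + 1) ≤ 6 C2 N^(1 - 4 eps/1000). -/
def SF8 : Prop := ∀ δ ε : ℝ, 0 ≤ δ → 0 < ε → 2 * δ + ε ≤ 1 / 2 - 7 * δ - ε →
  ∃ (j : ℕ) (C η κ : ℝ) (N0 : ℕ), 0 < η ∧ 0 < κ ∧ ∀ (N Q Q2 f : ℕ) (L1 L2 : ℝ) (c c' : ℕ → ℝ) (a b : ℤ),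
    N0 ≤ N → 1 ≤ N → Q2 ≤ Q →
    (N : ℝ) ^ ((1 : ℝ) / 2 - κ) ≤ Q2 → (Q : ℝ) ≤ 2 * (N : ℝ) ^ ((1 : ℝ) / 2 + δ) →
    1 ≤ f → (f : ℝ) ≤ (N : ℝ) ^ κ →
    (N : ℝ) ^ (2 * δ + ε) ≤ L1 → L2 ≤ (N : ℝ) ^ ((1 : ℝ) / 2 - 7 * δ - ε) →
    (∀ d, |c d| ≤ 1) → (∀ d, |c' d| ≤ 1) → (∀ d, c d ≠ 0 → f.Coprime d) →
    (∀ d, c' d ≠ 0 → Conv L1 L2 d ∧ f.Coprime d) →
    a ≠ b → |a| ≤ (N : ℤ) → |b| ≤ (N : ℤ) →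
    |∑ d ∈ Ioc Q (2 * Q), ∑ d' ∈ Ioc Q2 (2 * Q2),
        c d * c' d' * (SSG N j f d d' a b - MM N d d' a b / f)| ≤ C * (N : ℝ) ^ (1 - η)

/-- **F9** (60 lines; theorem tF9 (h : SF8) : EEGStmt). Symmetry. Proof. If Q2 ≤ Q this is SF8. If Q < Q2 exchange
(Q, c, a) and (Q2, c', b): Finset.sum_comm, SSG N j f u w a b = SSG N j f w u b a (the indicator is symmetric), MM N u w a b =
MM N w u b a (Nat.gcd_comm, a - b divisible iff b - a divisible, mul_comm). -/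
def SF9 : Prop := EEGStmt

end Pool.Agent.Lib.TN
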