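import Pool.Agent.Lib.TN.Stmts
import Pool.Agent.Lib.TB.SpecM

/-!
MP_00e23e_nt, directory Lib/TN (THEOREM N, coordinator helper3), part M (helper62): from the sum of the error terms
(EENStmt, part G, helper95) to OffNStmt of Stmts.lean; adaptation of Lib/TB/SpecM.lean to the weight wt N j (support
|n| ≤ (j+1) N) and the cut RN δ ε N. First lines of every module: `import Pool.Agent.Lib.TN.SpecM`, then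
`namespace Pool.Agent.Lib.TN`, `open Finset Pool.Agent.Lib.EH3 Pool.Agent.Lib.TB`. Private lemmas start with the name
of the module. Final theorem of module Xyz: `theorem tXyz (h1 : AStmt) ... : XyzStmt`.

The weight-free modules of Lib/TB are used as they are (hypotheses Pool.Agent.Lib.TB.MkaStmt, MmiStmt, MmbStmt,
MabStmt, TauMStmt, MsmStmt, all proved in Lib/TB).
-/

namespace Pool.Agent.Lib.TN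

open Finset Pool.Agent.Lib.EH3 Pool.Agent.Lib.TB

/-- the range of the weight wt N j -/
noncomputable abbrev rn (N j : ℕ) : Finset ℤ := Icc (-(((j + 1) * N : ℕ) : ℤ)) ((j + 1) * N : ℕ)

/-- the weighted number of n congruent to b modulo q -/
noncomputable def clw (N j q : ℕ) (b : ℤ) : ℝ :=
  ∑ n ∈ rn N j, wt N j n * (if (q : ℤ) ∣ n - b then 1 else 0)

/-- the modulus count with the weight wt N j -/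
noncomputable def SW (N j u w : ℕ) (a b : ℤ) : ℝ :=
  ∑ n ∈ rn N j, wt N j n * (if (u : ℤ) ∣ n - a ∧ (w : ℤ) ∣ n - b then 1 else 0)

/-- Module Wt (theorem tWt; the weight). Uses: Pool.Agent.Lib.TB.MftStmt.
Proof. Induction on j. (1) 0 ≤ tri ≤ 1 and ∑_m tri N m = N (MftStmt at t = 0, GG N 0 = N), so wt (j+1) n is between 0 and
(1/N) ∑ tri = 1. (2) if |n| > (j+2) N and |m| ≤ N then |n - m| > (j+1) N. (3) ∑_n wt (j+1)(n) ee(n t) = (1/N) (∑_m tri N m ee(m t))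
(∑_k wt j k ee(k t)) (k = n - m; the ranges: n ∈ rn N (j+1) contains all m + k) = (1/N) (‖GG‖²/N) ‖GG‖^(2j+2)/N^(2j+1).
(4) For |n| ≤ N/2, n ≥ 0: the m with 0 ≤ m ≤ N/2 satisfy |n - m| ≤ N/2 and tri N m ≥ 1/2, and they are at least N/2 in number, so
wt (j+1) n ≥ (1/N) (N/2) (1/2) (1/4)^(j+1); n < 0 by the same with -N/2 ≤ m ≤ 0. j = 0: tri ≥ 1/2. -/
def WtStmt : Prop :=
  (∀ (N j : ℕ) (n : ℤ), 1 ≤ N → 0 ≤ wt N j n ∧ wt N j n ≤ 1) ∧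
  (∀ (N j : ℕ) (n : ℤ), 1 ≤ N → n ∉ rn N j → wt N j n = 0) ∧
  (∀ (N j : ℕ) (t : ℝ), 1 ≤ N → ∑ n ∈ rn N j, ((wt N j n : ℝ) : ℂ) * ee ((n : ℝ) * t) =
    ((‖GG N t‖ ^ (2 * j + 2) / (N : ℝ) ^ (2 * j + 1) : ℝ) : ℂ)) ∧
  (∀ (N j : ℕ) (n : ℤ), 1 ≤ N → 2 * |n| ≤ N → ((1 : ℝ) / 4) ^ (j + 1) ≤ wt N j n)

/-- Module Wex (theorem tWex; exact Fourier expansion of clw). Uses: WtStmt. (Compare Lib/TB/Mex.lean.)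
Proof. 1_{q | m} = (1/q) ∑_{h < q} ee (h m/q), m = n - b, exchange the sums, WtStmt (3) with t = h/q. -/
def WexStmt : Prop := ∀ (N j q : ℕ) (b : ℤ), 1 ≤ N → 1 ≤ q →
  ((clw N j q b : ℝ) : ℂ) = (1 / (q : ℂ)) * ∑ h ∈ range q, ee (-((h : ℝ) * (b : ℝ) / (q : ℝ))) *
    ((‖GG N ((h : ℝ) / (q : ℝ))‖ ^ (2 * j + 2) / (N : ℝ) ^ (2 * j + 1) : ℝ) : ℂ)

/-- Module Wcb (theorem tWcb; the count clw with error q/N). Uses: WexStmt, Pool.Agent.Lib.TB.MsmStmt. (Compare Lib/TB/Mcb.lean.)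
Proof. The term h = 0 of Wex is N/q (GG N 0 = N). For h > 0: ‖GG‖ ≤ N (norm_GG_le), so ‖GG‖^(2j+2)/N^(2j+1) ≤ ‖GG‖²/N, and the
second part of Msm: the sum is at most (1/q)(1/N) q². -/
def WcbStmt : Prop := ∀ (N j q : ℕ) (b : ℤ), 1 ≤ N → 1 ≤ q → |clw N j q b - (N : ℝ) / q| ≤ (q : ℝ) / N

/-- Module Wsc (theorem tWsc). Uses: nothing. (Compare Lib/TB/Msc.lean: the same proof.) -/
def WscStmt : Prop :=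
  (∀ (N j u w : ℕ) (a b ν : ℤ), 1 ≤ u → 1 ≤ w → (u : ℤ) ∣ ν - a → (w : ℤ) ∣ ν - b →
    SW N j u w a b = clw N j (Nat.lcm u w) ν ∧ MM N u w a b = (N : ℝ) / (Nat.lcm u w : ℝ)) ∧
  (∀ (N j u w : ℕ) (a b : ℤ), ¬ (((Nat.gcd u w : ℕ) : ℤ) ∣ a - b) → SW N j u w a b = 0 ∧ MM N u w a b = 0)

/-- Module Wsb (theorem tWsb; trivial bounds). Uses: WscStmt, WcbStmt, WtStmt. (Compare Lib/TB/Msb.lean.)
Proof. If gcd u w ∤ a - b both terms vanish. Otherwise there is ν with u | ν - a, w | ν - b, so SW - MM = clw N j q ν - N/q,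
q = lcm u w: first bound Wcb. Second: 0 ≤ wt ≤ 1 and the number of n ∈ rn N j with n = ν mod q is ≤ 2 (j+1) N/q + 1. -/
def WsbStmt : Prop := ∀ (N j u w : ℕ) (a b : ℤ), 1 ≤ N → 1 ≤ u → 1 ≤ w →
  |SW N j u w a b - MM N u w a b| ≤ (Nat.lcm u w : ℝ) / N ∧
  |SW N j u w a b - MM N u w a b| ≤ (2 * j + 3) * (N : ℝ) / (Nat.lcm u w : ℝ) + 1

/-- Module Wcr (theorem tWcr; the cross terms). Uses: Pool.Agent.Lib.TB.MkaStmt, WsbStmt. (Compare Lib/TB/Mcr.lean: the same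
proof, SW in place of SS, first bound of Wsb.) -/
def WcrStmt : Prop := ∀ (N j R Q d d' : ℕ) (a b : ℤ), 1 ≤ N → 1 ≤ R → R ≤ Q → d ∈ Ioc Q (2 * Q) →
  d' ∈ Ioc Q (2 * Q) →
  |∑ u ∈ d.divisors, ∑ w ∈ d'.divisors, kap R d u * kap R d' w * (SW N j u w a b - MM N u w a b) -
      (SW N j d d' a b - MM N d d' a b)| ≤
    5 * (R : ℝ) ^ 2 / N * ((d.divisors.card : ℝ) ^ 2 * (d'.divisors.card : ℝ) ^ 2)

/-- Module Wfu (theorem tWfu; expansion of the full sum). Uses: Pool.Agent.Lib.TB.MkaStmt (first part). (Compare Lib/TB/Mfu.lean.) -/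
def WfuStmt : Prop := ∀ (N j R Q : ℕ) (c c' : ℕ → ℝ) (a b : ℤ),
  ∑ n ∈ rn N j, wt N j n * ((∑ d ∈ Ioc Q (2 * Q), c d * dd R d (n - a)) *
      (∑ d' ∈ Ioc Q (2 * Q), c' d' * dd R d' (n - b))) =
    ∑ d ∈ Ioc Q (2 * Q), ∑ d' ∈ Ioc Q (2 * Q), c d * c' d' *
      ∑ u ∈ d.divisors, ∑ w ∈ d'.divisors, kap R d u * kap R d' w * SW N j u w a b

/-- Module Wxc (theorem tWxc; the points n = a and n = b). Uses: Pool.Agent.Lib.TB.MabStmt, WtStmt. (Compare Lib/TB/Mxc.lean.) -/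
def WxcStmt : Prop := ∀ (N j R Q : ℕ) (c c' : ℕ → ℝ) (a b : ℤ), 1 ≤ N → 1 ≤ R → (∀ d, |c d| ≤ 1) →
  (∀ d, |c' d| ≤ 1) → a ≠ b →
  |∑ n ∈ rn N j, wt N j n * (FF R Q c (n - a) * FF R Q c' (n - b)) -
    ∑ n ∈ rn N j, wt N j n * ((∑ d ∈ Ioc Q (2 * Q), c d * dd R d (n - a)) *
      (∑ d' ∈ Ioc Q (2 * Q), c' d' * dd R d' (n - b)))| ≤
    2 * (Q : ℝ) * (((a - b).natAbs.divisors.card : ℝ) * (4 + 3 * Real.log R))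

/-- The sum of the error terms of all pairs of moduli (RESULT OF PART G, helper95). -/
def EENStmt : Prop := ∀ δ ε : ℝ, 0 ≤ δ → 0 < ε → 2 * δ + ε ≤ 1 / 2 - 7 * δ - ε →
  ∃ (j : ℕ) (C η κ : ℝ) (N0 : ℕ), 0 < η ∧ 0 < κ ∧ ∀ (N Q : ℕ) (L1 L2 : ℝ) (c c' : ℕ → ℝ) (a b : ℤ), N0 ≤ N → 1 ≤ N →
    (N : ℝ) ^ ((1 : ℝ) / 2 - κ) ≤ Q → (Q : ℝ) ≤ 2 * (N : ℝ) ^ ((1 : ℝ) / 2 + δ) →
    (N : ℝ) ^ (2 * δ + ε) ≤ L1 → L2 ≤ (N : ℝ) ^ ((1 : ℝ) / 2 - 7 * δ - ε) →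
    (∀ d, |c d| ≤ 1) → (∀ d, |c' d| ≤ 1) → (∀ d, c d ≠ 0 → Conv L1 L2 d) → (∀ d, c' d ≠ 0 → Conv L1 L2 d) →
    a ≠ b → |a| ≤ (N : ℤ) → |b| ≤ (N : ℤ) →
    |∑ d ∈ Ioc Q (2 * Q), ∑ d' ∈ Ioc Q (2 * Q), c d * c' d' * (SW N j d d' a b - MM N d d' a b)| ≤
      C * (N : ℝ) ^ (1 - η)

/-- Module Wbg (theorem tWbg (h1 : EENStmt) (h2 : Pool.Agent.Lib.TB.TauMStmt) (h3 : Pool.Agent.Lib.TB.MmiStmt)
(h4 : Pool.Agent.Lib.TB.MmbStmt) (h5 : WcrStmt) (h6 : WfuStmt) (h7 : WxcStmt) : WbgStmt; large N). (Compare Lib/TB/Mbg.lean.)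
Proof. κ' = min(κ, ε/2), η' = min(η, ε/2), R = RN δ ε N = ⌊N^(1/2-δ-ε)⌋ ≥ N^(1/2-δ-ε)/2, 1 ≤ R ≤ N^(1/2-δ-ε) ≤ N^(1/2-κ') ≤ Q (1/2-δ-ε > 0 since
9δ + 2ε ≤ 1/2), |a - b| ≤ 2N, a ≠ b. Divisor bound TauMStmt with ε1 = ε/8 (numbers ≤ 4N). By Wxc and Wfu the sum is, up to 2Q τ(|a-b|)(4 + 3 log R) ≤
C N^(1/2+δ+ε/4), equal to ∑_{d,d'} c_d c'_d' ∑_{u,w} kap kap' SW, SW = MM + (SW - MM). (i) MM: Mmi, Mmb: ≤ 18 N τ(|a-b|)/R ≤ C N^(1/2+δ+9ε/8).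
(ii) (SW - MM) of (d,d'): EENStmt, ≤ C N^(1-η). (iii) Wcr: ≤ Q² 5 (R²/N) C⁴ (4N)^(4 ε1) ≤ C N^(1+2δ) N^(1-2δ-2ε) N^(-1) N^(ε/2) = C N^(1-3ε/2).
All exponents are ≤ 1 - ε/2 (1/2 + δ + 9ε/8 ≤ 1 - ε/2 because δ ≤ 1/18 - 2ε/9 and ε ≤ 1/4). -/
def WbgStmt : Prop := ∀ δ ε : ℝ, 0 ≤ δ → 0 < ε → 2 * δ + ε ≤ 1 / 2 - 7 * δ - ε →
  ∃ (j : ℕ) (C η κ : ℝ) (N0 : ℕ), 0 < η ∧ 0 < κ ∧ κ ≤ ε / 2 ∧ ∀ (N Q : ℕ) (L1 L2 : ℝ) (c c' : ℕ → ℝ) (a b : ℤ), N0 ≤ N → 1 ≤ N →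
    (N : ℝ) ^ ((1 : ℝ) / 2 - κ) ≤ Q → (Q : ℝ) ≤ 2 * (N : ℝ) ^ ((1 : ℝ) / 2 + δ) →
    (N : ℝ) ^ (2 * δ + ε) ≤ L1 → L2 ≤ (N : ℝ) ^ ((1 : ℝ) / 2 - 7 * δ - ε) →
    (∀ d, |c d| ≤ 1) → (∀ d, |c' d| ≤ 1) → (∀ d, c d ≠ 0 → Conv L1 L2 d) → (∀ d, c' d ≠ 0 → Conv L1 L2 d) →
    a ≠ b → |a| ≤ (N : ℤ) → |b| ≤ (N : ℤ) →
    |∑ n ∈ rn N j, wt N j n * (FF (RN δ ε N) Q c (n - a) * FF (RN δ ε N) Q c' (n - b))| ≤ C * (N : ℝ) ^ (1 - η)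

/-- Module Wof (theorem tWof (h1 : Pool.Agent.Lib.TB.MabStmt) (h2 : WtStmt) (h3 : WbgStmt) : OffNStmt). (Compare Lib/TB/Mof.lean.)
Proof. For N ≥ N0 this is Wbg (η replaced by min(η, 1), C by a larger constant ≥ 0). For 1 ≤ N < N0: 0 ≤ wt ≤ 1 (Wt), R = RN δ ε N satisfies 1 ≤ R ≤ N
(0 < 1/2 - δ - ε < 1), |n - a|, |n - b| ≤ (j+2) N, and |FF m| ≤ τ(|m|)(4 + 3 log R) ≤ |m| (4 + 3N) for m ≠ 0 (Mab), FF 0 = 0, so the sum is at most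
(2 (j+1) N0 + 1)((j+2) N0 (4 + 3 N0))² =: C1 and N^(1-η) ≥ 1. -/
def WofStmt : Prop := OffNStmt

end Pool.Agent.Lib.TN
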