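import Pool.Agent.Lib.TN.Stmts

/-!
MP_00e23e_nt, directory Lib/TN: interfaces of the general off-diagonal estimate (congruence f | n, two blocks Q and
Q2), for Theorem P (bounded exceptional set) to the level 5/9. Everything here is an adaptation of the case f = 1,
Q = Q2 of TN/Stmts.lean.
-/

namespace Pool.Agent.Lib.TN

open Finset Pool.Agent.Lib.EH3 Pool.Agent.Lib.TB Pool.Agent.Results.MP_00e23e_nt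

/-- the phase with the factor f -/
noncomputable def eF (f : ℕ) (th : ℤ) (vt : ℝ) (m n : ℕ) : ℂ :=
  ee ((th : ℝ) * (iv (f * m) n : ℝ) / (n : ℝ) + vt / ((m : ℝ) * n))

/-- the sum over the pairs d = g m in (Q, 2Q], d' = g n in (Q2, 2 Q2] with (m, n) = 1 -/
noncomputable def pg2 (Q Q2 g : ℕ) (F : ℕ → ℕ → ℂ) : ℂ :=
  ∑ m ∈ Ioc (Q / g) (2 * Q / g), ∑ n ∈ (Ioc (Q2 / g) (2 * Q2 / g)).filter (fun n => m.Coprime n), F m n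

/-- the trilinear form with m in (P, 3P], r s in (P2, 3 P2], f coprime to r s (part T; uses IsqStmt) -/
def TrfStmt : Prop := ∀ ε : ℝ, 0 < ε → ∃ C : ℝ, 0 ≤ C ∧ ∀ (P P2 S H f : ℕ) (α : ℕ → ℂ) (β : ℕ → ℕ → ℂ) (θ : ℤ)
    (τ : ℝ), 1 ≤ P → 1 ≤ P2 → 1 ≤ S → 1 ≤ H → 1 ≤ f → S ≤ P2 → (∀ m, ‖α m‖ ≤ 1) → (∀ r s, ‖β r s‖ ≤ 1) →
  (∀ r s, β r s ≠ 0 → P2 < r * s ∧ r * s ≤ 3 * P2 ∧ Squarefree (r * s) ∧ f.Coprime (r * s)) → θ ≠ 0 →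
  ‖∑ h ∈ Icc 1 H, ∑ m ∈ Ioc P (3 * P), ∑ r ∈ Icc 1 (3 * P2 / S),
      ∑ s ∈ (Ioc S (2 * S)).filter (fun s => m.Coprime (r * s)),
        α m * β r s * eF f ((h : ℤ) * θ) ((h : ℝ) * τ) m (r * s)‖ ≤
    C * ((P : ℝ) * P2 * H * |(θ : ℝ)|) ^ ε * (1 + (H : ℝ) * |τ| / ((P : ℝ) * P2)) *
      (((P : ℝ) ^ 2 * (P2 : ℝ) ^ 2 * H / S) ^ ((1 : ℝ) / 2) +
        (H : ℝ) * ((P : ℝ) * (P2 : ℝ) ^ ((5 : ℝ) / 2) * (S : ℝ) ^ ((1 : ℝ) / 2) +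
          (P : ℝ) ^ 2 * (P2 : ℝ) ^ ((3 : ℝ) / 2)) ^ ((1 : ℝ) / 2))

/-- the trilinear form for the pairs (g m, g n), blocks Q2 ≤ Q (part T; uses TrfStmt): c' is supported on squarefree
numbers prime to f with a divisor in [L1, L2] -/
def PgfStmt : Prop := ∀ ε : ℝ, 0 < ε → ∃ C : ℝ, 0 ≤ C ∧ ∀ (Q Q2 g H f : ℕ) (L1 L2 : ℝ) (c c' : ℕ → ℝ) (θ : ℤ)
  (τ : ℝ), 1 ≤ g → g ≤ Q2 → Q2 ≤ Q → 1 ≤ H → 1 ≤ f → 4 * (g : ℝ) ≤ L1 → L1 ≤ L2 → L2 ≤ ((Q2 / g : ℕ) : ℝ) →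
  (∀ d, |c d| ≤ 1) → (∀ d, |c' d| ≤ 1) →
  (∀ d, c' d ≠ 0 → Squarefree d ∧ f.Coprime d ∧ ∃ s : ℕ, s ∣ d ∧ L1 ≤ s ∧ (s : ℝ) ≤ L2) → θ ≠ 0 →
  ‖∑ h ∈ Icc 1 H, pg2 Q Q2 g (fun m n => ((c (g * m) * c' (g * n) : ℝ) : ℂ) * (1 / ((m : ℂ) * n)) *
      eF f ((h : ℤ) * θ) ((h : ℝ) * τ) m n)‖ ≤
    C * ((Q : ℝ) * H * |(θ : ℝ)|) ^ ε * (1 + (H : ℝ) * |τ| / (((Q / g : ℕ) : ℝ) * ((Q2 / g : ℕ) : ℝ))) *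
      (((H : ℝ) * g / L1) ^ ((1 : ℝ) / 2) + (H : ℝ) * (L2 / ((Q / g : ℕ) : ℝ)) ^ ((1 : ℝ) / 4) +
        (H : ℝ) * ((Q2 / g : ℕ) : ℝ) ^ (-(1 : ℝ) / 4))

/-- (OFF) with the congruence f | n and two blocks (result of parts G and M; uses PgfStmt). Symmetric in (Q, c, a) and
(Q2, c', b), so that PgfStmt may be used with the larger block as the first one. -/
def OffGStmt : Prop := ∀ δ ε : ℝ, 0 ≤ δ → 0 < ε → 2 * δ + ε ≤ 1 / 2 - 7 * δ - ε →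
  ∃ (j : ℕ) (C η κ : ℝ), 0 < η ∧ 0 < κ ∧ ∀ (N Q Q2 f : ℕ) (L1 L2 : ℝ) (c c' : ℕ → ℝ) (a b : ℤ), 1 ≤ N →
    (N : ℝ) ^ ((1 : ℝ) / 2 - κ) ≤ Q → (Q : ℝ) ≤ 2 * (N : ℝ) ^ ((1 : ℝ) / 2 + δ) →
    (N : ℝ) ^ ((1 : ℝ) / 2 - κ) ≤ Q2 → (Q2 : ℝ) ≤ 2 * (N : ℝ) ^ ((1 : ℝ) / 2 + δ) →
    1 ≤ f → (f : ℝ) ≤ (N : ℝ) ^ κ →
    (N : ℝ) ^ (2 * δ + ε) ≤ L1 → L2 ≤ (N : ℝ) ^ ((1 : ℝ) / 2 - 7 * δ - ε) →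
    (∀ d, |c d| ≤ 1) → (∀ d, |c' d| ≤ 1) → (∀ d, c d ≠ 0 → Conv L1 L2 d ∧ f.Coprime d) →
    (∀ d, c' d ≠ 0 → Conv L1 L2 d ∧ f.Coprime d) →
    a ≠ b → |a| ≤ (N : ℤ) → |b| ≤ (N : ℤ) →
    |∑ n ∈ Icc (-(((j + 1) * N : ℕ) : ℤ)) ((j + 1) * N : ℕ),
        wt N j n * (if (f : ℤ) ∣ n then 1 else 0) *
          (FF (RN δ ε N) Q c (n - a) * FF (RN δ ε N) Q2 c' (n - b))| ≤ C * (N : ℝ) ^ (1 - η)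

end Pool.Agent.Lib.TN
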