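import Pool.Agent.Lib.TN.SpecT
import Pool.Agent.Lib.TN.StmF

/-!
MP_00e23e_nt, directory Lib/TN, part T with the factor f and two blocks (helper3). Final statements TrfStmt and
PgfStmt (TN/StmF.lean). Every module is an adaptation of a finished module of part T (same proof, with the changes
described): copy the file named in the docstring and change it.

RULES. Module X: file Pool/Agent/Lib/TN/X.lean, first line `import Pool.Agent.Lib.TN.SpecTf`, then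
`namespace Pool.Agent.Lib.TN` and `open Finset Pool.Agent.Lib.EH3 Pool.Agent.Lib.TB`, private lemmas with names starting
with X_, final theorem `theorem tX (h1 : AStmt) ... : XStmt`; the statements listed under Uses are hypotheses of your
theorem, in this order. Never use congr!. Every module below 60 s.
-/

namespace Pool.Agent.Lib.TN

open Finset Pool.Agent.Lib.EH3 Pool.Agent.Lib.TB Pool.Agent.Results.MP_00e23e_nt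

/-- the trilinear form -/
noncomputable def Tff (P P2 S H f : ℕ) (α : ℕ → ℂ) (β : ℕ → ℕ → ℂ) (θ : ℤ) (τ : ℝ) : ℂ :=
  ∑ h ∈ Icc 1 H, ∑ m ∈ Ioc P (3 * P), ∑ r ∈ Icc 1 (3 * P2 / S),
      ∑ s ∈ (Ioc S (2 * S)).filter (fun s => m.Coprime (r * s)),
        α m * β r s * eF f ((h : ℤ) * θ) ((h : ℝ) * τ) m (r * s)

/-- the inner sum over m after Cauchy's inequality -/
noncomputable def Imf (P f : ℕ) (θ : ℤ) (τ : ℝ) (r s1 s2 h1 h2 : ℕ) : ℂ :=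
  ∑ m ∈ (Ioc P (3 * P)).filter (fun m => m.Coprime (r * s1) ∧ m.Coprime (r * s2)),
    eF f ((h1 : ℤ) * θ) ((h1 : ℝ) * τ) m (r * s1) * (starRingEnd ℂ) (eF f ((h2 : ℤ) * θ) ((h2 : ℝ) * τ) m (r * s2))

/-- Module Tcf (theorem tTcf; copy of TN/Tcs.lean). Uses: nothing.
Proof. As TcsStmt: the phases only enter through ‖·‖ = 1; the range of r is Icc 1 (3 P2/S), the range of m is Ioc P (3P) (2P elements). -/
def TcfStmt : Prop := ∀ (P P2 S H f : ℕ) (α : ℕ → ℂ) (β : ℕ → ℕ → ℂ) (θ : ℤ) (τ : ℝ), (∀ m, ‖α m‖ ≤ 1) →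
  (∀ r s, ‖β r s‖ ≤ 1) →
  ‖Tff P P2 S H f α β θ τ‖ ^ 2 ≤ 2 * (P : ℝ) * ((3 * P2 / S : ℕ) : ℝ) *
    ∑ r ∈ Icc 1 (3 * P2 / S), ∑ s1 ∈ Ioc S (2 * S), ∑ s2 ∈ Ioc S (2 * S), ∑ h1 ∈ Icc 1 H, ∑ h2 ∈ Icc 1 H,
      (if β r s1 ≠ 0 ∧ β r s2 ≠ 0 then ‖Imf P f θ τ r s1 s2 h1 h2‖ else 0)

/-- Module Tpf (theorem tTpf; copy of TN/Tph.lean). Uses: nothing.
Proof. As TphStmt with iv (f m): f m is coprime to r s1, r s2 and q0, the same argument gives the phase θ kk iv (f m) q0/q0, and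
iv (f m) q0 ≡ iv f q0 * iv m q0 mod q0 (iv_unique, iv_dvd), so by ee_congr the phase is ee((θ kk iv f q0) iv m q0/q0). -/
def TpfStmt : Prop := ∀ (f : ℕ) (θ : ℤ) (τ : ℝ) (r s1 s2 h1 h2 m : ℕ), 1 ≤ r → 1 ≤ s1 → 1 ≤ s2 → 1 ≤ m → 1 ≤ f →
  f.Coprime (r * s1) → f.Coprime (r * s2) → m.Coprime (r * s1) → m.Coprime (r * s2) →
  eF f ((h1 : ℤ) * θ) ((h1 : ℝ) * τ) m (r * s1) *
      (starRingEnd ℂ) (eF f ((h2 : ℤ) * θ) ((h2 : ℝ) * τ) m (r * s2)) =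
    ee (((θ * kk h1 h2 s1 s2 * (iv f (q0 r s1 s2) : ℤ) : ℤ) : ℝ) * (iv m (q0 r s1 s2) : ℝ) /
        ((q0 r s1 s2 : ℕ) : ℝ)) *
      ee (τ * ((h1 : ℝ) / ((r : ℝ) * s1) - (h2 : ℝ) / ((r : ℝ) * s2)) / m)

/-- Module Tif (theorem tTif; copy of TN/Tim.lean). Uses: IsqStmt, TpfStmt. (Import also TB/Psm.lean: tPsm.)
Proof. As TimStmt. c = θ kk iv f q0, gcd(c, q0) = gcd(θ kk, q0) because iv f q0 is coprime to q0 (f iv f q0 ≡ 1). IsqStmt for Ico (P+1) T,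
T - (P+1) ≤ 2P: B = τ(q0) gcd^(1/2) q0^(1/2) (2P/q0 + 1 + log q0) ≤ 2 τ(q0) gcd^(1/2) (q0^(1/2) + P/q0^(1/2)) (1 + log q0). |w| ≤ H/P2
(r s_i > P2), total variation of the smooth phase ≤ |τ| (H/P2) (1/P), 2π ≤ 7. -/
def TifStmt : Prop := ∀ (P P2 H f : ℕ) (θ : ℤ) (τ : ℝ) (r s1 s2 h1 h2 : ℕ), 1 ≤ P → 1 ≤ P2 → 1 ≤ f → h1 ≤ H → h2 ≤ H →
  P2 < r * s1 → P2 < r * s2 → Squarefree (r * s1) → Squarefree (r * s2) → f.Coprime (r * s1) → f.Coprime (r * s2) →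
  ‖Imf P f θ τ r s1 s2 h1 h2‖ ≤ 14 * (1 + (H : ℝ) * |τ| / ((P : ℝ) * P2)) *
    (((q0 r s1 s2).divisors.card : ℝ) * (Int.gcd (θ * kk h1 h2 s1 s2) (q0 r s1 s2) : ℝ) ^ ((1 : ℝ) / 2) *
      (((q0 r s1 s2 : ℕ) : ℝ) ^ ((1 : ℝ) / 2) + (P : ℝ) / ((q0 r s1 s2 : ℕ) : ℝ) ^ ((1 : ℝ) / 2)) *
      (1 + Real.log (q0 r s1 s2 : ℕ)))

/-- Module Trf (theorem tTrf; copy of TN/Tri.lean). FINAL STATEMENT TrfStmt (TN/StmF.lean). Uses: TcfStmt, TifStmt, TdgStmt, TgfStmt.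
Proof. As TriStmt. R = 3P2/S. V = 1 + H|τ|/(P P2). kk = 0: ‖Imf‖ ≤ 2P, so this part of the bracket is ≤ R C (S H)^(1+ε') 2P. kk ≠ 0: q0 = r lcm(s1, s2) with
P2 < r s1 ≤ q0 ≤ 3 P2 * 2S = 6 P2 S ≤ 6 P2^2, so q0^(1/2) + P/q0^(1/2) ≤ (6 P2 S)^(1/2) + P P2^(-1/2); gcd^(1/2) ≤ gcd, TgfStmt for the sum of the gcd:
≤ 14 V C P2^ε' ((6 P2 S)^(1/2) + P P2^(-1/2)) C (|θ| H S)^ε' R S^2 H^2. Times 2P R, R ≤ 3P2/S:
first part C (P P2 H)^(2ε') P^2 P2^2 H/S; second part C V (..)^(3ε') P P2^2 H^2 ((P2 S)^(1/2) + P P2^(-1/2)) = C V (..) H^2 (P P2^(5/2) S^(1/2) + P^2 P2^(3/2)). -/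
def TrfStmt' : Prop := TrfStmt

/-- the sum for the pairs (g m, g n), with the sum over h -/
noncomputable def Pff (Q Q2 g H f : ℕ) (c c' : ℕ → ℝ) (θ : ℤ) (τ : ℝ) : ℂ :=
  ∑ h ∈ Icc 1 H, pg2 Q Q2 g (fun m n => ((c (g * m) * c' (g * n) : ℝ) : ℂ) * (1 / ((m : ℂ) * n)) *
    eF f ((h : ℤ) * θ) ((h : ℝ) * τ) m n)

/-- Module Pdf (theorem tPdf; copy of TN/Pdy.lean). Uses: nothing.
Proof. As PdyStmt with P = Q/g for m (coefficients al Q g c) and P2 = Q2/g for n (coefficients be Q2 g c' σ). -/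
def PdfStmt : Prop := ∀ (Q Q2 g H J f : ℕ) (c c' : ℕ → ℝ) (σ : ℕ → ℕ) (θ : ℤ) (τ : ℝ), 1 ≤ g → g ≤ Q → g ≤ Q2 →
  3 * (Q2 / g) ≤ 2 ^ J → (∀ n, 1 ≤ n → c' (g * n) ≠ 0 → σ n ∣ n ∧ 2 ≤ σ n) →
  (((Q / g : ℕ) : ℂ)) * (((Q2 / g : ℕ) : ℂ)) * Pff Q Q2 g H f c c' θ τ =
    ∑ j ∈ range J, Tff (Q / g) (Q2 / g) (2 ^ j) H f (al Q g c) (be Q2 g c' σ) θ τ

/-- Module Pgf (theorem tPgf; copy of TN/Pgt.lean). FINAL STATEMENT PgfStmt (TN/StmF.lean). Uses: TrfStmt, PslStmt, PdfStmt.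
Proof. As PgtStmt; P = Q/g ≥ P2 = Q2/g (Q2 ≤ Q). f is coprime to g n, so to n = r s. Per j: ‖Tff_j‖/(P P2) ≤ C (P P2 H|θ|)^ε' V ((H/S)^(1/2) +
H ((P2 S)^(1/2)/P + P2^(-1/2))^(1/2)), and (P2 S)^(1/2)/P ≤ (S/P)^(1/2) since P2 ≤ P, (x + y)^(1/2) ≤ x^(1/2) + y^(1/2): (H/S)^(1/2) + H (S/P)^(1/4) + H P2^(-1/4),
with L1/(2g) ≤ S ≤ L2. P P2 ≤ Q^2. -/
def PgfStmt' : Prop := PgfStmt

end Pool.Agent.Lib.TN
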