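import Pool.Agent.Lib.TN.SpecTf
import Pool.Agent.Lib.TN.SpecGf

/-!
MP_00e23e_nt, directory Lib/TN, part T with the factor f, two blocks and coefficients lam h of the frequencies h
(helper3). Final statement PglStmt (TN/SpecGf.lean). Every module is a copy of the module of SpecTf.lean with lam h
inserted (only ‖lam h‖ ≤ 1 is used, in Cauchy's inequality).

RULES. Module X: file Pool/Agent/Lib/TN/X.lean, first line `import Pool.Agent.Lib.TN.SpecTl`, then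
`namespace Pool.Agent.Lib.TN` and `open Finset Pool.Agent.Lib.EH3 Pool.Agent.Lib.TB`, private lemmas with names starting
with X_, final theorem `theorem tX (h1 : AStmt) ... : XStmt`. Never use congr!. Every module below 60 s.
-/

namespace Pool.Agent.Lib.TN

open Finset Pool.Agent.Lib.EH3 Pool.Agent.Lib.TB Pool.Agent.Results.MP_00e23e_nt

/-- the trilinear form with coefficients lam h -/
noncomputable def Tll (P P2 S H f : ℕ) (lam α : ℕ → ℂ) (β : ℕ → ℕ → ℂ) (θ : ℤ) (τ : ℝ) : ℂ :=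
  ∑ h ∈ Icc 1 H, ∑ m ∈ Ioc P (3 * P), ∑ r ∈ Icc 1 (3 * P2 / S),
      ∑ s ∈ (Ioc S (2 * S)).filter (fun s => m.Coprime (r * s)),
        lam h * (α m * β r s * eF f ((h : ℤ) * θ) ((h : ℝ) * τ) m (r * s))

/-- Module Tcl (theorem tTcl; copy of TN/Tcs.lean or TN/Tcf.lean). Uses: nothing.
Proof. As TcsStmt; the coefficient of (s, h) inside is β r s * lam h, of norm ≤ 1, 0 if β r s = 0. -/
def TclStmt : Prop := ∀ (P P2 S H f : ℕ) (lam α : ℕ → ℂ) (β : ℕ → ℕ → ℂ) (θ : ℤ) (τ : ℝ), (∀ h, ‖lam h‖ ≤ 1) →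
  (∀ m, ‖α m‖ ≤ 1) → (∀ r s, ‖β r s‖ ≤ 1) →
  ‖Tll P P2 S H f lam α β θ τ‖ ^ 2 ≤ 2 * (P : ℝ) * ((3 * P2 / S : ℕ) : ℝ) *
    ∑ r ∈ Icc 1 (3 * P2 / S), ∑ s1 ∈ Ioc S (2 * S), ∑ s2 ∈ Ioc S (2 * S), ∑ h1 ∈ Icc 1 H, ∑ h2 ∈ Icc 1 H,
      (if β r s1 ≠ 0 ∧ β r s2 ≠ 0 then ‖Imf P f θ τ r s1 s2 h1 h2‖ else 0)

/-- Module Trl (theorem tTrl; copy of TN/Tri.lean or TN/Trf.lean). Uses: TclStmt, TifStmt, TdgStmt, TgfStmt.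
Proof. As TrfStmt (docstring in SpecTf.lean). -/
def TrlStmt : Prop := ∀ ε : ℝ, 0 < ε → ∃ C : ℝ, 0 ≤ C ∧ ∀ (P P2 S H f : ℕ) (lam α : ℕ → ℂ) (β : ℕ → ℕ → ℂ) (θ : ℤ)
    (τ : ℝ), 1 ≤ P → 1 ≤ P2 → 1 ≤ S → 1 ≤ H → 1 ≤ f → S ≤ P2 → (∀ h, ‖lam h‖ ≤ 1) → (∀ m, ‖α m‖ ≤ 1) →
  (∀ r s, ‖β r s‖ ≤ 1) →
  (∀ r s, β r s ≠ 0 → P2 < r * s ∧ r * s ≤ 3 * P2 ∧ Squarefree (r * s) ∧ f.Coprime (r * s)) → θ ≠ 0 →
  ‖Tll P P2 S H f lam α β θ τ‖ ≤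
    C * ((P : ℝ) * P2 * H * |(θ : ℝ)|) ^ ε * (1 + (H : ℝ) * |τ| / ((P : ℝ) * P2)) *
      (((P : ℝ) ^ 2 * (P2 : ℝ) ^ 2 * H / S) ^ ((1 : ℝ) / 2) +
        (H : ℝ) * ((P : ℝ) * (P2 : ℝ) ^ ((5 : ℝ) / 2) * (S : ℝ) ^ ((1 : ℝ) / 2) +
          (P : ℝ) ^ 2 * (P2 : ℝ) ^ ((3 : ℝ) / 2)) ^ ((1 : ℝ) / 2))

/-- the sum for the pairs (g m, g n), with the sum over h -/
noncomputable def Pll (Q Q2 g H f : ℕ) (lam : ℕ → ℂ) (c c' : ℕ → ℝ) (θ : ℤ) (τ : ℝ) : ℂ :=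
  ∑ h ∈ Icc 1 H, lam h * pg2 Q Q2 g (fun m n => ((c (g * m) * c' (g * n) : ℝ) : ℂ) * (1 / ((m : ℂ) * n)) *
    eF f ((h : ℤ) * θ) ((h : ℝ) * τ) m n)

/-- Module Pdl (theorem tPdl; copy of TN/Pdf.lean). Uses: nothing. -/
def PdlStmt : Prop := ∀ (Q Q2 g H J f : ℕ) (lam : ℕ → ℂ) (c c' : ℕ → ℝ) (σ : ℕ → ℕ) (θ : ℤ) (τ : ℝ), 1 ≤ g → g ≤ Q → g ≤ Q2 →
  3 * (Q2 / g) ≤ 2 ^ J → (∀ n, 1 ≤ n → c' (g * n) ≠ 0 → σ n ∣ n ∧ 2 ≤ σ n) →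
  (((Q / g : ℕ) : ℂ)) * (((Q2 / g : ℕ) : ℂ)) * Pll Q Q2 g H f lam c c' θ τ =
    ∑ j ∈ range J, Tll (Q / g) (Q2 / g) (2 ^ j) H f lam (al Q g c) (be Q2 g c' σ) θ τ

/-- Module Pgl (theorem tPgl; copy of TN/Pgf.lean). FINAL STATEMENT PglStmt (TN/SpecGf.lean). Uses: TrlStmt, PslStmt, PdlStmt. -/
def PglStmt' : Prop := PglStmt

end Pool.Agent.Lib.TN
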