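import Pool.Agent.Lib.TN.Stmts
import Pool.Agent.Lib.MP_72e2e6_nt.PeStmt
import Pool.Agent.Lib.MP_72e2e6_nt.SuStmt

/-!
MP_00e23e_nt, directory Lib/TN, part W (helper3): Weil's bound for Kloosterman sums modulo a prime, by the method of
Stepanov (StmtPeChr of Lib/MP_72e2e6_nt, proved) and the L-function of degree 2. Final statement WeilStmt
(Lib/TN/Stmts.lean).

RULES. Module X: file Pool/Agent/Lib/TN/X.lean, first line `import Pool.Agent.Lib.TN.SpecW`, then
`namespace Pool.Agent.Lib.TN` and `open Polynomial MP72e2e6`, private lemmas with names starting with X_, final theorem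
`theorem tX (h1 : AStmt) ... : XStmt`; the statements listed under Uses are hypotheses of your theorem, in this order.
The docstring contains a complete proof. Never use congr!. Every module below 60 s.

Notation: p an odd prime, F = ZMod p, ψ = ZMod.stdAddChar : AddChar (ZMod p) ℂ, K a finite extension of F, Tr = Algebra.trace
(ZMod p) K. IsChL, avC (sum over the monic polynomials of degree n), psiC (sum of deg P φ(P)^(n/deg P) over the monic
irreducible P with deg P | n), mon, irr are in Lib/MP_72e2e6_nt/SuSpec.lean and TwSpec.lean; StmtSuPsi (SuStmt.lean)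
contains the relation n avC φ n = ∑_{k=1}^n psiC φ k avC φ (n-k) for IsChL ℓ φ (ℓ prime).
-/

namespace Pool.Agent.Lib.TN

open Polynomial MP72e2e6 Pool.Agent.Lib.TB Pool.Agent.Lib.EH3

/-- the character of the monic polynomials: for h = ∏ (X - z_i) with all z_i ≠ 0 it is ψ(lam ∑ (z_i + b/z_i)) -/
noncomputable def phw (p : ℕ) [Fact p.Prime] (lam b : ZMod p) (h : (ZMod p)[X]) : ℂ :=
  if h.coeff 0 = 0 then 0 else ZMod.stdAddChar (lam * (-h.nextCoeff - b * (h.coeff 1 / h.coeff 0)))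

/-- the Kloosterman sum of the extension K -/
noncomputable def klw (p : ℕ) [Fact p.Prime] (K : Type) [Field K] [Fintype K] [DecidableEq K] [Algebra (ZMod p) K]
    (lam b : ZMod p) : ℂ :=
  ∑ z ∈ (Finset.univ : Finset K).erase 0,
    ZMod.stdAddChar (lam * Algebra.trace (ZMod p) K (z + algebraMap (ZMod p) K b / z))

/-- Module Kch (theorem tKch; complete multiplicativity). Uses: nothing.
Proof. φ(1) = ψ(lam (0 - b 0)) = 1 (nextCoeff 1 = 0, coeff 1 of 1 is 0). For monic g, h: (g h).coeff 0 = g_0 h_0, which is 0 iff one of them is;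
otherwise (g h).coeff 1 = g_0 h_1 + g_1 h_0 (mul_coeff_one), so the quotient is g_1/g_0 + h_1/h_0, and nextCoeff (g h) = nextCoeff g + nextCoeff h
(Monic.nextCoeff_mul); ψ is additive. Values: ψ(x)^p = ψ(p x) = ψ(0) = 1 (AddChar.map_nsmul_eq_pow, CharP). -/
def KchStmt : Prop := ∀ (p : ℕ) [Fact p.Prime] (lam b : ZMod p), IsChL p (phw p lam b)

/-- Module Kav (theorem tKav; the L-function is a polynomial of degree 2). Uses: nothing.
Proof. n = 0: mon F 0 = {1}, φ(1) = 1. n = 1: mon F 1 = {X - C z}, nextCoeff = -z, coeff 0 = -z, coeff 1 = 1: φ = 0 for z = 0 and ψ(lam (z + b/z)) otherwise.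
n = 2: the monic polynomials X^2 + u X + v (bijection with (u, v)); φ = ψ(-lam u (1 + b/v)) for v ≠ 0; the sum over u is p if 1 + b/v = 0, i.e. v = -b (b ≠ 0), and
0 otherwise (AddChar.sum_mulShift or: ψ is primitive, lam ≠ 0): total p. n ≥ 3: the map h ↦ h + C u * X^(n-1) is a bijection of mon F n which changes
nextCoeff by u and does not change coeff 0, coeff 1 (n - 1 ≥ 2), so avC = ψ(-lam u) avC for all u; choose u with ψ(-lam u) ≠ 1 (ψ injective,
ZMod.injective_stdAddChar): avC = 0. -/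
def KavStmt : Prop := ∀ (p : ℕ) [Fact p.Prime] (lam b : ZMod p), lam ≠ 0 → b ≠ 0 →
  avC (phw p lam b) 0 = 1 ∧
  avC (phw p lam b) 1 = ∑ z ∈ (Finset.univ : Finset (ZMod p)).erase 0, (ZMod.stdAddChar (lam * (z + b / z)) : ℂ) ∧
  avC (phw p lam b) 2 = p ∧ ∀ n, 3 ≤ n → avC (phw p lam b) n = 0

/-- Module Kmi (theorem tKmi; traces and the minimal polynomial). Uses: nothing.
Proof. d = natDegree P, P = minpoly (ZMod p) z, m = finrank F(z) K = n/d. (trace_eq_finrank_mul_minpoly_nextCoeff): Tr z = m (-P.nextCoeff). z ≠ 0 gives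
P.coeff 0 ≠ 0 (minpoly.coeff_zero_ne_zero). z⁻¹ is a root of P.reverse (eval₂_reverse_eq_zero_iff or reverse_eval..), which has degree d and leading coefficient P.coeff 0;
F(z⁻¹) = F(z), so the minimal polynomial of z⁻¹ has degree d (IntermediateField.adjoin.finrank) and divides Q = C (P.coeff 0)⁻¹ * P.reverse, monic of degree d: it is equal
to Q (Polynomial.eq_of_monic_of_dvd_of_natDegree_le), and Q.nextCoeff = P.coeff 1/P.coeff 0 (coeff (d-1) of the reverse is coeff 1; for d = 1: P = X - z: Q = X - z⁻¹,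
coeff 1 P/coeff 0 P = 1/(-z), correct). So Tr z⁻¹ = m (-P.coeff 1/P.coeff 0), and Tr (b/z) = b Tr z⁻¹. -/
def KmiStmt : Prop := ∀ (p : ℕ) [Fact p.Prime] (K : Type) [Field K] [Fintype K] [Algebra (ZMod p) K] (b : ZMod p)
  (z : K), z ≠ 0 → (minpoly (ZMod p) z).coeff 0 ≠ 0 ∧
  Algebra.trace (ZMod p) K (z + algebraMap (ZMod p) K b / z) =
    ((Module.finrank (ZMod p) K / (minpoly (ZMod p) z).natDegree : ℕ) : ZMod p) *
      (-(minpoly (ZMod p) z).nextCoeff - b * ((minpoly (ZMod p) z).coeff 1 / (minpoly (ZMod p) z).coeff 0))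

/-- Module Kex (theorem tKex; psiC is the Kloosterman sum of the extension). Uses: StmtSuPsi.{0}, KmiStmt.
Proof. MODEL: the second half of Lib/MP_72e2e6_nt/PeExt.lean (tPeExt): for every d | n and P ∈ irr F d exactly d elements z of K have minimal polynomial P
(copy hmem, hdisj, hpsi, hmaps, hle, hsum, heq, hfib with phw instead of phE; use StmtSuPsi with ℓ = p), so psiC φ n = ∑_{z ∈ K} φ(minpoly z)^(n/deg). For z = 0: minpoly = X,
coeff 0 = 0, φ = 0, and 0^(n/1) = 0. For z ≠ 0: KmiStmt and ψ(x)^m = ψ(m x): the term is ψ(lam Tr(z + b/z)). -/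
def KexStmt : Prop := ∀ (p : ℕ) [Fact p.Prime] (lam b : ZMod p) (K : Type) [Field K] [Fintype K] [DecidableEq K]
  [Algebra (ZMod p) K] (n : ℕ), 1 ≤ n → Module.finrank (ZMod p) K = n → psiC (phw p lam b) n = klw p K lam b

/-- Module Kre (theorem tKre; the eigenvalues). Uses: StmtSuPsi.{0}, KchStmt, KavStmt.
Proof. S = avC φ 1 (the Kloosterman sum); let al, be be the roots of X^2 + S X + p (IsAlgClosed, or al = (-S + w)/2, be = (-S - w)/2 with w^2 = S^2 - 4p,
Complex: IsAlgClosed.exists_pow_nat_eq or Complex.cpow): al + be = -S, al be = p. The relation n avC n = ∑_{k=1}^n psiC k avC (n-k) with avC 0 = 1, avC 1 = S, avC 2 = p, avC n = 0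
(n ≥ 3) gives psiC 1 = S, psiC 2 = 2p - S^2, psiC n = -S psiC (n-1) - p psiC (n-2) for n ≥ 3 (in the sum only k = n, n-1, n-2 survive). The numbers -(al^n + be^n) satisfy the same
recursion and initial values: strong induction. -/
def KreStmt : Prop := ∀ (p : ℕ) [Fact p.Prime] (lam b : ZMod p), lam ≠ 0 → b ≠ 0 → ∃ al be : ℂ,
  al + be = -avC (phw p lam b) 1 ∧ al * be = p ∧ ∀ n, 1 ≤ n → psiC (phw p lam b) n = -(al ^ n + be ^ n)

/-- Module Kqu (theorem tKqu; a quadratic equation). Uses: nothing.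
Proof. p odd, so char K ≠ 2 and χ = quadraticChar K. For t ∈ K the z ≠ 0 with z + b/z = t are the z with z^2 - t z + b = 0 (z = 0 is no solution since b ≠ 0), and z ↦ 2 z - t is a
bijection onto the w with w^2 = t^2 - 4b: quadraticChar_card_sqrts. -/
def KquStmt : Prop := ∀ (p : ℕ) [Fact p.Prime] (K : Type) [Field K] [Fintype K] [DecidableEq K] [Algebra (ZMod p) K]
  (b : ZMod p) (t : K), p ≠ 2 → b ≠ 0 →
  ((((Finset.univ : Finset K).erase 0).filter (fun z => z + algebraMap (ZMod p) K b / z = t)).card : ℤ) =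
    1 + quadraticChar K (t ^ 2 - 4 * algebraMap (ZMod p) K b)

/-- Module Kas (theorem tKas; the equation y^p - y = s). Uses: nothing.
Proof. The map T : y ↦ y^p - y is additive (Frobenius, CharP K p) with kernel the roots of X^p - X, i.e. the image of F = ZMod p (p elements: ZMod.pow_card, at most p roots), so every nonempty fibre has
p elements and the image has |K|/p elements. Tr(y^p) = Tr(y) (the Frobenius is an F-algebra automorphism of K: Algebra.trace_eq_of_algEquiv, or FiniteField.algebraMap_trace_eq_sum_pow), so the image is contained in the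
kernel of Tr, which is F-linear and surjective (FiniteField / Algebra.trace_surjective), so its kernel has |K|/p elements too: T y = s is solvable iff Tr s = 0. Therefore
#{y : y^p - y = s} = p [Tr s = 0] = ∑_{lam ∈ F} ψ(lam Tr s) (AddChar.sum_mulShift with the primitive character ψ). -/
def KasStmt : Prop := ∀ (p : ℕ) [Fact p.Prime] (K : Type) [Field K] [Fintype K] [DecidableEq K] [Algebra (ZMod p) K]
  (s : K), (((Finset.univ : Finset K).filter (fun y => y ^ p - y = s)).card : ℂ) =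
    ∑ lam : ZMod p, (ZMod.stdAddChar (lam * Algebra.trace (ZMod p) K s) : ℂ)

/-- the polynomial (X^p - X)^2 - 4b -/
noncomputable def fw (p : ℕ) [Fact p.Prime] (K : Type) [Field K] [Algebra (ZMod p) K] (b : ZMod p) : K[X] :=
  (X ^ p - X) ^ 2 - C (4 * algebraMap (ZMod p) K b)

/-- Module Kpt (theorem tKpt; counting points). Uses: KquStmt, KasStmt.
Proof. ∑_{y ∈ K} (1 + χ((y^p - y)^2 - 4b)) = ∑_y #{z ≠ 0 : z + b/z = y^p - y} (KquStmt with t = y^p - y) = ∑_{z ≠ 0} #{y : y^p - y = z + b/z} (Finset.sum_card_bipartite or sum_comm with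
indicators) = ∑_{z ≠ 0} ∑_{lam} ψ(lam Tr(z + b/z)) (KasStmt). The term lam = 0 is |K| - 1, the others are klw p K lam b. So ∑_y χ(..) = -|K| + (|K| - 1) + ∑_{lam ≠ 0} klw. -/
def KptStmt : Prop := ∀ (p : ℕ) [Fact p.Prime] (K : Type) [Field K] [Fintype K] [DecidableEq K] [Algebra (ZMod p) K]
  (b : ZMod p), p ≠ 2 → b ≠ 0 →
  ((∑ y : K, quadraticChar K ((fw p K b).eval y) : ℤ) : ℂ) =
    -1 + ∑ lam ∈ (Finset.univ : Finset (ZMod p)).erase 0, klw p K lam b

/-- Module Kns (theorem tKns; the polynomial is monic of degree 2p and not a constant times a square). Uses: nothing.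
Proof. X^p - X is monic of degree p ≥ 2, so f = (X^p - X)^2 - C(4b) is monic of degree 2p. Suppose f = C x * g^2. The derivative of f is 2 (X^p - X) (p X^(p-1) - 1) = -2 (X^p - X)
(CharP K p), and also C x * 2 g g'. So g divides 2 (X^p - X), so g | X^p - X (2 ≠ 0 in K), so g | (X^p - X)^2 - f = C(4b), a unit (4b ≠ 0 since p is odd). So g is a unit, of degree 0, and f has degree 0:
contradiction. -/
def KnsStmt : Prop := ∀ (p : ℕ) [Fact p.Prime] (K : Type) [Field K] [Algebra (ZMod p) K] (b : ZMod p), p ≠ 2 → b ≠ 0 →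
  (fw p K b).Monic ∧ (fw p K b).natDegree = 2 * p ∧ ∀ (x : K) (g : K[X]), fw p K b ≠ C x * g ^ 2

/-- Module Kst (theorem tKst; Stepanov's bound for the sum over lam of the sums psiC). Uses: StmtPeChr.{0}, KptStmt, KnsStmt, KexStmt.
Proof. n ≥ 1 with p^n > 40 p and p^n ≥ 16 (true for n ≥ 6: p^6 ≥ 3^5 p). K = GaloisField p n, finrank = n (GaloisField.finrank), |K| = p^n, odd. StmtPeChr for f = fw p K b (KnsStmt):
|∑ χ(f(y))| ≤ 15 * 2p * Nat.sqrt (p^n) ≤ 30 p (√p)^n (Nat.sqrt m ≤ √m, √(p^n) = (√p)^n). By KptStmt, ∑_{lam ≠ 0} klw = 1 + ∑ χ, klw p K lam b = psiC (phw p lam b) n (KexStmt): norm ≤ 1 + 30 p (√p)^n ≤ 31 p (√p)^n. -/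
def KstStmt : Prop := ∀ (p : ℕ) [Fact p.Prime] (b : ZMod p) (n : ℕ), p ≠ 2 → b ≠ 0 → 6 ≤ n →
  ‖∑ lam ∈ (Finset.univ : Finset (ZMod p)).erase 0, psiC (phw p lam b) n‖ ≤ 31 * (p : ℝ) * Real.sqrt p ^ n

/-- Module Kps (theorem tKps; power sums). Uses: nothing.
Proof. Suppose M = max ‖z i‖ > R (if all ‖z i‖ ≤ R we are done). Let u i = z i/‖z i‖ if z i ≠ 0 and 1 otherwise, ‖u i‖ = 1. RECURRENCE: for every n0 there is n ≥ n0 with
‖u i ^ n - 1‖ ≤ 1/2 for all i: the sequence k ↦ (u i ^ (n0 k))_i lies in a compact set (product of closed balls), so it has a convergent subsequence, so there are k < k' with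
‖u i ^ (n0 k') - u i ^ (n0 k)‖ ≤ 1/2 for all i (finitely many i), and n = n0 (k' - k) ≥ n0 works (‖u i ^ (n0 k)‖ = 1). For such n: Re(z i ^ n) = ‖z i‖^n Re(u i ^ n) ≥ ‖z i‖^n/2, so
‖∑ z i ^ n‖ ≥ ∑ ‖z i‖^n/2 ≥ M^n/2, while it is ≤ B R^n: (M/R)^n ≤ 2B for arbitrarily large n, a contradiction if R > 0 and M > R (one_lt, tendsto_pow_atTop_atTop_of_one_lt). -/
def KpsStmt : Prop := ∀ (ι : Type) (s : Finset ι) (z : ι → ℂ) (B R : ℝ) (n1 : ℕ), 0 < R →
  (∀ n, n1 ≤ n → ‖∑ i ∈ s, z i ^ n‖ ≤ B * R ^ n) → ∀ i ∈ s, ‖z i‖ ≤ R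

/-- Module Kma (theorem tKma; the bound in F). Uses: KreStmt, KstStmt, KpsStmt.
Proof. For every lam ≠ 0 choose al lam, be lam by KreStmt (b fixed). For n ≥ 6, by KstStmt, ‖∑_{lam ≠ 0} (al lam^n + be lam^n)‖ ≤ 31 p (√p)^n. KpsStmt for the index type ZMod p × Bool (or ZMod p ⊕ ZMod p), s = the lam ≠ 0, z (lam, true) = al lam,
z (lam, false) = be lam, R = √p: ‖al‖, ‖be‖ ≤ √p, so ‖avC (phw p lam b) 1‖ = ‖al + be‖ ≤ 2 √p. -/
def KmaStmt : Prop := ∀ (p : ℕ) [Fact p.Prime] (lam b : ZMod p), p ≠ 2 → lam ≠ 0 → b ≠ 0 →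
  ‖avC (phw p lam b) 1‖ ≤ 2 * Real.sqrt p

/-- Module Kwe (theorem tKwe). FINAL STATEMENT WeilStmt (TN/Stmts.lean). Uses: KavStmt, KmaStmt.
Proof. kl c h p is the sum over x ∈ range p coprime to p, i.e. 1 ≤ x < p, of ee((c iv x p + h x)/p). ee(j/p) = ψ((j : ZMod p)) for an integer j (ZMod.stdAddChar_coe, ee t = exp(2π i t)), and
(iv x p : ZMod p) = x⁻¹ (iv is the value of the inverse), so kl c h p = ∑_{z ∈ ZMod p, z ≠ 0} ψ(c z⁻¹ + h z) (bijection x ↦ (x : ZMod p), ZMod.val). p = 2: one term of norm 1. p odd: c ≠ 0 in ZMod p. If h = 0 in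
ZMod p: the sum over z ≠ 0 of ψ(c z⁻¹) is the sum over w ≠ 0 of ψ(w), which is -1, norm 1 ≤ 2 √p. If h ≠ 0: lam = h, b = c/h: ψ(lam (z + b/z)), so the sum is avC (phw p lam b) 1 by KavStmt,
and KmaStmt. -/
def KweStmt : Prop := WeilStmt

end Pool.Agent.Lib.TN
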