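import Pool.Agent.Lib.TN.Stm2
import Pool.Agent.Lib.TB.SpecM

/-!
MP_00e23e_nt, directory Lib/TN (THEOREM N), part M (helper19): statements of the modules.
-/

namespace Pool.Agent.Lib.TN

open Finset Pool.Agent.Lib.EH3 Pool.Agent.Lib.TB

/-- Module Ncr (cross terms; copy of Mcr of Lib/TB) -/
def McrNStmt : Prop := ∀ (N j R Q d d' : ℕ) (a b : ℤ), 1 ≤ N → 1 ≤ R → R ≤ Q → d ∈ Ioc Q (2 * Q) →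
  d' ∈ Ioc Q (2 * Q) →
  |∑ u ∈ d.divisors, ∑ w ∈ d'.divisors, kap R d u * kap R d' w * (SSN N j u w a b - MM N u w a b) -
      (SSN N j d d' a b - MM N d d' a b)| ≤
    5 * (R : ℝ) ^ 2 / N * ((d.divisors.card : ℝ) ^ 2 * (d'.divisors.card : ℝ) ^ 2)

/-- Module Nfu (expansion of the full sum; copy of Mfu of Lib/TB) -/
def MfuNStmt : Prop := ∀ (N j R Q : ℕ) (c c' : ℕ → ℝ) (a b : ℤ),
  ∑ n ∈ Iw N j, wt N j n * ((∑ d ∈ Ioc Q (2 * Q), c d * dd R d (n - a)) *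
      (∑ d' ∈ Ioc Q (2 * Q), c' d' * dd R d' (n - b))) =
    ∑ d ∈ Ioc Q (2 * Q), ∑ d' ∈ Ioc Q (2 * Q), c d * c' d' *
      ∑ u ∈ d.divisors, ∑ w ∈ d'.divisors, kap R d u * kap R d' w * SSN N j u w a b

/-- Module Nxc (the points n = a and n = b; copy of Mxc of Lib/TB) -/
def MxcNStmt : Prop := ∀ (N j R Q : ℕ) (c c' : ℕ → ℝ) (a b : ℤ), 1 ≤ N → 1 ≤ R → (∀ d, |c d| ≤ 1) →
  (∀ d, |c' d| ≤ 1) → a ≠ b →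
  |∑ n ∈ Iw N j, wt N j n * (FF R Q c (n - a) * FF R Q c' (n - b)) -
    ∑ n ∈ Iw N j, wt N j n * ((∑ d ∈ Ioc Q (2 * Q), c d * dd R d (n - a)) *
      (∑ d' ∈ Ioc Q (2 * Q), c' d' * dd R d' (n - b)))| ≤
    2 * (Q : ℝ) * (((a - b).natAbs.divisors.card : ℝ) * (4 + 3 * Real.log R))

/-- Module Nbg (large N) -/
def MbgNStmt : Prop := ∀ δ ε : ℝ, 0 ≤ δ → 0 < ε → 2 * δ + ε ≤ 1 / 2 - 7 * δ - ε →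
  ∃ (j : ℕ) (C η κ : ℝ) (N0 : ℕ), 0 < η ∧ 0 < κ ∧ ∀ (N Q : ℕ) (L1 L2 : ℝ) (c c' : ℕ → ℝ) (a b : ℤ),
    N0 ≤ N → 1 ≤ N →
    (N : ℝ) ^ ((1 : ℝ) / 2 - κ) ≤ Q → (Q : ℝ) ≤ 2 * (N : ℝ) ^ ((1 : ℝ) / 2 + δ) →
    (N : ℝ) ^ (2 * δ + ε) ≤ L1 → L2 ≤ (N : ℝ) ^ ((1 : ℝ) / 2 - 7 * δ - ε) →
    (∀ d, |c d| ≤ 1) → (∀ d, |c' d| ≤ 1) → (∀ d, c' d ≠ 0 → Conv L1 L2 d) →
    a ≠ b → |a| ≤ (N : ℤ) → |b| ≤ (N : ℤ) →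
    |∑ n ∈ Iw N j, wt N j n * (FF (RN δ ε N) Q c (n - a) * FF (RN δ ε N) Q c' (n - b))| ≤ C * (N : ℝ) ^ (1 - η)

end Pool.Agent.Lib.TN
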