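import Pool.Agent.Lib.TN.Stm2
import Pool.Agent.Lib.TN.StmF

/-!
MP_00e23e_nt, directory Lib/TN: interfaces between the parts G and M of the general off-diagonal estimate OffGStmt
(congruence f | n, two blocks Q and Q2).
-/

namespace Pool.Agent.Lib.TN

open Finset Pool.Agent.Lib.EH3 Pool.Agent.Lib.TB

/-- the weighted number of n with f | n, u | n - a, w | n - b (main term for f coprime to u and w: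
MM N u w a b / f) -/
noncomputable def SSG (N j f u w : ℕ) (a b : ℤ) : ℝ :=
  ∑ n ∈ Iw N j, wt N j n * (if (f : ℤ) ∣ n ∧ (u : ℤ) ∣ n - a ∧ (w : ℤ) ∣ n - b then 1 else 0)

/-- the sum of the error terms of the pairs (d, d') (result of part Gf, used by part Mf) -/
def EEGStmt : Prop := ∀ δ ε : ℝ, 0 ≤ δ → 0 < ε → 2 * δ + ε ≤ 1 / 2 - 7 * δ - ε →
  ∃ (j : ℕ) (C η κ : ℝ) (N0 : ℕ), 0 < η ∧ 0 < κ ∧ ∀ (N Q Q2 f : ℕ) (L1 L2 : ℝ) (c c' : ℕ → ℝ) (a b : ℤ),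
    N0 ≤ N → 1 ≤ N →
    (N : ℝ) ^ ((1 : ℝ) / 2 - κ) ≤ Q → (Q : ℝ) ≤ 2 * (N : ℝ) ^ ((1 : ℝ) / 2 + δ) →
    (N : ℝ) ^ ((1 : ℝ) / 2 - κ) ≤ Q2 → (Q2 : ℝ) ≤ 2 * (N : ℝ) ^ ((1 : ℝ) / 2 + δ) →
    1 ≤ f → (f : ℝ) ≤ (N : ℝ) ^ κ →
    (N : ℝ) ^ (2 * δ + ε) ≤ L1 → L2 ≤ (N : ℝ) ^ ((1 : ℝ) / 2 - 7 * δ - ε) →
    (∀ d, |c d| ≤ 1) → (∀ d, |c' d| ≤ 1) → (∀ d, c d ≠ 0 → Conv L1 L2 d ∧ f.Coprime d) →
    (∀ d, c' d ≠ 0 → Conv L1 L2 d ∧ f.Coprime d) →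
    a ≠ b → |a| ≤ (N : ℤ) → |b| ≤ (N : ℤ) →
    |∑ d ∈ Ioc Q (2 * Q), ∑ d' ∈ Ioc Q2 (2 * Q2),
        c d * c' d' * (SSG N j f d d' a b - MM N d d' a b / f)| ≤ C * (N : ℝ) ^ (1 - η)

/-- three congruences are one (f coprime to u and w; part Mf) -/
def SsclGStmt : Prop := ∀ (N j f u w : ℕ) (a b ν : ℤ), 1 ≤ f → 1 ≤ u → 1 ≤ w → f.Coprime u → f.Coprime w →
  (f : ℤ) ∣ ν → (u : ℤ) ∣ ν - a → (w : ℤ) ∣ ν - b →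
  SSG N j f u w a b = clN N j (f * Nat.lcm u w) ν ∧ MM N u w a b / f = (N : ℝ) / ((f * Nat.lcm u w : ℕ) : ℝ)

/-- no solution if (u, w) does not divide a - b (part Mf) -/
def SszeGStmt : Prop := ∀ (N j f u w : ℕ) (a b : ℤ), ¬ (((Nat.gcd u w : ℕ) : ℤ) ∣ a - b) →
  SSG N j f u w a b = 0 ∧ MM N u w a b = 0

/-- bound of the error term of a pair (part Mf) -/
def SsbdGStmt : Prop := ∀ (N j f u w : ℕ) (a b : ℤ), 1 ≤ N → 1 ≤ f → 1 ≤ u → 1 ≤ w → f.Coprime u → f.Coprime w →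
  |SSG N j f u w a b - MM N u w a b / f| ≤ (f : ℝ) * (Nat.lcm u w : ℝ) / N

end Pool.Agent.Lib.TN
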