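import Pool.Agent.Lib.TN.Stm4
import Pool.Agent.Lib.TB.SpecM

/-!
MP_00e23e_nt, directory Lib/TN, part Mf (helper19; congruence f | n, two blocks Q and Q2): statements of the modules.
-/

namespace Pool.Agent.Lib.TN

open Finset Pool.Agent.Lib.EH3 Pool.Agent.Lib.TB

/-- Module Mcf (cross terms) -/
def McrGStmt : Prop := ∀ (N j f R Q Q2 d d' : ℕ) (a b : ℤ), 1 ≤ N → 1 ≤ f → 1 ≤ R → R ≤ Q → R ≤ Q2 →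
  d ∈ Ioc Q (2 * Q) → d' ∈ Ioc Q2 (2 * Q2) → f.Coprime d → f.Coprime d' →
  |∑ u ∈ d.divisors, ∑ w ∈ d'.divisors, kap R d u * kap R d' w * (SSG N j f u w a b - MM N u w a b / f) -
      (SSG N j f d d' a b - MM N d d' a b / f)| ≤
    (f : ℝ) * (R : ℝ) ^ 2 / N * (2 * (Q : ℝ) / Q2 + 2 * (Q2 : ℝ) / Q + 1) *
      ((d.divisors.card : ℝ) ^ 2 * (d'.divisors.card : ℝ) ^ 2)

/-- Module Mff (expansion of the full sum) -/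
def MfuGStmt : Prop := ∀ (N j f R Q Q2 : ℕ) (c c' : ℕ → ℝ) (a b : ℤ),
  ∑ n ∈ Iw N j, wt N j n * (if (f : ℤ) ∣ n then 1 else 0) * ((∑ d ∈ Ioc Q (2 * Q), c d * dd R d (n - a)) *
      (∑ d' ∈ Ioc Q2 (2 * Q2), c' d' * dd R d' (n - b))) =
    ∑ d ∈ Ioc Q (2 * Q), ∑ d' ∈ Ioc Q2 (2 * Q2), c d * c' d' *
      ∑ u ∈ d.divisors, ∑ w ∈ d'.divisors, kap R d u * kap R d' w * SSG N j f u w a b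

/-- Module Mxf (the points n = a and n = b) -/
def MxcGStmt : Prop := ∀ (N j f R Q Q2 : ℕ) (c c' : ℕ → ℝ) (a b : ℤ), 1 ≤ N → 1 ≤ R → (∀ d, |c d| ≤ 1) →
  (∀ d, |c' d| ≤ 1) → a ≠ b →
  |∑ n ∈ Iw N j, wt N j n * (if (f : ℤ) ∣ n then 1 else 0) * (FF R Q c (n - a) * FF R Q2 c' (n - b)) -
    ∑ n ∈ Iw N j, wt N j n * (if (f : ℤ) ∣ n then 1 else 0) * ((∑ d ∈ Ioc Q (2 * Q), c d * dd R d (n - a)) *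
      (∑ d' ∈ Ioc Q2 (2 * Q2), c' d' * dd R d' (n - b)))| ≤
    ((Q : ℝ) + Q2) * (((a - b).natAbs.divisors.card : ℝ) * (4 + 3 * Real.log R))

/-- Module Mmf (main terms, two blocks) -/
def MmbGStmt : Prop := ∀ (N R Q Q2 : ℕ) (m : ℤ), 1 ≤ R → m ≠ 0 →
  ∑ d ∈ Ioc Q (2 * Q), ∑ d' ∈ Ioc Q2 (2 * Q2), |((N : ℝ) / ((d : ℝ) * d')) *
      ∑ s ∈ (Nat.gcd d d').divisors.filter (fun s => R < s), rs s m| ≤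
    18 * (N : ℝ) * (m.natAbs.divisors.card : ℝ) / R

/-- Module Mbf (large N) -/
def MbgGStmt : Prop := ∀ δ ε : ℝ, 0 ≤ δ → 0 < ε → 2 * δ + ε ≤ 1 / 2 - 7 * δ - ε →
  ∃ (j : ℕ) (C η κ : ℝ) (N0 : ℕ), 0 < η ∧ 0 < κ ∧ ∀ (N Q Q2 f : ℕ) (L1 L2 : ℝ) (c c' : ℕ → ℝ) (a b : ℤ),
    N0 ≤ N → 1 ≤ N →
    (N : ℝ) ^ ((1 : ℝ) / 2 - κ) ≤ Q → (Q : ℝ) ≤ 2 * (N : ℝ) ^ ((1 : ℝ) / 2 + δ) →
    (N : ℝ) ^ ((1 : ℝ) / 2 - κ) ≤ Q2 → (Q2 : ℝ) ≤ 2 * (N : ℝ) ^ ((1 : ℝ) / 2 + δ) →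
    1 ≤ f → (f : ℝ) ≤ (N : ℝ) ^ κ →
    (N : ℝ) ^ (2 * δ + ε) ≤ L1 → L2 ≤ (N : ℝ) ^ ((1 : ℝ) / 2 - 7 * δ - ε) →
    (∀ d, |c d| ≤ 1) → (∀ d, |c' d| ≤ 1) → (∀ d, c d ≠ 0 → Conv L1 L2 d ∧ f.Coprime d) →
    (∀ d, c' d ≠ 0 → Conv L1 L2 d ∧ f.Coprime d) →
    a ≠ b → |a| ≤ (N : ℤ) → |b| ≤ (N : ℤ) →
    |∑ n ∈ Iw N j, wt N j n * (if (f : ℤ) ∣ n then 1 else 0) *
        (FF (RN δ ε N) Q c (n - a) * FF (RN δ ε N) Q2 c' (n - b))| ≤ C * (N : ℝ) ^ (1 - η)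

end Pool.Agent.Lib.TN
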