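import Pool.Agent.Lib.TN.SpecT

/-!
MP_00e23e_nt, directory Lib/TN, module Tcs (helper24): Cauchy's inequality over (m, r) in the trilinear form.
-/

namespace Pool.Agent.Lib.TN

open Finset Pool.Agent.Lib.EH3 Pool.Agent.Lib.TB

/-- one term of the inner sum -/
private noncomputable def Tcs_A (β : ℕ → ℕ → ℂ) (θ : ℤ) (τ : ℝ) (m r h s : ℕ) : ℂ :=
  if m.Coprime (r * s) then β r s * eB ((h : ℤ) * θ) ((h : ℝ) * τ) m (r * s) else 0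

/-- the inner sum -/
private noncomputable def Tcs_X (S H : ℕ) (β : ℕ → ℕ → ℂ) (θ : ℤ) (τ : ℝ) (m r : ℕ) : ℂ :=
  ∑ h ∈ Icc 1 H, ∑ s ∈ Ioc S (2 * S), Tcs_A β θ τ m r h s

private theorem Tcs_form (P S H : ℕ) (α : ℕ → ℂ) (β : ℕ → ℕ → ℂ) (θ : ℤ) (τ : ℝ) :
    Tf P S H α β θ τ = ∑ m ∈ Ioc P (3 * P), ∑ r ∈ Icc 1 (3 * P / S), α m * Tcs_X S H β θ τ m r := by
  unfold Tf
  rw [Finset.sum_comm]
  refine Finset.sum_congr rfl fun m _ => ?_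
  rw [Finset.sum_comm]
  refine Finset.sum_congr rfl fun r _ => ?_
  unfold Tcs_X
  rw [Finset.mul_sum]
  refine Finset.sum_congr rfl fun h _ => ?_
  rw [Finset.mul_sum, Finset.sum_filter]
  refine Finset.sum_congr rfl fun s _ => ?_
  unfold Tcs_A
  split_ifs
  · ring
  · simp

private theorem Tcs_sq (S H : ℕ) (β : ℕ → ℕ → ℂ) (θ : ℤ) (τ : ℝ) (m r : ℕ) :
    ((‖Tcs_X S H β θ τ m r‖ ^ 2 : ℝ) : ℂ) =
      ∑ s1 ∈ Ioc S (2 * S), ∑ s2 ∈ Ioc S (2 * S), ∑ h1 ∈ Icc 1 H, ∑ h2 ∈ Icc 1 H,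
        Tcs_A β θ τ m r h1 s1 * (starRingEnd ℂ) (Tcs_A β θ τ m r h2 s2) := by
  have h1 : ((‖Tcs_X S H β θ τ m r‖ ^ 2 : ℝ) : ℂ) =
      Tcs_X S H β θ τ m r * (starRingEnd ℂ) (Tcs_X S H β θ τ m r) := by
    rw [Complex.mul_conj']
    push_cast
    rfl
  have h2 : Tcs_X S H β θ τ m r = ∑ s ∈ Ioc S (2 * S), ∑ h ∈ Icc 1 H, Tcs_A β θ τ m r h s := by
    unfold Tcs_X
    exact Finset.sum_comm
  rw [h1, h2, map_sum, Finset.sum_mul_sum]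
  refine Finset.sum_congr rfl fun s1 _ => ?_
  refine Finset.sum_congr rfl fun s2 _ => ?_
  rw [map_sum, Finset.sum_mul_sum]

private theorem Tcs_prod (P : ℕ) (β : ℕ → ℕ → ℂ) (θ : ℤ) (τ : ℝ) (r s1 s2 h1 h2 : ℕ) :
    ∑ m ∈ Ioc P (3 * P), Tcs_A β θ τ m r h1 s1 * (starRingEnd ℂ) (Tcs_A β θ τ m r h2 s2) =
      β r s1 * (starRingEnd ℂ) (β r s2) * Im P θ τ r s1 s2 h1 h2 := by
  unfold Im
  rw [Finset.mul_sum, Finset.sum_filter]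
  refine Finset.sum_congr rfl fun m _ => ?_
  unfold Tcs_A
  by_cases c1 : m.Coprime (r * s1)
  · by_cases c2 : m.Coprime (r * s2)
    · rw [if_pos c1, if_pos c2, if_pos ⟨c1, c2⟩, map_mul]
      ring
    · have hc : ¬ (m.Coprime (r * s1) ∧ m.Coprime (r * s2)) := fun h => c2 h.2
      rw [if_neg c2, if_neg hc, map_zero, mul_zero]
  · have hc : ¬ (m.Coprime (r * s1) ∧ m.Coprime (r * s2)) := fun h => c1 h.1
    rw [if_neg c1, if_neg hc, zero_mul]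

private theorem Tcs_inner (P S H : ℕ) (β : ℕ → ℕ → ℂ) (θ : ℤ) (τ : ℝ) (hβ : ∀ r s, ‖β r s‖ ≤ 1) (r : ℕ) :
    ∑ m ∈ Ioc P (3 * P), ‖Tcs_X S H β θ τ m r‖ ^ 2 ≤
      ∑ s1 ∈ Ioc S (2 * S), ∑ s2 ∈ Ioc S (2 * S), ∑ h1 ∈ Icc 1 H, ∑ h2 ∈ Icc 1 H,
        (if β r s1 ≠ 0 ∧ β r s2 ≠ 0 then ‖Im P θ τ r s1 s2 h1 h2‖ else 0) := by
  have key : ((∑ m ∈ Ioc P (3 * P), ‖Tcs_X S H β θ τ m r‖ ^ 2 : ℝ) : ℂ) =
      ∑ s1 ∈ Ioc S (2 * S), ∑ s2 ∈ Ioc S (2 * S), ∑ h1 ∈ Icc 1 H, ∑ h2 ∈ Icc 1 H,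
        β r s1 * (starRingEnd ℂ) (β r s2) * Im P θ τ r s1 s2 h1 h2 := by
    rw [Complex.ofReal_sum]
    have e1 : ∀ m ∈ Ioc P (3 * P), ((‖Tcs_X S H β θ τ m r‖ ^ 2 : ℝ) : ℂ) =
        ∑ s1 ∈ Ioc S (2 * S), ∑ s2 ∈ Ioc S (2 * S), ∑ h1 ∈ Icc 1 H, ∑ h2 ∈ Icc 1 H,
          Tcs_A β θ τ m r h1 s1 * (starRingEnd ℂ) (Tcs_A β θ τ m r h2 s2) := fun m _ => Tcs_sq S H β θ τ m r
    rw [Finset.sum_congr rfl e1, Finset.sum_comm]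
    refine Finset.sum_congr rfl fun s1 _ => ?_
    rw [Finset.sum_comm]
    refine Finset.sum_congr rfl fun s2 _ => ?_
    rw [Finset.sum_comm]
    refine Finset.sum_congr rfl fun h1 _ => ?_
    rw [Finset.sum_comm]
    refine Finset.sum_congr rfl fun h2 _ => ?_
    exact Tcs_prod P β θ τ r s1 s2 h1 h2
  have hnn : 0 ≤ ∑ m ∈ Ioc P (3 * P), ‖Tcs_X S H β θ τ m r‖ ^ 2 := Finset.sum_nonneg fun m _ => by positivity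
  have h0 : ∑ m ∈ Ioc P (3 * P), ‖Tcs_X S H β θ τ m r‖ ^ 2 =
      ‖((∑ m ∈ Ioc P (3 * P), ‖Tcs_X S H β θ τ m r‖ ^ 2 : ℝ) : ℂ)‖ := by
    rw [Complex.norm_real, Real.norm_of_nonneg hnn]
  rw [h0, key]
  refine (norm_sum_le _ _).trans (Finset.sum_le_sum fun s1 _ => ?_)
  refine (norm_sum_le _ _).trans (Finset.sum_le_sum fun s2 _ => ?_)
  refine (norm_sum_le _ _).trans (Finset.sum_le_sum fun h1 _ => ?_)
  refine (norm_sum_le _ _).trans (Finset.sum_le_sum fun h2 _ => ?_)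
  by_cases c1 : β r s1 = 0
  · rw [c1]
    simp
  · by_cases c2 : β r s2 = 0
    · rw [c2]
      simp
    · rw [if_pos ⟨c1, c2⟩, norm_mul, norm_mul, RCLike.norm_conj]
      have q1 := hβ r s1
      have q2 := hβ r s2
      have q3 : ‖β r s1‖ * ‖β r s2‖ ≤ 1 := by
        nlinarith [norm_nonneg (β r s1), norm_nonneg (β r s2)]
      calc ‖β r s1‖ * ‖β r s2‖ * ‖Im P θ τ r s1 s2 h1 h2‖ ≤ 1 * ‖Im P θ τ r s1 s2 h1 h2‖ :=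
            mul_le_mul_of_nonneg_right q3 (norm_nonneg _)
        _ = ‖Im P θ τ r s1 s2 h1 h2‖ := one_mul _

theorem tTcs : TcsStmt := by
  intro P S H α β θ τ hα hβ
  rw [Tcs_form]
  have s1 : ‖∑ m ∈ Ioc P (3 * P), ∑ r ∈ Icc 1 (3 * P / S), α m * Tcs_X S H β θ τ m r‖ ≤
      ∑ m ∈ Ioc P (3 * P), ∑ r ∈ Icc 1 (3 * P / S), ‖Tcs_X S H β θ τ m r‖ := by
    refine (norm_sum_le _ _).trans (Finset.sum_le_sum fun m _ => ?_)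
    refine (norm_sum_le _ _).trans (Finset.sum_le_sum fun r _ => ?_)
    rw [norm_mul]
    calc ‖α m‖ * ‖Tcs_X S H β θ τ m r‖ ≤ 1 * ‖Tcs_X S H β θ τ m r‖ :=
          mul_le_mul_of_nonneg_right (hα m) (norm_nonneg _)
      _ = ‖Tcs_X S H β θ τ m r‖ := one_mul _
  have s2 : ‖∑ m ∈ Ioc P (3 * P), ∑ r ∈ Icc 1 (3 * P / S), α m * Tcs_X S H β θ τ m r‖ ^ 2 ≤
      (∑ m ∈ Ioc P (3 * P), ∑ r ∈ Icc 1 (3 * P / S), ‖Tcs_X S H β θ τ m r‖) ^ 2 :=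
    pow_le_pow_left₀ (norm_nonneg _) s1 2
  refine s2.trans ?_
  have s3 : ∑ m ∈ Ioc P (3 * P), ∑ r ∈ Icc 1 (3 * P / S), ‖Tcs_X S H β θ τ m r‖ =
      ∑ x ∈ (Ioc P (3 * P)) ×ˢ (Icc 1 (3 * P / S)), ‖Tcs_X S H β θ τ x.1 x.2‖ := by
    rw [Finset.sum_product]
  rw [s3]
  have s4 := sq_sum_le_card_mul_sum_sq (s := (Ioc P (3 * P)) ×ˢ (Icc 1 (3 * P / S)))
    (f := fun x => ‖Tcs_X S H β θ τ x.1 x.2‖)
  refine s4.trans ?_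
  have s5 : ((#((Ioc P (3 * P)) ×ˢ (Icc 1 (3 * P / S))) : ℕ) : ℝ) = 2 * (P : ℝ) * ((3 * P / S : ℕ) : ℝ) := by
    rw [Finset.card_product, Nat.card_Ioc, Nat.card_Icc]
    have e1 : 3 * P - P = 2 * P := by omega
    have e2 : 3 * P / S + 1 - 1 = 3 * P / S := Nat.add_sub_cancel _ _
    rw [e1, e2]
    push_cast
    ring
  rw [s5]
  refine mul_le_mul_of_nonneg_left ?_ (by positivity)
  rw [Finset.sum_product_right]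
  exact Finset.sum_le_sum fun r _ => Tcs_inner P S H β θ τ hβ r

end Pool.Agent.Lib.TN
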