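import Pool.Agent.Lib.TN.SpecTf
import Pool.Agent.Lib.TB.Tauk

/-!
MP_00e23e_nt, directory Lib/TN, module Trf: the trilinear form with the factor f and two blocks (adaptation of Tri).
-/

namespace Pool.Agent.Lib.TN

open Finset Pool.Agent.Lib.EH3 Pool.Agent.Lib.TB Pool.Agent.Results.MP_00e23e_nt

private lemma Trf_norm_Im (P f : ℕ) (θ : ℤ) (τ : ℝ) (r s1 s2 h1 h2 : ℕ) :
    ‖Imf P f θ τ r s1 s2 h1 h2‖ ≤ 2 * (P : ℝ) := by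
  unfold Imf
  refine (norm_sum_le _ _).trans ?_
  have h : ∀ m ∈ (Ioc P (3 * P)).filter (fun m => m.Coprime (r * s1) ∧ m.Coprime (r * s2)),
      ‖eF f ((h1 : ℤ) * θ) ((h1 : ℝ) * τ) m (r * s1) *
        (starRingEnd ℂ) (eF f ((h2 : ℤ) * θ) ((h2 : ℝ) * τ) m (r * s2))‖ ≤ 1 := by
    intro m _
    rw [norm_mul, RCLike.norm_conj]
    unfold eF
    rw [norm_ee, norm_ee, one_mul]
  refine (Finset.sum_le_card_nsmul _ _ _ h).trans ?_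
  rw [nsmul_eq_mul, mul_one]
  have h2 : ((Ioc P (3 * P)).filter (fun m => m.Coprime (r * s1) ∧ m.Coprime (r * s2))).card ≤ 2 * P := by
    refine (Finset.card_filter_le _ _).trans ?_
    rw [Nat.card_Ioc]
    omega
  exact_mod_cast h2

/-- the arithmetic factor -/
private lemma Trf_tau (ε : ℝ) (hε : 0 < ε) : ∃ C : ℝ, 0 ≤ C ∧ ∀ (P q : ℕ), 1 ≤ P → 1 ≤ q → q ≤ 6 * P ^ 2 →
    (q.divisors.card : ℝ) * (1 + Real.log q) ≤ C * (P : ℝ) ^ ε := by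
  obtain ⟨Ct, hCt, ht⟩ := tTauk (ε / 4) (by linarith)
  refine ⟨Ct * (1 + 4 / ε) * (6 : ℝ) ^ (ε / 2), by positivity, ?_⟩
  intro P q hP hq hqP
  have hq1 : (1 : ℝ) ≤ q := by exact_mod_cast hq
  have hP1 : (1 : ℝ) ≤ P := by exact_mod_cast hP
  have h1 := ht q hq
  have h2 : Real.log q ≤ (q : ℝ) ^ (ε / 4) / (ε / 4) := Real.log_le_rpow_div (by linarith) (by linarith)
  have h3 : (1 : ℝ) ≤ (q : ℝ) ^ (ε / 4) := Real.one_le_rpow hq1 (by linarith)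
  have h4 : 1 + Real.log q ≤ (1 + 4 / ε) * (q : ℝ) ^ (ε / 4) := by
    have : (q : ℝ) ^ (ε / 4) / (ε / 4) = 4 / ε * (q : ℝ) ^ (ε / 4) := by
      field_simp
    rw [this] at h2
    nlinarith
  have hlog : 0 ≤ Real.log q := Real.log_nonneg hq1
  calc (q.divisors.card : ℝ) * (1 + Real.log q) ≤ (Ct * (q : ℝ) ^ (ε / 4)) * ((1 + 4 / ε) * (q : ℝ) ^ (ε / 4)) :=
        mul_le_mul h1 h4 (by linarith) (by positivity)
    _ = Ct * (1 + 4 / ε) * ((q : ℝ) ^ (ε / 4) * (q : ℝ) ^ (ε / 4)) := by ring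
    _ = Ct * (1 + 4 / ε) * (q : ℝ) ^ (ε / 2) := by
        rw [← Real.rpow_add (by linarith)]
        congr 2
        ring
    _ ≤ Ct * (1 + 4 / ε) * ((6 * (P : ℝ) ^ 2) ^ (ε / 2)) := by
        refine mul_le_mul_of_nonneg_left ?_ (by positivity)
        refine Real.rpow_le_rpow (by linarith) ?_ (by linarith)
        exact_mod_cast hqP
    _ = Ct * (1 + 4 / ε) * (6 : ℝ) ^ (ε / 2) * (P : ℝ) ^ ε := by
        rw [Real.mul_rpow (by norm_num) (by positivity), ← Real.rpow_natCast, ← Real.rpow_mul (by linarith)]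
        have : ((2 : ℕ) : ℝ) * (ε / 2) = ε := by push_cast; ring
        rw [this]
        ring

/-- one term -/
private lemma Trf_term (h2 : TifStmt) (ε : ℝ) {C1 : ℝ}
    (hC1 : ∀ (P q : ℕ), 1 ≤ P → 1 ≤ q → q ≤ 6 * P ^ 2 → (q.divisors.card : ℝ) * (1 + Real.log q) ≤ C1 * (P : ℝ) ^ ε)
    (P P2 S H f : ℕ) (β : ℕ → ℕ → ℂ) (θ : ℤ) (τ : ℝ) (hP : 1 ≤ P) (hP2 : 1 ≤ P2) (hf : 1 ≤ f) (hSP : S ≤ P2)
    (hβ : ∀ r s, β r s ≠ 0 → P2 < r * s ∧ r * s ≤ 3 * P2 ∧ Squarefree (r * s) ∧ f.Coprime (r * s))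
    (r s1 s2 g1 g2 : ℕ) (hs2 : s2 ≤ 2 * S) (hg1 : g1 ≤ H) (hg2 : g2 ≤ H) :
    (if β r s1 ≠ 0 ∧ β r s2 ≠ 0 then ‖Imf P f θ τ r s1 s2 g1 g2‖ else 0) ≤
      2 * (P : ℝ) * (if kk g1 g2 s1 s2 = 0 then (1 : ℝ) else 0) +
      14 * (1 + (H : ℝ) * |τ| / ((P : ℝ) * P2)) * (C1 * (P2 : ℝ) ^ ε) *
        ((6 * (P2 : ℝ) * S) ^ ((1 : ℝ) / 2) + (P : ℝ) / (P2 : ℝ) ^ ((1 : ℝ) / 2)) *
        (if kk g1 g2 s1 s2 ≠ 0 then (Int.gcd (θ * kk g1 g2 s1 s2) (q0 r s1 s2) : ℝ) else 0) := by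
  have hC1' : 0 ≤ C1 * (P2 : ℝ) ^ ε := by
    refine le_trans ?_ (hC1 P2 1 hP2 le_rfl (by nlinarith))
    have : (0 : ℝ) ≤ Real.log (1 : ℕ) := by simp
    positivity
  have hV : (0 : ℝ) ≤ 1 + (H : ℝ) * |τ| / ((P : ℝ) * P2) := by positivity
  by_cases hc : β r s1 ≠ 0 ∧ β r s2 ≠ 0
  · rw [if_pos hc]
    obtain ⟨a1, a2, a3, a4⟩ := hβ r s1 hc.1
    obtain ⟨b1, b2, b3, b4⟩ := hβ r s2 hc.2
    by_cases hk : kk g1 g2 s1 s2 = 0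
    · rw [if_pos hk, if_neg (by simpa using hk), mul_one, mul_zero, add_zero]
      exact Trf_norm_Im P f θ τ r s1 s2 g1 g2
    · rw [if_neg hk, if_pos hk, mul_zero, zero_add]
      have hr : 1 ≤ r := by
        rcases Nat.eq_zero_or_pos r with h | h
        · subst h; simp at a1
        · exact h
      have hs1' : 1 ≤ s1 := by
        rcases Nat.eq_zero_or_pos s1 with h | h
        · subst h; simp at a1
        · exact h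
      have hs2' : 1 ≤ s2 := by
        rcases Nat.eq_zero_or_pos s2 with h | h
        · subst h; simp at b1
        · exact h
      have hq1 : 1 ≤ q0 r s1 s2 := Nat.mul_pos hr (Nat.lcm_pos hs1' hs2')
      have hqP : P2 ≤ q0 r s1 s2 := by
        unfold q0
        have e1 : s1 ≤ Nat.lcm s1 s2 := Nat.le_of_dvd (Nat.lcm_pos hs1' hs2') (Nat.dvd_lcm_left s1 s2)
        exact a1.le.trans (Nat.mul_le_mul_left _ e1)
      have hq6 : q0 r s1 s2 ≤ 6 * P2 * S := by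
        unfold q0
        have e1 : Nat.lcm s1 s2 ≤ s1 * s2 := Nat.div_le_self _ _
        calc r * Nat.lcm s1 s2 ≤ r * (s1 * s2) := Nat.mul_le_mul_left _ e1
          _ = (r * s1) * s2 := by ring
          _ ≤ (3 * P2) * (2 * S) := Nat.mul_le_mul a2 hs2
          _ = 6 * P2 * S := by ring
      have hq6' : q0 r s1 s2 ≤ 6 * P2 ^ 2 := by
        refine hq6.trans ?_
        have : P2 * S ≤ P2 * P2 := Nat.mul_le_mul_left _ hSP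
        nlinarith
      have hm := h2 P P2 H f θ τ r s1 s2 g1 g2 hP hP2 hf hg1 hg2 a1 b1 a3 b3 a4 b4
      have ht := hC1 P2 (q0 r s1 s2) hP2 hq1 hq6'
      refine hm.trans ?_
      set G : ℕ := Int.gcd (θ * kk g1 g2 s1 s2) (q0 r s1 s2) with hG
      have hG1 : (1 : ℝ) ≤ (G : ℝ) := by
        have : 0 < G := by
          rw [hG]
          refine Int.gcd_pos_of_ne_zero_right _ ?_
          exact_mod_cast (by omega : q0 r s1 s2 ≠ 0)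
        exact_mod_cast this
      have hGr : (G : ℝ) ^ ((1 : ℝ) / 2) ≤ (G : ℝ) := by
        calc (G : ℝ) ^ ((1 : ℝ) / 2) ≤ (G : ℝ) ^ (1 : ℝ) := Real.rpow_le_rpow_of_exponent_le hG1 (by norm_num)
          _ = G := Real.rpow_one _
      have hqr : ((q0 r s1 s2 : ℕ) : ℝ) ^ ((1 : ℝ) / 2) ≤ (6 * (P2 : ℝ) * S) ^ ((1 : ℝ) / 2) := by
        refine Real.rpow_le_rpow (Nat.cast_nonneg _) ?_ (by norm_num)
        exact_mod_cast hq6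
      have hP2r : (0 : ℝ) < (P2 : ℝ) ^ ((1 : ℝ) / 2) := by
        refine Real.rpow_pos_of_pos ?_ _
        exact_mod_cast hP2
      have hqr2 : (P : ℝ) / ((q0 r s1 s2 : ℕ) : ℝ) ^ ((1 : ℝ) / 2) ≤ (P : ℝ) / (P2 : ℝ) ^ ((1 : ℝ) / 2) := by
        refine div_le_div_of_nonneg_left (Nat.cast_nonneg _) hP2r ?_
        refine Real.rpow_le_rpow (Nat.cast_nonneg _) ?_ (by norm_num)
        exact_mod_cast hqP
      have hlog : 0 ≤ Real.log (q0 r s1 s2 : ℕ) := Real.log_nonneg (by exact_mod_cast hq1)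
      have key : ((q0 r s1 s2).divisors.card : ℝ) * (G : ℝ) ^ ((1 : ℝ) / 2) *
          (((q0 r s1 s2 : ℕ) : ℝ) ^ ((1 : ℝ) / 2) + (P : ℝ) / ((q0 r s1 s2 : ℕ) : ℝ) ^ ((1 : ℝ) / 2)) *
            (1 + Real.log (q0 r s1 s2 : ℕ)) ≤
          (C1 * (P2 : ℝ) ^ ε) *
            (((6 * (P2 : ℝ) * S) ^ ((1 : ℝ) / 2) + (P : ℝ) / (P2 : ℝ) ^ ((1 : ℝ) / 2)) * G) := by
        calc ((q0 r s1 s2).divisors.card : ℝ) * (G : ℝ) ^ ((1 : ℝ) / 2) *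
          (((q0 r s1 s2 : ℕ) : ℝ) ^ ((1 : ℝ) / 2) + (P : ℝ) / ((q0 r s1 s2 : ℕ) : ℝ) ^ ((1 : ℝ) / 2)) *
            (1 + Real.log (q0 r s1 s2 : ℕ))
            = (((q0 r s1 s2).divisors.card : ℝ) * (1 + Real.log (q0 r s1 s2 : ℕ))) *
              ((((q0 r s1 s2 : ℕ) : ℝ) ^ ((1 : ℝ) / 2) + (P : ℝ) / ((q0 r s1 s2 : ℕ) : ℝ) ^ ((1 : ℝ) / 2)) *
                (G : ℝ) ^ ((1 : ℝ) / 2)) := by ring
          _ ≤ (C1 * (P2 : ℝ) ^ ε) *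
            (((6 * (P2 : ℝ) * S) ^ ((1 : ℝ) / 2) + (P : ℝ) / (P2 : ℝ) ^ ((1 : ℝ) / 2)) * G) := by
              refine mul_le_mul ht ?_ (by positivity) hC1'
              exact mul_le_mul (add_le_add hqr hqr2) hGr (by positivity) (by positivity)
      calc 14 * (1 + (H : ℝ) * |τ| / ((P : ℝ) * P2)) * (((q0 r s1 s2).divisors.card : ℝ) *
            (G : ℝ) ^ ((1 : ℝ) / 2) *
          (((q0 r s1 s2 : ℕ) : ℝ) ^ ((1 : ℝ) / 2) + (P : ℝ) / ((q0 r s1 s2 : ℕ) : ℝ) ^ ((1 : ℝ) / 2)) *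
            (1 + Real.log (q0 r s1 s2 : ℕ)))
          ≤ 14 * (1 + (H : ℝ) * |τ| / ((P : ℝ) * P2)) * ((C1 * (P2 : ℝ) ^ ε) *
            (((6 * (P2 : ℝ) * S) ^ ((1 : ℝ) / 2) + (P : ℝ) / (P2 : ℝ) ^ ((1 : ℝ) / 2)) * G)) :=
            mul_le_mul_of_nonneg_left key (by positivity)
        _ = _ := by ring
  · rw [if_neg hc]
    have e1 : (0 : ℝ) ≤ (if kk g1 g2 s1 s2 = 0 then (1 : ℝ) else 0) := by split_ifs <;> norm_num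
    have e2 : (0 : ℝ) ≤ (if kk g1 g2 s1 s2 ≠ 0 then (Int.gcd (θ * kk g1 g2 s1 s2) (q0 r s1 s2) : ℝ) else 0) := by
      split_ifs
      · positivity
      · exact le_rfl
    positivity

private lemma Trf_comb {C2 D E V X Z : ℝ} (hC2 : 0 ≤ C2) (hD : 0 ≤ D) (hE : 1 ≤ E) (hV : 1 ≤ V) (hX : 0 ≤ X)
    (hZ : 0 ≤ Z) : 36 * C2 * E * X + D * E ^ 2 * V * Z ≤ (36 * C2 + D) * E ^ 2 * V ^ 2 * (X + Z) := by
  have hE2 : E ≤ E ^ 2 := by nlinarith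
  have hV2 : V ≤ V ^ 2 := by nlinarith
  have hV2' : 1 ≤ V ^ 2 := by nlinarith
  have c1 : 36 * C2 * E * X ≤ 36 * C2 * (E ^ 2 * V ^ 2) * X := by
    refine mul_le_mul_of_nonneg_right ?_ hX
    refine mul_le_mul_of_nonneg_left ?_ (by positivity)
    calc E ≤ E ^ 2 := hE2
      _ = E ^ 2 * 1 := (mul_one _).symm
      _ ≤ E ^ 2 * V ^ 2 := mul_le_mul_of_nonneg_left hV2' (by positivity)
  have c2 : D * E ^ 2 * V * Z ≤ D * (E ^ 2 * V ^ 2) * Z := by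
    refine mul_le_mul_of_nonneg_right ?_ hZ
    rw [mul_assoc]
    refine mul_le_mul_of_nonneg_left ?_ hD
    exact mul_le_mul_of_nonneg_left hV2 (by positivity)
  have c3 : 0 ≤ 36 * C2 * (E ^ 2 * V ^ 2) * Z := by positivity
  have c4 : 0 ≤ D * (E ^ 2 * V ^ 2) * X := by positivity
  calc 36 * C2 * E * X + D * E ^ 2 * V * Z
      ≤ 36 * C2 * (E ^ 2 * V ^ 2) * X + D * (E ^ 2 * V ^ 2) * Z +
        (36 * C2 * (E ^ 2 * V ^ 2) * Z + D * (E ^ 2 * V ^ 2) * X) := by linarith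
    _ = _ := by ring

private lemma Trf_root {T K E V X Y H : ℝ} (hK : 0 ≤ K) (hE : 0 ≤ E) (hV : 0 ≤ V) (hX : 0 ≤ X) (hY : 0 ≤ Y)
    (hH : 0 ≤ H) (h : T ^ 2 ≤ K * E ^ 2 * V ^ 2 * (X + H ^ 2 * Y)) :
    T ≤ Real.sqrt K * E * V * (Real.sqrt X + H * Real.sqrt Y) := by
  refine le_of_sq_le_sq (h.trans ?_) (by positivity)
  have e1 : (Real.sqrt K * E * V * (Real.sqrt X + H * Real.sqrt Y)) ^ 2 =
      (Real.sqrt K) ^ 2 * E ^ 2 * V ^ 2 * ((Real.sqrt X) ^ 2 + H ^ 2 * (Real.sqrt Y) ^ 2 +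
        2 * H * Real.sqrt X * Real.sqrt Y) := by ring
  rw [e1, Real.sq_sqrt hK, Real.sq_sqrt hX, Real.sq_sqrt hY]
  refine mul_le_mul_of_nonneg_left ?_ (by positivity)
  have : 0 ≤ 2 * H * Real.sqrt X * Real.sqrt Y := by positivity
  linarith

private lemma Trf_b1 {P P2 R C2 S H E F : ℝ} (hP2 : 1 ≤ P2) (hS : 1 ≤ S) (hH : 1 ≤ H) (hC2 : 0 ≤ C2)
    (hR0 : 0 ≤ R) (hR : R ≤ 3 * P2 / S) (hF : 0 ≤ F) (hFE : F ≤ E) :
    2 * P * R * (2 * P * (R * (C2 * F * (S * H)))) ≤ 36 * C2 * E * (P ^ 2 * P2 ^ 2 * H / S) := by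
  have hR2 : R ^ 2 ≤ (3 * P2 / S) ^ 2 := pow_le_pow_left₀ hR0 hR 2
  have hS0 : S ≠ 0 := by linarith
  calc 2 * P * R * (2 * P * (R * (C2 * F * (S * H))))
      = (4 * P ^ 2 * C2 * (S * H)) * (R ^ 2 * F) := by ring
    _ ≤ (4 * P ^ 2 * C2 * (S * H)) * ((3 * P2 / S) ^ 2 * E) := by
        refine mul_le_mul_of_nonneg_left ?_ (by positivity)
        exact mul_le_mul hR2 hFE hF (by positivity)
    _ = _ := by
        field_simp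
        ring

private lemma Trf_b2 {P P2 R C1 C3 S H E F G V W q Y : ℝ} (hP : 1 ≤ P) (hP2 : 1 ≤ P2) (hS : 1 ≤ S) (hH : 1 ≤ H)
    (hC1 : 0 ≤ C1) (hC3 : 0 ≤ C3) (hR0 : 0 ≤ R) (hV : 0 ≤ V)
    (hR : R ≤ 3 * P2 / S) (hF : 0 ≤ F) (hFE : F ≤ E) (hG : 0 ≤ G) (hGE : G ≤ E) (hW : 0 ≤ W)
    (hY : P * P2 ^ 2 * W ≤ q * Y) :
    2 * P * R * (14 * V * (C1 * F) * W * (C3 * G * (R * S ^ 2 * H ^ 2))) ≤
      252 * q * C1 * C3 * E ^ 2 * V * (H ^ 2 * Y) := by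
  have hR2 : R ^ 2 ≤ (3 * P2 / S) ^ 2 := pow_le_pow_left₀ hR0 hR 2
  have hS0 : S ≠ 0 := by linarith
  have hE : 0 ≤ E := hF.trans hFE
  calc 2 * P * R * (14 * V * (C1 * F) * W * (C3 * G * (R * S ^ 2 * H ^ 2)))
      = (28 * P * V * C1 * W * C3 * S ^ 2 * H ^ 2) * (R ^ 2 * (F * G)) := by ring
    _ ≤ (28 * P * V * C1 * W * C3 * S ^ 2 * H ^ 2) * ((3 * P2 / S) ^ 2 * (E * E)) := by
        refine mul_le_mul_of_nonneg_left ?_ (by positivity)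
        refine mul_le_mul hR2 ?_ (by positivity) (by positivity)
        exact mul_le_mul hFE hGE hG hE
    _ = (252 * C1 * C3 * E ^ 2 * V * H ^ 2) * (P * P2 ^ 2 * W) := by
        field_simp
        ring
    _ ≤ (252 * C1 * C3 * E ^ 2 * V * H ^ 2) * (q * Y) :=
        mul_le_mul_of_nonneg_left hY (by positivity)
    _ = _ := by ring

/-- the powers -/
private lemma Trf_Y {P P2 S : ℝ} (hP : 1 ≤ P) (hP2 : 1 ≤ P2) (hS : 1 ≤ S) :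
    P * P2 ^ 2 * ((6 * P2 * S) ^ ((1 : ℝ) / 2) + P / P2 ^ ((1 : ℝ) / 2)) ≤
      (6 : ℝ) ^ ((1 : ℝ) / 2) * (P * P2 ^ ((5 : ℝ) / 2) * S ^ ((1 : ℝ) / 2) + P ^ 2 * P2 ^ ((3 : ℝ) / 2)) := by
  have hP20 : 0 < P2 := by linarith
  have e1 : (6 * P2 * S) ^ ((1 : ℝ) / 2) = (6 : ℝ) ^ ((1 : ℝ) / 2) * (P2 ^ ((1 : ℝ) / 2) * S ^ ((1 : ℝ) / 2)) := by
    rw [Real.mul_rpow (by positivity) (by linarith), Real.mul_rpow (by positivity) (by linarith), mul_assoc]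
  have e2 : P2 ^ ((5 : ℝ) / 2) = P2 ^ 2 * P2 ^ ((1 : ℝ) / 2) := by
    rw [← Real.rpow_natCast, ← Real.rpow_add hP20]
    norm_num
  have e3 : P2 ^ ((3 : ℝ) / 2) = P2 ^ 2 / P2 ^ ((1 : ℝ) / 2) := by
    rw [← Real.rpow_natCast, ← Real.rpow_sub hP20]
    norm_num
  have e4 : (1 : ℝ) ≤ (6 : ℝ) ^ ((1 : ℝ) / 2) := Real.one_le_rpow (by norm_num) (by norm_num)
  rw [e1, e2, e3]
  have h1 : P * P2 ^ 2 * ((6 : ℝ) ^ ((1 : ℝ) / 2) * (P2 ^ ((1 : ℝ) / 2) * S ^ ((1 : ℝ) / 2)) +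
      P / P2 ^ ((1 : ℝ) / 2)) = (6 : ℝ) ^ ((1 : ℝ) / 2) * (P * (P2 ^ 2 * P2 ^ ((1 : ℝ) / 2)) * S ^ ((1 : ℝ) / 2)) +
      1 * (P ^ 2 * (P2 ^ 2 / P2 ^ ((1 : ℝ) / 2))) := by ring
  rw [h1, mul_add]
  have h2 : 0 ≤ P ^ 2 * (P2 ^ 2 / P2 ^ ((1 : ℝ) / 2)) := by positivity
  have h3 := mul_le_mul_of_nonneg_right e4 h2
  linarith

theorem tTrf (h1 : TcfStmt) (h2 : TifStmt) (h3 : TdgStmt) (h4 : TgfStmt) : TrfStmt := by
  intro ε hε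
  obtain ⟨C1, hC10, hC1⟩ := Trf_tau ε hε
  obtain ⟨C2, hC20, hC2⟩ := h3 ε hε
  obtain ⟨C3, hC30, hC3⟩ := h4 ε hε
  set K : ℝ := 36 * C2 + 252 * (6 : ℝ) ^ ((1 : ℝ) / 2) * C1 * C3 with hK
  have hK0 : 0 ≤ K := by positivity
  refine ⟨Real.sqrt K, Real.sqrt_nonneg _, ?_⟩
  intro P P2 S H f α β θ τ hP hP2 hS hH hf hSP hα hβ1 hβ hθ
  change ‖Tff P P2 S H f α β θ τ‖ ≤ _
  have hP1 : (1 : ℝ) ≤ P := by exact_mod_cast hP
  have hP21 : (1 : ℝ) ≤ P2 := by exact_mod_cast hP2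
  have hS1 : (1 : ℝ) ≤ S := by exact_mod_cast hS
  have hH1 : (1 : ℝ) ≤ H := by exact_mod_cast hH
  have hSPr : (S : ℝ) ≤ P2 := by exact_mod_cast hSP
  have hθ1 : (1 : ℝ) ≤ |(θ : ℝ)| := by
    have : (1 : ℤ) ≤ |θ| := Int.one_le_abs hθ
    exact_mod_cast this
  set V : ℝ := 1 + (H : ℝ) * |τ| / ((P : ℝ) * P2) with hV
  have hV1 : 1 ≤ V := by
    rw [hV]
    have : 0 ≤ (H : ℝ) * |τ| / ((P : ℝ) * P2) := by positivity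
    linarith
  set N0 : ℝ := (P : ℝ) * P2 * H * |(θ : ℝ)| with hN0
  have hP20 : (0 : ℝ) ≤ P2 := by linarith
  have hH0 : (0 : ℝ) ≤ H := by linarith
  have hθ0 : (0 : ℝ) ≤ |(θ : ℝ)| := abs_nonneg _
  -- all the factors are at least one
  have hA1 : (P2 : ℝ) * H * |(θ : ℝ)| ≤ N0 := by
    rw [hN0]
    have e1 : (0 : ℝ) ≤ (P2 : ℝ) * H * |(θ : ℝ)| := by positivity
    calc (P2 : ℝ) * H * |(θ : ℝ)| = 1 * ((P2 : ℝ) * H * |(θ : ℝ)|) := (one_mul _).symm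
      _ ≤ (P : ℝ) * ((P2 : ℝ) * H * |(θ : ℝ)|) := mul_le_mul_of_nonneg_right hP1 e1
      _ = _ := by ring
  have hA2 : (P2 : ℝ) ≤ (P2 : ℝ) * H * |(θ : ℝ)| := by
    calc (P2 : ℝ) = P2 * 1 * 1 := by ring
      _ ≤ (P2 : ℝ) * H * |(θ : ℝ)| :=
        mul_le_mul (mul_le_mul_of_nonneg_left hH1 hP20) hθ1 (by norm_num) (by positivity)
  have hN1 : 1 ≤ N0 := hP21.trans (hA2.trans hA1)
  set R : ℕ := 3 * P2 / S with hR
  have hRr : (R : ℝ) ≤ 3 * P2 / S := by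
    rw [hR]
    have := @Nat.cast_div_le ℝ _ _ _ (3 * P2) S
    refine this.trans (le_of_eq ?_)
    push_cast
    rfl
  have hPe : (P2 : ℝ) ^ ε ≤ N0 ^ ε := Real.rpow_le_rpow hP20 (hA2.trans hA1) hε.le
  have hSHe : ((S : ℝ) * H) ^ ε ≤ N0 ^ ε := by
    refine Real.rpow_le_rpow (by positivity) (le_trans ?_ hA1) hε.le
    calc (S : ℝ) * H ≤ P2 * H := mul_le_mul_of_nonneg_right hSPr hH0
      _ = P2 * H * 1 := (mul_one _).symm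
      _ ≤ (P2 : ℝ) * H * |(θ : ℝ)| := mul_le_mul_of_nonneg_left hθ1 (by positivity)
  have hTHe : (|(θ : ℝ)| * H * S) ^ ε ≤ N0 ^ ε := by
    refine Real.rpow_le_rpow (by positivity) (le_trans ?_ hA1) hε.le
    have : |(θ : ℝ)| * H * S ≤ |(θ : ℝ)| * H * P2 := mul_le_mul_of_nonneg_left hSPr (by positivity)
    calc |(θ : ℝ)| * H * S ≤ |(θ : ℝ)| * H * P2 := this
      _ = _ := by ring
  have hNe1 : 1 ≤ N0 ^ ε := Real.one_le_rpow hN1 hε.le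
  -- the sum
  set W : ℝ := (6 * (P2 : ℝ) * S) ^ ((1 : ℝ) / 2) + (P : ℝ) / (P2 : ℝ) ^ ((1 : ℝ) / 2) with hW
  have hW0 : 0 ≤ W := by positivity
  set A : ℝ := 14 * V * (C1 * (P2 : ℝ) ^ ε) * W with hA
  have hA0 : 0 ≤ A := by positivity
  have hcs := h1 P P2 S H f α β θ τ hα hβ1
  have hsum : ∑ r ∈ Icc 1 R, ∑ s1 ∈ Ioc S (2 * S), ∑ s2 ∈ Ioc S (2 * S), ∑ h1 ∈ Icc 1 H, ∑ h2 ∈ Icc 1 H,
      (if β r s1 ≠ 0 ∧ β r s2 ≠ 0 then ‖Imf P f θ τ r s1 s2 h1 h2‖ else 0) ≤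
      2 * (P : ℝ) * (R * (C2 * ((S : ℝ) * H) ^ ε * ((S : ℝ) * H))) +
        A * (C3 * (|(θ : ℝ)| * H * S) ^ ε * ((R : ℝ) * S ^ 2 * H ^ 2)) := by
    have e1 : ∑ r ∈ Icc 1 R, ∑ s1 ∈ Ioc S (2 * S), ∑ s2 ∈ Ioc S (2 * S), ∑ h1 ∈ Icc 1 H, ∑ h2 ∈ Icc 1 H,
      (if β r s1 ≠ 0 ∧ β r s2 ≠ 0 then ‖Imf P f θ τ r s1 s2 h1 h2‖ else 0) ≤
      ∑ r ∈ Icc 1 R, ∑ s1 ∈ Ioc S (2 * S), ∑ s2 ∈ Ioc S (2 * S), ∑ h1 ∈ Icc 1 H, ∑ h2 ∈ Icc 1 H,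
        (2 * (P : ℝ) * (if kk h1 h2 s1 s2 = 0 then (1 : ℝ) else 0) +
        A * (if kk h1 h2 s1 s2 ≠ 0 then (Int.gcd (θ * kk h1 h2 s1 s2) (q0 r s1 s2) : ℝ) else 0)) := by
      refine sum_le_sum fun r _ => sum_le_sum fun s1 _ => sum_le_sum fun s2 hs2 => sum_le_sum fun g1 hg1 =>
        sum_le_sum fun g2 hg2 => ?_
      exact Trf_term h2 ε hC1 P P2 S H f β θ τ hP hP2 hf hSP hβ r s1 s2 g1 g2 (mem_Ioc.1 hs2).2
        (mem_Icc.1 hg1).2 (mem_Icc.1 hg2).2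
    refine e1.trans ?_
    simp only [sum_add_distrib, ← mul_sum]
    refine add_le_add ?_ ?_
    · refine mul_le_mul_of_nonneg_left ?_ (by positivity)
      rw [sum_const, Nat.card_Icc, Nat.add_sub_cancel, nsmul_eq_mul]
      exact mul_le_mul_of_nonneg_left (hC2 S H hS hH) (Nat.cast_nonneg _)
    · exact mul_le_mul_of_nonneg_left (hC3 R S H θ hS hH hθ) hA0
  have hE0 : 0 ≤ N0 ^ ε := by linarith
  have hR0 : (0 : ℝ) ≤ R := Nat.cast_nonneg _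
  have hY := Trf_Y hP1 hP21 hS1
  rw [← hW] at hY
  set Y : ℝ := (P : ℝ) * (P2 : ℝ) ^ ((5 : ℝ) / 2) * (S : ℝ) ^ ((1 : ℝ) / 2) +
    (P : ℝ) ^ 2 * (P2 : ℝ) ^ ((3 : ℝ) / 2) with hYd
  have hY0 : 0 ≤ Y := by positivity
  have b1 := Trf_b1 (P := (P : ℝ)) (C2 := C2) hP21 hS1 hH1 hC20 hR0 hRr
    (by positivity : (0 : ℝ) ≤ ((S : ℝ) * H) ^ ε) hSHe
  have b2 := Trf_b2 (V := V) hP1 hP21 hS1 hH1 hC10 hC30 hR0 (by linarith : (0 : ℝ) ≤ V) hRr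
    (by positivity : (0 : ℝ) ≤ (P2 : ℝ) ^ ε) hPe (by positivity : (0 : ℝ) ≤ (|(θ : ℝ)| * H * S) ^ ε) hTHe hW0 hY
  have b3 : ‖Tff P P2 S H f α β θ τ‖ ^ 2 ≤ 36 * C2 * N0 ^ ε * ((P : ℝ) ^ 2 * (P2 : ℝ) ^ 2 * H / S) +
      252 * (6 : ℝ) ^ ((1 : ℝ) / 2) * C1 * C3 * (N0 ^ ε) ^ 2 * V * ((H : ℝ) ^ 2 * Y) := by
    refine hcs.trans ?_
    refine (mul_le_mul_of_nonneg_left hsum (by positivity)).trans ?_
    rw [mul_add]
    exact add_le_add b1 b2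
  have b4 := Trf_comb hC20 (by positivity : 0 ≤ 252 * (6 : ℝ) ^ ((1 : ℝ) / 2) * C1 * C3) hNe1 hV1
    (by positivity : 0 ≤ (P : ℝ) ^ 2 * (P2 : ℝ) ^ 2 * H / S)
    (by positivity : 0 ≤ (H : ℝ) ^ 2 * Y)
  rw [← Real.sqrt_eq_rpow, ← Real.sqrt_eq_rpow]
  exact Trf_root hK0 hE0 (by linarith) (by positivity) hY0 (by positivity) (b3.trans b4)

end Pool.Agent.Lib.TN
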