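import Pool.Agent.Lib.TN.SpecM

/-!
Module Wcb: the count clw with error q/N.
-/

namespace Pool.Agent.Lib.TN

open Finset Pool.Agent.Lib.EH3 Pool.Agent.Lib.TB

private lemma Wcb_zero (N : ℕ) : ‖GG N 0‖ = N := by
  unfold GG
  simp [ee_zero]

private lemma Wcb_pow (N j : ℕ) (hN : 1 ≤ N) (t : ℝ) :
    ‖GG N t‖ ^ (2 * j + 2) / (N : ℝ) ^ (2 * j + 1) ≤ (1 / (N : ℝ)) * ‖GG N t‖ ^ 2 := by
  have hN' : (0 : ℝ) < N := by exact_mod_cast hN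
  have h1 : ‖GG N t‖ ^ (2 * j) ≤ (N : ℝ) ^ (2 * j) := pow_le_pow_left₀ (norm_nonneg _) (norm_GG_le N t) _
  have h2 : ‖GG N t‖ ^ (2 * j + 2) / (N : ℝ) ^ (2 * j + 1) =
      (‖GG N t‖ ^ (2 * j) / (N : ℝ) ^ (2 * j)) * ((1 / (N : ℝ)) * ‖GG N t‖ ^ 2) := by
    rw [pow_add, pow_succ (N : ℝ) (2 * j)]
    field_simp
  rw [h2]
  have h3 : ‖GG N t‖ ^ (2 * j) / (N : ℝ) ^ (2 * j) ≤ 1 := by
    rw [div_le_one (by positivity)]
    exact h1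
  exact mul_le_of_le_one_left (by positivity) h3

theorem tWcb (h1 : WexStmt) (h2 : Pool.Agent.Lib.TB.MsmStmt) : WcbStmt := by
  intro N j q b hN hq
  have hN' : (0 : ℝ) < N := by exact_mod_cast hN
  have hq' : (0 : ℝ) < q := by exact_mod_cast hq
  have h3 := h1 N j q b hN hq
  have h4 := (h2 N q hN hq).2
  have h5 : range q = insert 0 (Ico 1 q) := by
    ext i
    simp only [mem_range, mem_insert, mem_Ico]
    omega
  have h6 : (0 : ℕ) ∉ Ico 1 q := by simp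
  rw [h5, sum_insert h6] at h3
  set S : ℂ := ∑ h ∈ Ico 1 q, ee (-((h : ℝ) * (b : ℝ) / (q : ℝ))) *
    ((‖GG N ((h : ℝ) / (q : ℝ))‖ ^ (2 * j + 2) / (N : ℝ) ^ (2 * j + 1) : ℝ) : ℂ) with hS
  have h7 : ‖S‖ ≤ (q : ℝ) ^ 2 / N := by
    calc ‖S‖ ≤ ∑ h ∈ Ico 1 q, (1 / (N : ℝ)) * ‖GG N ((h : ℝ) / q)‖ ^ 2 := by
          refine (norm_sum_le _ _).trans (sum_le_sum fun h _ => ?_)
          rw [norm_mul, norm_ee, one_mul, Complex.norm_real,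
            Real.norm_of_nonneg (by positivity)]
          exact Wcb_pow N j hN _
      _ = (1 / (N : ℝ)) * ∑ h ∈ Ico 1 q, ‖GG N ((h : ℝ) / q)‖ ^ 2 := by rw [mul_sum]
      _ ≤ (1 / (N : ℝ)) * (q : ℝ) ^ 2 := mul_le_mul_of_nonneg_left h4 (by positivity)
      _ = (q : ℝ) ^ 2 / N := by ring
  have hqc : (q : ℂ) ≠ 0 := by exact_mod_cast hq'.ne'
  have hNc : (N : ℂ) ≠ 0 := by exact_mod_cast hN'.ne'
  have hz : (N : ℝ) ^ (2 * j + 2) / (N : ℝ) ^ (2 * j + 1) = N := by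
    rw [pow_succ (N : ℝ) (2 * j + 1)]
    field_simp
  have h8 : ((clw N j q b - (N : ℝ) / q : ℝ) : ℂ) = (1 / (q : ℂ)) * S := by
    rw [Complex.ofReal_sub, h3]
    simp only [Nat.cast_zero, zero_mul, zero_div, neg_zero, ee_zero, one_mul, Wcb_zero, hz]
    push_cast
    ring
  have h9 : |clw N j q b - (N : ℝ) / q| = ‖((clw N j q b - (N : ℝ) / q : ℝ) : ℂ)‖ := by
    rw [Complex.norm_real, Real.norm_eq_abs]
  have h10 : ‖(1 / (q : ℂ))‖ = 1 / (q : ℝ) := by simp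
  rw [h9, h8, norm_mul, h10]
  calc 1 / (q : ℝ) * ‖S‖ ≤ 1 / (q : ℝ) * ((q : ℝ) ^ 2 / N) :=
        mul_le_mul_of_nonneg_left h7 (by positivity)
    _ = (q : ℝ) / N := by
        field_simp

end Pool.Agent.Lib.TN
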