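import Pool.Agent.Lib.TN.SpecM

/-!
MP_00e23e_nt, Lib/TN, module Wcr: the cross terms (adapted from Lib/TB/Mcr.lean).
-/

namespace Pool.Agent.Lib.TN

open Finset Pool.Agent.Lib.EH3 Pool.Agent.Lib.TB

private lemma Wcr_one (h1 : MkaStmt) {R Q d : ℕ} (hRQ : R ≤ Q) (hd : d ∈ Ioc Q (2 * Q)) :
    ∑ u ∈ d.divisors.erase d, |kap R d u| * (u : ℝ) ≤
      (d.divisors.card : ℝ) ^ 2 * (R : ℝ) ^ 2 / d := by
  obtain ⟨-, -, -, h4, h5⟩ := h1
  rw [mem_Ioc] at hd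
  have hRd : R < d := lt_of_le_of_lt hRQ hd.1
  have hd0 : (0 : ℝ) < d := by exact_mod_cast (by omega : 0 < d)
  have hR0 : (0 : ℝ) ≤ (R : ℝ) := Nat.cast_nonneg R
  have key : ∀ u ∈ d.divisors.erase d, |kap R d u| * (u : ℝ) ≤
      (d.divisors.card : ℝ) * (R : ℝ) ^ 2 / d := by
    intro u hu
    rw [mem_erase, Nat.mem_divisors] at hu
    obtain ⟨hne, hdvd, -⟩ := hu
    by_cases hR : R < u
    · rw [h5 R d u hRd hdvd hne hR]
      simp
      positivity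
    · push Not at hR
      have hu' : (u : ℝ) ≤ R := by exact_mod_cast hR
      have hu0 : (0 : ℝ) ≤ (u : ℝ) := Nat.cast_nonneg u
      have hb := h4 R d u hRd hdvd hne
      calc |kap R d u| * (u : ℝ) ≤ ((u : ℝ) / d * (d.divisors.card : ℝ)) * (u : ℝ) :=
            mul_le_mul_of_nonneg_right hb hu0
        _ = (d.divisors.card : ℝ) * (u : ℝ) ^ 2 / d := by ring
        _ ≤ (d.divisors.card : ℝ) * (R : ℝ) ^ 2 / d := by gcongr
  calc ∑ u ∈ d.divisors.erase d, |kap R d u| * (u : ℝ)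
      ≤ ∑ _u ∈ d.divisors.erase d, (d.divisors.card : ℝ) * (R : ℝ) ^ 2 / d := sum_le_sum key
    _ = ((d.divisors.erase d).card : ℝ) * ((d.divisors.card : ℝ) * (R : ℝ) ^ 2 / d) := by
        rw [sum_const, nsmul_eq_mul]
    _ ≤ (d.divisors.card : ℝ) * ((d.divisors.card : ℝ) * (R : ℝ) ^ 2 / d) := by
        apply mul_le_mul_of_nonneg_right _ (by positivity)
        exact_mod_cast card_le_card (erase_subset _ _)
    _ = (d.divisors.card : ℝ) ^ 2 * (R : ℝ) ^ 2 / d := by ring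

private lemma Wcr_X (h2 : WsbStmt) {N j u w : ℕ} (a b : ℤ) (hN : 1 ≤ N) (hu : 1 ≤ u) (hw : 1 ≤ w) :
    |SW N j u w a b - MM N u w a b| ≤ (u : ℝ) * w / N := by
  refine (h2 N j u w a b hN hu hw).1.trans ?_
  have h : Nat.lcm u w ≤ u * w := Nat.le_of_dvd (Nat.mul_pos hu hw) (Nat.lcm_dvd_mul u w)
  have h' : (Nat.lcm u w : ℝ) ≤ (u : ℝ) * w := by exact_mod_cast h
  gcongr

theorem tWcr (h1 : MkaStmt) (h2 : WsbStmt) : WcrStmt := by
  intro N j R Q d d' a b hN hR hRQ hd hd'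
  have hA := Wcr_one h1 hRQ hd
  have hA' := Wcr_one h1 hRQ hd'
  have hk := h1.2.2.1
  rw [mem_Ioc] at hd hd'
  have hd1 : 1 ≤ d := by omega
  have hd1' : 1 ≤ d' := by omega
  have hRd : R < d := lt_of_le_of_lt hRQ hd.1
  have hRd' : R < d' := lt_of_le_of_lt hRQ hd'.1
  have hN0 : (0 : ℝ) < N := by exact_mod_cast hN
  have hd0 : (0 : ℝ) < d := by exact_mod_cast hd1
  have hd0' : (0 : ℝ) < d' := by exact_mod_cast hd1'
  set X : ℕ → ℕ → ℝ := fun u w => SW N j u w a b - MM N u w a b with hX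
  set A : ℝ := ∑ u ∈ d.divisors.erase d, |kap R d u| * (u : ℝ) with hAdef
  set A' : ℝ := ∑ u ∈ d'.divisors.erase d', |kap R d' u| * (u : ℝ) with hAdef'
  set τ : ℝ := (d.divisors.card : ℝ) with hτ
  set τ' : ℝ := (d'.divisors.card : ℝ) with hτ'
  have hA0 : 0 ≤ A := sum_nonneg fun u _ => mul_nonneg (abs_nonneg _) (Nat.cast_nonneg _)
  have hA0' : 0 ≤ A' := sum_nonneg fun u _ => mul_nonneg (abs_nonneg _) (Nat.cast_nonneg _)
  have hmem : d ∈ d.divisors := Nat.mem_divisors.mpr ⟨dvd_rfl, by omega⟩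
  have hmem' : d' ∈ d'.divisors := Nat.mem_divisors.mpr ⟨dvd_rfl, by omega⟩
  have hτ1 : 1 ≤ τ := by
    rw [hτ]
    exact_mod_cast card_pos.mpr ⟨d, hmem⟩
  have hτ1' : 1 ≤ τ' := by
    rw [hτ']
    exact_mod_cast card_pos.mpr ⟨d', hmem'⟩
  have hpos : ∀ {u d : ℕ}, u ∈ d.divisors.erase d → 1 ≤ u := by
    intro u d hu
    exact Nat.pos_of_mem_divisors (mem_of_mem_erase hu)
  have hsplit : ∑ u ∈ d.divisors, ∑ w ∈ d'.divisors, kap R d u * kap R d' w * X u w - X d d' =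
      (∑ w ∈ d'.divisors.erase d', kap R d' w * X d w) +
      (∑ u ∈ d.divisors.erase d, kap R d u * X u d') +
      ∑ u ∈ d.divisors.erase d, ∑ w ∈ d'.divisors.erase d', kap R d u * kap R d' w * X u w := by
    have hin : ∀ u, ∑ w ∈ d'.divisors, kap R d u * kap R d' w * X u w =
        kap R d u * X u d' + ∑ w ∈ d'.divisors.erase d', kap R d u * kap R d' w * X u w := by
      intro u
      rw [← add_sum_erase _ _ hmem', hk R d' hRd', mul_one]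
    simp_rw [hin]
    rw [← add_sum_erase _ _ hmem, hk R d hRd, sum_add_distrib]
    simp only [one_mul]
    ring
  have e1 : |∑ w ∈ d'.divisors.erase d', kap R d' w * X d w| ≤ (d : ℝ) / N * A' := by
    refine (abs_sum_le_sum_abs _ _).trans ?_
    rw [hAdef', mul_sum]
    refine sum_le_sum fun w hw => ?_
    rw [abs_mul]
    calc |kap R d' w| * |X d w| ≤ |kap R d' w| * ((d : ℝ) * w / N) :=
          mul_le_mul_of_nonneg_left (Wcr_X h2 a b hN hd1 (hpos hw)) (abs_nonneg _)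
      _ = (d : ℝ) / N * (|kap R d' w| * (w : ℝ)) := by ring
  have e2 : |∑ u ∈ d.divisors.erase d, kap R d u * X u d'| ≤ (d' : ℝ) / N * A := by
    refine (abs_sum_le_sum_abs _ _).trans ?_
    rw [hAdef, mul_sum]
    refine sum_le_sum fun u hu => ?_
    rw [abs_mul]
    calc |kap R d u| * |X u d'| ≤ |kap R d u| * ((u : ℝ) * d' / N) :=
          mul_le_mul_of_nonneg_left (Wcr_X h2 a b hN (hpos hu) hd1') (abs_nonneg _)
      _ = (d' : ℝ) / N * (|kap R d u| * (u : ℝ)) := by ring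
  have e3 : |∑ u ∈ d.divisors.erase d, ∑ w ∈ d'.divisors.erase d', kap R d u * kap R d' w * X u w| ≤
      1 / (N : ℝ) * (A * A') := by
    refine (abs_sum_le_sum_abs _ _).trans ?_
    rw [hAdef, hAdef', sum_mul_sum, mul_sum]
    refine sum_le_sum fun u hu => ?_
    refine (abs_sum_le_sum_abs _ _).trans ?_
    rw [mul_sum]
    refine sum_le_sum fun w hw => ?_
    rw [abs_mul, abs_mul]
    calc |kap R d u| * |kap R d' w| * |X u w| ≤ |kap R d u| * |kap R d' w| * ((u : ℝ) * w / N) :=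
          mul_le_mul_of_nonneg_left (Wcr_X h2 a b hN (hpos hu) (hpos hw)) (by positivity)
      _ = 1 / (N : ℝ) * (|kap R d u| * (u : ℝ) * (|kap R d' w| * (w : ℝ))) := by ring
  have hdd : (d : ℝ) ≤ 2 * d' := by exact_mod_cast (by omega : d ≤ 2 * d')
  have hdd' : (d' : ℝ) ≤ 2 * d := by exact_mod_cast (by omega : d' ≤ 2 * d)
  have hR0 : (0 : ℝ) < R := by exact_mod_cast hR
  have hRd1 : (R : ℝ) ≤ d := by exact_mod_cast hRd.le
  have hRd1' : (R : ℝ) ≤ d' := by exact_mod_cast hRd'.le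
  have f1 : (d : ℝ) / N * A' ≤ 2 * (R : ℝ) ^ 2 / N * τ' ^ 2 := by
    calc (d : ℝ) / N * A' ≤ (d : ℝ) / N * (τ' ^ 2 * (R : ℝ) ^ 2 / d') := by gcongr
      _ = ((d : ℝ) / d') * ((R : ℝ) ^ 2 / N * τ' ^ 2) := by ring
      _ ≤ 2 * ((R : ℝ) ^ 2 / N * τ' ^ 2) := by
          apply mul_le_mul_of_nonneg_right _ (by positivity)
          rw [div_le_iff₀ hd0']
          exact hdd
      _ = 2 * (R : ℝ) ^ 2 / N * τ' ^ 2 := by ring
  have f2 : (d' : ℝ) / N * A ≤ 2 * (R : ℝ) ^ 2 / N * τ ^ 2 := by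
    calc (d' : ℝ) / N * A ≤ (d' : ℝ) / N * (τ ^ 2 * (R : ℝ) ^ 2 / d) := by gcongr
      _ = ((d' : ℝ) / d) * ((R : ℝ) ^ 2 / N * τ ^ 2) := by ring
      _ ≤ 2 * ((R : ℝ) ^ 2 / N * τ ^ 2) := by
          apply mul_le_mul_of_nonneg_right _ (by positivity)
          rw [div_le_iff₀ hd0]
          exact hdd'
      _ = 2 * (R : ℝ) ^ 2 / N * τ ^ 2 := by ring
  have f3 : 1 / (N : ℝ) * (A * A') ≤ (R : ℝ) ^ 2 / N * (τ ^ 2 * τ' ^ 2) := by
    calc 1 / (N : ℝ) * (A * A') ≤ 1 / (N : ℝ) * ((τ ^ 2 * (R : ℝ) ^ 2 / d) * (τ' ^ 2 * (R : ℝ) ^ 2 / d')) := by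
          gcongr
      _ = ((R : ℝ) ^ 2 / N * (τ ^ 2 * τ' ^ 2)) * (((R : ℝ) / d) * ((R : ℝ) / d')) := by ring
      _ ≤ ((R : ℝ) ^ 2 / N * (τ ^ 2 * τ' ^ 2)) * 1 := by
          apply mul_le_mul_of_nonneg_left _ (by positivity)
          have g1 : (R : ℝ) / d ≤ 1 := by rw [div_le_one hd0]; exact hRd1
          have g2 : (R : ℝ) / d' ≤ 1 := by rw [div_le_one hd0']; exact hRd1'
          have g3 : (0 : ℝ) ≤ (R : ℝ) / d' := by positivity
          nlinarith [mul_le_mul_of_nonneg_right g1 g3]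
      _ = (R : ℝ) ^ 2 / N * (τ ^ 2 * τ' ^ 2) := by ring
  have hsq : 1 ≤ τ ^ 2 := by nlinarith
  have hsq' : 1 ≤ τ' ^ 2 := by nlinarith
  have g1 : τ' ^ 2 ≤ τ ^ 2 * τ' ^ 2 := by nlinarith
  have g2 : τ ^ 2 ≤ τ ^ 2 * τ' ^ 2 := by nlinarith
  have hK : 0 ≤ (R : ℝ) ^ 2 / N := by positivity
  have h7 : 2 * (R : ℝ) ^ 2 / N * τ' ^ 2 ≤ 2 * (R : ℝ) ^ 2 / N * (τ ^ 2 * τ' ^ 2) := by
    apply mul_le_mul_of_nonneg_left g1 (by positivity)
  have h8 : 2 * (R : ℝ) ^ 2 / N * τ ^ 2 ≤ 2 * (R : ℝ) ^ 2 / N * (τ ^ 2 * τ' ^ 2) := by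
    apply mul_le_mul_of_nonneg_left g2 (by positivity)
  change |∑ u ∈ d.divisors, ∑ w ∈ d'.divisors, kap R d u * kap R d' w * X u w - X d d'| ≤ _
  rw [hsplit]
  calc |(∑ w ∈ d'.divisors.erase d', kap R d' w * X d w) +
        (∑ u ∈ d.divisors.erase d, kap R d u * X u d') +
        ∑ u ∈ d.divisors.erase d, ∑ w ∈ d'.divisors.erase d', kap R d u * kap R d' w * X u w|
      ≤ |∑ w ∈ d'.divisors.erase d', kap R d' w * X d w| +
        |∑ u ∈ d.divisors.erase d, kap R d u * X u d'| +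
        |∑ u ∈ d.divisors.erase d, ∑ w ∈ d'.divisors.erase d', kap R d u * kap R d' w * X u w| := by
        refine (abs_add_le _ _).trans ?_
        gcongr
        exact abs_add_le _ _
    _ ≤ 2 * (R : ℝ) ^ 2 / N * (τ ^ 2 * τ' ^ 2) + 2 * (R : ℝ) ^ 2 / N * (τ ^ 2 * τ' ^ 2) +
        (R : ℝ) ^ 2 / N * (τ ^ 2 * τ' ^ 2) := by linarith
    _ = 5 * (R : ℝ) ^ 2 / N * (τ ^ 2 * τ' ^ 2) := by ring

end Pool.Agent.Lib.TN
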