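import Pool.Agent.Lib.TN.SpecM

/-!
MP_00e23e_nt, directory Lib/TN, module Wof: small N and conclusion of the off-diagonal estimate.
-/

namespace Pool.Agent.Lib.TN

open Finset Pool.Agent.Lib.EH3 Pool.Agent.Lib.TB

private lemma Wof_RN_pos (δ ε : ℝ) (h : 0 ≤ 1 / 2 - δ - ε) (N : ℕ) (hN : 1 ≤ N) : 1 ≤ RN δ ε N := by
  unfold RN
  apply Nat.le_floor
  rw [Nat.cast_one]
  exact Real.one_le_rpow (by exact_mod_cast hN) h

private lemma Wof_RN_le (δ ε : ℝ) (h : 1 / 2 - δ - ε ≤ 1) (N : ℕ) (hN : 1 ≤ N) : (RN δ ε N : ℝ) ≤ N := by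
  unfold RN
  have h1 : (1 : ℝ) ≤ N := by exact_mod_cast hN
  refine (Nat.floor_le (Real.rpow_nonneg (by linarith) _)).trans ?_
  calc (N : ℝ) ^ ((1 : ℝ) / 2 - δ - ε) ≤ (N : ℝ) ^ (1 : ℝ) :=
        Real.rpow_le_rpow_of_exponent_le h1 h
    _ = N := Real.rpow_one _

private lemma Wof_FF (h1 : Pool.Agent.Lib.TB.MabStmt) (N R Q K : ℕ) (c : ℕ → ℝ) (m : ℤ) (hN : 1 ≤ N)
    (hR : 1 ≤ R) (hRN : (R : ℝ) ≤ N)
    (hc : ∀ d, |c d| ≤ 1) (hm : |m| ≤ (K : ℤ)) :
    |FF R Q c m| ≤ (K : ℝ) * (4 + 3 * N) := by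
  have hN1 : (1 : ℝ) ≤ N := by exact_mod_cast hN
  unfold FF
  by_cases h0 : m = 0
  · rw [if_pos h0, abs_zero]
    positivity
  · rw [if_neg h0]
    have hR1 : (1 : ℝ) ≤ R := by exact_mod_cast hR
    have h2 : |∑ d ∈ Ioc Q (2 * Q), c d * dd R d m| ≤
        ∑ d ∈ Ioc Q (2 * Q), |dd R d m| := by
      refine (Finset.abs_sum_le_sum_abs _ _).trans (Finset.sum_le_sum fun d _ => ?_)
      rw [abs_mul]
      calc |c d| * |dd R d m| ≤ 1 * |dd R d m| :=
            mul_le_mul_of_nonneg_right (hc d) (abs_nonneg _)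
        _ = |dd R d m| := one_mul _
    have h3 := h1.1 R Q m hR h0
    have h4 : (m.natAbs.divisors.card : ℝ) ≤ K := by
      have h5 : m.natAbs.divisors.card ≤ m.natAbs := Nat.card_divisors_le_self _
      have h6 : m.natAbs ≤ K := by
        have : (m.natAbs : ℤ) ≤ (K : ℤ) := by rw [Int.natCast_natAbs]; exact hm
        exact_mod_cast this
      exact_mod_cast h5.trans h6
    have h7 : Real.log R ≤ N := by
      have h8 := Real.log_le_sub_one_of_pos (show (0 : ℝ) < R by linarith)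
      linarith
    have h10 : 0 ≤ Real.log R := Real.log_nonneg hR1
    refine (h2.trans h3).trans ?_
    exact mul_le_mul h4 (by linarith) (by linarith) (by positivity)

theorem tWof (h1 : Pool.Agent.Lib.TB.MabStmt) (h2 : WtStmt) (h3 : WbgStmt) : OffNStmt := by
  intro δ ε hδ hε hδε
  obtain ⟨j, C, η, κ, N0, hη, hκ, _, hB⟩ := h3 δ ε hδ hε hδε
  set B : ℝ := ((j + 2) * N0 : ℕ) * (4 + 3 * (N0 : ℝ)) with hBdef
  set C1 : ℝ := (2 * ((j + 1) * N0 : ℕ) + 1) * (B * B) with hC1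
  refine ⟨j, max (max C 0) C1, min η 1, κ, lt_min hη one_pos, hκ, ?_⟩
  intro N Q L1 L2 c c' a b hN hQ1 hQ2 hL1 hL2 hc hc' hcc hcc' hab ha hb
  have hN1 : (1 : ℝ) ≤ N := by exact_mod_cast hN
  have hC0 : 0 ≤ max (max C 0) C1 := (le_max_right C 0).trans (le_max_left _ _)
  by_cases hcase : N0 ≤ N
  · have h3 := hB N Q L1 L2 c c' a b hcase hN hQ1 hQ2 hL1 hL2 hc hc' hcc hcc' hab ha hb
    refine h3.trans ?_
    have h4 : (N : ℝ) ^ (1 - η) ≤ (N : ℝ) ^ (1 - min η 1) :=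
      Real.rpow_le_rpow_of_exponent_le hN1 (by linarith [min_le_left η 1])
    have h5 : 0 ≤ (N : ℝ) ^ (1 - η) := Real.rpow_nonneg (by linarith) _
    calc C * (N : ℝ) ^ (1 - η) ≤ max (max C 0) C1 * (N : ℝ) ^ (1 - η) :=
          mul_le_mul_of_nonneg_right ((le_max_left C 0).trans (le_max_left _ _)) h5
      _ ≤ max (max C 0) C1 * (N : ℝ) ^ (1 - min η 1) := mul_le_mul_of_nonneg_left h4 hC0
  · push Not at hcase
    have hNN0 : (N : ℝ) ≤ N0 := by exact_mod_cast hcase.le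
    have hN00 : (0 : ℝ) ≤ N0 := Nat.cast_nonneg _
    have hjN : (j + 2) * N ≤ (j + 2) * N0 := Nat.mul_le_mul_left _ hcase.le
    have hjN1 : (j + 1) * N ≤ (j + 1) * N0 := Nat.mul_le_mul_left _ hcase.le
    have hFB : ∀ (c : ℕ → ℝ) (m : ℤ), (∀ d, |c d| ≤ 1) → |m| ≤ (((j + 2) * N : ℕ) : ℤ) →
        |FF (RN δ ε N) Q c m| ≤ B := by
      intro c m hc hm
      refine (Wof_FF h1 N (RN δ ε N) Q ((j + 2) * N) c m hN
        (Wof_RN_pos δ ε (by linarith) N hN) (Wof_RN_le δ ε (by linarith) N hN) hc hm).trans ?_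
      rw [hBdef]
      have h6 : (((j + 2) * N : ℕ) : ℝ) ≤ (((j + 2) * N0 : ℕ) : ℝ) := by exact_mod_cast hjN
      exact mul_le_mul h6 (by linarith) (by positivity) (by positivity)
    have hB0 : 0 ≤ B := by rw [hBdef]; positivity
    have hsum : |∑ n ∈ Icc (-(((j + 1) * N : ℕ) : ℤ)) ((j + 1) * N : ℕ), wt N j n *
        (FF (RN δ ε N) Q c (n - a) * FF (RN δ ε N) Q c' (n - b))| ≤
        ∑ n ∈ Icc (-(((j + 1) * N : ℕ) : ℤ)) (((j + 1) * N : ℕ) : ℤ), B * B := by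
      refine (Finset.abs_sum_le_sum_abs _ _).trans (Finset.sum_le_sum fun n hn => ?_)
      obtain ⟨hn1, hn2⟩ := Finset.mem_Icc.1 hn
      rw [abs_mul, abs_mul]
      have hn3 : |n| ≤ (((j + 1) * N : ℕ) : ℤ) := abs_le.2 ⟨hn1, hn2⟩
      have e1 : (((j + 2) * N : ℕ) : ℤ) = (((j + 1) * N : ℕ) : ℤ) + N := by push_cast; ring
      have h6 : |FF (RN δ ε N) Q c (n - a)| ≤ B := by
        apply hFB c _ hc
        have := abs_sub n a
        rw [e1]
        linarith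
      have h7 : |FF (RN δ ε N) Q c' (n - b)| ≤ B := by
        apply hFB c' _ hc'
        have := abs_sub n b
        rw [e1]
        linarith
      obtain ⟨w0, w1⟩ := h2.1 N j n hN
      calc |wt N j n| * (|FF (RN δ ε N) Q c (n - a)| * |FF (RN δ ε N) Q c' (n - b)|) ≤ 1 * (B * B) :=
            mul_le_mul (by rw [abs_of_nonneg w0]; exact w1) (mul_le_mul h6 h7 (abs_nonneg _) hB0)
              (mul_nonneg (abs_nonneg _) (abs_nonneg _)) zero_le_one
        _ = B * B := one_mul _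
    have hcard : ∑ n ∈ Icc (-(((j + 1) * N : ℕ) : ℤ)) (((j + 1) * N : ℕ) : ℤ), B * B =
        (2 * (((j + 1) * N : ℕ) : ℝ) + 1) * (B * B) := by
      rw [Finset.sum_const, Int.card_Icc, nsmul_eq_mul]
      congr 1
      have : ((((j + 1) * N : ℕ) : ℤ) + 1 - -(((j + 1) * N : ℕ) : ℤ)).toNat = 2 * ((j + 1) * N) + 1 := by omega
      rw [this]
      push_cast
      ring
    rw [hcard] at hsum
    have h8 : (2 * (((j + 1) * N : ℕ) : ℝ) + 1) * (B * B) ≤ C1 := by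
      rw [hC1]
      have h9 : (((j + 1) * N : ℕ) : ℝ) ≤ (((j + 1) * N0 : ℕ) : ℝ) := by exact_mod_cast hjN1
      exact mul_le_mul_of_nonneg_right (by linarith) (mul_nonneg hB0 hB0)
    have h9 : (1 : ℝ) ≤ (N : ℝ) ^ (1 - min η 1) :=
      Real.one_le_rpow hN1 (by linarith [min_le_right η 1])
    calc _ ≤ C1 := hsum.trans h8
      _ ≤ max (max C 0) C1 := le_max_right _ _
      _ = max (max C 0) C1 * 1 := (mul_one _).symm
      _ ≤ max (max C 0) C1 * (N : ℝ) ^ (1 - min η 1) := mul_le_mul_of_nonneg_left h9 hC0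

end Pool.Agent.Lib.TN
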