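import Pool.Agent.Lib.TN.SpecM

/-!
The weight `wt`.
-/

namespace Pool.Agent.Lib.TN

open Finset Pool.Agent.Lib.EH3 Pool.Agent.Lib.TB

private lemma Wt_tri_nonneg (N : ℕ) (n : ℤ) : 0 ≤ tri N n := le_max_left _ _

private lemma Wt_tri_le (N : ℕ) (n : ℤ) : tri N n ≤ 1 := by
  refine max_le zero_le_one ?_
  have : 0 ≤ |(n : ℝ)| / (N : ℝ) := by positivity
  linarith

private lemma Wt_tri_zero {N : ℕ} (hN : 1 ≤ N) {n : ℤ} (h : (N : ℤ) ≤ |n|) : tri N n = 0 := by
  have hN0 : (0 : ℝ) < N := by exact_mod_cast hN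
  have h1 : (1 : ℝ) ≤ |(n : ℝ)| / (N : ℝ) := by
    rw [le_div_iff₀ hN0, one_mul]
    exact_mod_cast h
  exact max_eq_left (by linarith)

private lemma Wt_tri_half {N : ℕ} (hN : 1 ≤ N) {n : ℤ} (h : 2 * |n| ≤ (N : ℤ)) : (1 : ℝ) / 2 ≤ tri N n := by
  have hN0 : (0 : ℝ) < N := by exact_mod_cast hN
  have h0 : (2 : ℝ) * |(n : ℝ)| ≤ (N : ℝ) := by exact_mod_cast h
  have h1 : |(n : ℝ)| / (N : ℝ) ≤ 1 / 2 := by
    rw [div_le_iff₀ hN0]
    linarith
  exact le_trans (by linarith) (le_max_right _ _)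

private lemma Wt_GG_zero (N : ℕ) : GG N 0 = (N : ℂ) := by
  unfold GG
  rw [sum_congr rfl (g := fun _ => (1 : ℂ)) (fun k _ => by rw [mul_zero, ee_zero]), sum_const,
    card_range, nsmul_eq_mul, mul_one]

private lemma Wt_sum_tri (h1 : MftStmt) (N : ℕ) (hN : 1 ≤ N) :
    ∑ m ∈ Icc (-(N : ℤ)) N, tri N m = (N : ℝ) := by
  have h := h1 N 0 hN
  have hN0 : (N : ℝ) ≠ 0 := by
    have : 0 < (N : ℝ) := by exact_mod_cast hN
    exact this.ne'
  rw [Wt_GG_zero] at h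
  have h2 : ∑ n ∈ Icc (-(N : ℤ)) N, ((tri N n : ℝ) : ℂ) * ee ((n : ℝ) * 0) =
      ((∑ m ∈ Icc (-(N : ℤ)) N, tri N m : ℝ) : ℂ) := by
    rw [Complex.ofReal_sum]
    refine sum_congr rfl fun n _ => ?_
    rw [mul_zero, ee_zero, mul_one]
  rw [h2] at h
  have h3 := Complex.ofReal_injective h
  rw [h3, Complex.norm_natCast]
  field_simp

private lemma Wt_succ (N j : ℕ) (n : ℤ) :
    wt N (j + 1) n = (1 / (N : ℝ)) * ∑ m ∈ Icc (-(N : ℤ)) N, tri N m * wt N j (n - m) := rfl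

private lemma Wt_nonneg (N j : ℕ) (n : ℤ) : 0 ≤ wt N j n := by
  induction j generalizing n with
  | zero => exact Wt_tri_nonneg N n
  | succ j ih =>
    rw [Wt_succ]
    exact mul_nonneg (by positivity) (sum_nonneg fun m _ => mul_nonneg (Wt_tri_nonneg N m) (ih _))

private lemma Wt_le_one (h1 : MftStmt) (N j : ℕ) (n : ℤ) (hN : 1 ≤ N) : wt N j n ≤ 1 := by
  have hN0 : (0 : ℝ) < N := by exact_mod_cast hN
  induction j generalizing n with
  | zero => exact Wt_tri_le N n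
  | succ j ih =>
    rw [Wt_succ]
    have h2 : ∑ m ∈ Icc (-(N : ℤ)) N, tri N m * wt N j (n - m) ≤ N := by
      rw [← Wt_sum_tri h1 N hN]
      exact sum_le_sum fun m _ => mul_le_of_le_one_right (Wt_tri_nonneg N m) (ih _)
    calc (1 / (N : ℝ)) * ∑ m ∈ Icc (-(N : ℤ)) N, tri N m * wt N j (n - m) ≤ (1 / (N : ℝ)) * N :=
          mul_le_mul_of_nonneg_left h2 (by positivity)
      _ = 1 := by field_simp

private lemma Wt_supp (N j : ℕ) (n : ℤ) (hN : 1 ≤ N) (hn : n ∉ rn N j) : wt N j n = 0 := by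
  induction j generalizing n with
  | zero =>
    refine Wt_tri_zero hN ?_
    rw [mem_Icc, not_and_or, not_le, not_le] at hn
    push_cast at hn
    rcases hn with h | h
    · rw [abs_of_neg (by omega)]
      omega
    · rw [abs_of_pos (by omega)]
      omega
  | succ j ih =>
    rw [Wt_succ]
    rw [sum_eq_zero, mul_zero]
    intro m hm
    rw [mem_Icc] at hm
    rw [ih (n - m), mul_zero]
    intro hmem
    apply hn
    rw [mem_Icc] at hmem ⊢
    push_cast at hmem ⊢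
    constructor
    · nlinarith [hmem.1, hm.1, hm.2]
    · nlinarith [hmem.2, hm.1, hm.2]

private lemma Wt_shift (N j : ℕ) (t : ℝ) (hN : 1 ≤ N) (m : ℤ) (hm : m ∈ Icc (-(N : ℤ)) N) :
    ∑ n ∈ rn N (j + 1), ((wt N j (n - m) : ℝ) : ℂ) * ee (((n - m : ℤ) : ℝ) * t) =
      ∑ k ∈ rn N j, ((wt N j k : ℝ) : ℂ) * ee ((k : ℝ) * t) := by
  rw [mem_Icc] at hm
  have e : ∑ n ∈ rn N (j + 1), ((wt N j (n - m) : ℝ) : ℂ) * ee (((n - m : ℤ) : ℝ) * t) =
      ∑ k ∈ (rn N (j + 1)).image (fun n => n - m), ((wt N j k : ℝ) : ℂ) * ee ((k : ℝ) * t) := by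
    rw [sum_image]
    intro a _ b _ hab
    have : a - m = b - m := hab
    omega
  rw [e]
  symm
  refine sum_subset ?_ ?_
  · intro k hk
    rw [mem_image]
    refine ⟨k + m, ?_, by ring⟩
    rw [mem_Icc] at hk ⊢
    push_cast at hk ⊢
    constructor
    · nlinarith [hk.1, hm.1, hm.2]
    · nlinarith [hk.2, hm.1, hm.2]
  · intro k _ hk
    rw [Wt_supp N j k hN hk, Complex.ofReal_zero, zero_mul]

private lemma Wt_fourier (h1 : MftStmt) (N j : ℕ) (t : ℝ) (hN : 1 ≤ N) :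
    ∑ n ∈ rn N j, ((wt N j n : ℝ) : ℂ) * ee ((n : ℝ) * t) =
      ((‖GG N t‖ ^ (2 * j + 2) / (N : ℝ) ^ (2 * j + 1) : ℝ) : ℂ) := by
  have hN0 : (0 : ℝ) < N := by exact_mod_cast hN
  induction j with
  | zero =>
    have h := h1 N t hN
    have e : rn N 0 = Icc (-(N : ℤ)) N := by
      unfold rn
      rw [zero_add, one_mul]
    rw [e]
    have h2 : ∀ n : ℤ, wt N 0 n = tri N n := fun n => rfl
    rw [sum_congr rfl (fun n _ => by rw [h2]), h]
    congr 1
    rw [mul_zero, zero_add, zero_add, pow_one]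
    ring
  | succ j ih =>
    have e1 : ∀ n ∈ rn N (j + 1), ((wt N (j + 1) n : ℝ) : ℂ) * ee ((n : ℝ) * t) =
        ∑ m ∈ Icc (-(N : ℤ)) N, (1 / (N : ℂ)) * (((tri N m : ℝ) : ℂ) * ee ((m : ℝ) * t)) *
          (((wt N j (n - m) : ℝ) : ℂ) * ee (((n - m : ℤ) : ℝ) * t)) := by
      intro n _
      rw [Wt_succ, Complex.ofReal_mul, Complex.ofReal_sum, mul_sum, sum_mul]
      refine sum_congr rfl fun m _ => ?_
      have e2 : ee ((n : ℝ) * t) = ee ((m : ℝ) * t) * ee (((n - m : ℤ) : ℝ) * t) := by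
        rw [← ee_add]
        congr 1
        push_cast
        ring
      rw [e2]
      push_cast
      ring
    rw [sum_congr rfl e1, sum_comm]
    rw [sum_congr rfl (fun m hm => by rw [← mul_sum, Wt_shift N j t hN m hm, ih])]
    rw [← sum_mul, ← mul_sum, h1 N t hN]
    push_cast
    have hNC : (N : ℂ) ≠ 0 := by
      have : (N : ℝ) ≠ 0 := hN0.ne'
      exact_mod_cast this
    have e3 : 2 * (j + 1) + 2 = (2 * j + 2) + 2 := by ring
    have e4 : 2 * (j + 1) + 1 = (2 * j + 1) + 2 := by ring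
    rw [e3, e4, pow_add (‖GG N t‖ : ℂ) (2 * j + 2) 2, pow_add (N : ℂ) (2 * j + 1) 2]
    field_simp

private lemma Wt_card (N : ℕ) : (N : ℝ) / 2 ≤ ((Icc (0 : ℤ) ((N : ℤ) / 2)).card : ℝ) := by
  have h : (N : ℤ) ≤ 2 * ((Icc (0 : ℤ) ((N : ℤ) / 2)).card : ℤ) := by
    rw [Int.card_Icc]
    omega
  have h2 : (N : ℝ) ≤ 2 * ((Icc (0 : ℤ) ((N : ℤ) / 2)).card : ℝ) := by exact_mod_cast h
  linarith

private lemma Wt_lower (N j : ℕ) (n : ℤ) (hN : 1 ≤ N) (hn : 2 * |n| ≤ N) :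
    ((1 : ℝ) / 4) ^ (j + 1) ≤ wt N j n := by
  have hN0 : (0 : ℝ) < N := by exact_mod_cast hN
  induction j generalizing n with
  | zero =>
    rw [zero_add, pow_one]
    exact le_trans (by norm_num) (Wt_tri_half hN hn)
  | succ j ih =>
    -- a set of good shifts
    obtain ⟨s, hs⟩ : ∃ s : ℤ, (s = 1 ∨ s = -1) ∧ 0 ≤ s * n := by
      rcases le_total 0 n with h | h
      · exact ⟨1, Or.inl rfl, by omega⟩
      · exact ⟨-1, Or.inr rfl, by omega⟩
    let T : Finset ℤ := (Icc (0 : ℤ) ((N : ℤ) / 2)).image (fun m => s * m)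
    have hTcard : (N : ℝ) / 2 ≤ (T.card : ℝ) := by
      have : T.card = (Icc (0 : ℤ) ((N : ℤ) / 2)).card := by
        refine card_image_of_injective _ fun a b hab => ?_
        have hab' : s * a = s * b := hab
        rcases hs.1 with h | h <;> rw [h] at hab' <;> omega
      rw [this]
      exact Wt_card N
    have hT : ∀ m ∈ T, 2 * |m| ≤ (N : ℤ) ∧ 2 * |n - m| ≤ (N : ℤ) := by
      intro m hm
      rw [mem_image] at hm
      obtain ⟨k, hk, rfl⟩ := hm
      rw [mem_Icc] at hk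
      have hk2 : 2 * k ≤ N := by omega
      obtain ⟨hs1, hs2⟩ := hs
      have hn1 := abs_le.1 (show |n| ≤ (N : ℤ) / 2 by omega)
      rcases hs1 with h | h
      · subst h
        constructor
        · rw [abs_of_nonneg (by omega)]
          omega
        · have : |n - 1 * k| ≤ (N : ℤ) / 2 := abs_le.2 ⟨by omega, by omega⟩
          omega
      · subst h
        constructor
        · rw [abs_of_nonpos (by omega)]
          omega
        · have : |n - -1 * k| ≤ (N : ℤ) / 2 := abs_le.2 ⟨by omega, by omega⟩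
          omega
    have hTsub : T ⊆ Icc (-(N : ℤ)) N := by
      intro m hm
      have h2 := (hT m hm).1
      have h3 := abs_le.1 (show |m| ≤ (N : ℤ) by
        have := abs_nonneg m
        omega)
      rw [mem_Icc]
      exact h3
    rw [Wt_succ]
    have h3 : ∑ m ∈ T, (1 / 2 : ℝ) * ((1 : ℝ) / 4) ^ (j + 1) ≤
        ∑ m ∈ Icc (-(N : ℤ)) N, tri N m * wt N j (n - m) := by
      refine le_trans (sum_le_sum fun m hm => ?_) (sum_le_sum_of_subset_of_nonneg hTsub fun m _ _ =>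
        mul_nonneg (Wt_tri_nonneg N m) (Wt_nonneg N j _))
      exact mul_le_mul (Wt_tri_half hN (hT m hm).1) (ih _ (hT m hm).2) (by positivity)
        (Wt_tri_nonneg N m)
    rw [sum_const, nsmul_eq_mul] at h3
    have h4 : (N : ℝ) / 2 * ((1 / 2 : ℝ) * ((1 : ℝ) / 4) ^ (j + 1)) ≤
        ∑ m ∈ Icc (-(N : ℤ)) N, tri N m * wt N j (n - m) :=
      le_trans (mul_le_mul_of_nonneg_right hTcard (by positivity)) h3
    calc ((1 : ℝ) / 4) ^ (j + 1 + 1) =
          (1 / (N : ℝ)) * ((N : ℝ) / 2 * ((1 / 2 : ℝ) * ((1 : ℝ) / 4) ^ (j + 1))) := by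
          rw [pow_succ]
          field_simp
          norm_num
      _ ≤ _ := mul_le_mul_of_nonneg_left h4 (by positivity)

theorem tWt (h1 : Pool.Agent.Lib.TB.MftStmt) : WtStmt :=
  ⟨fun N j n hN => ⟨Wt_nonneg N j n, Wt_le_one h1 N j n hN⟩, fun N j n hN hn => Wt_supp N j n hN hn,
    fun N j t hN => Wt_fourier h1 N j t hN, fun N j n hN hn => Wt_lower N j n hN hn⟩

end Pool.Agent.Lib.TN
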